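import Mathlib

/-! Asymptotic comparisons used by the modules. -/

namespace Pool.Agent.Lib.MP_185394_co.Up.Asymp

open Filter

/-- for `a < b`, `C n ^ a ≤ n ^ b` eventually -/
lemma mul_rpow_le (C : ℝ) {a b : ℝ} (h : a < b) :
    ∀ᶠ n : ℕ in atTop, C * (n : ℝ) ^ a ≤ (n : ℝ) ^ b := by
  have h1 : Tendsto (fun n : ℕ => (n : ℝ) ^ (b - a)) atTop atTop :=
    (tendsto_rpow_atTop (by linarith)).comp tendsto_natCast_atTop_atTop
  filter_upwards [h1.eventually_ge_atTop C, eventually_ge_atTop 1] with n hn h1n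
  have hpos : (0 : ℝ) < n := by exact_mod_cast h1n
  calc C * (n : ℝ) ^ a ≤ (n : ℝ) ^ (b - a) * (n : ℝ) ^ a :=
        mul_le_mul_of_nonneg_right hn (Real.rpow_nonneg hpos.le _)
    _ = (n : ℝ) ^ b := by rw [← Real.rpow_add hpos]; congr 1; ring

/-- `C (log n) ^ k ≤ n ^ a` eventually, `a > 0` -/
lemma mul_log_pow_le (C : ℝ) (k : ℕ) {a : ℝ} (ha : 0 < a) :
    ∀ᶠ n : ℕ in atTop, C * Real.log n ^ k ≤ (n : ℝ) ^ a := by
  have h := (isLittleO_log_rpow_rpow_atTop (k : ℝ) ha).comp_tendsto tendsto_natCast_atTop_atTop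
  have h2 := h.bound (show (0 : ℝ) < 1 / (|C| + 1) by positivity)
  filter_upwards [h2, eventually_ge_atTop 1] with n hn h1n
  have hpos : (0 : ℝ) < n := by exact_mod_cast h1n
  have hlog : 0 ≤ Real.log n := Real.log_natCast_nonneg n
  simp only [Function.comp_apply, Real.rpow_natCast, Real.norm_eq_abs] at hn
  rw [abs_of_nonneg (pow_nonneg hlog k), abs_of_nonneg (Real.rpow_nonneg hpos.le a)] at hn
  have h3 : C * Real.log n ^ k ≤ (|C| + 1) * Real.log n ^ k :=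
    mul_le_mul_of_nonneg_right (by linarith [le_abs_self C]) (pow_nonneg hlog k)
  have h4 : (|C| + 1) * Real.log n ^ k ≤ (|C| + 1) * (1 / (|C| + 1) * (n : ℝ) ^ a) :=
    mul_le_mul_of_nonneg_left hn (by positivity)
  have h5 : (|C| + 1) * (1 / (|C| + 1) * (n : ℝ) ^ a) = (n : ℝ) ^ a := by
    field_simp
  linarith

/-- `C (log n) ^ k n ^ a ≤ n ^ b` eventually, `a < b` -/
lemma mul_log_pow_mul_rpow_le (C : ℝ) (k : ℕ) {a b : ℝ} (h : a < b) :
    ∀ᶠ n : ℕ in atTop, C * Real.log n ^ k * (n : ℝ) ^ a ≤ (n : ℝ) ^ b := by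
  filter_upwards [mul_log_pow_le C k (show 0 < b - a by linarith), eventually_ge_atTop 1]
    with n hn h1n
  have hpos : (0 : ℝ) < n := by exact_mod_cast h1n
  calc C * Real.log n ^ k * (n : ℝ) ^ a ≤ (n : ℝ) ^ (b - a) * (n : ℝ) ^ a :=
        mul_le_mul_of_nonneg_right hn (Real.rpow_nonneg hpos.le _)
    _ = (n : ℝ) ^ b := by rw [← Real.rpow_add hpos]; congr 1; ring

/-- `log n` is eventually as large as we like -/
lemma log_ge (C : ℝ) : ∀ᶠ n : ℕ in atTop, C ≤ Real.log n :=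
  (Real.tendsto_log_atTop.comp tendsto_natCast_atTop_atTop).eventually_ge_atTop C

/-- `C log n ≤ (log n) ^ 2` eventually -/
lemma mul_log_le_log_sq (C : ℝ) : ∀ᶠ n : ℕ in atTop, C * Real.log n ≤ Real.log n ^ 2 := by
  filter_upwards [log_ge C] with n hn
  have hlog : 0 ≤ Real.log n := Real.log_natCast_nonneg n
  nlinarith

/-- a constant is eventually at most `n ^ a`, `a > 0` -/
lemma const_le_rpow (C : ℝ) {a : ℝ} (ha : 0 < a) : ∀ᶠ n : ℕ in atTop, C ≤ (n : ℝ) ^ a :=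
  ((tendsto_rpow_atTop ha).comp tendsto_natCast_atTop_atTop).eventually_ge_atTop C

/-- `C n ^ a ≤ c` eventually for `a < 0 < c` -/
lemma mul_rpow_neg_le (C : ℝ) {a c : ℝ} (ha : a < 0) (hc : 0 < c) :
    ∀ᶠ n : ℕ in atTop, C * (n : ℝ) ^ a ≤ c := by
  filter_upwards [mul_rpow_le (C / c) ha, eventually_ge_atTop 1] with n hn h1n
  rw [Real.rpow_zero] at hn
  have : C / c * (n : ℝ) ^ a = C * (n : ℝ) ^ a / c := by ring
  rw [this, div_le_one hc] at hn
  exact hn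

/-- `C (log n) ^ k n ^ a ≤ c` eventually for `a < 0 < c` -/
lemma mul_log_pow_mul_rpow_neg_le (C : ℝ) (k : ℕ) {a c : ℝ} (ha : a < 0) (hc : 0 < c) :
    ∀ᶠ n : ℕ in atTop, C * Real.log n ^ k * (n : ℝ) ^ a ≤ c := by
  filter_upwards [mul_log_pow_mul_rpow_le (C / c) k ha, eventually_ge_atTop 1] with n hn h1n
  rw [Real.rpow_zero] at hn
  have : C / c * Real.log n ^ k * (n : ℝ) ^ a = C * Real.log n ^ k * (n : ℝ) ^ a / c := by ring
  rw [this, div_le_one hc] at hn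
  exact hn

lemma rpow_mono {n : ℕ} (hn : 1 ≤ n) {a b : ℝ} (h : a ≤ b) : (n : ℝ) ^ a ≤ (n : ℝ) ^ b :=
  Real.rpow_le_rpow_of_exponent_le (by exact_mod_cast hn) h

/-- `n ^ k = exp (k log n)` -/
lemma pow_eq_exp {n : ℕ} (hn : 1 ≤ n) (k : ℕ) : (n : ℝ) ^ k = Real.exp (k * Real.log n) := by
  have hpos : (0 : ℝ) < n := by exact_mod_cast hn
  rw [mul_comm, Real.exp_mul, Real.exp_log hpos, Real.rpow_natCast]

end Pool.Agent.Lib.MP_185394_co.Up.Asymp
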