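import Pool.Agent.Lib.MP_185394_co.Up.Interfaces
import Pool.Agent.Lib.MP_185394_co.Up.Asymp

/-! Assembly of the analytic half (module FA). -/

namespace Pool.Agent.Lib.MP_185394_co.Up

open Finset Filter

open scoped Classical

noncomputable section

set_option linter.unusedSectionVars false

variable {n q : ℕ} [NeZero q]

/-- one factor of the Fourier product -/
def fac (p : ℝ) (t : ZMod q) : ℂ := ((1 - p : ℝ) : ℂ) + (p : ℂ) * ph t

/-- the summand of the inversion formula -/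
def FF (N : Net n) (p : Cell n → ℝ) (c : ℕ) (x : Pt n q) : ℂ :=
  (∏ e, fac (p e) (N.y x e)) * ph (-(c • ∑ v, x v))

lemma norm_FF (N : Net n) (p : Cell n → ℝ) (c : ℕ) (x : Pt n q) :
    ‖FF N p c x‖ = ∏ e, ‖fac (p e) (N.y x e)‖ := by
  unfold FF
  rw [norm_mul, norm_ph, mul_one, norm_prod]

lemma fac_eq {p : ℝ} {t : ZMod q} {s : ℝ} (h : ∃ m : ℤ, lift t = s + m) :
    fac p t = ((1 - p : ℝ) : ℂ) + (p : ℂ) * Complex.exp (2 * Real.pi * Complex.I * (s : ℂ)) := by
  unfold fac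
  rw [ph_eq_of_lift h]

lemma norm_fac_le (hF : PhaseStatement) {p : ℝ} (h0 : 0 ≤ p) (h1 : p ≤ 1) (t : ZMod q) :
    ‖fac p t‖ ≤ Real.exp (-(p * (1 - p) * cst t)) := by
  have := (hF p (lift t) h0 h1).1
  rw [fac_eq (s := lift t) ⟨0, by simp⟩]
  exact this

lemma norm_FF_le (hF : PhaseStatement) (N : Net n) (p : Cell n → ℝ) (c : ℕ)
    (hp : ∀ e, 0 ≤ p e ∧ p e ≤ 1) (x : Pt n q) :
    ‖FF N p c x‖ ≤ Real.exp (-N.en (fun e => p e * (1 - p e)) x) := by
  rw [norm_FF, Net.en, ← Finset.sum_neg_distrib, Real.exp_sum]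
  exact Finset.prod_le_prod (fun e _ => norm_nonneg _)
    (fun e _ => norm_fac_le hF (hp e).1 (hp e).2 _)

/-- lower bound for the modulus near the origin -/
lemma norm_FF_ge (hF : PhaseStatement) (N : Net n) (p : Cell n → ℝ) (c : ℕ)
    (hp : ∀ e, 0 ≤ p e ∧ p e ≤ 1) (z : Pt n q) (ρ : ℝ) (hρ : 3 * ρ ≤ 1 / 4)
    (hz : Near ∅ ρ z) :
    Real.exp (-N.en (fun e => p e * (1 - p e)) z - 200 * (n : ℝ) ^ 2 * (3 * ρ) ^ 4) ≤
      ‖FF N p c z‖ := by
  obtain ⟨t, u, ht, hlift, hu⟩ := hz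
  have hA : ∀ e, |N.A u e| ≤ 3 * ρ := by
    intro e
    unfold Net.A
    calc |∑ i, u (N.ln i e)| ≤ ∑ i, |u (N.ln i e)| := Finset.abs_sum_le_sum_abs _ _
      _ ≤ ∑ _i : Fin 3, ρ := Finset.sum_le_sum fun i _ => hu _ (by simp)
      _ = 3 * ρ := by simp
  have hfac : ∀ e, Real.exp (-(p e * (1 - p e) * cst (N.y z e)) - 200 * (3 * ρ) ^ 4) ≤
      ‖fac (p e) (N.y z e)‖ := by
    intro e
    have h1 := lift_y_of N z t u ht hlift e
    have h2 := (hF (p e) (N.A u e) (hp e).1 (hp e).2).2 ((hA e).trans hρ)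
    rw [fac_eq h1, cst_eq_of_lift h1]
    refine le_trans ?_ h2.1
    apply Real.exp_le_exp.mpr
    have h3 : N.A u e ^ 4 ≤ (3 * ρ) ^ 4 := by
      rw [← (show Even 4 by decide).pow_abs]
      exact pow_le_pow_left₀ (abs_nonneg _) (hA e) 4
    linarith
  rw [norm_FF]
  calc Real.exp (-N.en (fun e => p e * (1 - p e)) z - 200 * (n : ℝ) ^ 2 * (3 * ρ) ^ 4)
      = ∏ e : Cell n, Real.exp (-(p e * (1 - p e) * cst (N.y z e)) - 200 * (3 * ρ) ^ 4) := by
        rw [← Real.exp_sum]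
        congr 1
        rw [Finset.sum_sub_distrib, Finset.sum_neg_distrib, Finset.sum_const, Finset.card_univ,
          Fintype.card_prod, Fintype.card_fin, nsmul_eq_mul]
        unfold Net.en
        push_cast
        ring
    _ ≤ _ := Finset.prod_le_prod (fun e _ => Real.exp_nonneg _) fun e _ => hfac e

/-- at a translate of a low point the summand is almost real positive -/
lemma re_FF_ge (hF : PhaseStatement) (N : Net n) (M : Finset (Line n)) (p : Cell n → ℝ) (c : ℕ)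
    (hp : ∀ e, 0 ≤ p e ∧ p e ≤ 1)
    (hline : ∀ v, ∑ e ∈ N.on v, p e = c) (hdead : ∀ e ∈ N.dead M, p e = 0)
    (r z : Pt n q) (σ ρ : ℝ) (hsup : ∀ e ∉ N.dead M, |lift (N.y r e)| ≤ σ)
    (hint : ∃ m : ℤ, c * ∑ v, lift (r v) - ∑ e, p e * lift (N.y r e) = m)
    (hz : Near ∅ ρ z) (hσρ : σ + 3 * ρ ≤ 1 / 4) (hρ : 0 ≤ ρ)
    (hsmall : 400 * (σ * N.Phi M r) + 800 * (∑ e, |1 / 2 - p e|) * (3 * ρ) ^ 3 ≤ 1) :
    1 / 2 * ‖FF N p c (r + z)‖ ≤ (FF N p c (r + z)).re := by
  obtain ⟨t, u, ht, hlift, hu⟩ := hz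
  obtain ⟨m, hm⟩ := hint
  have hA : ∀ e, |N.A u e| ≤ 3 * ρ := by
    intro e
    unfold Net.A
    calc |∑ i, u (N.ln i e)| ≤ ∑ i, |u (N.ln i e)| := Finset.abs_sum_le_sum_abs _ _
      _ ≤ ∑ _i : Fin 3, ρ := Finset.sum_le_sum fun i _ => hu _ (by simp)
      _ = 3 * ρ := by simp
  set s : Cell n → ℝ := fun e => lift (N.y r e) + N.A u e with hs
  have hlx : ∀ e, ∃ m : ℤ, lift (N.y (r + z) e) = s e + m := by
    intro e
    obtain ⟨m1, h1⟩ := lift_y_of N z t u ht hlift e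
    obtain ⟨m2, h2⟩ := lift_add (N.y r e) (N.y z e)
    refine ⟨m1 + m2, ?_⟩
    rw [y_add, h2, h1]
    push_cast
    simp only [hs]; ring
  -- the phases
  have hω : ∀ e, ∃ ω : ℝ, |ω| ≤ (if e ∈ N.dead M then 0 else 100 * |1 - 2 * p e| * |s e| ^ 3) ∧
      fac (p e) (N.y (r + z) e) = (‖fac (p e) (N.y (r + z) e)‖ : ℂ) *
        Complex.exp (Complex.I * ((2 * Real.pi * (p e * s e) + ω : ℝ) : ℂ)) := by
    intro e
    by_cases he : e ∈ N.dead M
    · refine ⟨0, by simp [he], ?_⟩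
      have : fac (p e) (N.y (r + z) e) = 1 := by
        unfold fac
        rw [hdead e he]; simp
      rw [this, hdead e he]
      simp
    · have h1 : |s e| ≤ 1 / 4 := by
        simp only [hs]
        exact (abs_add_le _ _).trans ((add_le_add (hsup e he) (hA e)).trans hσρ)
      obtain ⟨_, ω, hω1, hω2⟩ := (hF (p e) (s e) (hp e).1 (hp e).2).2 h1
      refine ⟨ω, ?_, ?_⟩
      · rw [if_neg he]; exact hω1
      · rw [fac_eq (hlx e)]; exact hω2
  choose ω hω1 hω2 using hω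
  -- the product
  have hprod : ∏ e, fac (p e) (N.y (r + z) e) = (‖FF N p c (r + z)‖ : ℂ) *
      Complex.exp (Complex.I * ((2 * Real.pi * ∑ e, p e * s e + ∑ e, ω e : ℝ) : ℂ)) := by
    rw [norm_FF]
    push_cast
    have h1 : Complex.exp (Complex.I * (2 * Real.pi * ∑ e, (p e : ℂ) * (s e : ℂ) +
        ∑ e, (ω e : ℂ))) =
        ∏ e, Complex.exp (Complex.I * ((2 * Real.pi * (p e * s e) + ω e : ℝ) : ℂ)) := by
      rw [← Complex.exp_sum]
      congr 1
      rw [Finset.mul_sum, ← Finset.sum_add_distrib, Finset.mul_sum]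
      refine Finset.sum_congr rfl fun e _ => ?_
      push_cast; ring
    rw [h1, ← Finset.prod_mul_distrib]
    exact Finset.prod_congr rfl fun e _ => hω2 e
  -- the last factor
  have hlast : ph (-(c • ∑ v, (r + z) v)) =
      Complex.exp (2 * Real.pi * Complex.I *
        ((-(c * (∑ v, lift (r v) + ∑ v, u v)) : ℝ) : ℂ)) := by
    apply ph_eq_of_lift
    obtain ⟨m1, h1⟩ := lift_neg (c • ∑ v, (r + z) v)
    obtain ⟨m2, h2⟩ := lift_zsmul (c : ℤ) (∑ v, (r + z) v)
    obtain ⟨m3, h3⟩ := lift_sum univ (fun v => (r + z) v)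
    have h4 : ∀ v, ∃ m : ℤ, lift ((r + z) v) = lift (r v) + (t v.1 + u v) + m := by
      intro v
      obtain ⟨m4, h4⟩ := lift_add (r v) (z v)
      obtain ⟨m5, h5⟩ := hlift v
      refine ⟨m4 + m5, ?_⟩
      rw [Pi.add_apply, h4, h5]; push_cast; ring
    choose m4 h4 using h4
    have h5 : ∑ v, lift ((r + z) v) = ∑ v, lift (r v) + ∑ v, u v + ((∑ v, m4 v : ℤ) : ℝ) := by
      simp only [h4, Finset.sum_add_distrib]
      have h6 : ∑ v : Line n, t v.1 = 0 := by
        rw [Fintype.sum_prod_type]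
        simp only [Finset.sum_const, Finset.card_univ, Fintype.card_fin, nsmul_eq_mul]
        rw [Fin.sum_univ_three]
        have : (n : ℝ) * t 0 + n * t 1 + n * t 2 = n * (t 0 + t 1 + t 2) := by ring
        rw [this, ht, mul_zero]
      rw [h6]; push_cast; ring
    have h7 : ((c : ℤ) • ∑ v, (r + z) v : ZMod q) = c • ∑ v, (r + z) v := natCast_zsmul _ _
    rw [h7] at h2
    refine ⟨m1 - m2 - c * m3 - c * ∑ v, m4 v, ?_⟩
    rw [h1, h2, h3, h5]
    push_cast; ring
  -- the total phase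
  have hps : ∑ e, p e * s e = ∑ e, p e * lift (N.y r e) + c * ∑ v, u v := by
    simp only [hs, mul_add, Finset.sum_add_distrib]
    rw [sum_mul_A, Finset.mul_sum]
    congr 1
    exact Finset.sum_congr rfl fun v _ => by rw [hline]; ring
  have h2 : Complex.I * ((2 * Real.pi * ∑ e, p e * s e + ∑ e, ω e : ℝ) : ℂ) +
      2 * Real.pi * Complex.I * ((-(c * (∑ v, lift (r v) + ∑ v, u v)) : ℝ) : ℂ) =
      Complex.I * ((∑ e, ω e : ℝ) : ℂ) + ((-m : ℤ) : ℂ) * (2 * Real.pi * Complex.I) := by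
    have h3 : (2 * Real.pi * ∑ e, p e * s e + ∑ e, ω e) +
        2 * Real.pi * (-(c * (∑ v, lift (r v) + ∑ v, u v))) =
        ∑ e, ω e + 2 * Real.pi * (-(m : ℝ)) := by
      rw [hps, ← hm]; ring
    have h4 : Complex.I * ((2 * Real.pi * ∑ e, p e * s e + ∑ e, ω e : ℝ) : ℂ) +
      2 * Real.pi * Complex.I * ((-(c * (∑ v, lift (r v) + ∑ v, u v)) : ℝ) : ℂ) =
      Complex.I * (((2 * Real.pi * ∑ e, p e * s e + ∑ e, ω e) +
        2 * Real.pi * (-(c * (∑ v, lift (r v) + ∑ v, u v))) : ℝ) : ℂ) := by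
      push_cast; ring
    rw [h4, h3]
    push_cast; ring
  have htot : FF N p c (r + z) = (‖FF N p c (r + z)‖ : ℂ) *
      Complex.exp (Complex.I * ((∑ e, ω e : ℝ) : ℂ)) := by
    calc FF N p c (r + z)
        = (∏ e, fac (p e) (N.y (r + z) e)) * ph (-(c • ∑ v, (r + z) v)) := rfl
      _ = ((‖FF N p c (r + z)‖ : ℂ) *
            Complex.exp (Complex.I * ((2 * Real.pi * ∑ e, p e * s e + ∑ e, ω e : ℝ) : ℂ))) *
            Complex.exp (2 * Real.pi * Complex.I *
              ((-(c * (∑ v, lift (r v) + ∑ v, u v)) : ℝ) : ℂ)) := by rw [hprod, hlast]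
      _ = (‖FF N p c (r + z)‖ : ℂ) * Complex.exp (Complex.I * ((∑ e, ω e : ℝ) : ℂ) +
            ((-m : ℤ) : ℂ) * (2 * Real.pi * Complex.I)) := by
          rw [mul_assoc, ← Complex.exp_add, h2]
      _ = _ := by
          rw [Complex.exp_add, Complex.exp_int_mul_two_pi_mul_I, mul_one]
  -- the total error
  have hΩ : |∑ e, ω e| ≤ 1 := by
    have h5 : ∀ e, |ω e| ≤ (if e ∈ N.dead M then 0 else 400 * σ * lift (N.y r e) ^ 2) +
        800 * (3 * ρ) ^ 3 * |1 / 2 - p e| := by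
      intro e
      refine (hω1 e).trans ?_
      have hσ' : (0 : ℝ) ≤ 800 * (3 * ρ) ^ 3 * |1 / 2 - p e| := by positivity
      split_ifs with he
      · linarith
      · have h6 : |1 - 2 * p e| = 2 * |1 / 2 - p e| := by
          rw [show (1 - 2 * p e) = 2 * (1 / 2 - p e) by ring, abs_mul, abs_two]
        have h7 : |1 / 2 - p e| ≤ 1 / 2 := by
          rw [abs_le]; constructor <;> linarith [(hp e).1, (hp e).2]
        set a := |lift (N.y r e)| with ha
        set b := |N.A u e| with hb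
        have ha0 : 0 ≤ a := abs_nonneg _
        have hb0 : 0 ≤ b := abs_nonneg _
        have haσ : a ≤ σ := hsup e he
        have hbρ : b ≤ 3 * ρ := hA e
        have h8 : |s e| ≤ a + b := abs_add_le _ _
        have h9 : |s e| ^ 3 ≤ 4 * (a ^ 3 + b ^ 3) := by
          have h10 : |s e| ^ 3 ≤ (a + b) ^ 3 := pow_le_pow_left₀ (abs_nonneg _) h8 3
          have h11 : (a + b) ^ 3 ≤ 4 * (a ^ 3 + b ^ 3) := by
            nlinarith [mul_nonneg (add_nonneg ha0 hb0) (sq_nonneg (a - b))]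
          linarith
        have h12 : a ^ 3 ≤ σ * lift (N.y r e) ^ 2 := by
          have : lift (N.y r e) ^ 2 = a ^ 2 := by rw [ha, sq_abs]
          rw [this]
          calc a ^ 3 = a * a ^ 2 := by ring
            _ ≤ σ * a ^ 2 := mul_le_mul_of_nonneg_right haσ (sq_nonneg a)
        have h13 : b ^ 3 ≤ (3 * ρ) ^ 3 := pow_le_pow_left₀ hb0 hbρ 3
        have h14 : 0 ≤ |1 / 2 - p e| := abs_nonneg _
        rw [h6]
        calc 100 * (2 * |1 / 2 - p e|) * |s e| ^ 3
            ≤ 100 * (2 * |1 / 2 - p e|) * (4 * (a ^ 3 + b ^ 3)) := by gcongr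
          _ ≤ 100 * (2 * |1 / 2 - p e|) * (4 * (σ * lift (N.y r e) ^ 2 + (3 * ρ) ^ 3)) := by
              gcongr
          _ = 800 * |1 / 2 - p e| * (σ * lift (N.y r e) ^ 2) +
              800 * (3 * ρ) ^ 3 * |1 / 2 - p e| := by ring
          _ ≤ _ := by
              have h15 : 0 ≤ σ * lift (N.y r e) ^ 2 := le_trans (by positivity) h12
              nlinarith
    calc |∑ e, ω e| ≤ ∑ e, |ω e| := Finset.abs_sum_le_sum_abs _ _
      _ ≤ ∑ e, ((if e ∈ N.dead M then 0 else 400 * σ * lift (N.y r e) ^ 2) +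
            800 * (3 * ρ) ^ 3 * |1 / 2 - p e|) := Finset.sum_le_sum fun e _ => h5 e
      _ = 400 * (σ * N.Phi M r) + 800 * (∑ e, |1 / 2 - p e|) * (3 * ρ) ^ 3 := by
          rw [Finset.sum_add_distrib]
          congr 1
          · unfold Net.Phi
            rw [← Finset.sum_add_sum_compl (N.dead M)]
            have h16 : ∑ e ∈ N.dead M,
                (if e ∈ N.dead M then 0 else 400 * σ * lift (N.y r e) ^ 2) = 0 :=
              Finset.sum_eq_zero fun e he => by rw [if_pos he]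
            rw [h16, zero_add, Finset.mul_sum, Finset.mul_sum]
            refine Finset.sum_congr rfl fun e he => ?_
            rw [if_neg (Finset.mem_compl.mp he)]; ring
          · rw [← Finset.mul_sum]; ring
      _ ≤ 1 := hsmall
  rw [htot]
  have h20 : (Complex.exp (Complex.I * ((∑ e, ω e : ℝ) : ℂ))).re = Real.cos (∑ e, ω e) := by
    rw [mul_comm]
    exact Complex.exp_ofReal_mul_I_re _
  have h21 : ‖(‖FF N p c (r + z)‖ : ℂ) * Complex.exp (Complex.I * ((∑ e, ω e : ℝ) : ℂ))‖ =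
      ‖FF N p c (r + z)‖ := by rw [← htot]
  rw [h21, Complex.re_ofReal_mul, h20]
  have h22 : 1 / 2 ≤ Real.cos (∑ e, ω e) := by
    have h23 := Real.one_sub_sq_div_two_le_cos (x := ∑ e, ω e)
    have h24 : (∑ e, ω e) ^ 2 ≤ 1 := by
      rw [← sq_abs]; exact pow_le_one₀ (abs_nonneg _) hΩ
    linarith
  have := norm_nonneg (FF N p c (r + z))
  nlinarith

/-- the weights of an admissible density are admissible -/
lemma wok_of_tilt {K : ℝ} (N : Net n) (M : Finset (Line n)) (p : Cell n → ℝ)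
    (h : N.TiltOK q K (2 * (n / 4)) M p) (hn : 1 ≤ n)
    (h1 : (n : ℝ) ^ (0.72 : ℝ) ≤ n / 100) :
    (∀ e, 0 ≤ p e ∧ p e ≤ 1) ∧ N.WOK (fun e => p e * (1 - p e)) := by
  have hp : ∀ e, 0 ≤ p e ∧ p e ≤ 1 := by
    intro e
    by_cases he : e ∈ N.dead M
    · rw [h.dead e he]; constructor <;> norm_num
    · have := h.live e he
      constructor <;> linarith [this.1, this.2]
  refine ⟨hp, ?_, ?_, ?_, ?_⟩
  · intro e
    exact mul_nonneg (hp e).1 (by linarith [(hp e).2])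
  · intro e
    show p e * (1 - p e) ≤ 1 / 4
    nlinarith [sq_nonneg (p e - 1 / 2)]
  · calc ∑ e, (1 / 4 - p e * (1 - p e)) ≤ ∑ e, |1 / 2 - p e| := by
          refine Finset.sum_le_sum fun e _ => ?_
          have h2 : 1 / 4 - p e * (1 - p e) = |1 / 2 - p e| * |1 / 2 - p e| := by
            rw [abs_mul_abs_self]; ring
          have h3 : |1 / 2 - p e| ≤ 1 := by
            rw [abs_le]; constructor <;> linarith [(hp e).1, (hp e).2]
          rw [h2]
          nlinarith [abs_nonneg (1 / 2 - p e)]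
      _ ≤ (n : ℝ) ^ (1.435 : ℝ) := h.l1
      _ ≤ (n : ℝ) ^ (1.44 : ℝ) := Asymp.rpow_mono hn (by norm_num)
  · intro v
    have h2 : ((N.on v).filter fun e => p e * (1 - p e) < 1 / 25).card ≤ M.card := by
      refine le_trans (Finset.card_le_card ?_) (card_dead_on N M v)
      intro e he
      rw [mem_filter] at he
      rw [Finset.mem_inter]
      refine ⟨he.1, ?_⟩
      by_contra hd
      have h3 := h.live e hd
      have h4 : 0 ≤ (p e - 1 / 16) * (15 / 16 - p e) :=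
        mul_nonneg (by linarith [h3.1]) (by linarith [h3.2])
      nlinarith [he.2]
    calc (((N.on v).filter fun e => p e * (1 - p e) < 1 / 25).card : ℝ) ≤ M.card := by
          exact_mod_cast h2
      _ ≤ (n : ℝ) ^ (0.72 : ℝ) := h.cardM
      _ ≤ n / 100 := h1

lemma near_zero (ρ : ℝ) (hρ : 0 ≤ ρ) (V : Finset (Line n)) : Near V ρ (0 : Pt n q) :=
  ⟨0, 0, by simp, fun v => ⟨0, by simp [lift_zero]⟩, fun v _ => by simpa using hρ⟩

lemma coordMin_zero (N : Net n) {β : Cell n → ℝ} (hβ : ∀ e, 0 ≤ β e) :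
    N.CoordMin β (0 : Pt n q) := by
  intro v t
  have : N.en β (0 : Pt n q) = 0 := by
    unfold Net.en
    refine Finset.sum_eq_zero fun e _ => ?_
    rw [y_zero, cst_zero, mul_zero]
  rw [this]
  exact en_nonneg N hβ _

lemma full_zero (N : Net n) : N.full (0 : Pt n q) = 0 := by
  unfold Net.full
  refine Finset.sum_eq_zero fun e _ => ?_
  rw [y_zero, cst_zero]

/-- values of a point near the origin -/
lemma cst_y_near (N : Net n) {ρ : ℝ} {z : Pt n q} (hz : Near ∅ ρ z) (e : Cell n) :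
    cst (N.y z e) ≤ 2 * Real.pi ^ 2 * (3 * ρ) ^ 2 := by
  obtain ⟨t, u, ht, hlift, hu⟩ := hz
  have hA : |N.A u e| ≤ 3 * ρ := by
    unfold Net.A
    calc |∑ i, u (N.ln i e)| ≤ ∑ i, |u (N.ln i e)| := Finset.abs_sum_le_sum_abs _ _
      _ ≤ ∑ _i : Fin 3, ρ := Finset.sum_le_sum fun i _ => hu _ (by simp)
      _ = 3 * ρ := by simp
  rw [cst_eq_of_lift (lift_y_of N z t u ht hlift e)]
  refine (one_sub_cos_le _).trans ?_
  have : N.A u e ^ 2 ≤ (3 * ρ) ^ 2 := sq_le_sq.mpr (by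
    rw [abs_of_nonneg ((abs_nonneg _).trans hA)]; exact hA)
  have hpi : 0 ≤ 2 * Real.pi ^ 2 := by positivity
  exact mul_le_mul_of_nonneg_left this hpi

lemma NT_of_near {ρ : ℝ} (hρ : 2 * Real.pi * ρ ≤ 1 / 2) (hn : 0 < n) {z : Pt n q}
    (hz : Near ∅ ρ z) : NT z := by
  obtain ⟨t, u, ht, hlift, hu⟩ := hz
  unfold NT mean
  set ζ : ℂ := Complex.exp (2 * Real.pi * Complex.I * (t 0 : ℂ)) with hζ
  have hζ1 : ‖ζ‖ = 1 := by
    rw [hζ, show (2 * Real.pi * Complex.I * (t 0 : ℂ)) = ((2 * Real.pi * t 0 : ℝ) : ℂ) * Complex.I by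
      push_cast; ring]
    exact Complex.norm_exp_ofReal_mul_I _
  have h1 : ∀ v : Fin n, ‖ph (z (0, v)) - ζ‖ ≤ 1 / 2 := by
    intro v
    obtain ⟨m, hm⟩ := hlift (0, v)
    have h2 : ph (z (0, v)) = ζ * Complex.exp (Complex.I * ((2 * Real.pi * u (0, v) : ℝ) : ℂ)) := by
      rw [ph_eq_of_lift (r := t 0 + u (0, v)) ⟨m, hm⟩, hζ, ← Complex.exp_add]
      congr 1; push_cast; ring
    have h3 : ph (z (0, v)) - ζ =
        ζ * (Complex.exp (Complex.I * ((2 * Real.pi * u (0, v) : ℝ) : ℂ)) - 1) := by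
      rw [h2]; ring
    rw [h3, norm_mul, hζ1, one_mul]
    refine (Real.norm_exp_I_mul_ofReal_sub_one_le (x := 2 * Real.pi * u (0, v))).trans ?_
    rw [Real.norm_eq_abs, abs_mul, abs_of_pos (by positivity : (0:ℝ) < 2 * Real.pi)]
    refine le_trans (mul_le_mul_of_nonneg_left (hu (0, v) (by simp)) (by positivity)) hρ
  have hn' : (0 : ℝ) < n := by exact_mod_cast hn
  rw [norm_div, Complex.norm_natCast, le_div_iff₀ hn']
  have h4 : ‖∑ v : Fin n, (ph (z (0, v)) - ζ)‖ ≤ n * (1 / 2) := by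
    calc ‖∑ v : Fin n, (ph (z (0, v)) - ζ)‖ ≤ ∑ v : Fin n, ‖ph (z (0, v)) - ζ‖ := norm_sum_le _ _
      _ ≤ ∑ _v : Fin n, (1 / 2 : ℝ) := Finset.sum_le_sum fun v _ => h1 v
      _ = n * (1 / 2) := by simp
  have h5 : ∑ v : Fin n, (ph (z (0, v)) - ζ) = ∑ v : Fin n, ph (z (0, v)) - n * ζ := by
    rw [Finset.sum_sub_distrib]; simp
  rw [h5] at h4
  have h6 : ‖(n : ℂ) * ζ‖ = n := by rw [norm_mul, hζ1, Complex.norm_natCast, mul_one]
  have h7 : ‖(n : ℂ) * ζ‖ ≤ ‖∑ v : Fin n, ph (z (0, v))‖ +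
      ‖∑ v : Fin n, ph (z (0, v)) - n * ζ‖ := by
    have := norm_sub_le (∑ v : Fin n, ph (z (0, v))) (∑ v : Fin n, ph (z (0, v)) - n * ζ)
    rwa [sub_sub_cancel] at this
  rw [h6] at h7
  linarith

theorem analytic (hI : InversionStatement) (hU : UpperStatement) (hC : ConcStatement)
    (hLC : LightCloseStatement) (hF : PhaseStatement) : AnalyticStatement := by
  set Ku : ℝ := 4 * 10 ^ 9 with hKu
  refine ⟨7 * Ku, ?_⟩
  -- numerical facts
  have e1 : ∀ᶠ n : ℕ in atTop, (n : ℝ) ^ (0.72 : ℝ) ≤ n / 100 := by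
    filter_upwards [Asymp.mul_rpow_le 100 (show (0.72 : ℝ) < 1 by norm_num)] with n h
    rw [Real.rpow_one] at h
    linarith
  have e2 : ∀ᶠ n : ℕ in atTop, (n : ℝ) ^ (-0.34 : ℝ) + 3 * (11 * (Ku * Real.log n / √n)) ≤ 1 / 4 := by
    filter_upwards [Asymp.mul_rpow_neg_le 1 (show (-0.34 : ℝ) < 0 by norm_num)
      (show (0 : ℝ) < 1 / 8 by norm_num),
      Asymp.mul_log_pow_mul_rpow_neg_le (33 * Ku) 1 (show (-0.5 : ℝ) < 0 by norm_num)
        (show (0 : ℝ) < 1 / 8 by norm_num), eventually_ge_atTop 1] with n h1 h2 hn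
    have hpos : (0 : ℝ) < n := by exact_mod_cast hn
    have h3 : 3 * (11 * (Ku * Real.log n / √n)) = 33 * Ku * Real.log n ^ 1 * (n : ℝ) ^ (-0.5 : ℝ) := by
      rw [Real.rpow_neg hpos.le, show (0.5 : ℝ) = 1 / 2 by norm_num, ← Real.sqrt_eq_rpow]
      ring
    linarith
  have e3 : ∀ᶠ n : ℕ in atTop, 400 * ((n : ℝ) ^ (-0.34 : ℝ) * (7 * Ku * Real.log n ^ 2)) +
      800 * (n : ℝ) ^ (1.435 : ℝ) * (3 * (11 * (Ku * Real.log n / √n))) ^ 3 ≤ 1 := by
    filter_upwards [
      Asymp.mul_log_pow_mul_rpow_neg_le (400 * (7 * Ku)) 2 (show (-0.34 : ℝ) < 0 by norm_num)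
        (show (0 : ℝ) < 1 / 2 by norm_num),
      Asymp.mul_log_pow_mul_rpow_neg_le (800 * (33 * Ku) ^ 3) 3 (show (-0.065 : ℝ) < 0 by norm_num)
        (show (0 : ℝ) < 1 / 2 by norm_num), eventually_ge_atTop 1] with n h1 h2 hn
    have hpos : (0 : ℝ) < n := by exact_mod_cast hn
    have h3 : (3 * (11 * (Ku * Real.log n / √n))) ^ 3 =
        (33 * Ku) ^ 3 * Real.log n ^ 3 * (n : ℝ) ^ (-1.5 : ℝ) := by
      have h4 : (n : ℝ) ^ (-1.5 : ℝ) = (1 / √n) ^ 3 := by
        rw [show (-1.5 : ℝ) = (-(1 / 2)) * (3 : ℕ) by norm_num, Real.rpow_mul hpos.le,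
          Real.rpow_natCast, Real.rpow_neg hpos.le, ← Real.sqrt_eq_rpow, one_div]
      rw [h4]
      ring
    have h5 : (n : ℝ) ^ (1.435 : ℝ) * (n : ℝ) ^ (-1.5 : ℝ) = (n : ℝ) ^ (-0.065 : ℝ) := by
      rw [← Real.rpow_add hpos]; norm_num
    rw [h3]
    have h6 : 800 * (n : ℝ) ^ (1.435 : ℝ) * ((33 * Ku) ^ 3 * Real.log n ^ 3 * (n : ℝ) ^ (-1.5 : ℝ)) =
        800 * (33 * Ku) ^ 3 * Real.log n ^ 3 * ((n : ℝ) ^ (1.435 : ℝ) * (n : ℝ) ^ (-1.5 : ℝ)) := by
      ring
    rw [h6, h5]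
    linarith
  have e4 : ∀ᶠ n : ℕ in atTop, (n : ℝ) ^ (-0.5 : ℝ) ≤ 2 * √(Real.log n / n) := by
    filter_upwards [Asymp.log_ge 1, eventually_ge_atTop 1] with n h hn
    have hpos : (0 : ℝ) < n := by exact_mod_cast hn
    have h1 : (n : ℝ) ^ (-0.5 : ℝ) = √(1 / n) := by
      rw [Real.rpow_neg hpos.le, show (0.5 : ℝ) = 1 / 2 by norm_num, ← Real.sqrt_eq_rpow,
        Real.sqrt_div zero_le_one, Real.sqrt_one, one_div]
    rw [h1]
    have h2 : √(1 / (n : ℝ)) ≤ √(Real.log n / n) := by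
      apply Real.sqrt_le_sqrt
      gcongr
    linarith [Real.sqrt_nonneg (Real.log n / n)]
  have e5 : ∀ᶠ n : ℕ in atTop, 2 * √(Real.log n / n) ≤ (n : ℝ) ^ (-0.4 : ℝ) := by
    filter_upwards [Asymp.mul_log_pow_mul_rpow_le 4 1 (show (-1 : ℝ) < -0.8 by norm_num),
      eventually_ge_atTop 1] with n h hn
    have hpos : (0 : ℝ) < n := by exact_mod_cast hn
    have h1 : 2 * √(Real.log n / n) = √(4 * Real.log n ^ 1 * (n : ℝ) ^ (-1 : ℝ)) := by
      have : (2 : ℝ) = √4 := by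
        rw [show (4 : ℝ) = 2 ^ 2 by norm_num, Real.sqrt_sq (by norm_num)]
      rw [this, ← Real.sqrt_mul (by norm_num)]
      congr 1
      rw [Real.rpow_neg_one, pow_one]; ring
    rw [h1]
    have h2 : (n : ℝ) ^ (-0.4 : ℝ) = √((n : ℝ) ^ (-0.8 : ℝ)) := by
      rw [Real.sqrt_eq_rpow, ← Real.rpow_mul hpos.le]; norm_num
    rw [h2]
    exact Real.sqrt_le_sqrt h
  have e6 : ∀ᶠ n : ℕ in atTop, 1 / 4 * (2 * Real.pi ^ 2 * (3 * (11 * (Ku * Real.log n / √n))) ^ 2) ≤
      1e-12 := by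
    filter_upwards [
      Asymp.mul_log_pow_mul_rpow_neg_le (1 / 4 * (2 * Real.pi ^ 2 * (33 * Ku) ^ 2)) 2
        (show (-1 : ℝ) < 0 by norm_num) (show (0 : ℝ) < 1e-12 by norm_num),
      eventually_ge_atTop 1] with n h hn
    have hpos : (0 : ℝ) < n := by exact_mod_cast hn
    refine le_trans (le_of_eq ?_) h
    rw [Real.rpow_neg_one, mul_pow, mul_pow, div_pow, Real.sq_sqrt hpos.le]
    field_simp
    ring
  have e11 : ∀ᶠ n : ℕ in atTop, (n : ℝ) ^ 2 * (2 * Real.pi ^ 2 *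
      (3 * (11 * (Ku * Real.log n / √n))) ^ 2) ≤ (n : ℝ) ^ (1.45 : ℝ) := by
    filter_upwards [
      Asymp.mul_log_pow_mul_rpow_le (2 * Real.pi ^ 2 * (33 * Ku) ^ 2) 2
        (show (1 : ℝ) < 1.45 by norm_num),
      eventually_ge_atTop 1] with n h hn
    have hpos : (0 : ℝ) < n := by exact_mod_cast hn
    refine le_trans (le_of_eq ?_) h
    rw [Real.rpow_one, mul_pow, mul_pow, div_pow, Real.sq_sqrt hpos.le]
    field_simp
    ring
  have e7 : ∀ᶠ n : ℕ in atTop, 2 * Real.pi * (11 * (Ku * Real.log n / √n)) ≤ 1 / 2 := by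
    filter_upwards [
      Asymp.mul_log_pow_mul_rpow_neg_le (2 * Real.pi * (11 * Ku)) 1
        (show (-0.5 : ℝ) < 0 by norm_num) (show (0 : ℝ) < 1 / 2 by norm_num),
      eventually_ge_atTop 1] with n h hn
    have hpos : (0 : ℝ) < n := by exact_mod_cast hn
    refine le_trans (le_of_eq ?_) h
    rw [Real.rpow_neg hpos.le, show (0.5 : ℝ) = 1 / 2 by norm_num, ← Real.sqrt_eq_rpow]
    ring
  have e8 : ∀ᶠ n : ℕ in atTop, 3 * (11 * (2 * √(Real.log n / n))) ≤ 1 / 4 := by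
    filter_upwards [e5, Asymp.mul_rpow_neg_le 33 (show (-0.4 : ℝ) < 0 by norm_num)
      (show (0 : ℝ) < 1 / 4 by norm_num)] with n h1 h2
    linarith
  filter_upwards [hU Ku (by rw [hKu]; norm_num), hLC, e1, e2, e3, e4, e5, e6, e7, e8, e11,
    Asymp.mul_rpow_le 1 (show (1.44 : ℝ) < 1.45 by norm_num),
    Asymp.mul_rpow_le 1 (show (1 : ℝ) < 1.44 by norm_num), Asymp.log_ge 10,
    eventually_ge_atTop 20]
    with n hU hLC e1 e2 e3 e4 e5 e6 e7 e8 e11 e9 e10 hlog10 hn20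
  intro q _ hq N hex
  obtain ⟨M, p, hT⟩ := hex
  have hn1 : 1 ≤ n := by omega
  have hpos : (0 : ℝ) < n := by exact_mod_cast hn1
  obtain ⟨hp, hW⟩ := wok_of_tilt N M p hT hn1 e1
  set c : ℕ := 2 * (n / 4) with hc
  have hcn : c ≤ n := by omega
  have hnq : n < q := by
    have : n * 1 < n * n ^ 2 := by
      apply Nat.mul_lt_mul_of_pos_left _ (by omega)
      nlinarith
    have h2 : n * n ^ 2 = n ^ 3 := by ring
    omega
  set β : Cell n → ℝ := fun e => p e * (1 - p e) with hβ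
  set τ : ℝ := Ku * Real.log n / √n with hτ
  set τ₀ : ℝ := 2 * √(Real.log n / n) with hτ₀
  have hτ0 : 0 ≤ τ := by
    have : 0 ≤ Real.log n := by linarith
    rw [hτ, hKu]; positivity
  have hτ₀0 : 0 ≤ τ₀ := by positivity
  apply hI n q N p c hnq hcn hp
  show 0 < (∑ x : Pt n q, FF N p c x).re
  obtain ⟨hUa, hUb⟩ := hU q hq N β hW
  set f : Pt n q → ℝ := fun x => Real.exp (-N.en β x) with hf
  set Z : ℝ := ∑ z ∈ univ.filter (fun z : Pt n q => Near ∅ (11 * τ) z), f z with hZ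
  set NL : Finset (Pt n q) := univ.filter (fun x : Pt n q => ¬ ∃ r : Pt n q, N.CoordMin β r ∧
        N.full r ≤ (n : ℝ) ^ (1.45 : ℝ) ∧ N.en β r ≤ 3 * Ku * Real.log n ^ 2 ∧
        Near ∅ (11 * τ) (x - r)) with hNL
  -- positivity outside NL
  have hposi : ∀ x ∉ NL, 1 / 2 * ‖FF N p c x‖ ≤ (FF N p c x).re := by
    intro x hx
    simp only [hNL, mem_filter, mem_univ, true_and, not_not] at hx
    obtain ⟨r, hr1, hr2, hr3, hr4⟩ := hx
    have hΦ : N.Phi M r ≤ 7 * Ku * Real.log n ^ 2 := by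
      have h1 : 15 / 256 * 8 * N.Phi M r ≤ N.en β r := by
        unfold Net.Phi Net.en
        rw [Finset.mul_sum, ← Finset.sum_add_sum_compl (N.dead M) (fun e => β e * cst (N.y r e))]
        have h2 : 0 ≤ ∑ e ∈ N.dead M, β e * cst (N.y r e) :=
          Finset.sum_nonneg fun e _ => mul_nonneg (hW.nonneg e) (cst_nonneg _)
        have h3 : ∑ e ∈ (N.dead M)ᶜ, 15 / 256 * 8 * lift (N.y r e) ^ 2 ≤
            ∑ e ∈ (N.dead M)ᶜ, β e * cst (N.y r e) := by
          refine Finset.sum_le_sum fun e he => ?_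
          have h4 := hT.live e (Finset.mem_compl.mp he)
          have h5 : 15 / 256 ≤ β e := by
            have : 0 ≤ (p e - 1 / 16) * (15 / 16 - p e) :=
              mul_nonneg (by linarith [h4.1]) (by linarith [h4.2])
            show 15 / 256 ≤ p e * (1 - p e)
            nlinarith
          have h6 := cst_ge (N.y r e)
          have h7 : 0 ≤ 8 * lift (N.y r e) ^ 2 := by positivity
          nlinarith
        linarith
      have h2 : 0 ≤ Ku * Real.log n ^ 2 := by rw [hKu]; positivity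
      linarith
    obtain ⟨hsup, hint⟩ := hT.low r hΦ
    have h3 := re_FF_ge hF N M p c hp hT.line hT.dead r (x - r) ((n : ℝ) ^ (-0.34 : ℝ)) (11 * τ)
      hsup hint hr4 e2 (by linarith) (by
        refine le_trans ?_ e3
        have h4 : (0 : ℝ) ≤ (n : ℝ) ^ (-0.34 : ℝ) := by positivity
        have h5 : (0 : ℝ) ≤ (3 * (11 * τ)) ^ 3 := by positivity
        refine add_le_add ?_ ?_
        · gcongr
        · gcongr
          exact hT.l1)
    rwa [add_sub_cancel] at h3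
  -- the inner part
  set In : Finset (Pt n q) := univ.filter (fun z : Pt n q => Near ∅ (11 * τ) z ∧
    ∀ v, |N.grad β z v| < n * τ₀) with hIn
  have hZpos : 0 < Z := by
    have h1 : f 0 ≤ Z := by
      refine Finset.single_le_sum (f := f) (fun z _ => (Real.exp_pos _).le) ?_
      simp only [mem_filter, mem_univ, true_and]
      exact near_zero _ (by linarith) _
    exact lt_of_lt_of_le (Real.exp_pos _) h1
  have hInZ : 1 / 2 * Z ≤ ∑ z ∈ In, f z := by
    have hCn := hC n q N β hn1 (by nlinarith [hq, hn20]) (fun e => ⟨hW.nonneg e, hW.le e⟩) τ₀ hτ₀0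
    have h1 : Z ≤ ∑ z ∈ In, f z +
        ∑ x ∈ univ.filter (fun x : Pt n q => ∃ v, n * τ₀ ≤ |N.grad β x v|), f x := by
      rw [hZ, ← Finset.sum_filter_add_sum_filter_not
        (univ.filter (fun z : Pt n q => Near ∅ (11 * τ) z)) (fun z => ∀ v, |N.grad β z v| < n * τ₀)]
      refine add_le_add ?_ ?_
      · rw [hIn, Finset.filter_filter]
      · refine Finset.sum_le_sum_of_subset_of_nonneg ?_ fun z _ _ => (Real.exp_pos _).le
        intro z hz
        simp only [mem_filter, mem_univ, true_and, not_forall, not_lt] at hz ⊢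
        exact hz.2
    have h2 : 500 * (n : ℝ) ^ 2 * Real.exp (-(2 * n * τ₀ ^ 2)) * (12 * n) ≤ 1 / 2 := by
      have h3 : 2 * (n : ℝ) * τ₀ ^ 2 = 8 * Real.log n := by
        rw [hτ₀, mul_pow, Real.sq_sqrt (by
          apply div_nonneg _ hpos.le
          linarith)]
        field_simp
        ring
      rw [h3]
      have h4 : 500 * (n : ℝ) ^ 2 * Real.exp (-(8 * Real.log n)) * (12 * n) =
          6000 * ((n : ℝ) ^ 3 * Real.exp (-(8 * Real.log n))) := by ring
      rw [h4, Asymp.pow_eq_exp hn1, ← Real.exp_add]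
      have h5 : ((3 : ℕ) : ℝ) * Real.log n + -(8 * Real.log n) ≤ -50 := by
        push_cast; linarith
      have h6 : Real.exp (((3 : ℕ) : ℝ) * Real.log n + -(8 * Real.log n)) ≤ Real.exp (-50) :=
        Real.exp_le_exp.mpr h5
      have h7 : Real.exp (-50) ≤ 1 / 12000 := by
        rw [Real.exp_neg, one_div]
        apply inv_anti₀ (by norm_num)
        have h8 : Real.exp 50 = Real.exp 1 ^ 50 := by rw [← Real.exp_nat_mul]; norm_num
        have h9 : (2 : ℝ) ≤ Real.exp 1 := by linarith [Real.add_one_le_exp (1 : ℝ)]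
        rw [h8]
        calc (12000 : ℝ) ≤ 2 ^ 50 := by norm_num
          _ ≤ Real.exp 1 ^ 50 := pow_le_pow_left₀ (by norm_num) h9 50
      calc 6000 * Real.exp (((3 : ℕ) : ℝ) * Real.log n + -(8 * Real.log n))
          ≤ 6000 * (1 / 12000) :=
            mul_le_mul_of_nonneg_left (h6.trans h7) (by norm_num)
        _ = 1 / 2 := by norm_num
    have h10 : ∑ x ∈ univ.filter (fun x : Pt n q => ∃ v, n * τ₀ ≤ |N.grad β x v|), f x ≤
        1 / 2 * Z := by
      refine hCn.trans ?_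
      calc 500 * (n : ℝ) ^ 2 * Real.exp (-(2 * n * τ₀ ^ 2)) * ∑ x : Pt n q, Real.exp (-N.en β x)
          ≤ 500 * (n : ℝ) ^ 2 * Real.exp (-(2 * n * τ₀ ^ 2)) * (12 * n * Z) :=
            mul_le_mul_of_nonneg_left hUb (by positivity)
        _ = (500 * (n : ℝ) ^ 2 * Real.exp (-(2 * n * τ₀ ^ 2)) * (12 * n)) * Z := by ring
        _ ≤ _ := mul_le_mul_of_nonneg_right h2 hZpos.le
    linarith
  -- modulus in the inner part
  set C' : ℝ := 200 * 66 ^ 4 with hC'
  have hInner : ∀ z ∈ In, Real.exp (-(C' * Real.log n ^ 2)) * f z ≤ ‖FF N p c z‖ := by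
    intro z hz
    simp only [hIn, mem_filter, mem_univ, true_and] at hz
    obtain ⟨hz1, hz2⟩ := hz
    have hen : ∀ v, N.lineEn β z v ≤ 1e-12 * n := by
      intro v
      unfold Net.lineEn
      calc ∑ e ∈ N.on v, β e * cst (N.y z e)
          ≤ ∑ _e ∈ N.on v, 1 / 4 * (2 * Real.pi ^ 2 * (3 * (11 * τ)) ^ 2) := by
            refine Finset.sum_le_sum fun e _ => ?_
            exact mul_le_mul (hW.le e) (cst_y_near N hz1 e) (cst_nonneg _) (by norm_num)
        _ = n * (1 / 4 * (2 * Real.pi ^ 2 * (3 * (11 * τ)) ^ 2)) := by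
            rw [Finset.sum_const, card_on, nsmul_eq_mul]
        _ ≤ n * 1e-12 := mul_le_mul_of_nonneg_left e6 hpos.le
        _ = _ := mul_comm _ _
    have hfull : N.full z ≤ (n : ℝ) ^ (1.45 : ℝ) := by
      have h3 : N.full z ≤ (n : ℝ) ^ 2 * (2 * Real.pi ^ 2 * (3 * (11 * τ)) ^ 2) := by
        unfold Net.full
        calc ∑ e, cst (N.y z e) ≤ ∑ _e : Cell n, 2 * Real.pi ^ 2 * (3 * (11 * τ)) ^ 2 :=
              Finset.sum_le_sum fun e _ => cst_y_near N hz1 e
          _ = _ := by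
              rw [Finset.sum_const, Finset.card_univ, Fintype.card_prod, Fintype.card_fin,
                nsmul_eq_mul]
              push_cast; ring
      exact h3.trans e11
    have hnear : Near ∅ (11 * τ₀) z := by
      have h1 := hLC q hq N β hW ∅ (by simp; positivity) z 0 τ₀ e4 e5 (by
        have : N.cut ∅ β = β := by funext e; simp [Net.cut]
        rw [this]
        exact coordMin_zero N hW.nonneg) (by rw [full_zero]; positivity) hfull (by
          rw [sub_zero]; exact NT_of_near e7 (by omega) hz1) (fun v _ => hen v)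
        (fun v => (hz2 v).le)
      rwa [sub_zero] at h1
    have h2 := norm_FF_ge hF N p c hp z (11 * τ₀) e8 hnear
    refine le_trans (le_of_eq ?_) h2
    rw [← Real.exp_add]
    congr 1
    have h3 : 200 * (n : ℝ) ^ 2 * (3 * (11 * τ₀)) ^ 4 = C' * Real.log n ^ 2 := by
      have h4 : (3 * (11 * τ₀)) ^ 4 = 66 ^ 4 * (Real.log n / n) ^ 2 := by
        have h5 : √(Real.log n / n) ^ 4 = (Real.log n / n) ^ 2 := by
          have h6 : √(Real.log n / n) ^ 4 = (√(Real.log n / n) ^ 2) ^ 2 := by ring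
          rw [h6, Real.sq_sqrt (div_nonneg (by linarith) hpos.le)]
        rw [hτ₀]
        calc (3 * (11 * (2 * √(Real.log n / n)))) ^ 4 = 66 ^ 4 * √(Real.log n / n) ^ 4 := by ring
          _ = _ := by rw [h5]
      rw [h4, hC']
      field_simp
    rw [h3]
    ring
  -- final comparison
  have hre : (∑ x : Pt n q, FF N p c x).re = ∑ x : Pt n q, (FF N p c x).re := Complex.re_sum _ _
  have hsplit : ∑ x : Pt n q, (FF N p c x).re =
      ∑ x ∈ univ.filter (fun x => x ∈ NL), (FF N p c x).re +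
        ∑ x ∈ univ.filter (fun x => x ∉ NL), (FF N p c x).re := by
    have h := Finset.sum_filter_add_sum_filter_not univ (fun x => x ∈ NL)
      (fun x => (FF N p c x).re)
    rw [← h]
  rw [hre, hsplit]
  have h1 : -(Real.exp (-(Ku * Real.log n ^ 2)) * Z) ≤
      ∑ x ∈ univ.filter (fun x => x ∈ NL), (FF N p c x).re := by
    have h2 : ∑ x ∈ univ.filter (fun x => x ∈ NL), -(f x) ≤
        ∑ x ∈ univ.filter (fun x => x ∈ NL), (FF N p c x).re := by
      refine Finset.sum_le_sum fun x _ => ?_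
      have h3 := norm_FF_le hF N p c hp x
      have h4 := Complex.abs_re_le_norm (FF N p c x)
      have h5 := neg_abs_le (FF N p c x).re
      show -(Real.exp (-N.en β x)) ≤ _
      linarith
    rw [Finset.sum_neg_distrib, Finset.filter_mem_eq_inter, Finset.univ_inter] at h2
    rw [Finset.filter_mem_eq_inter, Finset.univ_inter]
    linarith
  have h2 : 1 / 4 * (Real.exp (-(C' * Real.log n ^ 2)) * Z) ≤
      ∑ x ∈ univ.filter (fun x => x ∉ NL), (FF N p c x).re := by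
    have hsub : In ⊆ univ.filter (fun x => x ∉ NL) := by
      intro z hz
      simp only [hIn, mem_filter, mem_univ, true_and] at hz
      simp only [hNL, mem_filter, mem_univ, true_and, not_not]
      refine ⟨0, coordMin_zero N hW.nonneg, by rw [full_zero]; positivity, ?_, by
        rw [sub_zero]; exact hz.1⟩
      have : N.en β (0 : Pt n q) = 0 := by
        unfold Net.en
        refine Finset.sum_eq_zero fun e _ => ?_
        rw [y_zero, cst_zero, mul_zero]
      rw [this, hKu]; positivity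
    have h3 : ∑ x ∈ In, (FF N p c x).re ≤ ∑ x ∈ univ.filter (fun x => x ∉ NL), (FF N p c x).re := by
      refine Finset.sum_le_sum_of_subset_of_nonneg hsub fun x hx _ => ?_
      simp only [mem_filter, mem_univ, true_and] at hx
      have := hposi x hx
      linarith [norm_nonneg (FF N p c x)]
    have h4 : ∑ x ∈ In, 1 / 2 * (Real.exp (-(C' * Real.log n ^ 2)) * f x) ≤
        ∑ x ∈ In, (FF N p c x).re := by
      refine Finset.sum_le_sum fun x hx => ?_
      have h5 := hposi x (by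
        have := hsub hx
        simpa using this)
      have h6 := hInner x hx
      exact (mul_le_mul_of_nonneg_left h6 (by norm_num)).trans h5
    rw [← Finset.mul_sum, ← Finset.mul_sum] at h4
    have h7 : 0 ≤ Real.exp (-(C' * Real.log n ^ 2)) := Real.exp_nonneg _
    calc 1 / 4 * (Real.exp (-(C' * Real.log n ^ 2)) * Z)
        = 1 / 2 * (Real.exp (-(C' * Real.log n ^ 2)) * (1 / 2 * Z)) := by ring
      _ ≤ 1 / 2 * (Real.exp (-(C' * Real.log n ^ 2)) * ∑ z ∈ In, f z) :=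
          mul_le_mul_of_nonneg_left (mul_le_mul_of_nonneg_left hInZ h7) (by norm_num)
      _ ≤ _ := h4.trans h3
  have h3 : Real.exp (-(Ku * Real.log n ^ 2)) < 1 / 4 * Real.exp (-(C' * Real.log n ^ 2)) := by
    have h4 : -(Ku * Real.log n ^ 2) ≤ -2 + -(C' * Real.log n ^ 2) := by
      rw [hKu, hC']
      nlinarith
    have h5 : Real.exp (-2) < 1 / 4 := by
      rw [Real.exp_neg, one_div]
      apply inv_strictAnti₀ (by norm_num)
      have h2 : Real.exp 2 = Real.exp 1 * Real.exp 1 := by rw [← Real.exp_add]; norm_num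
      have h3 := Real.exp_one_gt_d9
      rw [h2]; nlinarith
    calc Real.exp (-(Ku * Real.log n ^ 2)) ≤ Real.exp (-2 + -(C' * Real.log n ^ 2)) :=
          Real.exp_le_exp.mpr h4
      _ = Real.exp (-2) * Real.exp (-(C' * Real.log n ^ 2)) := Real.exp_add _ _
      _ < _ := mul_lt_mul_of_pos_right h5 (Real.exp_pos _)
  have h4 : Real.exp (-(Ku * Real.log n ^ 2)) * Z <
      1 / 4 * (Real.exp (-(C' * Real.log n ^ 2)) * Z) := by
    rw [← mul_assoc]
    exact mul_lt_mul_of_pos_right h3 hZpos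
  have h5 : 0 < -(Real.exp (-(Ku * Real.log n ^ 2)) * Z) +
      1 / 4 * (Real.exp (-(C' * Real.log n ^ 2)) * Z) := by
    rw [neg_add_eq_sub]
    exact sub_pos.mpr h4
  exact lt_of_lt_of_le h5 (add_le_add h1 h2)

end

end Pool.Agent.Lib.MP_185394_co.Up
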