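import Pool.Agent.Lib.MP_185394_co.Up.Defs

/-! Basic facts used by all modules. -/

namespace Pool.Agent.Lib.MP_185394_co.Up

open Finset

noncomputable section

set_option linter.unusedSectionVars false

variable {n q : ℕ} [NeZero q]

/-! ### lifts -/

lemma q_pos' : (0 : ℝ) < q := by
  have := NeZero.pos q
  exact_mod_cast this

lemma lift_zero : lift (0 : ZMod q) = 0 := by simp [lift]

lemma lift_mem (t : ZMod q) : -(1 / 2) < lift t ∧ lift t ≤ 1 / 2 := by
  have hq : (0 : ℝ) < q := q_pos'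
  have h := t.valMinAbs_mem_Ioc
  rw [Set.mem_Ioc] at h
  unfold lift
  constructor
  · rw [lt_div_iff₀ hq]
    have h1 : (-(q : ℤ) : ℤ) < t.valMinAbs * 2 := h.1
    have h2 : (-(q : ℝ)) < (t.valMinAbs : ℝ) * 2 := by exact_mod_cast h1
    linarith
  · rw [div_le_iff₀ hq]
    have h1 : t.valMinAbs * 2 ≤ (q : ℤ) := h.2
    have h2 : (t.valMinAbs : ℝ) * 2 ≤ (q : ℝ) := by exact_mod_cast h1
    linarith

lemma abs_lift_le (t : ZMod q) : |lift t| ≤ 1 / 2 := by
  rw [abs_le]
  exact ⟨(lift_mem t).1.le, (lift_mem t).2⟩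

lemma lift_of_int (t : ZMod q) (a : ℤ) (h : (a : ZMod q) = t) : ∃ m : ℤ, lift t = (a : ℝ) / q + m := by
  have hq : (0 : ℝ) < q := q_pos'
  have h1 : ((t.valMinAbs : ℤ) : ZMod q) = (a : ZMod q) := by
    rw [h]; exact t.coe_valMinAbs
  have h2 := (ZMod.intCast_eq_intCast_iff_dvd_sub _ _ q).mp h1
  obtain ⟨m, hm⟩ := h2
  refine ⟨-m, ?_⟩
  have h3 : ((a : ℤ) : ℝ) - (t.valMinAbs : ℝ) = q * m := by exact_mod_cast hm
  unfold lift
  field_simp
  push_cast
  linarith

lemma lift_add (s t : ZMod q) : ∃ m : ℤ, lift (s + t) = lift s + lift t + m := by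
  obtain ⟨m, hm⟩ := lift_of_int (s + t) (s.valMinAbs + t.valMinAbs)
    (by simp)
  refine ⟨m, ?_⟩
  rw [hm]; unfold lift; push_cast; ring

lemma lift_neg (s : ZMod q) : ∃ m : ℤ, lift (-s) = -lift s + m := by
  obtain ⟨m, hm⟩ := lift_of_int (-s) (-s.valMinAbs) (by simp)
  refine ⟨m, ?_⟩
  rw [hm]; unfold lift; push_cast; ring

lemma lift_sub (s t : ZMod q) : ∃ m : ℤ, lift (s - t) = lift s - lift t + m := by
  obtain ⟨m, hm⟩ := lift_of_int (s - t) (s.valMinAbs - t.valMinAbs)
    (by simp)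
  refine ⟨m, ?_⟩
  rw [hm]; unfold lift; push_cast; ring

lemma lift_zsmul (a : ℤ) (s : ZMod q) : ∃ m : ℤ, lift (a • s) = a * lift s + m := by
  obtain ⟨m, hm⟩ := lift_of_int (a • s) (a * s.valMinAbs)
    (by simp)
  refine ⟨m, ?_⟩
  rw [hm]; unfold lift; push_cast; ring

lemma lift_sum {ι : Type*} (s : Finset ι) (f : ι → ZMod q) :
    ∃ m : ℤ, lift (∑ i ∈ s, f i) = ∑ i ∈ s, lift (f i) + m := by
  classical
  induction s using Finset.induction_on with
  | empty => exact ⟨0, by simp [lift]⟩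
  | insert a s ha ih =>
    obtain ⟨m, hm⟩ := ih
    obtain ⟨m', hm'⟩ := lift_add (f a) (∑ i ∈ s, f i)
    refine ⟨m + m', ?_⟩
    rw [Finset.sum_insert ha, Finset.sum_insert ha, hm', hm]
    push_cast; ring

/-- the lift is the unique representative of absolute value `< 1/2` -/
lemma lift_unique {t : ZMod q} {r : ℝ} (hr : |r| < 1 / 2) (h : ∃ m : ℤ, lift t = r + m) :
    lift t = r := by
  obtain ⟨m, hm⟩ := h
  have h1 := lift_mem t
  have h2 := abs_lt.mp hr
  have h3 : (-1 : ℝ) < m := by linarith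
  have h4 : (m : ℝ) < 1 := by linarith
  have h5 : m = 0 := by
    have h3' : (-1 : ℤ) < m := by exact_mod_cast h3
    have h4' : m < 1 := by exact_mod_cast h4
    omega
  rw [hm, h5]; simp

/-! ### phases -/

lemma ph_eq_of_lift {t : ZMod q} {r : ℝ} (h : ∃ m : ℤ, lift t = r + m) :
    ph t = Complex.exp (2 * Real.pi * Complex.I * (r : ℂ)) := by
  obtain ⟨m, hm⟩ := h
  unfold ph
  rw [hm]
  push_cast
  rw [mul_add, Complex.exp_add]
  have : Complex.exp (2 * Real.pi * Complex.I * (m : ℂ)) = 1 := by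
    rw [Complex.exp_eq_one_iff]
    exact ⟨m, by ring⟩
  rw [this, mul_one]

lemma ph_zero : ph (0 : ZMod q) = 1 := by simp [ph, lift_zero]

lemma ph_add (s t : ZMod q) : ph (s + t) = ph s * ph t := by
  rw [ph_eq_of_lift (r := lift s + lift t) (lift_add s t)]
  unfold ph
  rw [← Complex.exp_add]
  congr 1
  push_cast; ring

lemma norm_ph (t : ZMod q) : ‖ph t‖ = 1 := by
  unfold ph
  rw [show (2 * Real.pi * Complex.I * (lift t : ℂ)) = ((2 * Real.pi * lift t : ℝ) : ℂ) * Complex.I by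
    push_cast; ring]
  exact Complex.norm_exp_ofReal_mul_I _

lemma ph_ne_zero (t : ZMod q) : ph t ≠ 0 := by
  intro h
  have := norm_ph t
  rw [h] at this
  simp at this

lemma ph_neg (t : ZMod q) : ph (-t) = (starRingEnd ℂ) (ph t) := by
  rw [ph_eq_of_lift (r := -lift t) (lift_neg t)]
  unfold ph
  rw [← Complex.exp_conj]
  congr 1
  simp only [map_mul, Complex.conj_ofReal, Complex.conj_I, map_ofNat]
  push_cast; ring

lemma ph_sub (s t : ZMod q) : ph (s - t) = ph s * (starRingEnd ℂ) (ph t) := by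
  rw [sub_eq_add_neg, ph_add, ph_neg]

lemma ph_mul_conj (t : ZMod q) : ph t * (starRingEnd ℂ) (ph t) = 1 := by
  rw [← ph_neg, ← ph_add]; simp [ph_zero]

lemma ph_sum {ι : Type*} (s : Finset ι) (f : ι → ZMod q) :
    ph (∑ i ∈ s, f i) = ∏ i ∈ s, ph (f i) := by
  classical
  induction s using Finset.induction_on with
  | empty => simp [ph_zero]
  | insert a s ha ih => rw [Finset.sum_insert ha, Finset.prod_insert ha, ph_add, ih]

lemma ph_nsmul (k : ℕ) (t : ZMod q) : ph (k • t) = ph t ^ k := by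
  induction k with
  | zero => simp [ph_zero]
  | succ k ih => rw [succ_nsmul, ph_add, ih, pow_succ]

lemma ph_re (t : ZMod q) : (ph t).re = Real.cos (2 * Real.pi * lift t) := by
  unfold ph
  rw [show (2 * Real.pi * Complex.I * (lift t : ℂ)) = ((2 * Real.pi * lift t : ℝ) : ℂ) * Complex.I by
    push_cast; ring]
  exact Complex.exp_ofReal_mul_I_re _

lemma ph_im (t : ZMod q) : (ph t).im = Real.sin (2 * Real.pi * lift t) := by
  unfold ph
  rw [show (2 * Real.pi * Complex.I * (lift t : ℂ)) = ((2 * Real.pi * lift t : ℝ) : ℂ) * Complex.I by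
    push_cast; ring]
  exact Complex.exp_ofReal_mul_I_im _

lemma cst_eq (t : ZMod q) : cst t = 1 - (ph t).re := by rw [ph_re, cst]

lemma cst_eq_of_lift {t : ZMod q} {r : ℝ} (h : ∃ m : ℤ, lift t = r + m) :
    cst t = 1 - Real.cos (2 * Real.pi * r) := by
  obtain ⟨m, hm⟩ := h
  unfold cst
  rw [hm, show 2 * Real.pi * (r + m) = 2 * Real.pi * r + m * (2 * Real.pi) by ring,
    Real.cos_add_int_mul_two_pi]

lemma sin_eq_of_lift {t : ZMod q} {r : ℝ} (h : ∃ m : ℤ, lift t = r + m) :
    Real.sin (2 * Real.pi * lift t) = Real.sin (2 * Real.pi * r) := by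
  obtain ⟨m, hm⟩ := h
  rw [hm, show 2 * Real.pi * (r + m) = 2 * Real.pi * r + m * (2 * Real.pi) by ring,
    Real.sin_add_int_mul_two_pi]

lemma norm_ph_sub_one_sq (t : ZMod q) : ‖ph t - 1‖ ^ 2 = 2 * cst t := by
  have h1 : ‖ph t‖ ^ 2 = 1 := by rw [norm_ph]; norm_num
  rw [← Complex.normSq_eq_norm_sq, Complex.normSq_apply] at h1 ⊢
  rw [cst_eq]
  simp only [Complex.sub_re, Complex.one_re, Complex.sub_im, Complex.one_im, sub_zero]
  nlinarith

lemma norm_ph_sub_sq (s t : ZMod q) : ‖ph s - ph t‖ ^ 2 = 2 * cst (s - t) := by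
  rw [← norm_ph_sub_one_sq, ph_sub]
  have : ph s * (starRingEnd ℂ) (ph t) - 1 = (ph s - ph t) * (starRingEnd ℂ) (ph t) := by
    rw [sub_mul, ph_mul_conj]
  rw [this, norm_mul, RCLike.norm_conj, norm_ph, mul_one]

lemma cst_nonneg (t : ZMod q) : 0 ≤ cst t := by
  unfold cst
  linarith [Real.cos_le_one (2 * Real.pi * lift t)]

lemma cst_le_two (t : ZMod q) : cst t ≤ 2 := by
  unfold cst
  linarith [Real.neg_one_le_cos (2 * Real.pi * lift t)]

lemma cst_zero : cst (0 : ZMod q) = 0 := by simp [cst, lift_zero]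

lemma one_sub_cos_le (s : ℝ) : 1 - Real.cos (2 * Real.pi * s) ≤ 2 * Real.pi ^ 2 * s ^ 2 := by
  have := Real.one_sub_sq_div_two_le_cos (x := 2 * Real.pi * s)
  nlinarith

lemma one_sub_cos_ge {s : ℝ} (hs : |s| ≤ 1 / 2) : 8 * s ^ 2 ≤ 1 - Real.cos (2 * Real.pi * s) := by
  have h2 : |2 * Real.pi * s| ≤ Real.pi := by
    rw [abs_mul, abs_of_pos (by positivity : (0:ℝ) < 2 * Real.pi)]
    nlinarith [Real.pi_pos, abs_nonneg s]
  have h3 := Real.cos_le_one_sub_mul_cos_sq h2
  have h4 : 2 / Real.pi ^ 2 * (2 * Real.pi * s) ^ 2 = 8 * s ^ 2 := by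
    have := Real.pi_pos.ne'
    field_simp
    ring
  linarith

lemma cst_le (t : ZMod q) : cst t ≤ 2 * Real.pi ^ 2 * lift t ^ 2 := one_sub_cos_le _

lemma cst_ge (t : ZMod q) : 8 * lift t ^ 2 ≤ cst t := one_sub_cos_ge (abs_lift_le t)

/-! ### sums over a net -/

lemma on_card_aux (N : Net n) (i j : Fin 3) (hij : i ≠ j) {M : Type*} [AddCommMonoid M]
    (v : Fin n) (f : Fin n → M) :
    ∑ e ∈ N.on (i, v), f (N.idx j e) = ∑ w, f w := by
  classical
  refine Finset.sum_bij (fun e _ => N.idx j e) (fun _ _ => mem_univ _) ?_ ?_ (fun _ _ => rfl)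
  · intro e he e' he' h
    simp only [Net.on, mem_filter, mem_univ, true_and] at he he'
    exact (N.bij i j hij).1 (by simp [he, he', h])
  · intro w _
    obtain ⟨e, he⟩ := (N.bij i j hij).2 (v, w)
    simp only [Prod.mk.injEq] at he
    exact ⟨e, by simp [Net.on, he.1], he.2⟩

/-- on a line of type `i`, the index of type `j ≠ i` takes each value once -/
lemma sum_on_other (N : Net n) {M : Type*} [AddCommMonoid M] (v : Line n) (j : Fin 3)
    (hj : v.1 ≠ j) (f : Fin n → M) : ∑ e ∈ N.on v, f (N.idx j e) = ∑ w, f w :=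
  on_card_aux N v.1 j hj v.2 f

lemma exists_ne_type (i : Fin 3) : ∃ j : Fin 3, i ≠ j := by
  fin_cases i
  · exact ⟨1, by decide⟩
  · exact ⟨0, by decide⟩
  · exact ⟨0, by decide⟩

lemma card_on (N : Net n) (v : Line n) : (N.on v).card = n := by
  obtain ⟨j, hj⟩ := exists_ne_type v.1
  have := sum_on_other N v j hj (fun _ => (1 : ℕ))
  simpa using this

lemma mem_on (N : Net n) (v : Line n) (e : Cell n) : e ∈ N.on v ↔ N.ln v.1 e = v := by
  unfold Net.on Net.ln
  simp only [mem_filter, mem_univ, true_and]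
  constructor
  · intro h; rw [h]
  · intro h
    have := congrArg Prod.snd h
    simpa using this

lemma mem_on_ln (N : Net n) (i : Fin 3) (e : Cell n) : e ∈ N.on (N.ln i e) := by
  rw [mem_on]; rfl

/-- summing over the lines of type `i` and the cells on them is summing over the cells -/
lemma sum_type_on (N : Net n) {M : Type*} [AddCommMonoid M] (i : Fin 3)
    (f : Cell n → M) : ∑ v : Fin n, ∑ e ∈ N.on (i, v), f e = ∑ e, f e := by
  unfold Net.on
  exact Finset.sum_fiberwise (s := univ) (g := fun e => N.idx i e) (f := f)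

lemma sum_line_on (N : Net n) {M : Type*} [AddCommMonoid M] (f : Line n → Cell n → M) :
    ∑ v : Line n, ∑ e ∈ N.on v, f v e = ∑ e, ∑ i, f (N.ln i e) e := by
  classical
  rw [Finset.sum_comm (s := univ) (t := univ) (f := fun e i => f (N.ln i e) e),
    Fintype.sum_prod_type]
  refine Finset.sum_congr rfl fun i _ => ?_
  rw [← sum_type_on N i (fun e => f (N.ln i e) e)]
  refine Finset.sum_congr rfl fun v _ => Finset.sum_congr rfl fun e he => ?_
  have : N.ln i e = (i, v) := (mem_on N (i, v) e).mp he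
  rw [this]

lemma sum_line_on' (N : Net n) {M : Type*} [AddCommMonoid M] (f : Cell n → M) :
    ∑ v : Line n, ∑ e ∈ N.on v, f e = 3 • ∑ e, f e := by
  rw [sum_line_on N (fun _ e => f e)]
  simp [Finset.sum_const, Finset.smul_sum]

/-- for `i ≠ j` all pairs of indices occur exactly once -/
lemma sum_pair (N : Net n) {R : Type*} [CommSemiring R] (i j : Fin 3) (hij : i ≠ j)
    (f g : Fin n → R) : ∑ e, f (N.idx i e) * g (N.idx j e) = (∑ v, f v) * ∑ v, g v := by
  rw [Finset.sum_mul_sum, ← Fintype.sum_prod_type']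
  exact Fintype.sum_bijective (fun e : Cell n => (N.idx i e, N.idx j e)) (N.bij i j hij) _ _
    (fun _ => rfl)

lemma sum_idx (N : Net n) (i : Fin 3) (f : Fin n → ℝ) :
    ∑ e, f (N.idx i e) = n * ∑ v, f v := by
  rw [← sum_type_on N i, Finset.mul_sum]
  refine Finset.sum_congr rfl fun v _ => ?_
  have h : ∀ e ∈ N.on (i, v), f (N.idx i e) = f v := by
    intro e he
    simp only [Net.on, mem_filter, mem_univ, true_and] at he
    rw [he]
  rw [Finset.sum_congr rfl h, Finset.sum_const, card_on, nsmul_eq_mul]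

lemma sum_idx_complex (N : Net n) (i : Fin 3) (f : Fin n → ℂ) :
    ∑ e, f (N.idx i e) = n * ∑ v, f v := by
  rw [← sum_type_on N i, Finset.mul_sum]
  refine Finset.sum_congr rfl fun v _ => ?_
  have h : ∀ e ∈ N.on (i, v), f (N.idx i e) = f v := by
    intro e he
    simp only [Net.on, mem_filter, mem_univ, true_and] at he
    rw [he]
  rw [Finset.sum_congr rfl h, Finset.sum_const, card_on, nsmul_eq_mul]

/-! ### the maps `y` and `A` -/

omit [NeZero q] in
lemma y_add (N : Net n) (x x' : Pt n q) (e : Cell n) : N.y (x + x') e = N.y x e + N.y x' e := by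
  simp [Net.y, Finset.sum_add_distrib]

omit [NeZero q] in
lemma y_sub (N : Net n) (x x' : Pt n q) (e : Cell n) : N.y (x - x') e = N.y x e - N.y x' e := by
  simp [Net.y, Finset.sum_sub_distrib]

omit [NeZero q] in
lemma y_neg (N : Net n) (x : Pt n q) (e : Cell n) : N.y (-x) e = -N.y x e := by
  simp [Net.y]

omit [NeZero q] in
lemma y_zero (N : Net n) (e : Cell n) : N.y (0 : Pt n q) e = 0 := by
  simp [Net.y]

omit [NeZero q] in
lemma y_zsmul (N : Net n) (a : ℤ) (x : Pt n q) (e : Cell n) : N.y (a • x) e = a • N.y x e := by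
  simp [Net.y, Finset.mul_sum]

omit [NeZero q] in
lemma y_sum (N : Net n) {ι : Type*} (s : Finset ι) (f : ι → Pt n q) (e : Cell n) :
    N.y (∑ i ∈ s, f i) e = ∑ i ∈ s, N.y (f i) e := by
  simp only [Net.y, Finset.sum_apply]
  rw [Finset.sum_comm]

lemma A_add (N : Net n) (u u' : RPt n) (e : Cell n) : N.A (u + u') e = N.A u e + N.A u' e := by
  simp [Net.A, Finset.sum_add_distrib]

lemma A_sub (N : Net n) (u u' : RPt n) (e : Cell n) : N.A (u - u') e = N.A u e - N.A u' e := by
  simp [Net.A, Finset.sum_sub_distrib]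

lemma A_smul (N : Net n) (c : ℝ) (u : RPt n) (e : Cell n) : N.A (c • u) e = c * N.A u e := by
  simp [Net.A, Finset.mul_sum]

lemma A_zero (N : Net n) (e : Cell n) : N.A 0 e = 0 := by simp [Net.A]

/-- pairing of a function on the cells with `A u` -/
lemma sum_mul_A (N : Net n) (p : Cell n → ℝ) (u : RPt n) :
    ∑ e, p e * N.A u e = ∑ v, u v * ∑ e ∈ N.on v, p e := by
  have h := sum_line_on N (fun v e => u v * p e)
  simp only [← Finset.mul_sum] at h
  rw [h]
  refine Finset.sum_congr rfl fun e _ => ?_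
  rw [Net.A, Finset.mul_sum]
  exact Finset.sum_congr rfl fun i _ => mul_comm _ _

/-- sum of `A u` over a line -/
lemma sum_on_A (N : Net n) (u : RPt n) (v : Line n) :
    ∑ e ∈ N.on v, N.A u e = n * u v + ∑ j ∈ univ.filter (fun j : Fin 3 => j ≠ v.1), ∑ w, u (j, w) := by
  classical
  unfold Net.A
  rw [Finset.sum_comm]
  rw [← Finset.add_sum_erase univ _ (mem_univ v.1)]
  congr 1
  · have h : ∀ e ∈ N.on v, u (N.ln v.1 e) = u v := fun e he => by rw [(mem_on N v e).mp he]
    rw [Finset.sum_congr rfl h, Finset.sum_const, card_on, nsmul_eq_mul]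
  · have : univ.erase v.1 = univ.filter (fun j : Fin 3 => j ≠ v.1) := by
      ext j; simp
    rw [this]
    refine Finset.sum_congr rfl fun j hj => ?_
    simp only [mem_filter, mem_univ, true_and] at hj
    exact sum_on_other N v j (Ne.symm hj) (fun w => u (j, w))

/-- values of a point near a gauge vector -/
lemma lift_y_of (N : Net n) (z : Pt n q) (t : Fin 3 → ℝ) (u : RPt n) (ht : t 0 + t 1 + t 2 = 0)
    (h : ∀ v, ∃ m : ℤ, lift (z v) = t v.1 + u v + m) (e : Cell n) :
    ∃ m : ℤ, lift (N.y z e) = N.A u e + m := by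
  choose m hm using h
  obtain ⟨m', hm'⟩ := lift_sum univ (fun i => z (N.ln i e))
  refine ⟨m' + ∑ i, m (N.ln i e), ?_⟩
  unfold Net.y Net.A
  rw [hm']
  have : ∀ i, lift (z (N.ln i e)) = t i + u (N.ln i e) + m (N.ln i e) := fun i => hm _
  simp only [this, Finset.sum_add_distrib, Fin.sum_univ_three]
  push_cast
  linarith

/-! ### energies -/

lemma full_eq (N : Net n) (x : Pt n q) : N.full x = N.en (fun _ => 1) x := by
  simp [Net.full, Net.en]

lemma full_nonneg (N : Net n) (x : Pt n q) : 0 ≤ N.full x :=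
  Finset.sum_nonneg fun _ _ => cst_nonneg _

lemma en_nonneg (N : Net n) {β : Cell n → ℝ} (hβ : ∀ e, 0 ≤ β e) (x : Pt n q) : 0 ≤ N.en β x :=
  Finset.sum_nonneg fun e _ => mul_nonneg (hβ e) (cst_nonneg _)

lemma lineEn_nonneg (N : Net n) {β : Cell n → ℝ} (hβ : ∀ e, 0 ≤ β e) (x : Pt n q) (v : Line n) :
    0 ≤ N.lineEn β x v :=
  Finset.sum_nonneg fun e _ => mul_nonneg (hβ e) (cst_nonneg _)

lemma sum_lineEn (N : Net n) (β : Cell n → ℝ) (x : Pt n q) (i : Fin 3) :
    ∑ v : Fin n, N.lineEn β x (i, v) = N.en β x := sum_type_on N i _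

lemma sum_lineEn' (N : Net n) (β : Cell n → ℝ) (x : Pt n q) :
    ∑ v : Line n, N.lineEn β x v = 3 * N.en β x := by
  have := sum_line_on' N (fun e => β e * cst (N.y x e))
  rw [nsmul_eq_mul] at this
  exact_mod_cast this

lemma full_le (N : Net n) {β : Cell n → ℝ} (hβ : ∀ e, β e ≤ 1 / 4) (x : Pt n q) :
    N.full x ≤ 4 * N.en β x + 8 * ∑ e, (1 / 4 - β e) := by
  unfold Net.full Net.en
  rw [Finset.mul_sum, Finset.mul_sum, ← Finset.sum_add_distrib]
  refine Finset.sum_le_sum fun e _ => ?_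
  have h1 := cst_nonneg (N.y x e)
  have h2 := cst_le_two (N.y x e)
  have h3 := hβ e
  nlinarith

lemma cst_sub_le (s t : ZMod q) : cst (s - t) ≤ 2 * (cst s + cst t) := by
  have h1 := norm_ph_sub_sq s t
  have h2 : ‖ph s - ph t‖ ≤ ‖ph s - 1‖ + ‖ph t - 1‖ := by
    have : ph s - ph t = (ph s - 1) - (ph t - 1) := by ring
    rw [this]
    exact norm_sub_le _ _
  have h3 := norm_ph_sub_one_sq s
  have h4 := norm_ph_sub_one_sq t
  have h5 := norm_nonneg (ph s - ph t)
  nlinarith [sq_nonneg (‖ph s - 1‖ - ‖ph t - 1‖), norm_nonneg (ph s - 1), norm_nonneg (ph t - 1)]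

lemma cst_neg (t : ZMod q) : cst (-t) = cst t := by
  rw [cst_eq, cst_eq, ph_neg, Complex.conj_re]

lemma cst_add_le (s t : ZMod q) : cst (s + t) ≤ 2 * (cst s + cst t) := by
  have := cst_sub_le s (-t)
  rwa [sub_neg_eq_add, cst_neg] at this

lemma en_sub_le (N : Net n) {β : Cell n → ℝ} (hβ : ∀ e, 0 ≤ β e) (x x' : Pt n q) :
    N.en β (x - x') ≤ 2 * (N.en β x + N.en β x') := by
  unfold Net.en
  rw [← Finset.sum_add_distrib, Finset.mul_sum]
  refine Finset.sum_le_sum fun e _ => ?_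
  rw [y_sub]
  nlinarith [cst_sub_le (N.y x e) (N.y x' e), hβ e]

lemma full_sub_le (N : Net n) (x x' : Pt n q) :
    N.full (x - x') ≤ 2 * (N.full x + N.full x') := by
  simp only [full_eq]
  exact en_sub_le N (fun _ => zero_le_one) x x'

lemma full_neg (N : Net n) (x : Pt n q) : N.full (-x) = N.full x := by
  unfold Net.full
  exact Finset.sum_congr rfl fun e _ => by rw [y_neg, cst_neg]

lemma full_le_Phi (N : Net n) (M : Finset (Line n)) (x : Pt n q) :
    N.full x ≤ 2 * Real.pi ^ 2 * N.Phi M x + 2 * (N.dead M).card := by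
  classical
  unfold Net.full Net.Phi
  rw [← Finset.sum_add_sum_compl (N.dead M), add_comm]
  refine add_le_add ?_ ?_
  · rw [Finset.mul_sum]
    exact Finset.sum_le_sum fun e _ => cst_le _
  · have : ∀ e ∈ N.dead M, cst (N.y x e) ≤ 2 := fun e _ => cst_le_two _
    calc ∑ e ∈ N.dead M, cst (N.y x e) ≤ ∑ _e ∈ N.dead M, (2 : ℝ) := Finset.sum_le_sum this
      _ = 2 * (N.dead M).card := by rw [Finset.sum_const, nsmul_eq_mul]; ring

/-- a line which is not in `M` has no dead cells; every line has at most `|M|` dead cells -/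
lemma card_dead_on (N : Net n) (M : Finset (Line n)) (v : Line n) :
    ((N.on v) ∩ N.dead M).card ≤ M.card := by
  classical
  obtain ⟨j, hj⟩ := exists_ne_type v.1
  refine Finset.card_le_card_of_injOn (fun e => N.ln j e) ?_ ?_
  · intro e he
    simp only [coe_inter, Set.mem_inter_iff, mem_coe] at he
    have := he.2
    simp only [Net.dead, mem_filter, mem_univ, true_and] at this
    exact this j
  · intro e he e' he' h
    simp only [coe_inter, Set.mem_inter_iff, mem_coe] at he he'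
    have h1 := (mem_on N v e).mp he.1
    have h2 := (mem_on N v e').mp he'.1
    have h3 : N.idx v.1 e = N.idx v.1 e' := by
      have := h1.trans h2.symm
      exact congrArg Prod.snd this
    have h4 : N.idx j e = N.idx j e' := congrArg Prod.snd h
    exact (N.bij v.1 j hj).1 (by simp [h3, h4])

lemma card_dead (N : Net n) (M : Finset (Line n)) : (N.dead M).card ≤ M.card ^ 2 := by
  classical
  rw [sq, ← Finset.card_product]
  refine Finset.card_le_card_of_injOn (fun e => (N.ln 0 e, N.ln 1 e)) ?_ ?_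
  · intro e he
    simp only [mem_coe, Net.dead, mem_filter, mem_univ, true_and] at he
    simp [he 0, he 1]
  · intro e _ e' _ h
    simp only [Prod.mk.injEq] at h
    have h1 : N.idx 0 e = N.idx 0 e' := congrArg Prod.snd h.1
    have h2 : N.idx 1 e = N.idx 1 e' := congrArg Prod.snd h.2
    exact (N.bij 0 1 (by decide)).1 (by simp [h1, h2])

/-! ### means -/

lemma norm_mean_le (x : Pt n q) (i : Fin 3) : ‖mean x i‖ ≤ 1 := by
  unfold mean
  rw [norm_div, Complex.norm_natCast]
  rcases Nat.eq_zero_or_pos n with h | h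
  · subst h; simp
  · rw [div_le_one (by exact_mod_cast h)]
    calc ‖∑ v : Fin n, ph (x (i, v))‖ ≤ ∑ v : Fin n, ‖ph (x (i, v))‖ := norm_sum_le _ _
      _ = n := by simp [norm_ph]

lemma mean_zero (hn : 0 < n) (i : Fin 3) : mean (0 : Pt n q) i = 1 := by
  unfold mean
  simp only [Pi.zero_apply, ph_zero, Finset.sum_const, Finset.card_univ, Fintype.card_fin,
    nsmul_eq_mul, mul_one]
  have : (n : ℂ) ≠ 0 := by exact_mod_cast hn.ne'
  field_simp

lemma NT_zero (hn : 0 < n) : NT (0 : Pt n q) := by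
  unfold NT
  rw [mean_zero hn]; norm_num

lemma mean_neg (x : Pt n q) (i : Fin 3) : mean (-x) i = (starRingEnd ℂ) (mean x i) := by
  unfold mean
  simp only [Pi.neg_apply, ph_neg, map_div₀, map_sum, Complex.conj_natCast]

lemma NT_neg {x : Pt n q} (h : NT x) : NT (-x) := by
  unfold NT at *
  rw [mean_neg, RCLike.norm_conj]; exact h

lemma NT_sub_comm {x x' : Pt n q} (h : NT (x - x')) : NT (x' - x) := by
  have := NT_neg h
  rwa [neg_sub] at this

end

end Pool.Agent.Lib.MP_185394_co.Up
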