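import Pool.Agent.Lib.MP_185394_co.Up.MinRep

/-! Module K: coordinatewise minimal representatives of the classes of low energy. -/

namespace Pool.Agent.Lib.MP_185394_co.Up

open Finset Filter

noncomputable section

variable {n q : ℕ} [NeZero q]

/-- Module K -/
theorem classes (hW : WelchStatement) (hD3 : TransStatement) : ClassStatement := by
  classical
  unfold ClassStatement
  filter_upwards [hD3, hW, eventually_ge_atTop 4,
    Asymp.mul_rpow_le 8 (a := 1.4) (b := 1.45) (by norm_num),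
    Asymp.mul_rpow_le 16 (a := 1.445) (b := 1.45) (by norm_num)] with n hT hWn hn4 h14 h1445
  intro q _ hq N β hβ hsum
  have hn0 : 0 < n := by omega
  have hfull : ∀ x : Pt n q, N.en β x ≤ (n : ℝ) ^ (1.4 : ℝ) → N.full x ≤ (n : ℝ) ^ (1.45 : ℝ) := by
    intro x hx
    have := full_le N (fun e => (hβ e).2) x
    linarith
  have hrep : ∀ x : Pt n q, ∃ r : Pt n q, N.en β x ≤ (n : ℝ) ^ (1.4 : ℝ) →
      N.en β r ≤ (n : ℝ) ^ (1.4 : ℝ) ∧ NT (r - x) ∧ N.CoordMin β r ∧
      ∀ x', N.en β x' ≤ (n : ℝ) ^ (1.4 : ℝ) → NT (x' - x) → N.en β r ≤ N.en β x' := by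
    intro x
    by_cases hx : N.en β x ≤ (n : ℝ) ^ (1.4 : ℝ)
    · obtain ⟨r, h1, h2, h3, h4⟩ := exists_minRep hn4 N (N.en β) _ hfull (hT q N) x hx
      exact ⟨r, fun _ => ⟨h1, h2, h3, h4⟩⟩
    · exact ⟨x, fun h => absurd h hx⟩
  choose mn hmn using hrep
  -- the candidates
  set T : Finset (Pt n q) :=
    (univ.filter fun x : Pt n q => N.en β x ≤ (n : ℝ) ^ (1.4 : ℝ)).image mn with hTd
  have hTmem : ∀ r ∈ T, ∃ x, N.en β x ≤ (n : ℝ) ^ (1.4 : ℝ) ∧ mn x = r := by
    intro r hr
    rw [hTd, Finset.mem_image] at hr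
    obtain ⟨x, hx, hxr⟩ := hr
    exact ⟨x, by simpa using hx, hxr⟩
  obtain ⟨R, hR, hRmax⟩ := Finset.exists_max_image
    (T.powerset.filter fun R => ∀ x ∈ R, ∀ x' ∈ R, x ≠ x' → ¬ NT (x - x')) Finset.card
    ⟨∅, by simp⟩
  rw [Finset.mem_filter, Finset.mem_powerset] at hR
  obtain ⟨hRT, hRnt⟩ := hR
  refine ⟨R, ?_, ?_, ?_⟩
  · refine hWn q hq N R ?_ hRnt
    intro r hr
    obtain ⟨x, hx, rfl⟩ := hTmem r (hRT hr)
    exact hfull _ (hmn x hx).1
  · intro r hr
    obtain ⟨x, hx, rfl⟩ := hTmem r (hRT hr)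
    exact ⟨(hmn x hx).2.2.1, hfull _ (hmn x hx).1⟩
  · intro x hx
    obtain ⟨m1, m2, -, -⟩ := hmn x hx
    have hmT : mn x ∈ T := by
      rw [hTd]
      exact Finset.mem_image_of_mem _ (by simpa using hx)
    -- some representative near `mn x`
    have hex : ∃ r ∈ R, NT (mn x - r) := by
      by_cases hmR : mn x ∈ R
      · exact ⟨mn x, hmR, NT_sub_self hn0 _⟩
      · by_contra hno
        push Not at hno
        have hins : insert (mn x) R ∈
            T.powerset.filter fun R => ∀ x ∈ R, ∀ x' ∈ R, x ≠ x' → ¬ NT (x - x') := by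
          rw [Finset.mem_filter, Finset.mem_powerset]
          refine ⟨Finset.insert_subset hmT hRT, ?_⟩
          intro a ha b hb hab
          rw [Finset.mem_insert] at ha hb
          rcases ha with rfl | ha <;> rcases hb with rfl | hb
          · exact absurd rfl hab
          · exact hno b hb
          · intro h
            exact hno a ha (NT_sub_comm h)
          · exact hRnt a ha b hb hab
        have := hRmax _ hins
        rw [Finset.card_insert_of_notMem hmR] at this
        omega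
    obtain ⟨r, hr, hnt⟩ := hex
    obtain ⟨x', hx', rfl⟩ := hTmem r (hRT hr)
    obtain ⟨m1', m2', -, m4'⟩ := hmn x' hx'
    have h1 : NT (x - mn x') :=
      hT q N x (mn x) (mn x') (hfull _ hx) (hfull _ m1) (hfull _ m1') (NT_sub_comm m2) hnt
    refine ⟨mn x', hr, h1, m4' x hx ?_⟩
    exact hT q N x (mn x') x' (hfull _ hx) (hfull _ m1') (hfull _ hx') h1 m2'

end

end Pool.Agent.Lib.MP_185394_co.Up
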