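import Pool.Agent.Lib.MP_185394_co.Up.Interfaces

/-!
MP_185394_co, module C: points with a large gradient have small total weight.
-/

namespace Pool.Agent.Lib.MP_185394_co.Up

open Finset

open scoped Classical

noncomputable section

variable {n q : ℕ} [NeZero q]

namespace Conc

omit [NeZero q] in
lemma y_single (N : Net n) (v : Line n) (t : ZMod q) (e : Cell n) :
    N.y (Pi.single v t : Pt n q) e = if e ∈ N.on v then t else 0 := by
  unfold Net.y
  rw [Finset.sum_eq_single v.1]
  · rw [Pi.single_apply]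
    simp only [mem_on]
  · intro i _ hi
    rw [Pi.single_apply, if_neg]
    intro h
    exact hi (congrArg Prod.fst h)
  · simp

/-- the weighted phase sum of a line -/
def w (N : Net n) (β : Cell n → ℝ) (x : Pt n q) (v : Line n) : ℂ :=
  ∑ e ∈ N.on v, (β e : ℂ) * ph (N.y x e)

lemma norm_w_le (N : Net n) {β : Cell n → ℝ} (hβ : ∀ e, 0 ≤ β e ∧ β e ≤ 1 / 4) (x : Pt n q)
    (v : Line n) : ‖w N β x v‖ ≤ n / 4 := by
  unfold w
  calc ‖∑ e ∈ N.on v, (β e : ℂ) * ph (N.y x e)‖ ≤ ∑ e ∈ N.on v, ‖(β e : ℂ) * ph (N.y x e)‖ :=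
        norm_sum_le _ _
    _ ≤ ∑ _e ∈ N.on v, (1 / 4 : ℝ) := by
        refine Finset.sum_le_sum fun e _ => ?_
        rw [norm_mul, norm_ph, mul_one, Complex.norm_real, Real.norm_eq_abs,
          abs_of_nonneg (hβ e).1]
        exact (hβ e).2
    _ = n / 4 := by rw [Finset.sum_const, card_on, nsmul_eq_mul]; ring

lemma ph_mul_w_re (N : Net n) (β : Cell n → ℝ) (x : Pt n q) (v : Line n) (t : ZMod q) :
    (ph t * w N β x v).re = ∑ e ∈ N.on v, β e * (ph (N.y x e + t)).re := by
  unfold w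
  rw [Finset.mul_sum, Complex.re_sum]
  refine Finset.sum_congr rfl fun e _ => ?_
  rw [ph_add, show ph t * ((β e : ℂ) * ph (N.y x e)) = (β e : ℂ) * (ph (N.y x e) * ph t) by ring,
    Complex.re_ofReal_mul]

lemma ph_mul_w_im (N : Net n) (β : Cell n → ℝ) (x : Pt n q) (v : Line n) (t : ZMod q) :
    (ph t * w N β x v).im = ∑ e ∈ N.on v, β e * (ph (N.y x e + t)).im := by
  unfold w
  rw [Finset.mul_sum, Complex.im_sum]
  refine Finset.sum_congr rfl fun e _ => ?_
  rw [ph_add, show ph t * ((β e : ℂ) * ph (N.y x e)) = (β e : ℂ) * (ph (N.y x e) * ph t) by ring,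
    Complex.im_ofReal_mul]

lemma grad_shift (N : Net n) (β : Cell n → ℝ) (x : Pt n q) (v : Line n) (t : ZMod q) :
    N.grad β (x + Pi.single v t) v = (ph t * w N β x v).im := by
  rw [ph_mul_w_im]
  unfold Net.grad
  refine Finset.sum_congr rfl fun e he => ?_
  rw [y_add, y_single, if_pos he, ph_im]

/-- the part of the energy which does not depend on the coordinate `v` -/
def rest (N : Net n) (β : Cell n → ℝ) (x : Pt n q) (v : Line n) : ℝ :=
  ∑ e ∈ (N.on v)ᶜ, β e * cst (N.y x e) + ∑ e ∈ N.on v, β e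

lemma en_shift (N : Net n) (β : Cell n → ℝ) (x : Pt n q) (v : Line n) (t : ZMod q) :
    N.en β (x + Pi.single v t) = rest N β x v - (ph t * w N β x v).re := by
  rw [ph_mul_w_re]
  unfold Net.en rest
  rw [← Finset.sum_add_sum_compl (N.on v), add_comm, add_sub_assoc, ← Finset.sum_sub_distrib]
  congr 1
  · refine Finset.sum_congr rfl fun e he => ?_
    rw [mem_compl] at he
    rw [y_add, y_single, if_neg he, add_zero]
  · refine Finset.sum_congr rfl fun e he => ?_
    rw [y_add, y_single, if_pos he, cst_eq]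
    ring

/-- bad phases -/
lemma bad_le {w : ℂ} {τ : ℝ} (hn : 1 ≤ n) (hw : ‖w‖ ≤ n / 4) (hτ : 0 ≤ τ) {z : ℂ}
    (hz : ‖z‖ = 1) (h : n * τ ≤ |(z * w).im|) : (z * w).re ≤ ‖w‖ - 2 * n * τ ^ 2 := by
  have hn' : (1 : ℝ) ≤ n := by exact_mod_cast hn
  have h1 : ‖z * w‖ = ‖w‖ := by rw [norm_mul, hz, one_mul]
  have h2 : (z * w).re ^ 2 + (z * w).im ^ 2 = ‖w‖ ^ 2 := by
    rw [← h1, ← Complex.normSq_eq_norm_sq, Complex.normSq_apply]; ring
  have h3 : |(z * w).im| ≤ ‖w‖ := by rw [← h1]; exact Complex.abs_im_le_norm _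
  have h4 : (n * τ) ^ 2 ≤ (z * w).im ^ 2 := by
    rw [← sq_abs (z * w).im]
    exact pow_le_pow_left₀ (by positivity) h 2
  have h5 : n * τ ≤ ‖w‖ := h.trans h3
  have h6 : τ ≤ 1 / 4 := by
    have : n * τ ≤ n * (1 / 4) := by linarith
    exact le_of_mul_le_mul_left this (by linarith)
  have h7 : 2 * n * τ ^ 2 ≤ ‖w‖ / 2 := by
    have : n * τ * τ ≤ ‖w‖ * (1 / 4) :=
      mul_le_mul h5 h6 hτ (norm_nonneg _)
    nlinarith
  have h8 : 0 ≤ ‖w‖ - 2 * n * τ ^ 2 := by
    have := norm_nonneg w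
    linarith
  refine abs_le_of_sq_le_sq' ?_ h8 |>.2
  have h9 : 4 * ‖w‖ * (n * τ ^ 2) ≤ n * (n * τ ^ 2) :=
    mul_le_mul_of_nonneg_right (by linarith) (by positivity)
  nlinarith [sq_nonneg (2 * n * τ ^ 2)]

/-- one-dimensional estimate -/
lemma onedim (hn : 1 ≤ n) (hq : 10 * n ^ 2 ≤ q) {w : ℂ} (hw : ‖w‖ ≤ n / 4) {τ : ℝ} (hτ : 0 ≤ τ) :
    ∑ t : ZMod q, (if n * τ ≤ |(ph t * w).im| then Real.exp ((ph t * w).re) else 0) ≤
      20 * n * Real.exp (-(2 * n * τ ^ 2)) * ∑ t : ZMod q, Real.exp ((ph t * w).re) := by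
  have hn' : (1 : ℝ) ≤ n := by exact_mod_cast hn
  have hq0 : (0 : ℝ) < q := q_pos'
  have hq' : 10 * (n : ℝ) ^ 2 ≤ q := by exact_mod_cast hq
  -- upper bound
  have hup : ∑ t : ZMod q, (if n * τ ≤ |(ph t * w).im| then Real.exp ((ph t * w).re) else 0) ≤
      q * Real.exp (‖w‖ - 2 * n * τ ^ 2) := by
    calc ∑ t : ZMod q, (if n * τ ≤ |(ph t * w).im| then Real.exp ((ph t * w).re) else 0) ≤
        ∑ _t : ZMod q, Real.exp (‖w‖ - 2 * n * τ ^ 2) := by
          refine Finset.sum_le_sum fun t _ => ?_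
          split_ifs with h
          · exact Real.exp_le_exp.mpr (bad_le hn hw hτ (norm_ph t) h)
          · exact (Real.exp_pos _).le
      _ = q * Real.exp (‖w‖ - 2 * n * τ ^ 2) := by
          rw [Finset.sum_const, Finset.card_univ, ZMod.card, nsmul_eq_mul]
  -- lower bound
  set m : ℕ := q / (2 * n) with hm
  set t0 : ℤ := ⌊-(q * w.arg / (2 * Real.pi))⌋ with ht0
  have hmq : (m : ℝ) ≤ q / (2 * n) := by
    rw [hm]
    have := @Nat.cast_div_le ℝ _ _ _ q (2 * n)
    push_cast at this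
    exact this
  have hmq' : (q : ℝ) / (2 * n) - 1 ≤ m := by
    rw [hm]
    have h2 : q < (q / (2 * n) + 1) * (2 * n) := by
      have := Nat.lt_succ_iff.mpr (le_refl (q / (2 * n)))
      have h3 := (Nat.div_lt_iff_lt_mul (show 0 < 2 * n by omega)).mp this
      exact h3
    have h3 : (q : ℝ) < ((q / (2 * n) : ℕ) + 1) * (2 * n) := by exact_mod_cast h2
    rw [sub_le_iff_le_add, div_le_iff₀ (by positivity)]
    exact h3.le
  have h5n : 5 * (n : ℝ) ≤ q / (2 * n) := by
    rw [le_div_iff₀ (by positivity)]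
    nlinarith
  have hm1 : (1 : ℝ) ≤ m := by linarith
  have hmge : (2 : ℝ) / 5 * ((q : ℝ) / n) ≤ m := by
    have : (q : ℝ) / (2 * n) = 1 / 2 * (q / n) := by field_simp
    rw [this] at hmq' h5n
    linarith
  have hlow : (m : ℝ) * Real.exp (‖w‖ - 2) ≤ ∑ t : ZMod q, Real.exp ((ph t * w).re) := by
    have hinj : Set.InjOn (fun j : ℕ => ((t0 + j : ℤ) : ZMod q)) (range m : Set ℕ) := by
      intro j hj j' hj' h
      simp only [coe_range, Set.mem_Iio] at hj hj'
      have hmq2 : m ≤ q := Nat.div_le_self _ _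
      simp only at h
      rw [ZMod.intCast_eq_intCast_iff_dvd_sub] at h
      have h2 : t0 + (j' : ℤ) - (t0 + j) = (j' : ℤ) - j := by ring
      rw [h2] at h
      have h3 : |(j' : ℤ) - j| < q := by
        rw [abs_lt]; constructor <;> omega
      have h4 := Int.eq_zero_of_abs_lt_dvd h h3
      omega
    calc (m : ℝ) * Real.exp (‖w‖ - 2) = ∑ _j ∈ range m, Real.exp (‖w‖ - 2) := by
          rw [Finset.sum_const, card_range, nsmul_eq_mul]
      _ ≤ ∑ j ∈ range m, Real.exp ((ph ((t0 + j : ℤ) : ZMod q) * w).re) := by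
          refine Finset.sum_le_sum fun j hj => Real.exp_le_exp.mpr ?_
          rw [mem_range] at hj
          set θ : ℝ := 2 * Real.pi * ((t0 + j) / q) + w.arg with hθ
          have h1 : ph ((t0 + j : ℤ) : ZMod q) =
              Complex.exp (2 * Real.pi * Complex.I * (((t0 + j : ℤ) / q : ℝ) : ℂ)) :=
            ph_eq_of_lift (lift_of_int _ _ rfl)
          have h2 : ph ((t0 + j : ℤ) : ZMod q) * w = (‖w‖ : ℂ) * Complex.exp ((θ : ℂ) * Complex.I) := by
            rw [h1]
            conv_lhs => rw [← Complex.norm_mul_exp_arg_mul_I w]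
            rw [mul_left_comm, ← Complex.exp_add]
            congr 2
            rw [hθ]
            push_cast
            ring
          rw [h2, Complex.re_ofReal_mul, Complex.exp_ofReal_mul_I_re]
          have hπ : 0 < Real.pi := Real.pi_pos
          have hπ4 : Real.pi ≤ 4 := Real.pi_le_four
          have h3 : (t0 : ℝ) ≤ -(q * w.arg / (2 * Real.pi)) := Int.floor_le _
          have h4 : -(q * w.arg / (2 * Real.pi)) - 1 < t0 := Int.sub_one_lt_floor _
          have hθeq : θ = 2 * Real.pi / q * (t0 + q * w.arg / (2 * Real.pi) + j) := by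
            rw [hθ]
            field_simp
            ring
          have h5 : |t0 + q * w.arg / (2 * Real.pi) + j| ≤ m := by
            have hj' : (j : ℝ) ≤ m := by exact_mod_cast hj.le
            have hj0 : (0 : ℝ) ≤ j := Nat.cast_nonneg j
            rw [abs_le]
            constructor <;> linarith
          have h6 : |θ| ≤ Real.pi / n := by
            rw [hθeq, abs_mul, abs_of_pos (by positivity : (0 : ℝ) < 2 * Real.pi / q)]
            calc 2 * Real.pi / q * |t0 + q * w.arg / (2 * Real.pi) + j|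
                ≤ 2 * Real.pi / q * (q / (2 * n)) :=
                  mul_le_mul_of_nonneg_left (h5.trans hmq) (by positivity)
              _ = Real.pi / n := by field_simp
          have h7 : θ ^ 2 ≤ (Real.pi / n) ^ 2 := by
            rw [← sq_abs θ]
            exact pow_le_pow_left₀ (abs_nonneg _) h6 2
          have h8 := Real.one_sub_sq_div_two_le_cos (x := θ)
          have h9 : ‖w‖ * (θ ^ 2 / 2) ≤ 2 := by
            calc ‖w‖ * (θ ^ 2 / 2) ≤ (n / 4) * ((Real.pi / n) ^ 2 / 2) := by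
                  apply mul_le_mul hw (by linarith) (by positivity) (by positivity)
              _ = Real.pi ^ 2 / (8 * n) := by field_simp; ring
              _ ≤ 2 := by
                  rw [div_le_iff₀ (by positivity)]
                  nlinarith
          have h10 : ‖w‖ * (1 - θ ^ 2 / 2) ≤ ‖w‖ * Real.cos θ :=
            mul_le_mul_of_nonneg_left h8 (norm_nonneg _)
          linarith
      _ = ∑ t ∈ (range m).image (fun j : ℕ => ((t0 + j : ℤ) : ZMod q)),
            Real.exp ((ph t * w).re) := by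
          rw [Finset.sum_image hinj]
      _ ≤ ∑ t : ZMod q, Real.exp ((ph t * w).re) :=
          Finset.sum_le_sum_of_subset_of_nonneg (subset_univ _)
            fun _ _ _ => (Real.exp_pos _).le
  have hexp2 : Real.exp 2 ≤ 8 := by
    have h1 := Real.exp_one_lt_d9
    have h2 : Real.exp 2 = Real.exp 1 * Real.exp 1 := by rw [← Real.exp_add]; norm_num
    have h3 := Real.exp_pos 1
    rw [h2]
    nlinarith
  have hlow2 : 2 / 5 * (q / n) * Real.exp (‖w‖ - 2) ≤
      ∑ t : ZMod q, Real.exp ((ph t * w).re) :=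
    (mul_le_mul_of_nonneg_right hmge (Real.exp_pos _).le).trans hlow
  have hE : Real.exp (‖w‖ - 2 * n * τ ^ 2) =
      Real.exp (-(2 * n * τ ^ 2)) * (Real.exp 2 * Real.exp (‖w‖ - 2)) := by
    rw [← Real.exp_add, ← Real.exp_add]; congr 1; ring
  calc ∑ t : ZMod q, (if n * τ ≤ |(ph t * w).im| then Real.exp ((ph t * w).re) else 0) ≤
      q * Real.exp (‖w‖ - 2 * n * τ ^ 2) := hup
    _ = q * (Real.exp (-(2 * n * τ ^ 2)) * (Real.exp 2 * Real.exp (‖w‖ - 2))) := by rw [hE]
    _ ≤ q * (Real.exp (-(2 * n * τ ^ 2)) * (8 * Real.exp (‖w‖ - 2))) := by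
        gcongr
    _ = 20 * n * Real.exp (-(2 * n * τ ^ 2)) * (2 / 5 * (q / n) * Real.exp (‖w‖ - 2)) := by
        field_simp
        ring
    _ ≤ _ := mul_le_mul_of_nonneg_left hlow2 (by positivity)

/-- averaging over the shifts of one coordinate -/
lemma sum_shift (v : Line n) (F : Pt n q → ℝ) :
    ∑ x : Pt n q, ∑ t : ZMod q, F (x + Pi.single v t) = q * ∑ x : Pt n q, F x := by
  rw [Finset.sum_comm]
  have h : ∀ t : ZMod q, ∑ x : Pt n q, F (x + Pi.single v t) = ∑ x : Pt n q, F x := fun t =>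
    Fintype.sum_equiv (Equiv.addRight (Pi.single v t : Pt n q)) _ _ fun _ => rfl
  simp only [h, Finset.sum_const, Finset.card_univ, ZMod.card, nsmul_eq_mul]

lemma one_line (hn : 1 ≤ n) (hq : 10 * n ^ 2 ≤ q) (N : Net n) {β : Cell n → ℝ}
    (hβ : ∀ e, 0 ≤ β e ∧ β e ≤ 1 / 4) {τ : ℝ} (hτ : 0 ≤ τ) (v : Line n) :
    ∑ x : Pt n q, (if n * τ ≤ |N.grad β x v| then Real.exp (-N.en β x) else 0) ≤
      20 * n * Real.exp (-(2 * n * τ ^ 2)) * ∑ x : Pt n q, Real.exp (-N.en β x) := by
  have hq0 : (0 : ℝ) < q := q_pos'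
  refine le_of_mul_le_mul_left ?_ hq0
  rw [← sum_shift v, mul_left_comm, ← sum_shift v (fun x => Real.exp (-N.en β x)),
    Finset.mul_sum]
  refine Finset.sum_le_sum fun x _ => ?_
  have h := onedim hn hq (norm_w_le N hβ x v) hτ
  have h1 : ∀ t : ZMod q, Real.exp (-N.en β (x + Pi.single v t)) =
      Real.exp (-rest N β x v) * Real.exp ((ph t * w N β x v).re) := by
    intro t
    rw [en_shift, ← Real.exp_add]; congr 1; ring
  have h2 : ∀ t : ZMod q, (if n * τ ≤ |N.grad β (x + Pi.single v t) v| then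
      Real.exp (-N.en β (x + Pi.single v t)) else 0) =
      Real.exp (-rest N β x v) * (if n * τ ≤ |(ph t * w N β x v).im| then
        Real.exp ((ph t * w N β x v).re) else 0) := by
    intro t
    rw [grad_shift, h1]
    split_ifs
    · rfl
    · simp
  simp only [h2]
  simp only [h1]
  rw [← Finset.mul_sum, ← Finset.mul_sum, mul_left_comm]
  exact mul_le_mul_of_nonneg_left h (Real.exp_pos _).le

end Conc

theorem conc : ConcStatement := by
  intro n q _ N β hn hq hβ τ hτ
  have hn' : (1 : ℝ) ≤ n := by exact_mod_cast hn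
  rw [Finset.sum_filter]
  have hZ : 0 ≤ ∑ x : Pt n q, Real.exp (-N.en β x) :=
    Finset.sum_nonneg fun _ _ => (Real.exp_pos _).le
  calc ∑ x : Pt n q, (if ∃ v, n * τ ≤ |N.grad β x v| then Real.exp (-N.en β x) else 0)
      ≤ ∑ x : Pt n q, ∑ v : Line n,
          (if n * τ ≤ |N.grad β x v| then Real.exp (-N.en β x) else 0) := by
        refine Finset.sum_le_sum fun x _ => ?_
        have hnn : ∀ v ∈ (univ : Finset (Line n)),
            (0 : ℝ) ≤ if n * τ ≤ |N.grad β x v| then Real.exp (-N.en β x) else 0 := by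
          intro v _
          split_ifs
          · exact (Real.exp_pos _).le
          · exact le_refl _
        split_ifs with h
        · obtain ⟨v, hv⟩ := h
          calc Real.exp (-N.en β x) =
              (if n * τ ≤ |N.grad β x v| then Real.exp (-N.en β x) else 0) := by rw [if_pos hv]
            _ ≤ _ := Finset.single_le_sum hnn (mem_univ v)
        · exact Finset.sum_nonneg hnn
    _ = ∑ v : Line n, ∑ x : Pt n q,
          (if n * τ ≤ |N.grad β x v| then Real.exp (-N.en β x) else 0) := Finset.sum_comm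
    _ ≤ ∑ _v : Line n, 20 * n * Real.exp (-(2 * n * τ ^ 2)) *
          ∑ x : Pt n q, Real.exp (-N.en β x) :=
        Finset.sum_le_sum fun v _ => Conc.one_line hn hq N hβ hτ v
    _ = 60 * n ^ 2 * Real.exp (-(2 * n * τ ^ 2)) * ∑ x : Pt n q, Real.exp (-N.en β x) := by
        rw [Finset.sum_const, Finset.card_univ, nsmul_eq_mul]
        simp only [Fintype.card_prod, Fintype.card_fin]
        push_cast
        ring
    _ ≤ 500 * n ^ 2 * Real.exp (-(2 * n * τ ^ 2)) * ∑ x : Pt n q, Real.exp (-N.en β x) := by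
        apply mul_le_mul_of_nonneg_right _ hZ
        apply mul_le_mul_of_nonneg_right _ (Real.exp_pos _).le
        nlinarith [sq_nonneg (n : ℝ)]

end

end Pool.Agent.Lib.MP_185394_co.Up
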