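import Pool.Agent.Lib.MP_185394_co.Up.Basic

/-! Changing one coordinate of a point; gradients at coordinatewise minimal points. -/

namespace Pool.Agent.Lib.MP_185394_co.Up.Coord

open Finset

noncomputable section

set_option linter.unusedSectionVars false

variable {n q : ℕ}

/-- values of a point supported on one line -/
lemma y_single (N : Net n) (v : Line n) (s : ZMod q) (e : Cell n) :
    N.y (Pi.single v s) e = if e ∈ N.on v then s else 0 := by
  classical
  unfold Net.y
  rw [Finset.sum_eq_single v.1]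
  · rw [Pi.single_apply]
    by_cases h : N.ln v.1 e = v
    · rw [if_pos h, if_pos ((mem_on N v e).mpr h)]
    · rw [if_neg h, if_neg (fun h' => h ((mem_on N v e).mp h'))]
  · intro j _ hj
    rw [Pi.single_apply, if_neg]
    intro h
    exact hj (congrArg Prod.fst h)
  · intro h; exact absurd (mem_univ _) h

lemma update_eq_add_single (x : Pt n q) (v : Line n) (t : ZMod q) :
    Function.update x v t = x + Pi.single v (t - x v) := by
  ext w
  by_cases h : w = v
  · subst h; simp
  · simp [h]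

/-- values after changing one coordinate -/
lemma y_update (N : Net n) (x : Pt n q) (v : Line n) (t : ZMod q) (e : Cell n) :
    N.y (Function.update x v t) e = N.y x e + if e ∈ N.on v then t - x v else 0 := by
  rw [update_eq_add_single, y_add, y_single]

variable [NeZero q]

/-- energy after changing one coordinate -/
lemma en_update (N : Net n) (β : Cell n → ℝ) (x : Pt n q) (v : Line n) (t : ZMod q) :
    N.en β (Function.update x v t) =
      N.en β x + ∑ e ∈ N.on v, β e * (cst (N.y x e + (t - x v)) - cst (N.y x e)) := by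
  classical
  unfold Net.en
  rw [← Finset.sum_filter_add_sum_filter_not univ (fun e => e ∈ N.on v)
    (fun e => β e * cst (N.y (Function.update x v t) e)),
    ← Finset.sum_filter_add_sum_filter_not univ (fun e => e ∈ N.on v)
    (fun e => β e * cst (N.y x e))]
  have h1 : univ.filter (fun e => e ∈ N.on v) = N.on v := by ext e; simp
  rw [h1]
  have h2 : ∑ e ∈ N.on v, β e * cst (N.y (Function.update x v t) e) =
      ∑ e ∈ N.on v, β e * cst (N.y x e + (t - x v)) := by
    refine Finset.sum_congr rfl fun e he => ?_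
    rw [y_update, if_pos he]
  have h3 : ∑ e ∈ univ.filter (fun e => e ∉ N.on v), β e * cst (N.y (Function.update x v t) e) =
      ∑ e ∈ univ.filter (fun e => e ∉ N.on v), β e * cst (N.y x e) := by
    refine Finset.sum_congr rfl fun e he => ?_
    rw [y_update, if_neg (by simpa using he), add_zero]
  rw [h2, h3]
  simp only [mul_sub, Finset.sum_sub_distrib]
  ring

/-- the line sum of the phases -/
def _root_.Pool.Agent.Lib.MP_185394_co.Up.Net.wsum (N : Net n) (β : Cell n → ℝ) (x : Pt n q) (v : Line n) : ℂ :=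
  ∑ e ∈ N.on v, (β e : ℂ) * ph (N.y x e)

lemma wsum_im (N : Net n) (β : Cell n → ℝ) (x : Pt n q) (v : Line n) :
    (N.wsum β x v).im = N.grad β x v := by
  unfold Net.wsum Net.grad
  rw [Complex.im_sum]
  refine Finset.sum_congr rfl fun e _ => ?_
  rw [Complex.im_ofReal_mul, ph_im]

lemma wsum_re (N : Net n) (β : Cell n → ℝ) (x : Pt n q) (v : Line n) :
    (N.wsum β x v).re = ∑ e ∈ N.on v, β e - N.lineEn β x v := by
  unfold Net.wsum Net.lineEn
  rw [Complex.re_sum, ← Finset.sum_sub_distrib]
  refine Finset.sum_congr rfl fun e _ => ?_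
  rw [Complex.re_ofReal_mul, cst_eq]
  ring

lemma norm_wsum_le (N : Net n) {β : Cell n → ℝ} (hβ : ∀ e, 0 ≤ β e) (x : Pt n q) (v : Line n) :
    ‖N.wsum β x v‖ ≤ ∑ e ∈ N.on v, β e := by
  unfold Net.wsum
  refine (norm_sum_le _ _).trans (Finset.sum_le_sum fun e _ => ?_)
  rw [norm_mul, norm_ph, mul_one, Complex.norm_real, Real.norm_of_nonneg (hβ e)]

/-- energy after changing one coordinate, in terms of `wsum` -/
lemma en_update' (N : Net n) (β : Cell n → ℝ) (x : Pt n q) (v : Line n) (t : ZMod q) :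
    N.en β (Function.update x v t) =
      N.en β x + ((N.wsum β x v).re - (N.wsum β x v * ph (t - x v)).re) := by
  rw [en_update]
  congr 1
  unfold Net.wsum
  rw [Finset.sum_mul, Complex.re_sum, Complex.re_sum, ← Finset.sum_sub_distrib]
  refine Finset.sum_congr rfl fun e _ => ?_
  rw [mul_assoc, ← ph_add, Complex.re_ofReal_mul, Complex.re_ofReal_mul, cst_eq, cst_eq]
  ring

lemma ph_one : ph (1 : ZMod q) = Complex.exp (2 * Real.pi * Complex.I * ((1 / q : ℝ) : ℂ)) := by
  refine ph_eq_of_lift ?_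
  obtain ⟨m, hm⟩ := lift_of_int (1 : ZMod q) 1 (by simp)
  exact ⟨m, by rw [hm]; simp⟩

lemma ph_one_re : (ph (1 : ZMod q)).re = Real.cos (2 * Real.pi / q) := by
  rw [ph_one, show (2 * Real.pi * Complex.I * ((1 / q : ℝ) : ℂ)) =
    ((2 * Real.pi / q : ℝ) : ℂ) * Complex.I by push_cast; ring]
  exact Complex.exp_ofReal_mul_I_re _

lemma ph_one_im : (ph (1 : ZMod q)).im = Real.sin (2 * Real.pi / q) := by
  rw [ph_one, show (2 * Real.pi * Complex.I * ((1 / q : ℝ) : ℂ)) =
    ((2 * Real.pi / q : ℝ) : ℂ) * Complex.I by push_cast; ring]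
  exact Complex.exp_ofReal_mul_I_im _

/-- at a coordinatewise minimal point the gradient is at most
`(∑ β) tan (π / q) ≤ 4 (∑ β) / q` (sum over the line) -/
lemma grad_le_of_coordMin (N : Net n) {β : Cell n → ℝ} (hβ : ∀ e, 0 ≤ β e) {r : Pt n q}
    (hr : N.CoordMin β r) (hq : 7 ≤ q) (v : Line n) :
    |N.grad β r v| ≤ 4 * (∑ e ∈ N.on v, β e) / q := by
  have hq0 : (0 : ℝ) < q := q_pos'
  have hq7 : (7 : ℝ) ≤ q := by exact_mod_cast hq
  set w := N.wsum β r v with hw
  set B := ∑ e ∈ N.on v, β e with hB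
  set θ : ℝ := 2 * Real.pi / q with hθ
  have hπ := Real.pi_gt_three
  have hπ' := Real.pi_lt_d2
  have hθ0 : 0 < θ := by positivity
  have hθ1 : θ ≤ 1 := by
    rw [hθ, div_le_one hq0]
    nlinarith
  have hre : w.re ≤ B := by
    have := wsum_re N β r v
    have h2 := lineEn_nonneg N hβ r v
    linarith
  have hB0 : 0 ≤ B := Finset.sum_nonneg fun e _ => hβ e
  have key : ∀ s : ZMod q, (w * ph s).re ≤ w.re := by
    intro s
    have h := hr v (r v + s)
    rw [en_update'] at h
    have h2 : r v + s - r v = s := by ring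
    rw [h2] at h
    linarith
  have k1 := key 1
  have k2 := key (-1)
  rw [Complex.mul_re] at k1 k2
  rw [ph_neg, Complex.conj_re, Complex.conj_im] at k2
  rw [ph_one_re, ph_one_im] at k1 k2
  rw [← hθ] at k1 k2
  have hcos : 1 - Real.cos θ ≤ θ ^ 2 / 2 := by
    have := Real.one_sub_sq_div_two_le_cos (x := θ)
    linarith
  have hcos0 : 0 ≤ 1 - Real.cos θ := by linarith [Real.cos_le_one θ]
  have hsin : 5 / 6 * θ ≤ Real.sin θ := by
    have h1 := Real.sin_gt_sub_cube hθ0
    have h2 : θ ^ 3 ≤ θ := by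
      calc θ ^ 3 = θ * θ ^ 2 := by ring
        _ ≤ θ * 1 := mul_le_mul_of_nonneg_left (by nlinarith) hθ0.le
        _ = θ := mul_one _
    linarith
  have hb : |w.im| * Real.sin θ ≤ B * (1 - Real.cos θ) := by
    have h1 : w.im * Real.sin θ ≤ w.re * (1 - Real.cos θ) := by nlinarith
    have h2 : -w.im * Real.sin θ ≤ w.re * (1 - Real.cos θ) := by nlinarith
    have h3 : w.re * (1 - Real.cos θ) ≤ B * (1 - Real.cos θ) :=
      mul_le_mul_of_nonneg_right hre hcos0
    rcases abs_cases w.im with ⟨h, _⟩ | ⟨h, _⟩ <;> rw [h] <;> linarith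
  have hc : |w.im| * (5 / 6 * θ) ≤ B * (θ ^ 2 / 2) :=
    (mul_le_mul_of_nonneg_left hsin (abs_nonneg _)).trans
      (hb.trans (mul_le_mul_of_nonneg_left hcos hB0))
  have hd : |w.im| ≤ B * (3 / 5 * θ) := by
    have h1 : |w.im| * (5 / 6 * θ) ≤ (B * (3 / 5 * θ)) * (5 / 6 * θ) := by
      calc _ ≤ B * (θ ^ 2 / 2) := hc
        _ = (B * (3 / 5 * θ)) * (5 / 6 * θ) := by ring
    exact le_of_mul_le_mul_right h1 (by positivity)
  rw [← wsum_im, ← hw]
  refine hd.trans ?_
  rw [mul_comm 4 B, mul_div_assoc]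
  refine mul_le_mul_of_nonneg_left ?_ hB0
  rw [hθ, div_eq_mul_inv, div_eq_mul_inv, ← mul_assoc]
  refine mul_le_mul_of_nonneg_right ?_ (by positivity)
  linarith

end

end Pool.Agent.Lib.MP_185394_co.Up.Coord
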