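import Mathlib

/-!
MP_185394_co, upper bound side: definitions used by all modules.

`Net n` is a Latin square of order `n` seen symmetrically: the cells are `Fin n × Fin n`, a cell `e`
has three coordinates `idx 0 e` (row), `idx 1 e` (column), `idx 2 e` (symbol), and any two of them
determine the cell.  A *line* is a pair (type, index).  A *point* is a function from the lines to
`ZMod q` (a point of the torus `(ℝ/ℤ)^(3n)` with denominator `q`).
-/

namespace Pool.Agent.Lib.MP_185394_co.Up

open Finset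

noncomputable section

/-- cells -/
abbrev Cell (n : ℕ) := Fin n × Fin n

/-- lines: (type, index) -/
abbrev Line (n : ℕ) := Fin 3 × Fin n

/-- points of the torus with denominator `q` -/
abbrev Pt (n q : ℕ) := Line n → ZMod q

/-- real label vectors -/
abbrev RPt (n : ℕ) := Line n → ℝ

/-- A Latin square of order `n`, symmetric in rows, columns and symbols. -/
structure Net (n : ℕ) where
  idx : Fin 3 → Cell n → Fin n
  bij : ∀ i j, i ≠ j → Function.Bijective (fun e : Cell n => (idx i e, idx j e))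

variable {n q : ℕ}

/-- the line of type `i` through the cell `e` -/
def Net.ln (N : Net n) (i : Fin 3) (e : Cell n) : Line n := (i, N.idx i e)

/-- the cells on the line `v` -/
def Net.on (N : Net n) (v : Line n) : Finset (Cell n) := univ.filter fun e => N.idx v.1 e = v.2

/-- the value of the point `x` at the cell `e`: sum of the three labels -/
def Net.y (N : Net n) (x : Pt n q) (e : Cell n) : ZMod q := ∑ i, x (N.ln i e)

/-- the value of the real label vector `u` at the cell `e` -/
def Net.A (N : Net n) (u : RPt n) (e : Cell n) : ℝ := ∑ i, u (N.ln i e)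

/-- representative of `t / q` in `(-1/2, 1/2]` -/
def lift (t : ZMod q) : ℝ := (t.valMinAbs : ℝ) / q

/-- the phase `exp (2 π i t / q)` -/
def ph (t : ZMod q) : ℂ := Complex.exp (2 * Real.pi * Complex.I * (lift t : ℂ))

/-- `1 - cos (2 π t / q)` -/
def cst (t : ZMod q) : ℝ := 1 - Real.cos (2 * Real.pi * lift t)

/-- weighted energy -/
def Net.en (N : Net n) (β : Cell n → ℝ) (x : Pt n q) : ℝ := ∑ e, β e * cst (N.y x e)

/-- weighted energy of a line -/
def Net.lineEn (N : Net n) (β : Cell n → ℝ) (x : Pt n q) (v : Line n) : ℝ :=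
  ∑ e ∈ N.on v, β e * cst (N.y x e)

/-- weighted gradient at a line -/
def Net.grad (N : Net n) (β : Cell n → ℝ) (x : Pt n q) (v : Line n) : ℝ :=
  ∑ e ∈ N.on v, β e * Real.sin (2 * Real.pi * lift (N.y x e))

/-- unweighted energy -/
def Net.full (N : Net n) (x : Pt n q) : ℝ := ∑ e, cst (N.y x e)

/-- mean of the phases of the labels of type `i` -/
def mean (x : Pt n q) (i : Fin 3) : ℂ := (∑ v : Fin n, ph (x (i, v))) / n

/-- near trivial: the mean phase of the row labels is not small -/
def NT (x : Pt n q) : Prop := 1 / 2 ≤ ‖mean x 0‖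

/-- the cells all of whose three lines are in `M` -/
def Net.dead (N : Net n) (M : Finset (Line n)) : Finset (Cell n) :=
  univ.filter fun e => ∀ i, N.ln i e ∈ M

/-- squared distance of the values to `0`, over the cells which are not dead -/
def Net.Phi (N : Net n) (M : Finset (Line n)) (x : Pt n q) : ℝ :=
  ∑ e ∈ (N.dead M)ᶜ, lift (N.y x e) ^ 2

/-- the weights `β` restricted to the cells which do not meet `V` -/
def Net.cut (N : Net n) (V : Finset (Line n)) (β : Cell n → ℝ) (e : Cell n) : ℝ :=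
  if ∃ i, N.ln i e ∈ V then 0 else β e

/-- `x` minimises the energy in each coordinate separately -/
def Net.CoordMin (N : Net n) (β : Cell n → ℝ) (x : Pt n q) : Prop :=
  ∀ v t, N.en β x ≤ N.en β (Function.update x v t)

/-- outside the lines of `V`, `z` is within `ρ` of a gauge vector `(t 0, t 1, t 2)`,
`t 0 + t 1 + t 2 = 0` -/
def Near (V : Finset (Line n)) (ρ : ℝ) (z : Pt n q) : Prop :=
  ∃ (t : Fin 3 → ℝ) (u : RPt n), t 0 + t 1 + t 2 = 0 ∧
    (∀ v, ∃ m : ℤ, lift (z v) = t v.1 + u v + m) ∧ ∀ v ∉ V, |u v| ≤ ρ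

/-- plex in a net -/
def Net.Plex (N : Net n) (c : ℕ) (S : Finset (Cell n)) : Prop :=
  ∀ v : Line n, (S ∩ N.on v).card = c

/-- `β` is an admissible weight function -/
structure Net.WOK (N : Net n) (β : Cell n → ℝ) : Prop where
  nonneg : ∀ e, 0 ≤ β e
  le : ∀ e, β e ≤ 1 / 4
  sum : ∑ e, (1 / 4 - β e) ≤ (n : ℝ) ^ (1.44 : ℝ)
  line : ∀ v, (((N.on v).filter fun e => β e < 1 / 25).card : ℝ) ≤ n / 100

/-- `p` is an admissible density with exact phases at all points of low energy -/
structure Net.TiltOK (N : Net n) (q : ℕ) (K : ℝ) (c : ℕ) (M : Finset (Line n))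
    (p : Cell n → ℝ) : Prop where
  line : ∀ v, ∑ e ∈ N.on v, p e = c
  dead : ∀ e ∈ N.dead M, p e = 0
  live : ∀ e ∉ N.dead M, 1 / 16 ≤ p e ∧ p e ≤ 15 / 16
  cardM : (M.card : ℝ) ≤ (n : ℝ) ^ (0.72 : ℝ)
  l1 : ∑ e, |1 / 2 - p e| ≤ (n : ℝ) ^ (1.435 : ℝ)
  low : ∀ x : Pt n q, N.Phi M x ≤ K * Real.log n ^ 2 →
    (∀ e ∉ N.dead M, |lift (N.y x e)| ≤ (n : ℝ) ^ (-0.34 : ℝ)) ∧
    ∃ m : ℤ, c * ∑ v, lift (x v) - ∑ e, p e * lift (N.y x e) = m

end

end Pool.Agent.Lib.MP_185394_co.Up
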