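import Pool.Agent.Lib.MP_185394_co.Up.Interfaces
import Pool.Agent.Lib.MP_185394_co.Up.Asymp

/-! Module D: the dichotomy for the means, and transitivity of being near trivial. -/

namespace Pool.Agent.Lib.MP_185394_co.Up

open Finset Filter

noncomputable section

set_option linter.unusedSectionVars false

namespace Dich

variable {n q : ℕ} [NeZero q]

lemma univ_eq : ∀ i j k : Fin 3, i ≠ j → i ≠ k → j ≠ k → (univ : Finset (Fin 3)) = {i, j, k} := by
  decide

lemma others : ∀ k : Fin 3, ∃ i j : Fin 3, i ≠ j ∧ i ≠ k ∧ j ≠ k := by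
  decide

lemma ph_y (N : Net n) (z : Pt n q) (e : Cell n) {i j k : Fin 3} (hij : i ≠ j) (hik : i ≠ k)
    (hjk : j ≠ k) :
    ph (N.y z e) = ph (z (N.ln i e)) * ph (z (N.ln j e)) * ph (z (N.ln k e)) := by
  unfold Net.y
  rw [ph_sum, univ_eq i j k hij hik hjk, Finset.prod_insert (by simp [hij, hik]),
    Finset.prod_insert (by simp [hjk]), Finset.prod_singleton, mul_assoc]

lemma ident (N : Net n) (z : Pt n q) (hn : 0 < n) {i j k : Fin 3} (hij : i ≠ j) (hik : i ≠ k)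
    (hjk : j ≠ k) :
    (n : ℂ) ^ 2 * (mean z i * mean z j - (starRingEnd ℂ) (mean z k)) =
      ∑ e, (starRingEnd ℂ) (ph (z (N.ln k e))) * (ph (N.y z e) - 1) := by
  have hn' : (n : ℂ) ≠ 0 := by exact_mod_cast hn.ne'
  have h1 : ∀ e, (starRingEnd ℂ) (ph (z (N.ln k e))) * (ph (N.y z e) - 1) =
      ph (z (i, N.idx i e)) * ph (z (j, N.idx j e)) -
        (starRingEnd ℂ) (ph (z (k, N.idx k e))) := by
    intro e
    rw [ph_y N z e hij hik hjk]
    have h := ph_mul_conj (z (N.ln k e))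
    unfold Net.ln at *
    linear_combination (ph (z (i, N.idx i e)) * ph (z (j, N.idx j e))) * h
  rw [Finset.sum_congr rfl (fun e _ => h1 e), Finset.sum_sub_distrib,
    sum_pair N i j hij (fun v => ph (z (i, v))) (fun v => ph (z (j, v))),
    sum_idx_complex N k (fun v => (starRingEnd ℂ) (ph (z (k, v))))]
  unfold mean
  rw [map_div₀, map_sum, Complex.conj_natCast]
  field_simp

/-- abstract dichotomy -/
lemma dich {a b c ε : ℝ} (ha : 0 ≤ a) (hb : 0 ≤ b) (hc : 0 ≤ c) (ha1 : a ≤ 1) (hb1 : b ≤ 1)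
    (hc1 : c ≤ 1) (h1 : a ≤ b * c + ε) (h2 : b ≤ a * c + ε) (h3 : c ≤ a * b + ε)
    (hε : 0 ≤ ε) :
    (a ≤ 2 * ε ∧ b ≤ 2 * ε ∧ c ≤ 2 * ε) ∨ (1 - 2 * ε ≤ a ∧ 1 - 2 * ε ≤ b ∧ 1 - 2 * ε ≤ c) := by
  -- a key fact: for any x, y among the three with x maximal, x (1 - y) ≤ ε
  have key : ∀ x y z : ℝ, 0 ≤ y → 0 ≤ z → x ≤ 1 → y ≤ x → z ≤ x → x ≤ y * z + ε →
      (x ≤ 2 * ε ∧ y ≤ 2 * ε ∧ z ≤ 2 * ε) ∨ (1 - 2 * ε ≤ x ∧ 1 - 2 * ε ≤ y ∧ 1 - 2 * ε ≤ z) := by
    intro x y z hy hz hx1 hyx hzx h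
    have e1 : x * (1 - y) ≤ ε := by nlinarith
    have e2 : x * (1 - z) ≤ ε := by nlinarith
    by_cases hy2 : y ≤ 1 / 2
    · left
      have : x ≤ 2 * ε := by nlinarith
      exact ⟨this, by linarith, by linarith⟩
    · by_cases hz2 : z ≤ 1 / 2
      · left
        have : x ≤ 2 * ε := by nlinarith
        exact ⟨this, by linarith, by linarith⟩
      · right
        push Not at hy2 hz2
        have hx2 : 1 / 2 < x := by linarith
        have f1 : 1 - y ≤ 2 * ε := by nlinarith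
        have f2 : 1 - z ≤ 2 * ε := by nlinarith
        exact ⟨by linarith, by linarith, by linarith⟩
  rcases le_total a b with hab | hab
  · rcases le_total b c with hbc | hbc
    · have := key c a b ha hb hc1 (by linarith) hbc h3
      tauto
    · have := key b a c ha hc hb1 hab hbc h2
      tauto
  · rcases le_total a c with hac | hac
    · have := key c a b ha hb hc1 hac (by linarith) h3
      tauto
    · have := key a b c hb hc ha1 hab hac h1
      tauto

lemma norm_le_of (a b c : ℂ) {ε : ℝ} (h : ‖a * b - (starRingEnd ℂ) c‖ ≤ ε) :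
    ‖c‖ ≤ ‖a‖ * ‖b‖ + ε := by
  have h1 : ‖(starRingEnd ℂ) c‖ ≤ ‖a * b‖ + ‖a * b - (starRingEnd ℂ) c‖ := by
    have : (starRingEnd ℂ) c = a * b - (a * b - (starRingEnd ℂ) c) := by ring
    calc ‖(starRingEnd ℂ) c‖ = ‖a * b - (a * b - (starRingEnd ℂ) c)‖ := by rw [← this]
      _ ≤ _ := norm_sub_le _ _
  rw [RCLike.norm_conj, norm_mul] at h1
  linarith

lemma means_dich (z : Pt n q) {ε : ℝ} (hε : 0 ≤ ε)
    (h : ∀ i j k : Fin 3, i ≠ j → i ≠ k → j ≠ k →
      ‖mean z i * mean z j - (starRingEnd ℂ) (mean z k)‖ ≤ ε) :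
    (∀ i, ‖mean z i‖ ≤ 2 * ε) ∨ (∀ i, 1 - 2 * ε ≤ ‖mean z i‖) := by
  have h1 := norm_le_of _ _ _ (h 1 2 0 (by decide) (by decide) (by decide))
  have h2 := norm_le_of _ _ _ (h 0 2 1 (by decide) (by decide) (by decide))
  have h3 := norm_le_of _ _ _ (h 0 1 2 (by decide) (by decide) (by decide))
  rcases dich (norm_nonneg _) (norm_nonneg _) (norm_nonneg _) (norm_mean_le z 0)
    (norm_mean_le z 1) (norm_mean_le z 2) h1 h2 h3 hε with ⟨g0, g1, g2⟩ | ⟨g0, g1, g2⟩
  · left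
    intro i
    fin_cases i
    · exact g0
    · exact g1
    · exact g2
  · right
    intro i
    fin_cases i
    · exact g0
    · exact g1
    · exact g2

lemma norm_sq_mul (hn : 0 < n) (w : ℂ) {ε : ℝ} (h : ‖(n : ℂ) ^ 2 * w‖ ≤ ε * n ^ 2) : ‖w‖ ≤ ε := by
  have hn' : (0 : ℝ) < (n : ℝ) ^ 2 := by positivity
  rw [norm_mul, norm_pow, Complex.norm_natCast] at h
  have : (n : ℝ) ^ 2 * ‖w‖ ≤ (n : ℝ) ^ 2 * ε := by linarith
  exact le_of_mul_le_mul_left this hn'

lemma mean_eq_sub (x : Pt n q) (i : Fin 3) (ζ : ℂ) (hn : 0 < n) :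
    (mean x i) * ζ = (∑ v : Fin n, ph (x (i, v)) * ζ) / n := by
  unfold mean
  rw [← Finset.sum_mul]
  ring

/-- for unit complex numbers, `‖a - 1‖ ^ 2 = 2 - 2 re a` -/
lemma norm_sub_one_sq {a : ℂ} (ha : ‖a‖ = 1) : ‖a - 1‖ ^ 2 = 2 - 2 * a.re := by
  have h1 : ‖a‖ ^ 2 = 1 := by rw [ha]; norm_num
  rw [← Complex.normSq_eq_norm_sq, Complex.normSq_apply] at h1 ⊢
  simp only [Complex.sub_re, Complex.one_re, Complex.sub_im, Complex.one_im, sub_zero]
  nlinarith

/-- a rotation making the mean a nonnegative real -/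
lemma exists_rot (m : ℂ) : ∃ ζ : ℂ, ‖ζ‖ = 1 ∧ (m * ζ).re = ‖m‖ := by
  by_cases hm : m = 0
  · exact ⟨1, by simp, by simp [hm]⟩
  · refine ⟨(starRingEnd ℂ) m / ‖m‖, ?_, ?_⟩
    · rw [norm_div, RCLike.norm_conj, Complex.norm_real, norm_norm]
      exact div_self (norm_ne_zero_iff.mpr hm)
    · have h1 : m * ((starRingEnd ℂ) m / ‖m‖) = ((‖m‖ : ℝ) : ℂ) := by
        rw [mul_div_assoc', Complex.mul_conj, Complex.normSq_eq_norm_sq]
        have : ((‖m‖ : ℝ) : ℂ) ≠ 0 := by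
          exact_mod_cast norm_ne_zero_iff.mpr hm
        push_cast
        field_simp
      rw [h1, Complex.ofReal_re]

/-- adding two points whose means of type `i` are close to the unit circle -/
lemma mean_add {n q : ℕ} [NeZero q] (hn : 0 < n) (z z' : Pt n q) (i : Fin 3) {δ : ℝ}
    (h : 1 - δ ≤ ‖mean z i‖) (h' : 1 - δ ≤ ‖mean z' i‖) : 1 - 4 * δ ≤ ‖mean (z + z') i‖ := by
  have hn' : (0 : ℝ) < n := by exact_mod_cast hn
  obtain ⟨ζ, hζ, hm⟩ := exists_rot (mean z i)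
  obtain ⟨ζ', hζ', hm'⟩ := exists_rot (mean z' i)
  -- real parts of the sums
  have s1 : ∀ (x : Pt n q) (w : ℂ), ((mean x i) * w).re * n = ∑ v : Fin n, (ph (x (i, v)) * w).re := by
    intro x w
    rw [mean_eq_sub x i w hn]
    have : (((∑ v : Fin n, ph (x (i, v)) * w) / (n : ℂ))).re = (∑ v : Fin n, ph (x (i, v)) * w).re / n := by
      have := Complex.div_ofReal_re (∑ v : Fin n, ph (x (i, v)) * w) (n : ℝ)
      simpa using this
    rw [this, div_mul_cancel₀ _ hn'.ne', Complex.re_sum]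
  have a1 := s1 z ζ
  have a2 := s1 z' ζ'
  have a3 := s1 (z + z') (ζ * ζ')
  have hterm : ∀ v : Fin n, 2 * (ph (z (i, v)) * ζ).re + 2 * (ph (z' (i, v)) * ζ').re - 3 ≤
      (ph ((z + z') (i, v)) * (ζ * ζ')).re := by
    intro v
    have hab : ph ((z + z') (i, v)) * (ζ * ζ') = (ph (z (i, v)) * ζ) * (ph (z' (i, v)) * ζ') := by
      rw [Pi.add_apply, ph_add]; ring
    rw [hab]
    set a := ph (z (i, v)) * ζ with ha
    set b := ph (z' (i, v)) * ζ' with hb
    have na : ‖a‖ = 1 := by rw [ha, norm_mul, norm_ph, hζ, one_mul]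
    have nb : ‖b‖ = 1 := by rw [hb, norm_mul, norm_ph, hζ', one_mul]
    have nab : ‖a * b‖ = 1 := by rw [norm_mul, na, nb, one_mul]
    have e1 := norm_sub_one_sq na
    have e2 := norm_sub_one_sq nb
    have e3 := norm_sub_one_sq nab
    have tri : ‖a * b - 1‖ ≤ ‖a - 1‖ + ‖b - 1‖ := by
      have : a * b - 1 = (a - 1) * b + (b - 1) := by ring
      rw [this]
      calc ‖(a - 1) * b + (b - 1)‖ ≤ ‖(a - 1) * b‖ + ‖b - 1‖ := norm_add_le _ _
        _ = ‖a - 1‖ + ‖b - 1‖ := by rw [norm_mul, nb, mul_one]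
    nlinarith [sq_nonneg (‖a - 1‖ - ‖b - 1‖), norm_nonneg (a * b - 1), norm_nonneg (a - 1),
      norm_nonneg (b - 1)]
  have hsum := Finset.sum_le_sum (fun v (_ : v ∈ (univ : Finset (Fin n))) => hterm v)
  rw [Finset.sum_sub_distrib, Finset.sum_add_distrib, ← Finset.mul_sum, ← Finset.mul_sum,
    ← a1, ← a2, ← a3, hm, hm'] at hsum
  simp only [Finset.sum_const, Finset.card_univ, Fintype.card_fin, nsmul_eq_mul] at hsum
  have hre : ((mean (z + z') i) * (ζ * ζ')).re ≤ ‖mean (z + z') i‖ := by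
    calc ((mean (z + z') i) * (ζ * ζ')).re ≤ ‖(mean (z + z') i) * (ζ * ζ')‖ := Complex.re_le_norm _
      _ = ‖mean (z + z') i‖ := by rw [norm_mul, norm_mul, hζ, hζ']; ring
  have h4 : (1 - 4 * δ) * n ≤ ((mean (z + z') i) * (ζ * ζ')).re * n := by nlinarith
  have h5 := le_of_mul_le_mul_right h4 hn'
  linarith

/-- (D1) -/
theorem mean_statement : MeanStatement := by
  intro n q _ N z ε hn hε hε8 hfull hNT
  have hn' : (0 : ℝ) < n := by exact_mod_cast hn
  have hsum : ∑ e, ‖ph (N.y z e) - 1‖ ≤ ε * n ^ 2 := by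
    have h1 : (∑ e, ‖ph (N.y z e) - 1‖) ^ 2 ≤ (ε * n ^ 2) ^ 2 := by
      calc (∑ e, ‖ph (N.y z e) - 1‖) ^ 2
          ≤ ((univ : Finset (Cell n)).card : ℝ) * ∑ e, ‖ph (N.y z e) - 1‖ ^ 2 :=
            sq_sum_le_card_mul_sum_sq
        _ = (n : ℝ) ^ 2 * (2 * N.full z) := by
            congr 1
            · simp [sq]
            · unfold Net.full
              rw [Finset.mul_sum]
              exact Finset.sum_congr rfl fun e _ => norm_ph_sub_one_sq _
        _ ≤ (n : ℝ) ^ 2 * (ε ^ 2 * n ^ 2) := mul_le_mul_of_nonneg_left hfull (by positivity)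
        _ = (ε * n ^ 2) ^ 2 := by ring
    exact le_of_sq_le_sq h1 (by positivity)
  have hd := means_dich z hε (fun i j k hij hik hjk => by
    apply norm_sq_mul hn
    rw [ident N z hn hij hik hjk]
    calc ‖∑ e, (starRingEnd ℂ) (ph (z (N.ln k e))) * (ph (N.y z e) - 1)‖
        ≤ ∑ e, ‖(starRingEnd ℂ) (ph (z (N.ln k e))) * (ph (N.y z e) - 1)‖ := norm_sum_le _ _
      _ = ∑ e, ‖ph (N.y z e) - 1‖ := by
          refine Finset.sum_congr rfl fun e _ => ?_
          rw [norm_mul, RCLike.norm_conj, norm_ph, one_mul]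
      _ ≤ ε * n ^ 2 := hsum)
  rcases hd with h | h
  · exfalso
    have := h 0
    unfold NT at hNT
    linarith
  · exact h

/-- (D2) -/
theorem refined_statement : RefinedStatement := by
  intro n q _ N z ε hn hε hε8 hsum hNT
  have hd := means_dich z hε (fun i j k hij hik hjk => by
    apply norm_sq_mul hn
    rw [ident N z hn hij hik hjk, ← sum_type_on N k]
    have h1 : ∀ v : Fin n, ∑ e ∈ N.on (k, v),
        (starRingEnd ℂ) (ph (z (N.ln k e))) * (ph (N.y z e) - 1) =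
        (starRingEnd ℂ) (ph (z (k, v))) * ∑ e ∈ N.on (k, v), (ph (N.y z e) - 1) := by
      intro v
      rw [Finset.mul_sum]
      refine Finset.sum_congr rfl fun e he => ?_
      rw [(mem_on N (k, v) e).mp he]
    simp only [h1]
    calc ‖∑ v : Fin n, (starRingEnd ℂ) (ph (z (k, v))) * ∑ e ∈ N.on (k, v), (ph (N.y z e) - 1)‖
        ≤ ∑ v : Fin n, ‖(starRingEnd ℂ) (ph (z (k, v))) *
            ∑ e ∈ N.on (k, v), (ph (N.y z e) - 1)‖ := norm_sum_le _ _
      _ = ∑ v : Fin n, ‖∑ e ∈ N.on (k, v), (ph (N.y z e) - 1)‖ := by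
          refine Finset.sum_congr rfl fun v _ => ?_
          rw [norm_mul, RCLike.norm_conj, norm_ph, one_mul]
      _ ≤ ε * n ^ 2 := hsum k)
  rcases hd with h | h
  · exact h
  · exfalso
    have := h 0
    unfold NT at hNT
    linarith

/-- (D3) -/
theorem trans_statement : TransStatement := by
  filter_upwards [Asymp.mul_rpow_le 80000 (show (1.45 : ℝ) < 2 by norm_num),
    eventually_ge_atTop 1] with n hn hn1
  intro q _ N x x' x'' hx hx' hx'' h h'
  rw [show (2 : ℝ) = ((2 : ℕ) : ℝ) by norm_num, Real.rpow_natCast] at hn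
  have key : ∀ a b : Pt n q, N.full a ≤ (n : ℝ) ^ (1.45 : ℝ) → N.full b ≤ (n : ℝ) ^ (1.45 : ℝ) →
      NT (a - b) → 1 - 2 / 100 ≤ ‖mean (a - b) 0‖ := by
    intro a b ha hb hab
    have h1 := full_sub_le N a b
    have h2 := mean_statement n q N (a - b) (1 / 100) hn1 (by norm_num) (by norm_num)
      (by nlinarith) hab 0
    linarith
  have g1 := key x x' hx hx' h
  have g2 := key x' x'' hx' hx'' h'
  have g3 := mean_add hn1 (x - x') (x' - x'') 0 g1 g2
  rw [sub_add_sub_cancel] at g3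
  unfold NT
  linarith

end Dich

/-- (D1), (D2), (D3) -/
theorem dich : MeanStatement ∧ RefinedStatement ∧ TransStatement :=
  ⟨Dich.mean_statement, Dich.refined_statement, Dich.trans_statement⟩

/-- (D1) -/
theorem dich_mean : MeanStatement := Dich.mean_statement

/-- (D2) -/
theorem dich_refined : RefinedStatement := Dich.refined_statement

/-- (D3) -/
theorem dich_trans : TransStatement := Dich.trans_statement

end

end Pool.Agent.Lib.MP_185394_co.Up
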