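import Pool.Agent.Lib.MP_185394_co.Up.Interfaces
import Pool.Agent.Lib.MP_185394_co.Up.Asymp

/-! Module X: comparison of the trivial class with and without the lines of `V`. -/

namespace Pool.Agent.Lib.MP_185394_co.Up

open Finset Filter

open scoped Classical

noncomputable section

/-- at least `q / n` residues have a lift within `1 / n` of `t` modulo `1` -/
lemma card_lift_near {n q : ℕ} [NeZero q] (hn : 2 ≤ n) (hq : n ≤ q) (t : ℝ) :
    (q : ℝ) / n ≤ (univ.filter fun s : ZMod q => ∃ m : ℤ, |lift s - t - m| ≤ 1 / n).card := by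
  have hq0 : (0 : ℝ) < q := q_pos'
  have hn0 : (0 : ℝ) < n := by
    have : 0 < n := by omega
    exact_mod_cast this
  set K : ℕ := q / n with hK
  have hK1 : 1 ≤ K := by
    rw [hK]; exact Nat.one_le_div_iff (by omega) |>.mpr hq
  have hKn : K * n ≤ q := Nat.div_mul_le_self q n
  have hKr : (K : ℝ) ≤ q / n := by
    rw [le_div_iff₀ hn0]; exact_mod_cast hKn
  have hlt : (q : ℝ) / n < K + 1 := by
    rw [div_lt_iff₀ hn0]
    have : q < (K + 1) * n := by
      rw [hK]
      have h1 := Nat.div_add_mod q n
      have h2 := Nat.mod_lt q (show 0 < n by omega)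
      nlinarith
    exact_mod_cast this
  have hK1r : (1 : ℝ) ≤ K := by exact_mod_cast hK1
  have h2K : (q : ℝ) / n ≤ (2 * K : ℕ) := by push_cast; linarith
  refine h2K.trans ?_
  -- the injection
  let a : ℕ → ℤ := fun i => ⌊t * q⌋ - K + 1 + i
  have hcard : (Finset.range (2 * K)).card ≤
      (univ.filter fun s : ZMod q => ∃ m : ℤ, |lift s - t - m| ≤ 1 / n).card := by
    refine Finset.card_le_card_of_injOn (fun i => ((a i : ℤ) : ZMod q)) ?_ ?_
    · intro i hi
      have hi' : i < 2 * K := by simpa using hi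
      simp only [coe_filter, mem_univ, true_and, Set.mem_ofPred_eq]
      obtain ⟨m, hm⟩ := lift_of_int ((a i : ℤ) : ZMod q) (a i) rfl
      refine ⟨m, ?_⟩
      rw [hm]
      have h1 : (a i : ℝ) / q + m - t - m = ((a i : ℝ) - t * q) / q := by
        field_simp; ring
      rw [h1, abs_div, abs_of_pos hq0, div_le_div_iff₀ hq0 hn0]
      have h2 : |(a i : ℝ) - t * q| ≤ K := by
        have f1 := Int.floor_le (t * q)
        have f2 := Int.lt_floor_add_one (t * q)
        have h3 : ((a i : ℤ) : ℝ) = (⌊t * q⌋ : ℝ) - K + 1 + i := by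
          simp only [a]; push_cast; ring
        have h4 : (i : ℝ) ≤ 2 * K - 1 := by
          have : i + 1 ≤ 2 * K := hi'
          have : ((i + 1 : ℕ) : ℝ) ≤ ((2 * K : ℕ) : ℝ) := by exact_mod_cast this
          push_cast at this; linarith
        have h5 : (0 : ℝ) ≤ i := Nat.cast_nonneg i
        rw [abs_le, h3]
        constructor <;> linarith
      have h6 : (K : ℝ) * n ≤ q := by exact_mod_cast hKn
      nlinarith [abs_nonneg ((a i : ℝ) - t * q)]
    · intro i hi j hj hij
      have hi' : i < 2 * K := by simpa using hi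
      have hj' : j < 2 * K := by simpa using hj
      simp only at hij
      have h := (ZMod.intCast_eq_intCast_iff_dvd_sub _ _ q).mp hij
      have h1 : a j - a i = (j : ℤ) - i := by simp only [a]; ring
      rw [h1] at h
      have h2K' : 2 * K ≤ q := by nlinarith
      have h2 : |(j : ℤ) - i| < q := by
        rw [abs_lt]; omega
      have h3 := Int.eq_zero_of_abs_lt_dvd h h2
      omega
  rw [Finset.card_range] at hcard
  exact_mod_cast hcard

/-- the number of points agreeing with `w` outside `V` -/
lemma card_agree {n q : ℕ} [NeZero q] (V : Finset (Line n)) (w : Pt n q) :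
    (univ.filter fun z : Pt n q => ∀ v ∉ V, z v = w v).card = q ^ V.card := by
  have h : (univ.filter fun z : Pt n q => ∀ v ∉ V, z v = w v) =
      Fintype.piFinset (fun v => if v ∈ V then (univ : Finset (ZMod q)) else {w v}) := by
    ext z
    simp only [mem_filter, mem_univ, true_and, Fintype.mem_piFinset]
    refine forall_congr' fun v => ?_
    by_cases hv : v ∈ V <;> simp [hv]
  rw [h, Fintype.card_piFinset]
  have h2 : ∀ v : Line n, (if v ∈ V then (univ : Finset (ZMod q)) else {w v}).card =
      if v ∈ V then q else 1 := by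
    intro v
    by_cases hv : v ∈ V <;> simp [hv, ZMod.card]
  simp only [h2]
  rw [Finset.prod_ite_mem, Finset.univ_inter, Finset.prod_const]

/-- the energy of the cells meeting `V` is small at points near the trivial class -/
lemma en_le_cut {n q : ℕ} [NeZero q] (N : Net n) {β : Cell n → ℝ}
    (hβ : ∀ e, 0 ≤ β e ∧ β e ≤ 1 / 4) (V : Finset (Line n)) {ρ : ℝ}
    {w : Pt n q} (hw : Near ∅ ρ w) :
    N.en β w ≤ N.en (N.cut V β) w + 50 * V.card * n * ρ ^ 2 := by
  obtain ⟨t, u, ht, hu, hun⟩ := hw
  have hc : ∀ e, cst (N.y w e) ≤ 18 * Real.pi ^ 2 * ρ ^ 2 := by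
    intro e
    rw [cst_eq_of_lift (lift_y_of N w t u ht hu e)]
    refine (one_sub_cos_le _).trans ?_
    have hA : |N.A u e| ≤ 3 * ρ := by
      unfold Net.A
      refine (Finset.abs_sum_le_sum_abs _ _).trans ?_
      refine (Finset.sum_le_sum fun i _ => hun _ (by simp)).trans ?_
      simp
    have hA2 : N.A u e ^ 2 ≤ (3 * ρ) ^ 2 := by
      rw [← sq_abs]; exact pow_le_pow_left₀ (abs_nonneg _) hA 2
    nlinarith [Real.pi_pos, sq_nonneg Real.pi]
  have hcut : ∀ e, β e * cst (N.y w e) ≤ N.cut V β e * cst (N.y w e) +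
      ∑ i, (if N.ln i e ∈ V then (50 * ρ ^ 2 : ℝ) else 0) := by
    intro e
    unfold Net.cut
    split_ifs with h
    · obtain ⟨i, hi⟩ := h
      rw [zero_mul, zero_add]
      have h1 : (50 * ρ ^ 2 : ℝ) ≤ ∑ i, (if N.ln i e ∈ V then (50 * ρ ^ 2 : ℝ) else 0) := by
        have := Finset.single_le_sum (f := fun i => (if N.ln i e ∈ V then (50 * ρ ^ 2 : ℝ) else 0))
          (fun j _ => by split_ifs <;> positivity) (mem_univ i)
        simpa [hi] using this
      refine le_trans ?_ h1
      have h2 : β e * cst (N.y w e) ≤ 1 / 4 * (18 * Real.pi ^ 2 * ρ ^ 2) :=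
        mul_le_mul (hβ e).2 (hc e) (cst_nonneg _) (by norm_num)
      have hπ : Real.pi ^ 2 ≤ 10 := by nlinarith [Real.pi_lt_d2, Real.pi_gt_three]
      nlinarith [sq_nonneg ρ]
    · have : 0 ≤ ∑ i, (if N.ln i e ∈ V then (50 * ρ ^ 2 : ℝ) else 0) :=
        Finset.sum_nonneg fun j _ => by split_ifs <;> positivity
      linarith
  have hs := Finset.sum_le_sum fun e (_ : e ∈ univ) => hcut e
  rw [Finset.sum_add_distrib] at hs
  have h3 : ∑ e, ∑ i, (if N.ln i e ∈ V then (50 * ρ ^ 2 : ℝ) else 0) =
      50 * V.card * n * ρ ^ 2 := by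
    rw [← sum_line_on N (fun v _ => if v ∈ V then (50 * ρ ^ 2 : ℝ) else 0)]
    have : ∀ v : Line n, ∑ _e ∈ N.on v, (if v ∈ V then (50 * ρ ^ 2 : ℝ) else 0) =
        if v ∈ V then n * (50 * ρ ^ 2 : ℝ) else 0 := by
      intro v
      rw [Finset.sum_const, card_on, nsmul_eq_mul]
      split_ifs <;> simp
    simp only [this]
    rw [Finset.sum_ite_mem, Finset.univ_inter, Finset.sum_const, nsmul_eq_mul]
    ring
  rw [h3] at hs
  exact hs

/-- the cut energy only depends on the coordinates outside `V` -/
lemma en_cut_congr {n q : ℕ} (N : Net n) (β : Cell n → ℝ) (V : Finset (Line n))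
    {w z : Pt n q} (h : ∀ v ∉ V, w v = z v) : N.en (N.cut V β) w = N.en (N.cut V β) z := by
  unfold Net.en
  refine Finset.sum_congr rfl fun e _ => ?_
  unfold Net.cut
  split_ifs with h1
  · simp
  · push Not at h1
    have : N.y w e = N.y z e := by
      unfold Net.y
      exact Finset.sum_congr rfl fun i _ => h _ (h1 i)
    rw [this]

/-- the number of extensions -/
lemma card_ext {n q : ℕ} [NeZero q] (hn : 2 ≤ n) (hq : n ≤ q) (V : Finset (Line n)) {ρ : ℝ}
    (hρ : 1 / n ≤ ρ) {z : Pt n q} (hz : Near V ρ z) :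
    ((q : ℝ) / n) ^ V.card ≤
      (univ.filter fun w : Pt n q => (∀ v ∉ V, w v = z v) ∧ Near ∅ ρ w).card := by
  obtain ⟨t, u, ht, hu, hun⟩ := hz
  set S : Line n → Finset (ZMod q) := fun v =>
    if v ∈ V then (univ.filter fun s : ZMod q => ∃ m : ℤ, |lift s - t v.1 - m| ≤ 1 / n)
      else {z v} with hS
  have hsub : Fintype.piFinset S ⊆
      (univ.filter fun w : Pt n q => (∀ v ∉ V, w v = z v) ∧ Near ∅ ρ w) := by
    intro w hw
    rw [Fintype.mem_piFinset] at hw
    simp only [mem_filter, mem_univ, true_and]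
    have hoff : ∀ v ∉ V, w v = z v := by
      intro v hv
      have := hw v
      simp only [hS, hv, if_false, mem_singleton] at this
      exact this
    have hon : ∀ v ∈ V, ∃ m : ℤ, |lift (w v) - t v.1 - m| ≤ 1 / n := by
      intro v hv
      have := hw v
      simp only [hS, hv, if_true, mem_filter, mem_univ, true_and] at this
      exact this
    refine ⟨hoff, ?_⟩
    have hex : ∀ v : Line n, ∃ (m : ℤ) (c : ℝ), lift (w v) = t v.1 + c + m ∧ |c| ≤ ρ := by
      intro v
      by_cases hv : v ∈ V
      · obtain ⟨m, hm⟩ := hon v hv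
        exact ⟨m, lift (w v) - t v.1 - m, by ring, hm.trans hρ⟩
      · obtain ⟨m, hm⟩ := hu v
        exact ⟨m, u v, by rw [hoff v hv]; exact hm, hun v hv⟩
    choose m c hmc using hex
    exact ⟨t, c, ht, fun v => ⟨m v, (hmc v).1⟩, fun v _ => (hmc v).2⟩
  have h1 : ((Fintype.piFinset S).card : ℝ) ≤
      (univ.filter fun w : Pt n q => (∀ v ∉ V, w v = z v) ∧ Near ∅ ρ w).card := by
    exact_mod_cast Finset.card_le_card hsub
  refine le_trans ?_ h1
  rw [Fintype.card_piFinset]
  push_cast
  have h2 : ((q : ℝ) / n) ^ V.card = ∏ v : Line n, if v ∈ V then (q : ℝ) / n else 1 := by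
    rw [Finset.prod_ite_mem, Finset.univ_inter, Finset.prod_const]
  rw [h2]
  refine Finset.prod_le_prod (fun v _ => ?_) (fun v _ => ?_)
  · split_ifs
    · positivity
    · norm_num
  · simp only [hS]
    split_ifs with hv
    · exact card_lift_near hn hq (t v.1)
    · simp

theorem ext : ExtStatement := by
  filter_upwards [eventually_ge_atTop 2] with n hn
  intro q _ hq3 N β hβ V ρ hρ _
  have hq : n ≤ q := le_trans (Nat.le_self_pow (by norm_num) n) hq3
  have hn0 : (0 : ℝ) < n := by
    have : 0 < n := by omega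
    exact_mod_cast this
  have hq0 : (0 : ℝ) < q := q_pos'
  have hρ0 : 0 ≤ ρ := le_trans (by positivity) hρ
  set T : Pt n q → Finset (Pt n q) := fun z =>
    univ.filter fun w : Pt n q => (∀ v ∉ V, w v = z v) ∧ Near ∅ ρ w with hT
  set C := Real.exp (50 * V.card * n * ρ ^ 2) with hC
  have hpow : (0 : ℝ) < ((q : ℝ) / n) ^ V.card := by positivity
  have key : ((q : ℝ) / n) ^ V.card *
      ∑ z ∈ univ.filter (fun z : Pt n q => Near V ρ z), Real.exp (-N.en (N.cut V β) z) ≤
      (q : ℝ) ^ V.card * (C *
        ∑ z ∈ univ.filter (fun z : Pt n q => Near ∅ ρ z), Real.exp (-N.en β z)) := by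
    calc ((q : ℝ) / n) ^ V.card *
        ∑ z ∈ univ.filter (fun z : Pt n q => Near V ρ z), Real.exp (-N.en (N.cut V β) z)
        = ∑ z ∈ univ.filter (fun z : Pt n q => Near V ρ z),
            ((q : ℝ) / n) ^ V.card * Real.exp (-N.en (N.cut V β) z) := Finset.mul_sum _ _ _
      _ ≤ ∑ z ∈ univ.filter (fun z : Pt n q => Near V ρ z),
            ∑ w ∈ T z, C * Real.exp (-N.en β w) := by
          refine Finset.sum_le_sum fun z hz => ?_
          simp only [mem_filter, mem_univ, true_and] at hz
          have h1 := card_ext hn hq V hρ hz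
          calc ((q : ℝ) / n) ^ V.card * Real.exp (-N.en (N.cut V β) z)
              ≤ ((T z).card : ℝ) * Real.exp (-N.en (N.cut V β) z) :=
                mul_le_mul_of_nonneg_right h1 (Real.exp_pos _).le
            _ = ∑ _w ∈ T z, Real.exp (-N.en (N.cut V β) z) := by
                rw [Finset.sum_const, nsmul_eq_mul]
            _ ≤ ∑ w ∈ T z, C * Real.exp (-N.en β w) := by
                refine Finset.sum_le_sum fun w hw => ?_
                simp only [hT, mem_filter, mem_univ, true_and] at hw
                rw [← en_cut_congr N β V hw.1, hC, ← Real.exp_add]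
                refine Real.exp_le_exp.mpr ?_
                have := en_le_cut N hβ V hw.2
                linarith
      _ ≤ ∑ z : Pt n q, ∑ w ∈ T z, C * Real.exp (-N.en β w) := by
          refine Finset.sum_le_sum_of_subset_of_nonneg (Finset.filter_subset _ _) fun z _ _ => ?_
          exact Finset.sum_nonneg fun w _ => by positivity
      _ = ∑ w ∈ univ.filter (fun w : Pt n q => Near ∅ ρ w),
            ∑ _z ∈ univ.filter (fun z : Pt n q => ∀ v ∉ V, z v = w v),
              C * Real.exp (-N.en β w) := by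
          refine Finset.sum_comm' ?_
          intro z w
          simp only [hT, mem_filter, mem_univ, true_and]
          constructor
          · rintro ⟨h1, h2⟩
            exact ⟨fun v hv => (h1 v hv).symm, h2⟩
          · rintro ⟨h1, h2⟩
            exact ⟨fun v hv => (h1 v hv).symm, h2⟩
      _ = (q : ℝ) ^ V.card * (C *
        ∑ z ∈ univ.filter (fun z : Pt n q => Near ∅ ρ z), Real.exp (-N.en β z)) := by
          rw [Finset.mul_sum, Finset.mul_sum]
          refine Finset.sum_congr rfl fun w _ => ?_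
          rw [Finset.sum_const, card_agree, nsmul_eq_mul]
          push_cast
          ring
  have h2 : (q : ℝ) ^ V.card = ((q : ℝ) / n) ^ V.card * (n : ℝ) ^ V.card := by
    rw [← mul_pow]
    congr 1
    field_simp
  rw [h2, mul_assoc] at key
  have h3 := le_of_mul_le_mul_left key hpow
  rw [mul_assoc]
  exact h3

end

end Pool.Agent.Lib.MP_185394_co.Up
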