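import Pool.Agent.Lib.MP_185394_co.Up.Interfaces

/-! Assembly of the final statement from the analytic half and the tilt. -/

namespace Pool.Agent.Lib.MP_185394_co.Up

open Finset Filter

noncomputable section

/-- the net of a Latin square -/
def netOf {n : ℕ} (L : Fin n → Fin n → Fin n) (hL : IsLatinSquare L) : Net n where
  idx := ![fun e => e.1, fun e => e.2, fun e => L e.1 e.2]
  bij := by
    have h01 : Function.Bijective (fun e : Cell n => (e.1, e.2)) :=
      ⟨fun a b h => by simpa using h, fun b => ⟨b, rfl⟩⟩
    have inj02 : Function.Injective (fun e : Cell n => (e.1, L e.1 e.2)) := by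
      intro a b h
      simp only [Prod.mk.injEq] at h
      obtain ⟨h1, h2⟩ := h
      rw [h1] at h2
      exact Prod.ext h1 (hL.1 _ h2)
    have inj12 : Function.Injective (fun e : Cell n => (e.2, L e.1 e.2)) := by
      intro a b h
      simp only [Prod.mk.injEq] at h
      obtain ⟨h1, h2⟩ := h
      rw [h1] at h2
      exact Prod.ext (hL.2 b.2 h2) h1
    have bij02 := Finite.injective_iff_bijective.mp inj02
    have bij12 := Finite.injective_iff_bijective.mp inj12
    have swap : ∀ {f g : Cell n → Fin n}, Function.Bijective (fun e => (f e, g e)) →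
        Function.Bijective (fun e => (g e, f e)) := by
      intro f g h
      exact Prod.swap_bijective.comp h
    intro i j hij
    fin_cases i <;> fin_cases j
    · exact absurd rfl hij
    · exact h01
    · exact bij02
    · exact swap h01
    · exact absurd rfl hij
    · exact bij12
    · exact swap bij02
    · exact swap bij12
    · exact absurd rfl hij

theorem final (hA : AnalyticStatement) (hT : TiltStatement) : FinalStatement := by
  obtain ⟨K, hK⟩ := hA
  have h := hK.and (hT K)
  obtain ⟨n₀, hn₀⟩ := eventually_atTop.mp h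
  refine ⟨max n₀ 1, fun n hn L hL => ?_⟩
  have hn1 : n₀ ≤ n := le_trans (le_max_left _ _) hn
  have hn2 : 1 ≤ n := le_trans (le_max_right _ _) hn
  obtain ⟨h1, h2⟩ := hn₀ n hn1
  have : NeZero (n ^ 3) := ⟨by positivity⟩
  obtain ⟨S, hS⟩ := h1 (n ^ 3) le_rfl (netOf L hL) (h2 (n ^ 3) le_rfl (netOf L hL))
  refine ⟨S, fun r => ?_, fun c => ?_, fun s => ?_⟩
  · have := hS (0, r)
    rw [← this]
    congr 1
    ext e
    simp [Net.on, netOf]
  · have := hS (1, c)
    rw [← this]
    congr 1
    ext e
    simp [Net.on, netOf]
  · have := hS (2, s)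
    rw [← this]
    congr 1
    ext e
    simp [Net.on, netOf]

/-- if every Latin square of order `n` has a `c`-plex for some `0 < c < n`, then `κ(n) < n` -/
lemma kappa_lt {n c : ℕ} (hc : 0 < c) (hcn : c < n)
    (h : ∀ L : Fin n → Fin n → Fin n, IsLatinSquare L →
      ∃ P : Finset (Fin n × Fin n), IsPlex L c P) : kappa n < n := by
  have hle : ∀ k ∈ {k | 1 ≤ k ∧ ∃ L : Fin n → Fin n → Fin n, IsLatinSquare L ∧
      ∃ P : Finset (Fin n × Fin n), IsIndivisiblePlex L k P}, k ≤ n - 1 := by
    rintro k ⟨_, L, hL, P, hP, hind⟩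
    have hn0 : 0 < n := by omega
    have hkn : k ≤ n := by
      have h1 := hP.1 ⟨0, hn0⟩
      rw [← h1]
      calc (P.filter fun e => e.1 = ⟨0, hn0⟩).card
          ≤ ((univ : Finset (Fin n × Fin n)).filter fun e => e.1 = ⟨0, hn0⟩).card :=
            Finset.card_le_card (Finset.filter_subset_filter _ (Finset.subset_univ _))
        _ ≤ n := by
            have : ((univ : Finset (Fin n × Fin n)).filter fun e => e.1 = ⟨0, hn0⟩).card
                ≤ (univ : Finset (Fin n)).card := by
              refine Finset.card_le_card_of_injOn (fun e => e.2) (fun _ _ => by simp) ?_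
              intro a ha b hb hab
              simp only [coe_filter, mem_univ, true_and, Set.mem_ofPred_eq] at ha hb
              exact Prod.ext (ha.trans hb.symm) hab
            simpa using this
    rcases Nat.lt_or_ge k n with hlt | hge
    · omega
    · exfalso
      have hk : k = n := le_antisymm hkn hge
      subst hk
      obtain ⟨Q, hQ⟩ := h L hL
      refine hind c hc hcn Q ?_ hQ
      -- `P` is everything
      have hPuniv : P = univ := by
        rw [← Finset.card_eq_iff_eq_univ]
        have hcard : P.card = ∑ r : Fin k, (P.filter fun e => e.1 = r).card := by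
          rw [← Finset.card_eq_sum_card_fiberwise (f := fun e : Fin k × Fin k => e.1)
            (t := univ) (fun _ _ => by simp)]
        rw [hcard, Finset.sum_congr rfl (fun r _ => hP.1 r)]
        simp
      rw [hPuniv]
      exact Finset.subset_univ _
  have hsup : kappa n ≤ n - 1 := by
    unfold kappa
    rcases Set.eq_empty_or_nonempty {k | 1 ≤ k ∧ ∃ L : Fin n → Fin n → Fin n, IsLatinSquare L ∧
      ∃ P : Finset (Fin n × Fin n), IsIndivisiblePlex L k P} with he | hne
    · rw [he]; simp
    · exact csSup_le hne hle
  omega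

theorem final_kappa (hF : FinalStatement) : ∃ n₀ : ℕ, ∀ n ≥ n₀,
    (∀ L : Fin n → Fin n → Fin n, IsLatinSquare L →
      ∃ P : Finset (Fin n × Fin n), IsPlex L (2 * (n / 4)) P) ∧ kappa n < n := by
  obtain ⟨n₀, h⟩ := hF
  refine ⟨max n₀ 4, fun n hn => ?_⟩
  have h1 : n₀ ≤ n := le_trans (le_max_left _ _) hn
  have h2 : 4 ≤ n := le_trans (le_max_right _ _) hn
  exact ⟨h n h1, kappa_lt (by omega) (by omega) (h n h1)⟩

end

end Pool.Agent.Lib.MP_185394_co.Up
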