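import Pool.Agent.Lib.MP_185394_co.Up.Interfaces

/-!
MP_185394_co, upper bound side: module G (the gauge functional `NH` and Hahn-Banach).
-/

namespace Pool.Agent.Lib.MP_185394_co.Up

open Finset

namespace Gauge

variable {ι : Type} [Fintype ι]

lemma bdd (H : Submodule ℝ (ι → ℝ)) {A B : ℝ} (hA : 0 < A) (hB : 0 < B) (v : ι → ℝ) :
    BddBelow (Set.range fun hb : H × (ι → ℝ) =>
      A * ∑ e, |v e + (hb.1 : ι → ℝ) e - hb.2 e| + B * ‖hb.2‖) := by
  refine ⟨0, ?_⟩
  rintro _ ⟨hb, rfl⟩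
  positivity

lemma NH_le (H : Submodule ℝ (ι → ℝ)) {A B : ℝ} (hA : 0 < A) (hB : 0 < B) (v : ι → ℝ)
    {h : ι → ℝ} (hh : h ∈ H) (b : ι → ℝ) :
    NH H A B v ≤ A * ∑ e, |v e + h e - b e| + B * ‖b‖ :=
  ciInf_le (bdd H hA hB v) (⟨⟨h, hh⟩, b⟩ : H × (ι → ℝ))

lemma exists_lt (H : Submodule ℝ (ι → ℝ)) {A B : ℝ} (v : ι → ℝ) {c : ℝ}
    (hc : NH H A B v < c) :
    ∃ h ∈ H, ∃ b : ι → ℝ, A * ∑ e, |v e + h e - b e| + B * ‖b‖ < c := by
  obtain ⟨⟨h, b⟩, hb⟩ := exists_lt_of_ciInf_lt hc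
  exact ⟨h, h.2, b, hb⟩

lemma le_NH (H : Submodule ℝ (ι → ℝ)) {A B : ℝ} (v : ι → ℝ) {c : ℝ}
    (hc : ∀ h ∈ H, ∀ b : ι → ℝ, c ≤ A * ∑ e, |v e + h e - b e| + B * ‖b‖) :
    c ≤ NH H A B v :=
  le_ciInf fun hb => hc hb.1 hb.1.2 hb.2

lemma NH_nonneg (H : Submodule ℝ (ι → ℝ)) {A B : ℝ} (hA : 0 < A) (hB : 0 < B) (v : ι → ℝ) :
    0 ≤ NH H A B v :=
  le_NH H v fun h _ b => by positivity

lemma NH_add (H : Submodule ℝ (ι → ℝ)) {A B : ℝ} (hA : 0 < A) (hB : 0 < B) (v w : ι → ℝ) :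
    NH H A B (v + w) ≤ NH H A B v + NH H A B w := by
  refine le_of_forall_pos_lt_add fun ε hε => ?_
  obtain ⟨h, hh, b, hb⟩ := exists_lt (A := A) (B := B) H v (c := NH H A B v + ε / 2) (by linarith)
  obtain ⟨h', hh', b', hb'⟩ := exists_lt (A := A) (B := B) H w (c := NH H A B w + ε / 2)
    (by linarith)
  have h1 := NH_le H hA hB (v + w) (H.add_mem hh hh') (b + b')
  have h2 : ∑ e, |(v + w) e + (h + h') e - (b + b') e| ≤
      ∑ e, |v e + h e - b e| + ∑ e, |w e + h' e - b' e| := by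
    rw [← Finset.sum_add_distrib]
    refine Finset.sum_le_sum fun e _ => ?_
    have : (v + w) e + (h + h') e - (b + b') e =
      (v e + h e - b e) + (w e + h' e - b' e) := by
      simp only [Pi.add_apply]; ring
    rw [this]
    exact abs_add_le _ _
  have h3 : ‖b + b'‖ ≤ ‖b‖ + ‖b'‖ := norm_add_le _ _
  have h4 := mul_le_mul_of_nonneg_left h2 hA.le
  have h5 := mul_le_mul_of_nonneg_left h3 hB.le
  linarith

lemma NH_smul_le (H : Submodule ℝ (ι → ℝ)) {A B : ℝ} (hA : 0 < A) (hB : 0 < B) (c : ℝ)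
    (v : ι → ℝ) : NH H A B (c • v) ≤ |c| * NH H A B v := by
  rcases eq_or_ne c 0 with rfl | hc
  · rw [zero_smul, abs_zero, zero_mul]
    have h1 := NH_le H hA hB (0 : ι → ℝ) H.zero_mem 0
    simpa using h1
  · have hc' : 0 < |c| := abs_pos.mpr hc
    have key : |c|⁻¹ * NH H A B (c • v) ≤ NH H A B v := by
      refine le_NH H v fun h hh b => ?_
      have h1 := NH_le H hA hB (c • v) (H.smul_mem c hh) (c • b)
      have h2 : ∑ e, |(c • v) e + (c • h) e - (c • b) e| = |c| * ∑ e, |v e + h e - b e| := by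
        rw [Finset.mul_sum]
        refine Finset.sum_congr rfl fun e _ => ?_
        rw [← abs_mul]
        congr 1
        simp only [Pi.smul_apply, smul_eq_mul]; ring
      rw [h2, norm_smul, Real.norm_eq_abs] at h1
      rw [inv_mul_le_iff₀ hc']
      linarith
    rwa [inv_mul_le_iff₀ hc'] at key

lemma NH_smul (H : Submodule ℝ (ι → ℝ)) {A B : ℝ} (hA : 0 < A) (hB : 0 < B) (c : ℝ)
    (v : ι → ℝ) : NH H A B (c • v) = |c| * NH H A B v := by
  refine le_antisymm (NH_smul_le H hA hB c v) ?_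
  rcases eq_or_ne c 0 with rfl | hc
  · rw [abs_zero, zero_mul]
    exact NH_nonneg H hA hB _
  · have h1 := NH_smul_le H hA hB c⁻¹ (c • v)
    rw [smul_smul, inv_mul_cancel₀ hc, one_smul, abs_inv] at h1
    have hc' : 0 < |c| := abs_pos.mpr hc
    rwa [le_inv_mul_iff₀ hc'] at h1

lemma NH_of_mem (H : Submodule ℝ (ι → ℝ)) {A B : ℝ} (hA : 0 < A) (hB : 0 < B) {v : ι → ℝ}
    (hv : v ∈ H) : NH H A B v = 0 := by
  refine le_antisymm ?_ (NH_nonneg H hA hB v)
  have h1 := NH_le H hA hB v (H.neg_mem hv) 0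
  simpa using h1

lemma mem_of_NH (H : Submodule ℝ (ι → ℝ)) {A B : ℝ} (hA : 0 < A) (hB : 0 < B) {v : ι → ℝ}
    (hv : NH H A B v = 0) : v ∈ H := by
  have hcl : IsClosed (H : Set (ι → ℝ)) := H.closed_of_finiteDimensional
  have : v ∈ closure (H : Set (ι → ℝ)) := by
    rw [Metric.mem_closure_iff]
    intro ε hε
    obtain ⟨h, hh, b, hb⟩ := exists_lt H v (A := A) (B := B) (c := min A B * (ε / 2))
      (by rw [hv]; positivity)
    refine ⟨-h, H.neg_mem hh, ?_⟩
    have hm : 0 < min A B := lt_min hA hB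
    have hs : 0 ≤ ∑ e, |v e + h e - b e| := Finset.sum_nonneg fun e _ => abs_nonneg _
    have h1 : min A B * (∑ e, |v e + h e - b e| + ‖b‖) < min A B * (ε / 2) := by
      have e1 := mul_le_mul_of_nonneg_right (min_le_left A B) hs
      have e2 := mul_le_mul_of_nonneg_right (min_le_right A B) (norm_nonneg b)
      linarith
    have h2 : ∑ e, |v e + h e - b e| + ‖b‖ < ε / 2 := lt_of_mul_lt_mul_left h1 hm.le
    rw [dist_eq_norm, sub_neg_eq_add]
    have h3 : ‖v + h‖ ≤ ∑ e, |v e + h e - b e| + ‖b‖ := by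
      rw [pi_norm_le_iff_of_nonneg (by positivity)]
      intro e
      have e1 : (v + h) e = (v e + h e - b e) + b e := by simp
      rw [e1]
      refine (norm_add_le _ _).trans (add_le_add ?_ (norm_le_pi_norm b e))
      rw [Real.norm_eq_abs]
      exact Finset.single_le_sum (f := fun e => |v e + h e - b e|)
        (fun i _ => abs_nonneg _) (Finset.mem_univ e)
    linarith
  rwa [hcl.closure_eq] at this

lemma NH_mono {H H' : Submodule ℝ (ι → ℝ)} {A B : ℝ} (hA : 0 < A) (hB : 0 < B) (v : ι → ℝ)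
    (hle : H ≤ H') : NH H' A B v ≤ NH H A B v :=
  le_NH H v fun _ hh b => NH_le H' hA hB v (hle hh) b

lemma NH_sup {H : Submodule ℝ (ι → ℝ)} {A B : ℝ} (hA : 0 < A) (hB : 0 < B) (w v : ι → ℝ)
    {c : ℝ} (hc : ∀ s : ℝ, c ≤ NH H A B (v + s • w)) :
    c ≤ NH (H ⊔ Submodule.span ℝ {w}) A B v := by
  refine le_NH _ v fun h hh b => ?_
  obtain ⟨h₁, hh₁, h₂, hh₂, rfl⟩ := Submodule.mem_sup.mp hh
  obtain ⟨s, rfl⟩ := Submodule.mem_span_singleton.mp hh₂
  refine (hc s).trans ((NH_le H hA hB (v + s • w) hh₁ b).trans (le_of_eq ?_))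
  congr 3
  funext e
  congr 1
  simp only [Pi.add_apply]
  ring

lemma NH_decomp {H : Submodule ℝ (ι → ℝ)} {A B : ℝ} (hA : 0 < A) (hB : 0 < B) (v : ι → ℝ)
    {c : ℝ} (hc : NH H A B v < c) :
    ∃ h ∈ H, ∃ a b : ι → ℝ, (∀ e, v e + h e = a e + b e) ∧ A * ∑ e, |a e| < c ∧
      ∀ e, B * |b e| < c := by
  obtain ⟨h, hh, b, hb⟩ := exists_lt H v hc
  have h1 : 0 ≤ A * ∑ e, |v e + h e - b e| := by positivity
  have h2 : 0 ≤ B * ‖b‖ := by positivity
  refine ⟨h, hh, fun e => v e + h e - b e, b, fun e => by ring, by linarith, fun e => ?_⟩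
  have h3 := mul_le_mul_of_nonneg_left (norm_le_pi_norm b e) hB.le
  rw [Real.norm_eq_abs] at h3
  linarith

lemma hahn_banach (H : Submodule ℝ (ι → ℝ)) {A B : ℝ} (hA : 0 < A) (hB : 0 < B) (v : ι → ℝ)
    {τ μ : ℝ} (hμ : 0 ≤ μ) (hτ : |τ| ≤ μ * NH H A B v) :
    ∃ w : ι → ℝ, (∀ h ∈ H, ∑ e, w e * h e = 0) ∧ ∑ e, w e * v e = τ ∧
      (∀ e, |w e| ≤ μ * A) ∧ ∑ e, |w e| ≤ μ * B := by
  classical
  by_cases hv : v ∈ H
  · rw [NH_of_mem H hA hB hv, mul_zero] at hτ
    have hτ0 : τ = 0 := abs_eq_zero.mp (le_antisymm hτ (abs_nonneg _))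
    refine ⟨0, fun h _ => by simp, by simp [hτ0], fun e => ?_, ?_⟩
    · simp only [Pi.zero_apply, abs_zero]; positivity
    · simp only [Pi.zero_apply, abs_zero, Finset.sum_const_zero]; positivity
  · have hv0 : v ≠ 0 := fun h0 => hv (h0 ▸ H.zero_mem)
    obtain ⟨g, hg1, hg2⟩ := exists_extension_of_le_sublinear
      (LinearPMap.mkSpanSingleton (K := ℝ) v τ hv0) (fun x => μ * NH H A B x)
      (fun c hc x => by
        rw [NH_smul H hA hB, abs_of_pos hc]; ring)
      (fun x y => by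
        have := mul_le_mul_of_nonneg_left (NH_add H hA hB x y) hμ
        linarith)
      (by
        rintro ⟨x, hx⟩
        obtain ⟨c, rfl⟩ := Submodule.mem_span_singleton.mp hx
        have e1 : (LinearPMap.mkSpanSingleton (K := ℝ) v τ hv0) ⟨c • v, hx⟩ = c • τ :=
          LinearPMap.mkSpanSingleton'_apply _ _ _ _ _
        rw [e1]
        simp only [NH_smul H hA hB, smul_eq_mul]
        calc c * τ ≤ |c * τ| := le_abs_self _
          _ = |c| * |τ| := abs_mul _ _
          _ ≤ |c| * (μ * NH H A B v) := mul_le_mul_of_nonneg_left hτ (abs_nonneg _)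
          _ = μ * (|c| * NH H A B v) := by ring)
    have hgv : g v = τ := by
      have h1 := hg1 ⟨v, Submodule.mem_span_singleton_self v⟩
      rw [h1]
      exact LinearPMap.mkSpanSingleton_apply ℝ ℝ hv0 τ
    have hsum : ∀ x : ι → ℝ, g x = ∑ e, g (Pi.single e 1) * x e := by
      intro x
      rw [LinearMap.pi_apply_eq_sum_univ g x]
      refine Finset.sum_congr rfl fun e _ => ?_
      rw [smul_eq_mul, mul_comm]
      congr 2
      funext j
      simp [Pi.single_apply, eq_comm]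
    have hgH : ∀ h ∈ H, g h = 0 := by
      intro h hh
      have h1 := hg2 h
      have h2 := hg2 (-h)
      simp only [NH_of_mem H hA hB hh, NH_of_mem H hA hB (H.neg_mem hh), mul_zero,
        map_neg] at h1 h2
      linarith
    refine ⟨fun e => g (Pi.single e 1), fun h hh => ?_, ?_, fun e => ?_, ?_⟩
    · rw [← hsum, hgH h hh]
    · rw [← hsum, hgv]
    · have hb : ∀ x : ι → ℝ, (∑ j, |x j| = 1) → g x ≤ μ * A := by
        intro x hx
        refine (hg2 x).trans (mul_le_mul_of_nonneg_left ?_ hμ)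
        have := NH_le H hA hB x H.zero_mem 0
        simp only [Pi.zero_apply, add_zero, sub_zero, norm_zero, mul_zero, hx, mul_one] at this
        exact this
      have e1 : ∑ j, |(Pi.single e (1 : ℝ) : ι → ℝ) j| = 1 := by
        rw [Finset.sum_eq_single e] <;> simp +contextual
      have e2 : ∑ j, |(-(Pi.single e (1 : ℝ)) : ι → ℝ) j| = 1 := by
        simpa using e1
      have h1 := hb _ e1
      have h2 := hb _ e2
      rw [map_neg] at h2
      rw [abs_le]
      constructor <;> linarith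
    · set x : ι → ℝ := fun e => SignType.sign (g (Pi.single e 1)) with hx
      have h1 : ∑ e, |g (Pi.single e 1)| = g x := by
        rw [hsum x]
        refine Finset.sum_congr rfl fun e _ => ?_
        rw [hx]
        simp only
        rw [self_mul_sign]
      rw [h1]
      refine (hg2 x).trans (mul_le_mul_of_nonneg_left ?_ hμ)
      have h2 := NH_le H hA hB x H.zero_mem x
      simp only [Pi.zero_apply, add_zero, sub_self, abs_zero, Finset.sum_const_zero, mul_zero,
        zero_add] at h2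
      refine h2.trans ?_
      have h3 : ‖x‖ ≤ 1 := by
        rw [pi_norm_le_iff_of_nonneg zero_le_one]
        intro e
        rw [hx, Real.norm_eq_abs]
        simp only
        rcases lt_trichotomy (g (Pi.single e 1)) 0 with h | h | h
        · simp [sign_neg h]
        · simp [h]
        · simp [sign_pos h]
      calc B * ‖x‖ ≤ B * 1 := mul_le_mul_of_nonneg_left h3 hB.le
        _ = B := mul_one _

end Gauge

open Gauge in
/-- Module G. -/
theorem gauge : GaugeStatement := by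
  intro ι _ A B hA hB
  refine ⟨fun H v => NH_nonneg H hA hB v, fun H v w => NH_add H hA hB v w,
    fun H c v => NH_smul H hA hB c v,
    fun H v => ⟨mem_of_NH H hA hB, NH_of_mem H hA hB⟩,
    fun H H' v hle => NH_mono hA hB v hle,
    fun H w v c hc => NH_sup hA hB w v hc,
    fun H v c hc => NH_decomp hA hB v hc,
    fun H v τ μ hμ hτ => hahn_banach H hA hB v hμ hτ⟩

end Pool.Agent.Lib.MP_185394_co.Up
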