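import Pool.Agent.Lib.MP_185394_co.Up.Interfaces
import Pool.Agent.Lib.MP_185394_co.Up.Asymp

/-!
MP_185394_co, module H (HighStatement): points of energy above `n ^ 1.4` are negligible.
-/

namespace Pool.Agent.Lib.MP_185394_co.Up

open Finset Filter

open scoped Classical

noncomputable section

namespace HighAux

variable {n q : ℕ} [NeZero q]

/-- number of `t` with `|lift t| ≤ 1 / n` -/
lemma card_small (hn : 2 ≤ n) :
    (q : ℝ) / n ≤ ((univ.filter fun t : ZMod q => |lift t| ≤ 1 / n).card : ℝ) := by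
  have hq : (0 : ℝ) < q := q_pos'
  have hn0 : (0 : ℝ) < n := by exact_mod_cast (by omega : 0 < n)
  have hval : ∀ k : ℕ, k ≤ q / n → ((k : ZMod q)).valMinAbs = (k : ℤ) := by
    intro k hk
    apply ZMod.valMinAbs_natCast_of_le_half
    have : q / n ≤ q / 2 := Nat.div_le_div_left hn (by norm_num)
    omega
  have h1 : (Finset.range (q / n + 1)).card ≤
      (univ.filter fun t : ZMod q => |lift t| ≤ 1 / n).card := by
    refine Finset.card_le_card_of_injOn (fun k : ℕ => (k : ZMod q)) ?_ ?_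
    · intro k hk
      have hk' : k ≤ q / n := by
        have := Finset.mem_coe.mp hk
        rw [Finset.mem_range] at this
        omega
      simp only [coe_filter, mem_univ, true_and, Set.mem_ofPred_eq]
      unfold lift
      rw [hval k hk']
      have h2 : (k : ℝ) ≤ q / n := by
        have h3 : k * n ≤ q := (Nat.mul_le_mul_right n hk').trans (Nat.div_mul_le_self q n)
        rw [le_div_iff₀ hn0]
        exact_mod_cast h3
      rw [abs_of_nonneg (by positivity)]
      push_cast
      rw [div_le_div_iff₀ hq hn0]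
      rw [le_div_iff₀ hn0] at h2
      linarith
    · intro k hk l hl hkl
      have hk' : k ≤ q / n := by
        have := Finset.mem_coe.mp hk
        rw [Finset.mem_range] at this
        omega
      have hl' : l ≤ q / n := by
        have := Finset.mem_coe.mp hl
        rw [Finset.mem_range] at this
        omega
      have h3 := congrArg ZMod.valMinAbs hkl
      simp only at h3
      rw [hval k hk', hval l hl'] at h3
      exact_mod_cast h3
  rw [Finset.card_range] at h1
  have h2 : (q : ℝ) / n ≤ ((q / n + 1 : ℕ) : ℝ) := by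
    rw [div_le_iff₀ hn0]
    have h3 : q ≤ (q / n + 1) * n := by
      have h4 := Nat.div_add_mod q n
      have h5 := Nat.mod_lt q (show 0 < n by omega)
      nlinarith
    exact_mod_cast h3
  exact h2.trans (by exact_mod_cast h1)

/-- the points with all labels within `1 / n` of zero -/
def box (n q : ℕ) [NeZero q] : Finset (Pt n q) :=
  Fintype.piFinset fun _ : Line n => univ.filter fun t : ZMod q => |lift t| ≤ 1 / n

lemma mem_box (z : Pt n q) : z ∈ box n q ↔ ∀ v, |lift (z v)| ≤ 1 / n := by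
  unfold box
  simp [Fintype.mem_piFinset]

lemma card_box (hn : 2 ≤ n) : ((q : ℝ) / n) ^ (3 * n) ≤ ((box n q).card : ℝ) := by
  unfold box
  rw [Fintype.card_piFinset, Finset.prod_const, Finset.card_univ, Fintype.card_prod,
    Fintype.card_fin, Fintype.card_fin]
  push_cast
  exact pow_le_pow_left₀ (by positivity) (card_small hn) _

lemma near_of_box (z : Pt n q) (hz : z ∈ box n q) (ρ : ℝ) (hρ : 1 / n ≤ ρ) : Near ∅ ρ z := by
  rw [mem_box] at hz
  refine ⟨fun _ => 0, fun v => lift (z v), by simp, fun v => ⟨0, by simp⟩, fun v _ => (hz v).trans hρ⟩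

lemma en_of_box (N : Net n) (β : Cell n → ℝ) (hβ : ∀ e, 0 ≤ β e ∧ β e ≤ 1 / 4) (hn : 2 ≤ n)
    (z : Pt n q) (hz : z ∈ box n q) : N.en β z ≤ 45 := by
  rw [mem_box] at hz
  have hn0 : (0 : ℝ) < n := by exact_mod_cast (by omega : 0 < n)
  have h1 : ∀ e, β e * cst (N.y z e) ≤ 45 / n ^ 2 := by
    intro e
    obtain ⟨m, hm⟩ := lift_y_of N z (fun _ => 0) (fun v => lift (z v)) (by simp)
      (fun v => ⟨0, by simp⟩) e
    rw [cst_eq_of_lift (r := N.A (fun v => lift (z v)) e) ⟨m, hm⟩]
    have h2 := one_sub_cos_le (N.A (fun v => lift (z v)) e)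
    have h3 : |N.A (fun v => lift (z v)) e| ≤ 3 / n := by
      unfold Net.A
      refine (Finset.abs_sum_le_sum_abs _ _).trans ?_
      refine (Finset.sum_le_sum fun i _ => hz (N.ln i e)).trans (le_of_eq ?_)
      simp
      ring
    have h4 : N.A (fun v => lift (z v)) e ^ 2 ≤ 9 / n ^ 2 := by
      rw [← sq_abs]
      refine (pow_le_pow_left₀ (abs_nonneg _) h3 2).trans (le_of_eq ?_)
      rw [div_pow]; norm_num
    have h5 : 0 ≤ 1 - Real.cos (2 * Real.pi * N.A (fun v => lift (z v)) e) := by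
      linarith [Real.cos_le_one (2 * Real.pi * N.A (fun v => lift (z v)) e)]
    have hpi : Real.pi ^ 2 ≤ 10 := by
      have h1 : Real.pi < 3.15 := Real.pi_lt_d2
      nlinarith [Real.pi_pos]
    have h6 : 2 * Real.pi ^ 2 * N.A (fun v => lift (z v)) e ^ 2 ≤ 2 * 10 * (9 / n ^ 2) := by
      gcongr
    have h7 : β e * (1 - Real.cos (2 * Real.pi * N.A (fun v => lift (z v)) e)) ≤
        1 / 4 * (2 * 10 * (9 / n ^ 2)) :=
      mul_le_mul (hβ e).2 (h2.trans h6) h5 (by norm_num)
    refine h7.trans (le_of_eq ?_)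
    ring
  unfold Net.en
  refine (Finset.sum_le_sum fun e _ => h1 e).trans (le_of_eq ?_)
  rw [Finset.sum_const, Finset.card_univ, Fintype.card_prod, Fintype.card_fin, nsmul_eq_mul]
  push_cast
  field_simp

end HighAux

open HighAux in
theorem high : HighStatement := by
  have hA := Asymp.mul_log_pow_mul_rpow_le 12 1 (a := 1) (b := 1.4) (by norm_num)
  have hB := Asymp.const_le_rpow 180 (a := 1.4) (by norm_num)
  have hC := Asymp.mul_rpow_le 4 (a := 1.39) (b := 1.4) (by norm_num)
  filter_upwards [hA, hB, hC, eventually_ge_atTop 2] with n hA hB hC hn q _ _ N β hβ ρ hρ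
  have hq : (0 : ℝ) < q := q_pos'
  have hn0 : (0 : ℝ) < n := by exact_mod_cast (by omega : 0 < n)
  have hL : ∑ x ∈ univ.filter (fun x : Pt n q => (n : ℝ) ^ (1.4 : ℝ) < N.en β x),
      Real.exp (-N.en β x) ≤ (q : ℝ) ^ (3 * n) * Real.exp (-(n : ℝ) ^ (1.4 : ℝ)) := by
    have h1 : ∀ x ∈ univ.filter (fun x : Pt n q => (n : ℝ) ^ (1.4 : ℝ) < N.en β x),
        Real.exp (-N.en β x) ≤ Real.exp (-(n : ℝ) ^ (1.4 : ℝ)) := by
      intro x hx
      simp only [mem_filter, mem_univ, true_and] at hx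
      exact Real.exp_le_exp.mpr (by linarith)
    refine (Finset.sum_le_sum h1).trans ?_
    rw [Finset.sum_const, nsmul_eq_mul]
    refine mul_le_mul_of_nonneg_right ?_ (Real.exp_pos _).le
    have h2 : (univ.filter (fun x : Pt n q => (n : ℝ) ^ (1.4 : ℝ) < N.en β x)).card ≤
        q ^ (3 * n) := by
      refine (Finset.card_le_univ _).trans ?_
      rw [Fintype.card_fun, ZMod.card, Fintype.card_prod, Fintype.card_fin, Fintype.card_fin]
    exact_mod_cast h2
  have hR : ((q : ℝ) / n) ^ (3 * n) * Real.exp (-45) ≤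
      ∑ z ∈ univ.filter (fun z : Pt n q => Near ∅ ρ z), Real.exp (-N.en β z) := by
    have h1 : box n q ⊆ univ.filter (fun z : Pt n q => Near ∅ ρ z) := by
      intro z hz
      simp only [mem_filter, mem_univ, true_and]
      exact near_of_box z hz ρ hρ
    have h2 : ∑ z ∈ box n q, Real.exp (-N.en β z) ≤
        ∑ z ∈ univ.filter (fun z : Pt n q => Near ∅ ρ z), Real.exp (-N.en β z) :=
      Finset.sum_le_sum_of_subset_of_nonneg h1 fun _ _ _ => (Real.exp_pos _).le
    have h3 : ((box n q).card : ℝ) * Real.exp (-45) ≤ ∑ z ∈ box n q, Real.exp (-N.en β z) := by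
      rw [← nsmul_eq_mul, ← Finset.sum_const]
      refine Finset.sum_le_sum fun z hz => Real.exp_le_exp.mpr ?_
      have := en_of_box N β hβ hn z hz
      linarith
    refine le_trans ?_ (h3.trans h2)
    exact mul_le_mul_of_nonneg_right (card_box hn) (Real.exp_pos _).le
  refine hL.trans (le_trans ?_ (mul_le_mul_of_nonneg_left hR (Real.exp_pos _).le))
  rw [div_pow]
  have h1 : (n : ℝ) ^ (3 * n) * Real.exp (-(n : ℝ) ^ (1.4 : ℝ)) ≤
      Real.exp (-(n : ℝ) ^ (1.39 : ℝ)) * Real.exp (-45) := by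
    rw [Asymp.pow_eq_exp (by omega), ← Real.exp_add, ← Real.exp_add]
    apply Real.exp_le_exp.mpr
    rw [Real.rpow_one, pow_one] at hA
    push_cast
    nlinarith
  have h2 : (0 : ℝ) < (n : ℝ) ^ (3 * n) := by positivity
  calc (q : ℝ) ^ (3 * n) * Real.exp (-(n : ℝ) ^ (1.4 : ℝ))
      = (q : ℝ) ^ (3 * n) / (n : ℝ) ^ (3 * n) *
        ((n : ℝ) ^ (3 * n) * Real.exp (-(n : ℝ) ^ (1.4 : ℝ))) := by
        field_simp
    _ ≤ (q : ℝ) ^ (3 * n) / (n : ℝ) ^ (3 * n) *
        (Real.exp (-(n : ℝ) ^ (1.39 : ℝ)) * Real.exp (-45)) :=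
        mul_le_mul_of_nonneg_left h1 (by positivity)
    _ = Real.exp (-(n : ℝ) ^ (1.39 : ℝ)) *
        ((q : ℝ) ^ (3 * n) / (n : ℝ) ^ (3 * n) * Real.exp (-45)) := by ring

end

end Pool.Agent.Lib.MP_185394_co.Up
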