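import Pool.Agent.Lib.MP_185394_co.Up.Basic
import Pool.Agent.Lib.MP_185394_co.Plex

/-!
MP_185394_co, upper bound side: the statements of the modules (see Blueprint.md).

Each `XStatement : Prop` is proved in its own file; the assembly files take them as hypotheses.
-/

namespace Pool.Agent.Lib.MP_185394_co.Up

open Finset Filter

open scoped Classical

noncomputable section

/-! ## Part I: dichotomy and counting of classes -/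

/-- (D1) Crude dichotomy: a near trivial point of small energy has all its means close to the unit
circle. -/
def MeanStatement : Prop :=
  ∀ (n q : ℕ) [NeZero q] (N : Net n) (z : Pt n q) (ε : ℝ), 0 < n → 0 ≤ ε → ε ≤ 1 / 8 →
    2 * N.full z ≤ ε ^ 2 * n ^ 2 → NT z → ∀ i, 1 - 2 * ε ≤ ‖mean z i‖

/-- (D2) Refined dichotomy: it is enough to control the line sums of `ph (y z e) - 1`. -/
def RefinedStatement : Prop :=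
  ∀ (n q : ℕ) [NeZero q] (N : Net n) (z : Pt n q) (ε : ℝ), 0 < n → 0 ≤ ε → ε ≤ 1 / 8 →
    (∀ i : Fin 3, ∑ v : Fin n, ‖∑ e ∈ N.on (i, v), (ph (N.y z e) - 1)‖ ≤ ε * n ^ 2) →
    ¬ NT z → ∀ i, ‖mean z i‖ ≤ 2 * ε

/-- (D3) Being near trivial is transitive on the points of energy at most `n ^ 1.45`. -/
def TransStatement : Prop :=
  ∀ᶠ n : ℕ in atTop, ∀ (q : ℕ) [NeZero q] (N : Net n) (x x' x'' : Pt n q),
    N.full x ≤ (n : ℝ) ^ (1.45 : ℝ) → N.full x' ≤ (n : ℝ) ^ (1.45 : ℝ) →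
    N.full x'' ≤ (n : ℝ) ^ (1.45 : ℝ) → NT (x - x') → NT (x' - x'') → NT (x - x'')

/-- (W) There are at most `2n` classes of points of energy at most `n ^ 1.45`. -/
def WelchStatement : Prop :=
  ∀ᶠ n : ℕ in atTop, ∀ (q : ℕ) [NeZero q], n ^ 3 ≤ q → ∀ (N : Net n) (𝒮 : Finset (Pt n q)),
    (∀ x ∈ 𝒮, N.full x ≤ (n : ℝ) ^ (1.45 : ℝ)) →
    (∀ x ∈ 𝒮, ∀ x' ∈ 𝒮, x ≠ x' → ¬ NT (x - x')) → (𝒮.card : ℝ) ≤ 2 * n

/-- (K) Representatives: coordinatewise minimal points, one for each class. -/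
def ClassStatement : Prop :=
  ∀ᶠ n : ℕ in atTop, ∀ (q : ℕ) [NeZero q], n ^ 3 ≤ q → ∀ (N : Net n) (β : Cell n → ℝ),
    (∀ e, 0 ≤ β e ∧ β e ≤ 1 / 4) → ∑ e, (1 / 4 - β e) ≤ (n : ℝ) ^ (1.445 : ℝ) →
    ∃ R : Finset (Pt n q), (R.card : ℝ) ≤ 2 * n ∧
      (∀ r ∈ R, N.CoordMin β r ∧ N.full r ≤ (n : ℝ) ^ (1.45 : ℝ)) ∧
      ∀ x, N.en β x ≤ (n : ℝ) ^ (1.4 : ℝ) → ∃ r ∈ R, NT (x - r) ∧ N.en β r ≤ N.en β x

/-! ## Part II: concentration, structure of the good points, upper bound -/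

/-- (C) Points with a large gradient have small total weight. -/
def ConcStatement : Prop :=
  ∀ (n q : ℕ) [NeZero q] (N : Net n) (β : Cell n → ℝ), 1 ≤ n → 10 * n ^ 2 ≤ q →
    (∀ e, 0 ≤ β e ∧ β e ≤ 1 / 4) → ∀ τ : ℝ, 0 ≤ τ →
    ∑ x ∈ univ.filter (fun x : Pt n q => ∃ v, n * τ ≤ |N.grad β x v|), Real.exp (-N.en β x) ≤
      500 * n ^ 2 * Real.exp (-(2 * n * τ ^ 2)) * ∑ x : Pt n q, Real.exp (-N.en β x)

/-- (LC) A point with small gradient, light outside `V`, is within `11 τ` of the representative of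
its class, outside `V`. -/
def LightCloseStatement : Prop :=
  ∀ᶠ n : ℕ in atTop, ∀ (q : ℕ) [NeZero q], n ^ 3 ≤ q → ∀ (N : Net n) (β : Cell n → ℝ), N.WOK β →
    ∀ V : Finset (Line n), (V.card : ℝ) ≤ (n : ℝ) ^ (0.41 : ℝ) →
    ∀ (x r : Pt n q) (τ : ℝ), (n : ℝ) ^ (-0.5 : ℝ) ≤ τ → τ ≤ (n : ℝ) ^ (-0.4 : ℝ) →
    N.CoordMin (N.cut V β) r → N.full r ≤ (n : ℝ) ^ (1.45 : ℝ) →
    N.full x ≤ (n : ℝ) ^ (1.45 : ℝ) → NT (x - r) →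
    (∀ v ∉ V, N.lineEn β x v ≤ 1e-12 * n) → (∀ v, |N.grad β x v| ≤ n * τ) →
    Near V (11 * τ) (x - r)

/-- (P) Pointwise bound near a coordinatewise minimal point. -/
def PointStatement : Prop :=
  ∀ᶠ n : ℕ in atTop, ∀ (q : ℕ) [NeZero q], n ^ 3 ≤ q → ∀ (N : Net n) (β : Cell n → ℝ),
    (∀ e, 0 ≤ β e ∧ β e ≤ 1 / 4) →
    ∀ V : Finset (Line n), (∀ e i, N.ln i e ∈ V → β e = 0) →
    ∀ (r z : Pt n q) (ρ : ℝ), ρ ≤ (n : ℝ) ^ (-0.39 : ℝ) → N.CoordMin β r → Near V ρ z →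
    0.98 * N.en β r + N.en β z - 0.02 ≤ N.en β (r + z)

/-- (X) Comparison of the trivial class with and without the lines of `V`. -/
def ExtStatement : Prop :=
  ∀ᶠ n : ℕ in atTop, ∀ (q : ℕ) [NeZero q], n ^ 3 ≤ q → ∀ (N : Net n) (β : Cell n → ℝ),
    (∀ e, 0 ≤ β e ∧ β e ≤ 1 / 4) →
    ∀ (V : Finset (Line n)) (ρ : ℝ), 1 / n ≤ ρ → ρ ≤ (n : ℝ) ^ (-0.39 : ℝ) →
    ∑ z ∈ univ.filter (fun z : Pt n q => Near V ρ z), Real.exp (-N.en (N.cut V β) z) ≤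
      n ^ V.card * Real.exp (50 * V.card * n * ρ ^ 2) *
        ∑ z ∈ univ.filter (fun z : Pt n q => Near ∅ ρ z), Real.exp (-N.en β z)

/-- (H) Points of energy above `n ^ 1.4` are negligible. -/
def HighStatement : Prop :=
  ∀ᶠ n : ℕ in atTop, ∀ (q : ℕ) [NeZero q], n ^ 3 ≤ q → ∀ (N : Net n) (β : Cell n → ℝ),
    (∀ e, 0 ≤ β e ∧ β e ≤ 1 / 4) → ∀ ρ : ℝ, 1 / n ≤ ρ →
    ∑ x ∈ univ.filter (fun x : Pt n q => (n : ℝ) ^ (1.4 : ℝ) < N.en β x), Real.exp (-N.en β x) ≤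
      Real.exp (-(n : ℝ) ^ (1.39 : ℝ)) *
        ∑ z ∈ univ.filter (fun z : Pt n q => Near ∅ ρ z), Real.exp (-N.en β z)

/-- (U) Everything outside the low classes is negligible. -/
def UpperStatement : Prop :=
  ∀ K : ℝ, 1 ≤ K → ∀ᶠ n : ℕ in atTop, ∀ (q : ℕ) [NeZero q], n ^ 3 ≤ q →
    ∀ (N : Net n) (β : Cell n → ℝ), N.WOK β →
    (∑ x ∈ univ.filter (fun x : Pt n q => ¬ ∃ r : Pt n q, N.CoordMin β r ∧
        N.full r ≤ (n : ℝ) ^ (1.45 : ℝ) ∧ N.en β r ≤ 3 * K * Real.log n ^ 2 ∧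
        Near ∅ (11 * (K * Real.log n / √n)) (x - r)), Real.exp (-N.en β x) ≤
      Real.exp (-(K * Real.log n ^ 2)) *
        ∑ z ∈ univ.filter (fun z : Pt n q => Near ∅ (11 * (K * Real.log n / √n)) z),
          Real.exp (-N.en β z)) ∧
    ∑ x : Pt n q, Real.exp (-N.en β x) ≤ 12 * n *
        ∑ z ∈ univ.filter (fun z : Pt n q => Near ∅ (11 * (K * Real.log n / √n)) z),
          Real.exp (-N.en β z)

/-! ## Part III: phases, inversion, final analytic statement -/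

/-- (F) Modulus and argument of `1 - p + p e(s)`. -/
def PhaseStatement : Prop :=
  ∀ p s : ℝ, 0 ≤ p → p ≤ 1 →
    (‖((1 - p : ℝ) : ℂ) + (p : ℂ) * Complex.exp (2 * Real.pi * Complex.I * (s : ℂ))‖ ≤
      Real.exp (-(p * (1 - p) * (1 - Real.cos (2 * Real.pi * s))))) ∧
    (|s| ≤ 1 / 4 →
      Real.exp (-(p * (1 - p) * (1 - Real.cos (2 * Real.pi * s))) - 200 * s ^ 4) ≤
        ‖((1 - p : ℝ) : ℂ) + (p : ℂ) * Complex.exp (2 * Real.pi * Complex.I * (s : ℂ))‖ ∧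
      ∃ ω : ℝ, |ω| ≤ 100 * |1 - 2 * p| * |s| ^ 3 ∧
        ((1 - p : ℝ) : ℂ) + (p : ℂ) * Complex.exp (2 * Real.pi * Complex.I * (s : ℂ)) =
          (‖((1 - p : ℝ) : ℂ) + (p : ℂ) * Complex.exp (2 * Real.pi * Complex.I * (s : ℂ))‖ : ℂ) *
            Complex.exp (Complex.I * ((2 * Real.pi * (p * s) + ω : ℝ) : ℂ)))

/-- (I) Fourier inversion. -/
def InversionStatement : Prop :=
  ∀ (n q : ℕ) [NeZero q] (N : Net n) (p : Cell n → ℝ) (c : ℕ), n < q → c ≤ n →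
    (∀ e, 0 ≤ p e ∧ p e ≤ 1) →
    0 < (∑ x : Pt n q, (∏ e, (((1 - p e : ℝ) : ℂ) + (p e : ℂ) * ph (N.y x e))) *
      ph (-(c • ∑ v, x v))).re →
    ∃ S : Finset (Cell n), N.Plex c S

/-- (FA) The analytic half. -/
def AnalyticStatement : Prop :=
  ∃ K : ℝ, ∀ᶠ n : ℕ in atTop, ∀ (q : ℕ) [NeZero q], n ^ 3 ≤ q → ∀ (N : Net n),
    (∃ (M : Finset (Line n)) (p : Cell n → ℝ), N.TiltOK q K (2 * (n / 4)) M p) →
    ∃ S : Finset (Cell n), N.Plex (2 * (n / 4)) S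

/-! ## Part IV: the tilt -/

/-- (R) Structure of near trivial points. -/
def SmallStatement : Prop :=
  ∀ᶠ n : ℕ in atTop, ∀ (q : ℕ) [NeZero q] (N : Net n) (M : Finset (Line n)),
    (M.card : ℝ) ≤ (n : ℝ) ^ (0.72 : ℝ) → ∀ z : Pt n q, NT z →
    N.Phi M z ≤ (n : ℝ) ^ (0.9 : ℝ) →
    ∃ (t : Fin 3 → ℝ) (u : RPt n), t 0 + t 1 + t 2 = 0 ∧
      (∀ v, ∃ m : ℤ, lift (z v) = t v.1 + u v + m) ∧
      (∀ v, |u v| ≤ √(2 * N.Phi M z / n)) ∧ ∀ e, lift (N.y z e) = N.A u e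

/-- a generating family for the points of low energy -/
structure Witness {n : ℕ} (N : Net n) (q : ℕ) (K : ℝ) {k : ℕ} (xs : Fin k → Pt n q)
    (M₁ : Finset (Line n)) : Prop where
  cardM : (M₁.card : ℝ) ≤ (n : ℝ) ^ (0.711 : ℝ)
  sup : ∀ l, ∀ e ∉ N.dead M₁, |lift (N.y (xs l) e)| ≤ (n : ℝ) ^ (-0.35 : ℝ)
  repr : ∀ M : Finset (Line n), M₁ ⊆ M → (M.card : ℝ) ≤ M₁.card + (n : ℝ) ^ (0.6 : ℝ) →
    ∀ x : Pt n q, N.Phi M x ≤ K * Real.log n ^ 2 →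
    ∃ (ε : Fin k → ℤ) (t : Fin 3 → ℝ) (u : RPt n), t 0 + t 1 + t 2 = 0 ∧
      (∀ v, ∃ m : ℤ, lift (x v) = ∑ l, ε l * lift (xs l v) + t v.1 + u v + m) ∧
      ∀ e ∉ N.dead M, lift (N.y x e) = ∑ l, ε l * lift (N.y (xs l) e) + N.A u e ∧
        |lift (N.y x e)| ≤ (n : ℝ) ^ (-0.34 : ℝ)
  rank : ∀ M : Finset (Line n), M₁ ⊆ M → (M.card : ℝ) ≤ M₁.card + (n : ℝ) ^ (0.6 : ℝ) →
    ∀ l : Fin 3 → Fin k, ∃ d : Fin 3 → ℤ, d ≠ 0 ∧ ∃ u : RPt n, ∀ e ∉ N.dead M,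
      ∑ i, d i * lift (N.y (xs (l i)) e) = N.A u e

/-- (Wit) -/
def WitnessStatement : Prop :=
  ∀ K : ℝ, ∀ᶠ n : ℕ in atTop, ∀ (q : ℕ) [NeZero q], n ^ 3 ≤ q → ∀ N : Net n,
    ∃ (k : ℕ) (xs : Fin k → Pt n q) (M₁ : Finset (Line n)), Witness N q K xs M₁

/-- integer combinations of a family of functions on the cells -/
def vec {n k : ℕ} (α : Fin k → Cell n → ℝ) (j : Fin k → ℤ) (e : Cell n) : ℝ := ∑ l, j l * α l e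

/-- (St) Structure of the lattice of low energy vectors: narrow generators and wide functionals. -/
def StructStatement : Prop :=
  ∀ᶠ n : ℕ in atTop, ∀ (N : Net n) (k : ℕ) (α : Fin k → Cell n → ℝ) (X : Fin k → RPt n)
    (κ : Fin k → Cell n → ℤ), (∀ l e, α l e = N.A (X l) e - κ l e) →
    ∀ M₁ : Finset (Line n),
    (∀ M : Finset (Line n), M₁ ⊆ M → (M.card : ℝ) ≤ M₁.card + (n : ℝ) ^ (0.6 : ℝ) →
      ∀ l : Fin 3 → Fin k, ∃ d : Fin 3 → ℤ, d ≠ 0 ∧ ∃ u : RPt n, ∀ e ∉ N.dead M,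
        ∑ i, d i * α (l i) e = N.A u e) →
    ∃ M : Finset (Line n), M₁ ⊆ M ∧ (M.card : ℝ) ≤ M₁.card + (n : ℝ) ^ (0.6 : ℝ) ∧
      ∃ (𝒩 : AddSubgroup (Fin k → ℤ)) (g : Fin 2 → Fin k → ℤ) (y : Fin 2 → RPt n)
        (a b : Fin 2 → Cell n → ℝ),
        (∀ i, ∀ e ∉ N.dead M, vec α (g i) e + N.A (y i) e = a i e + b i e) ∧
        (∀ i, ∑ e ∈ (N.dead M)ᶜ, |a i e| ≤ 40) ∧
        (∀ i e, |b i e| ≤ 5 * (n : ℝ) ^ (-1.4 : ℝ)) ∧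
        (∀ i, ∀ v ∉ M, ∑ e ∈ N.on v, |a i e| ≤ 1 / 100) ∧
        (∀ j ∈ 𝒩, ∃ (m : Fin 2 → ℤ) (u : RPt n), ∀ e ∉ N.dead M,
          vec α j e - m 0 * vec α (g 0) e - m 1 * vec α (g 1) e = N.A u e) ∧
        ∀ ℓ : (Fin k → ℤ) →+ ℝ, (∀ j ∈ 𝒩, ∃ m : ℤ, ℓ j = m) →
          ∃ w : Cell n → ℝ, (∀ v, ∑ e ∈ N.on v, w e = 0) ∧ (∀ e ∈ N.dead M, w e = 0) ∧
            (∀ e, |w e| ≤ 1 / 8) ∧ ∑ e, |w e| ≤ (n : ℝ) ^ (1.4 : ℝ) ∧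
            ∀ j, ∃ m : ℤ, ∑ e, w e * vec α j e = ℓ j + m

/-- (Na) The explicit density with exact phases at the narrow generators. -/
def NarrowStatement : Prop :=
  ∀ᶠ n : ℕ in atTop, ∀ (N : Net n) (M : Finset (Line n)),
    (M.card : ℝ) ≤ (n : ℝ) ^ (0.714 : ℝ) →
    ∀ (Y : Fin 2 → RPt n) (κ : Fin 2 → Cell n → ℤ) (a b : Fin 2 → Cell n → ℝ),
    (∀ i, ∀ e ∉ N.dead M, N.A (Y i) e - κ i e = a i e + b i e) →
    (∀ i, ∑ e ∈ (N.dead M)ᶜ, |a i e| ≤ 40) →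
    (∀ i e, |b i e| ≤ 5 * (n : ℝ) ^ (-1.4 : ℝ)) →
    (∀ i, ∀ v ∉ M, ∑ e ∈ N.on v, |a i e| ≤ 1 / 100) →
    ∃ p : Cell n → ℝ, (∀ v, ∑ e ∈ N.on v, p e = ((2 * (n / 4) : ℕ) : ℝ)) ∧
      (∀ e ∈ N.dead M, p e = 0) ∧ (∀ e ∉ N.dead M, 1 / 5 ≤ p e ∧ p e ≤ 4 / 5) ∧
      ∑ e, |1 / 2 - p e| ≤ (n : ℝ) ^ (1.432 : ℝ) ∧
      (∀ i, ∃ m : ℤ, ∑ e, p e * κ i e = m) ∧
      ∀ (Y' : RPt n) (κ' : Cell n → ℤ), (∀ e ∉ N.dead M, N.A Y' e = κ' e) →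
        ∃ m : ℤ, ∑ e, p e * κ' e = m

/-- (T) The tilt. -/
def TiltStatement : Prop :=
  ∀ K : ℝ, ∀ᶠ n : ℕ in atTop, ∀ (q : ℕ) [NeZero q], n ^ 3 ≤ q → ∀ N : Net n,
    ∃ (M : Finset (Line n)) (p : Cell n → ℝ), N.TiltOK q K (2 * (n / 4)) M p

/-! ## Linear algebra: the gauge functional and Hahn-Banach -/

/-- `NH H A B v = inf { A ‖a‖₁ + B ‖b‖_∞ : v + h = a + b, h ∈ H }` -/
def NH {ι : Type} [Fintype ι] (H : Submodule ℝ (ι → ℝ)) (A B : ℝ) (v : ι → ℝ) : ℝ :=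
  ⨅ hb : H × (ι → ℝ), A * ∑ e, |v e + (hb.1 : ι → ℝ) e - hb.2 e| + B * ‖hb.2‖

/-- (G) Properties of `NH`. -/
def GaugeStatement : Prop :=
  ∀ (ι : Type) [Fintype ι] (A B : ℝ), 0 < A → 0 < B →
    (∀ (H : Submodule ℝ (ι → ℝ)) (v : ι → ℝ), 0 ≤ NH H A B v) ∧
    (∀ (H : Submodule ℝ (ι → ℝ)) (v w : ι → ℝ), NH H A B (v + w) ≤ NH H A B v + NH H A B w) ∧
    (∀ (H : Submodule ℝ (ι → ℝ)) (c : ℝ) (v : ι → ℝ), NH H A B (c • v) = |c| * NH H A B v) ∧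
    (∀ (H : Submodule ℝ (ι → ℝ)) (v : ι → ℝ), NH H A B v = 0 ↔ v ∈ H) ∧
    (∀ (H H' : Submodule ℝ (ι → ℝ)) (v : ι → ℝ), H ≤ H' → NH H' A B v ≤ NH H A B v) ∧
    (∀ (H : Submodule ℝ (ι → ℝ)) (w v : ι → ℝ) (c : ℝ), (∀ s : ℝ, c ≤ NH H A B (v + s • w)) →
      c ≤ NH (H ⊔ Submodule.span ℝ {w}) A B v) ∧
    (∀ (H : Submodule ℝ (ι → ℝ)) (v : ι → ℝ) (c : ℝ), NH H A B v < c →
      ∃ h ∈ H, ∃ a b : ι → ℝ, (∀ e, v e + h e = a e + b e) ∧ A * ∑ e, |a e| < c ∧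
        ∀ e, B * |b e| < c) ∧
    (∀ (H : Submodule ℝ (ι → ℝ)) (v : ι → ℝ) (τ μ : ℝ), 0 ≤ μ → |τ| ≤ μ * NH H A B v →
      ∃ w : ι → ℝ, (∀ h ∈ H, ∑ e, w e * h e = 0) ∧ ∑ e, w e * v e = τ ∧
        (∀ e, |w e| ≤ μ * A) ∧ ∑ e, |w e| ≤ μ * B)

/-! ## The theorem -/

/-- The final statement. -/
def FinalStatement : Prop :=
  ∃ n₀ : ℕ, ∀ n ≥ n₀, ∀ L : Fin n → Fin n → Fin n, IsLatinSquare L →
    ∃ P : Finset (Fin n × Fin n), IsPlex L (2 * (n / 4)) P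

end

end Pool.Agent.Lib.MP_185394_co.Up
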