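import Pool.Agent.Lib.MP_185394_co.Up.Interfaces

/-!
MP_185394_co, module I (InversionStatement): Fourier inversion.
-/

namespace Pool.Agent.Lib.MP_185394_co.Up

open Finset

noncomputable section

namespace InvAux

variable {n q : ℕ} [NeZero q]

lemma lift_ne_zero {a : ZMod q} (ha : a ≠ 0) : lift a ≠ 0 := by
  have hq : (0 : ℝ) < q := q_pos'
  unfold lift
  intro h
  rw [div_eq_zero_iff] at h
  rcases h with h | h
  · have h1 : a.valMinAbs = 0 := by exact_mod_cast h
    exact ha ((ZMod.valMinAbs_eq_zero a).mp h1)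
  · exact hq.ne' h

lemma ph_ne_one {a : ZMod q} (ha : a ≠ 0) : ph a ≠ 1 := by
  intro h
  have h1 := norm_ph_sub_one_sq a
  rw [h] at h1
  have h2 := cst_ge a
  have h3 : 0 < lift a ^ 2 := by
    have := lift_ne_zero ha
    positivity
  simp at h1
  linarith

lemma sum_ph_zero (L : Pt n q → ZMod q) (δ : Pt n q) (a : ZMod q) (ha : a ≠ 0)
    (hL : ∀ x, L (x + δ) = L x + a) : ∑ x, ph (L x) = 0 := by
  have h1 : ∑ x, ph (L x) = ∑ x, ph (L (x + δ)) :=
    (Fintype.sum_equiv (Equiv.addRight δ) _ _ (fun x => rfl)).symm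
  have h2 : ∑ x, ph (L (x + δ)) = (∑ x, ph (L x)) * ph a := by
    rw [Finset.sum_mul]
    exact Finset.sum_congr rfl fun x _ => by rw [hL, ph_add]
  have h3 : (∑ x, ph (L x)) * (ph a - 1) = 0 := by
    rw [mul_sub, mul_one, ← h2, ← h1, sub_self]
  rcases mul_eq_zero.mp h3 with h | h
  · exact h
  · exact absurd (sub_eq_zero.mp h) (ph_ne_one ha)

omit [NeZero q] in
lemma y_single (N : Net n) (v : Line n) (e : Cell n) :
    N.y (Pi.single v 1 : Pt n q) e = if e ∈ N.on v then 1 else 0 := by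
  classical
  unfold Net.y
  rw [Finset.sum_eq_single v.1]
  · rw [Pi.single_apply]
    simp only [mem_on]
  · intro i _ hi
    rw [Pi.single_apply, if_neg]
    intro h
    exact hi (congrArg Prod.fst h)
  · intro h
    exact absurd (mem_univ _) h

omit [NeZero q] in
lemma sum_y_single (N : Net n) (v : Line n) (S : Finset (Cell n)) :
    ∑ e ∈ S, N.y (Pi.single v 1 : Pt n q) e = ((S ∩ N.on v).card : ZMod q) := by
  classical
  simp only [y_single]
  rw [Finset.sum_ite_mem]
  simp

end InvAux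

open InvAux in
theorem inversion : InversionStatement := by
  classical
  intro n q _ N p c hq hc hp hpos
  by_contra hno
  push Not at hno
  have hz : ∀ S : Finset (Cell n), ∑ x : Pt n q, ph (∑ e ∈ S, N.y x e - c • ∑ v, x v) = 0 := by
    intro S
    have h1 := hno S
    unfold Net.Plex at h1
    push Not at h1
    obtain ⟨v, hv⟩ := h1
    refine sum_ph_zero _ (Pi.single v 1) (((S ∩ N.on v).card : ZMod q) - (c : ZMod q)) ?_ ?_
    · intro h
      have h2 : ((S ∩ N.on v).card : ZMod q) = (c : ZMod q) := sub_eq_zero.mp h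
      have h3 : (S ∩ N.on v).card ≤ n := by
        have := Finset.card_le_card (Finset.inter_subset_right : S ∩ N.on v ⊆ N.on v)
        rwa [card_on] at this
      rw [ZMod.natCast_eq_natCast_iff'] at h2
      rw [Nat.mod_eq_of_lt (by omega), Nat.mod_eq_of_lt (by omega)] at h2
      exact hv h2
    · intro x
      have h2 : ∑ e ∈ S, N.y (x + Pi.single v 1) e =
          ∑ e ∈ S, N.y x e + ((S ∩ N.on v).card : ZMod q) := by
        rw [← sum_y_single N v S, ← Finset.sum_add_distrib]
        exact Finset.sum_congr rfl fun e _ => y_add N _ _ e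
      have h3 : ∑ w, (x + Pi.single v 1 : Pt n q) w = ∑ w, x w + 1 := by
        simp only [Pi.add_apply, Finset.sum_add_distrib]
        rw [Finset.sum_pi_single']
        simp
      rw [h2, h3]
      simp only [nsmul_eq_mul]
      ring
  have hexp : ∀ x : Pt n q, (∏ e, (((1 - p e : ℝ) : ℂ) + (p e : ℂ) * ph (N.y x e))) *
      ph (-(c • ∑ v, x v)) =
      ∑ S ∈ (univ : Finset (Cell n)).powerset, ((∏ e ∈ S, (p e : ℂ)) *
        ∏ e ∈ univ \ S, ((1 - p e : ℝ) : ℂ)) * ph (∑ e ∈ S, N.y x e - c • ∑ v, x v) := by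
    intro x
    have h1 : ∏ e, (((1 - p e : ℝ) : ℂ) + (p e : ℂ) * ph (N.y x e)) =
        ∏ e, ((p e : ℂ) * ph (N.y x e) + ((1 - p e : ℝ) : ℂ)) :=
      Finset.prod_congr rfl fun e _ => add_comm _ _
    rw [h1, Finset.prod_add, Finset.sum_mul]
    refine Finset.sum_congr rfl fun S _ => ?_
    rw [Finset.prod_mul_distrib, sub_eq_add_neg, ph_add, ph_sum]
    ring
  have hsum : ∑ x : Pt n q, (∏ e, (((1 - p e : ℝ) : ℂ) + (p e : ℂ) * ph (N.y x e))) *
      ph (-(c • ∑ v, x v)) = 0 := by
    rw [Finset.sum_congr rfl fun x _ => hexp x, Finset.sum_comm]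
    refine Finset.sum_eq_zero fun S _ => ?_
    rw [← Finset.mul_sum, hz S, mul_zero]
  rw [hsum] at hpos
  simp at hpos

end

end Pool.Agent.Lib.MP_185394_co.Up
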