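import Pool.Agent.Lib.MP_185394_co.Up.Interfaces

/-! Module LC: light points with small gradient are close to the representative of their class. -/

namespace Pool.Agent.Lib.MP_185394_co.Up

open Finset Filter

noncomputable section

set_option linter.unusedSectionVars false

namespace LC

variable {n q : ℕ} [NeZero q]

/-! ### cst inequalities -/

lemma nrm_add (s t : ZMod q) : ‖ph (s + t) - 1‖ ≤ ‖ph s - 1‖ + ‖ph t - 1‖ := by
  have h : ph (s + t) - 1 = ph s * (ph t - 1) + (ph s - 1) := by rw [ph_add]; ring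
  calc ‖ph (s + t) - 1‖ ≤ ‖ph s * (ph t - 1)‖ + ‖ph s - 1‖ := by rw [h]; exact norm_add_le _ _
    _ = ‖ph s - 1‖ + ‖ph t - 1‖ := by rw [norm_mul, norm_ph, one_mul, add_comm]

lemma cst_three (a b c : ZMod q) : cst (a + b + c) ≤ 3 * (cst a + cst b + cst c) := by
  have h1 := nrm_add (a + b) c
  have h2 := nrm_add a b
  have e0 := norm_ph_sub_one_sq (a + b + c)
  have e1 := norm_ph_sub_one_sq a
  have e2 := norm_ph_sub_one_sq b
  have e3 := norm_ph_sub_one_sq c
  have p0 := norm_nonneg (ph (a + b + c) - 1)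
  set A := ‖ph a - 1‖
  set B := ‖ph b - 1‖
  set C := ‖ph c - 1‖
  have h3 : ‖ph (a + b + c) - 1‖ ≤ A + B + C := by linarith
  have h4 : ‖ph (a + b + c) - 1‖ ^ 2 ≤ (A + B + C) ^ 2 := pow_le_pow_left₀ p0 h3 2
  nlinarith [sq_nonneg (A - B), sq_nonneg (B - C), sq_nonneg (A - C)]

lemma cst_four (a b c d : ZMod q) :
    cst (a + b + c + d) ≤ 4 * (cst a + cst b + cst c + cst d) := by
  have h0 := nrm_add (a + b + c) d
  have h1 := nrm_add (a + b) c
  have h2 := nrm_add a b
  have e0 := norm_ph_sub_one_sq (a + b + c + d)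
  have e1 := norm_ph_sub_one_sq a
  have e2 := norm_ph_sub_one_sq b
  have e3 := norm_ph_sub_one_sq c
  have e4 := norm_ph_sub_one_sq d
  have p0 := norm_nonneg (ph (a + b + c + d) - 1)
  set A := ‖ph a - 1‖
  set B := ‖ph b - 1‖
  set C := ‖ph c - 1‖
  set D := ‖ph d - 1‖
  have h3 : ‖ph (a + b + c + d) - 1‖ ≤ A + B + C + D := by linarith
  have h4 : ‖ph (a + b + c + d) - 1‖ ^ 2 ≤ (A + B + C + D) ^ 2 := pow_le_pow_left₀ p0 h3 2
  nlinarith [sq_nonneg (A - B), sq_nonneg (B - C), sq_nonneg (A - C), sq_nonneg (A - D),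
    sq_nonneg (B - D), sq_nonneg (C - D)]

/-! ### a centre for the labels of one type -/

lemma exists_center (z : Pt n q) (i : Fin 3) (hn : 0 < n) {ε : ℝ} (hε2 : 2 * ε ≤ 1)
    (h : 1 - 2 * ε ≤ ‖mean z i‖) : ∃ a : Fin n, ∑ v : Fin n, cst (z (i, v) - z (i, a)) ≤ 4 * ε * n := by
  have hn' : (0 : ℝ) < n := by exact_mod_cast hn
  set W : ℂ := ∑ v : Fin n, ph (z (i, v)) with hW
  have hWn : n * (1 - 2 * ε) ≤ ‖W‖ := by
    have : ‖W‖ = n * ‖mean z i‖ := by
      unfold mean
      rw [norm_div, Complex.norm_natCast]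
      field_simp
      rfl
    rw [this]
    exact mul_le_mul_of_nonneg_left h hn'.le
  have htot : ∑ a : Fin n, ∑ v : Fin n, cst (z (i, v) - z (i, a)) = n ^ 2 - ‖W‖ ^ 2 := by
    have h1 : ∀ a v : Fin n, cst (z (i, v) - z (i, a)) =
        1 - (ph (z (i, v)) * (starRingEnd ℂ) (ph (z (i, a)))).re := by
      intro a v; rw [cst_eq, ph_sub]
    simp only [h1, Finset.sum_sub_distrib, Finset.sum_const, Finset.card_univ, Fintype.card_fin,
      nsmul_eq_mul, mul_one]
    have h2 : ∑ a : Fin n, ∑ v : Fin n, (ph (z (i, v)) * (starRingEnd ℂ) (ph (z (i, a)))).re =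
        (W * (starRingEnd ℂ) W).re := by
      rw [hW, map_sum, Finset.sum_mul_sum, Finset.sum_comm]
      simp only [Complex.re_sum]
    rw [h2, Complex.mul_conj, Complex.normSq_eq_norm_sq, Complex.ofReal_re]
    ring
  have hle : ∑ a : Fin n, ∑ v : Fin n, cst (z (i, v) - z (i, a)) ≤ ∑ _a : Fin n, 4 * ε * n := by
    rw [htot, Finset.sum_const, Finset.card_univ, Fintype.card_fin, nsmul_eq_mul]
    have h3 : (n * (1 - 2 * ε)) ^ 2 ≤ ‖W‖ ^ 2 :=
      pow_le_pow_left₀ (mul_nonneg hn'.le (by linarith)) hWn 2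
    nlinarith [mul_pos hn' hn', mul_nonneg (sq_nonneg ε) (mul_pos hn' hn').le]
  have : Nonempty (Fin n) := ⟨⟨0, hn⟩⟩
  obtain ⟨a, -, ha⟩ := Finset.exists_le_of_sum_le (s := univ) Finset.univ_nonempty hle
  exact ⟨a, ha⟩

/-! ### three types -/

lemma fin3_cases (k : Fin 3) : k = 0 ∨ k = 1 ∨ k = 2 := by
  revert k; decide

lemma three (k : Fin 3) : ∃ i j : Fin 3, k ≠ i ∧ k ≠ j ∧ i ≠ j := by
  fin_cases k
  · exact ⟨1, 2, by decide, by decide, by decide⟩
  · exact ⟨0, 2, by decide, by decide, by decide⟩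
  · exact ⟨0, 1, by decide, by decide, by decide⟩

lemma sum_three {M : Type*} [AddCommMonoid M] (f : Fin 3 → M) {k i j : Fin 3} (hki : k ≠ i)
    (hkj : k ≠ j) (hij : i ≠ j) : ∑ l, f l = f k + f i + f j := by
  have h : (univ : Finset (Fin 3)) = {k, i, j} := by
    revert k i j; decide
  rw [h, Finset.sum_insert (by simp [hki, hkj]), Finset.sum_insert (by simp [hij]),
    Finset.sum_singleton, add_assoc]

/-! ### changing one coordinate -/

omit [NeZero q] in
lemma y_update (N : Net n) (r : Pt n q) (v : Line n) (δ : ZMod q) (e : Cell n) :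
    N.y (Function.update r v (r v + δ)) e = N.y r e + if e ∈ N.on v then δ else 0 := by
  obtain ⟨i, j, hi, hj, hij⟩ := three v.1
  unfold Net.y
  rw [sum_three _ hi hj hij, sum_three _ hi hj hij]
  have h1 : N.ln i e ≠ v := by
    intro h; exact hi (congrArg Prod.fst h).symm
  have h2 : N.ln j e ≠ v := by
    intro h; exact hj (congrArg Prod.fst h).symm
  rw [Function.update_of_ne h1, Function.update_of_ne h2]
  by_cases he : e ∈ N.on v
  · rw [(mem_on N v e).mp he, Function.update_self, if_pos he]; ring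
  · have h3 : N.ln v.1 e ≠ v := fun h => he ((mem_on N v e).mpr h)
    rw [Function.update_of_ne h3, if_neg he]; ring

lemma line_min {N : Net n} {β : Cell n → ℝ} {r : Pt n q} (h : N.CoordMin β r) (v : Line n)
    (δ : ZMod q) : N.lineEn β r v ≤ ∑ e ∈ N.on v, β e * cst (N.y r e + δ) := by
  have h1 := h v (r v + δ)
  unfold Net.en at h1
  simp only [y_update] at h1
  rw [← Finset.sum_filter_add_sum_filter_not univ (fun e => e ∈ N.on v),
    ← Finset.sum_filter_add_sum_filter_not univ (fun e => e ∈ N.on v) (fun e => β e * cst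
      (N.y r e + if e ∈ N.on v then δ else 0))] at h1
  have e1 : (univ.filter fun e => e ∈ N.on v) = N.on v := by ext; simp
  rw [e1] at h1
  have e2 : ∑ e ∈ N.on v, β e * cst (N.y r e + if e ∈ N.on v then δ else 0) =
      ∑ e ∈ N.on v, β e * cst (N.y r e + δ) :=
    Finset.sum_congr rfl fun e he => by rw [if_pos he]
  have e3 : ∑ e ∈ univ.filter (fun e => e ∉ N.on v),
        β e * cst (N.y r e + if e ∈ N.on v then δ else 0) =
      ∑ e ∈ univ.filter (fun e => e ∉ N.on v), β e * cst (N.y r e) :=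
    Finset.sum_congr rfl fun e he => by
      rw [if_neg (Finset.mem_filter.mp he).2, add_zero]
  rw [e2, e3] at h1
  unfold Net.lineEn
  linarith

lemma grad_le {N : Net n} {β : Cell n → ℝ} {r : Pt n q} (h : N.CoordMin β r) (v : Line n)
    (hβ : ∀ e, 0 ≤ β e ∧ β e ≤ 1 / 4) (hq : 4 ≤ q) : |N.grad β r v| ≤ 2 * n / q := by
  have hq0 : (0 : ℝ) < q := q_pos'
  have hq4 : (4 : ℝ) ≤ q := by exact_mod_cast hq
  set θ : ℝ := 2 * Real.pi / q with hθ
  have hθ0 : 0 < θ := by positivity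
  have hθ1 : θ ≤ Real.pi / 2 := by
    rw [hθ, div_le_div_iff₀ hq0 two_pos]
    nlinarith [Real.pi_pos]
  set C := ∑ e ∈ N.on v, β e * Real.cos (2 * Real.pi * lift (N.y r e)) with hC
  have key : ∀ s : ℤ, (s = 1 ∨ s = -1) →
      0 ≤ (1 - Real.cos θ) * C + s * Real.sin θ * N.grad β r v := by
    intro s hs
    have h1 := line_min h v (s : ZMod q)
    have h2 : ∀ e, cst (N.y r e + (s : ZMod q)) =
        1 - Real.cos (2 * Real.pi * lift (N.y r e) + s * θ) := by
      intro e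
      have h3 : ∃ m : ℤ, lift (N.y r e + (s : ZMod q)) = (lift (N.y r e) + s / q) + m := by
        obtain ⟨m, hm⟩ := lift_of_int (N.y r e + (s : ZMod q)) ((N.y r e).valMinAbs + s) (by simp)
        refine ⟨m, ?_⟩
        rw [hm]; unfold lift; push_cast; ring
      rw [cst_eq_of_lift h3]
      congr 2
      rw [hθ]; ring
    have h4 : ∀ e, cst (N.y r e + (s : ZMod q)) = cst (N.y r e) +
        (1 - Real.cos θ) * Real.cos (2 * Real.pi * lift (N.y r e)) +
        s * Real.sin θ * Real.sin (2 * Real.pi * lift (N.y r e)) := by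
      intro e
      rw [h2, Real.cos_add]
      unfold cst
      rcases hs with rfl | rfl
      · push_cast; rw [one_mul]; ring
      · push_cast; rw [neg_one_mul, Real.cos_neg, Real.sin_neg]; ring
    have h5 : ∑ e ∈ N.on v, β e * cst (N.y r e + (s : ZMod q)) =
        N.lineEn β r v + ((1 - Real.cos θ) * C + s * Real.sin θ * N.grad β r v) := by
      rw [hC]
      unfold Net.lineEn Net.grad
      rw [Finset.mul_sum, Finset.mul_sum, ← Finset.sum_add_distrib, ← Finset.sum_add_distrib]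
      refine Finset.sum_congr rfl fun e _ => ?_
      rw [h4]; ring
    rw [h5] at h1
    linarith
  have k1 := key 1 (Or.inl rfl)
  have k2 := key (-1) (Or.inr rfl)
  push_cast at k1 k2
  have hCn : C ≤ n / 4 := by
    have : ∀ e ∈ N.on v, β e * Real.cos (2 * Real.pi * lift (N.y r e)) ≤ 1 / 4 := by
      intro e _
      have h1 := Real.cos_le_one (2 * Real.pi * lift (N.y r e))
      have h2 := hβ e
      nlinarith
    calc C ≤ ∑ _e ∈ N.on v, (1 / 4 : ℝ) := Finset.sum_le_sum this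
      _ = n / 4 := by rw [Finset.sum_const, card_on, nsmul_eq_mul]; ring
  have hsin : 2 / Real.pi * θ ≤ Real.sin θ := Real.mul_le_sin hθ0.le hθ1
  have hcos : 1 - Real.cos θ ≤ θ ^ 2 / 2 := by
    have := Real.one_sub_sq_div_two_le_cos (x := θ)
    linarith
  have hcos0 : 0 ≤ 1 - Real.cos θ := by linarith [Real.cos_le_one θ]
  have hG : |N.grad β r v| * Real.sin θ ≤ θ ^ 2 / 2 * (n / 4) := by
    have hs0 : 0 ≤ Real.sin θ := le_trans (by positivity) hsin
    have h1 : |N.grad β r v| * Real.sin θ ≤ (1 - Real.cos θ) * C := by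
      rw [show |N.grad β r v| * Real.sin θ = |N.grad β r v * Real.sin θ| by
        rw [abs_mul, abs_of_nonneg hs0], abs_le]
      constructor <;> linarith
    have h2 : (1 - Real.cos θ) * C ≤ (1 - Real.cos θ) * (n / 4) :=
      mul_le_mul_of_nonneg_left hCn hcos0
    have h3 : (1 - Real.cos θ) * (n / 4) ≤ θ ^ 2 / 2 * (n / 4) :=
      mul_le_mul_of_nonneg_right hcos (by positivity)
    linarith
  have hG2 : |N.grad β r v| * (2 / Real.pi * θ) ≤ θ ^ 2 / 2 * (n / 4) :=
    le_trans (mul_le_mul_of_nonneg_left hsin (abs_nonneg _)) hG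
  have hpi := Real.pi_pos
  have hG3 : |N.grad β r v| ≤ Real.pi * θ * n / 16 := by
    have h1 : θ ^ 2 / 2 * (n / 4) = (Real.pi * θ * n / 16) * (2 / Real.pi * θ) := by
      field_simp
      ring
    rw [h1] at hG2
    exact le_of_mul_le_mul_right hG2 (by positivity)
  refine hG3.trans ?_
  rw [hθ, show Real.pi * (2 * Real.pi / q) * n / 16 = (Real.pi ^ 2 / 8) * n / q by field_simp; ring]
  have hp2 : Real.pi ^ 2 ≤ 10 := by nlinarith [Real.pi_lt_d2, Real.pi_pos]
  gcongr
  linarith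

/-! ### cells of a line meeting a set of lines -/

omit [NeZero q] in
lemma card_meet_on (N : Net n) (T : Finset (Line n)) (v : Line n) :
    ((N.on v).filter fun e => ∃ i, i ≠ v.1 ∧ N.ln i e ∈ T).card ≤ T.card := by
  classical
  have hch : ∀ e : Cell n, ∃ i : Fin 3, (∃ i, i ≠ v.1 ∧ N.ln i e ∈ T) → (i ≠ v.1 ∧ N.ln i e ∈ T) := by
    intro e
    by_cases h : ∃ i, i ≠ v.1 ∧ N.ln i e ∈ T
    · obtain ⟨i, hi⟩ := h
      exact ⟨i, fun _ => hi⟩
    · exact ⟨0, fun h' => absurd h' h⟩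
  choose f hf using hch
  refine Finset.card_le_card_of_injOn (fun e => N.ln (f e) e) ?_ ?_
  · intro e he
    simp only [coe_filter, Set.mem_ofPred_eq] at he
    exact (hf e he.2).2
  · intro e he e' he' h
    simp only [coe_filter, Set.mem_ofPred_eq] at he he'
    have h1 : f e = f e' := congrArg Prod.fst h
    have h2 : N.idx (f e) e = N.idx (f e') e' := congrArg Prod.snd h
    have h3 : N.idx v.1 e = N.idx v.1 e' := by
      have a := (mem_on N v e).mp he.1
      have b := (mem_on N v e').mp he'.1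
      exact congrArg Prod.snd (a.trans b.symm)
    have h4 := (hf e he.2).1
    rw [← h1] at h2
    exact (N.bij v.1 (f e) (Ne.symm h4)).1 (by simp [h3, h2])

lemma cut_nonneg (N : Net n) (V : Finset (Line n)) {β : Cell n → ℝ} (hβ : ∀ e, 0 ≤ β e)
    (e : Cell n) : 0 ≤ N.cut V β e := by
  unfold Net.cut
  split_ifs
  · exact le_rfl
  · exact hβ e

lemma cut_le (N : Net n) (V : Finset (Line n)) {β : Cell n → ℝ} (hβ : ∀ e, 0 ≤ β e)
    (e : Cell n) : N.cut V β e ≤ β e := by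
  unfold Net.cut
  split_ifs
  · exact hβ e
  · exact le_rfl

/-- the number of cut cells on a line outside `V` -/
lemma card_cut_on (N : Net n) (V : Finset (Line n)) {v : Line n} (hv : v ∉ V) :
    ((N.on v).filter fun e => ∃ i, N.ln i e ∈ V).card ≤ V.card := by
  refine le_trans (Finset.card_le_card ?_) (card_meet_on N V v)
  intro e he
  rw [mem_filter] at he ⊢
  obtain ⟨he, i, hi⟩ := he
  refine ⟨he, i, ?_, hi⟩
  rintro rfl
  rw [(mem_on N v e).mp he] at hi
  exact hv hi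

/-- the difference between a sum with `β` and one with the cut weights, on a line outside `V` -/
lemma sum_sub_cut (N : Net n) (V : Finset (Line n)) {β : Cell n → ℝ}
    (hβ : ∀ e, 0 ≤ β e ∧ β e ≤ 1 / 4) {v : Line n} (hv : v ∉ V) (f : Cell n → ℝ)
    (hf : ∀ e, |f e| ≤ 1) :
    |∑ e ∈ N.on v, β e * f e - ∑ e ∈ N.on v, N.cut V β e * f e| ≤ V.card / 4 := by
  rw [← Finset.sum_sub_distrib]
  have h1 : ∀ e ∈ N.on v, |β e * f e - N.cut V β e * f e| ≤
      if (∃ i, N.ln i e ∈ V) then (1 / 4 : ℝ) else 0 := by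
    intro e _
    unfold Net.cut
    split_ifs with h
    · rw [zero_mul, sub_zero, abs_mul, abs_of_nonneg (hβ e).1]
      nlinarith [(hβ e).1, (hβ e).2, hf e, abs_nonneg (f e)]
    · simp
  calc |∑ e ∈ N.on v, (β e * f e - N.cut V β e * f e)|
      ≤ ∑ e ∈ N.on v, |β e * f e - N.cut V β e * f e| := Finset.abs_sum_le_sum_abs _ _
    _ ≤ ∑ e ∈ N.on v, if (∃ i, N.ln i e ∈ V) then (1 / 4 : ℝ) else 0 := Finset.sum_le_sum h1
    _ = ((N.on v).filter fun e => ∃ i, N.ln i e ∈ V).card * (1 / 4 : ℝ) := by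
        rw [← Finset.sum_filter, Finset.sum_const, nsmul_eq_mul]
    _ ≤ V.card * (1 / 4 : ℝ) := by
        have := card_cut_on N V hv
        have h : ((((N.on v).filter fun e => ∃ i, N.ln i e ∈ V).card : ℕ) : ℝ) ≤ V.card := by
          exact_mod_cast this
        linarith
    _ = V.card / 4 := by ring


/-! ### the linear step -/

lemma sum_sub_type (N : Net n) (u : RPt n) {v : Line n} {i j : Fin 3} (hi : v.1 ≠ i)
    (hj : v.1 ≠ j) (hij : i ≠ j) :
    ∑ e ∈ N.on v, N.A u e = n * u v + (∑ w, u (i, w) + ∑ w, u (j, w)) := by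
  rw [sum_on_A]
  congr 1
  have h : (univ.filter fun l : Fin 3 => l ≠ v.1) = {i, j} := by
    generalize v.1 = k at hi hj
    revert k i j; decide
  rw [h, Finset.sum_pair hij]

lemma abs_A_le (N : Net n) (u : RPt n) {ρ : ℝ} (h : ∀ v, |u v| ≤ ρ) (e : Cell n) :
    |N.A u e| ≤ 3 * ρ := by
  unfold Net.A
  rw [Fin.sum_univ_three]
  have h0 := h (N.ln 0 e)
  have h1 := h (N.ln 1 e)
  have h2 := h (N.ln 2 e)
  calc |u (N.ln 0 e) + u (N.ln 1 e) + u (N.ln 2 e)|
      ≤ |u (N.ln 0 e)| + |u (N.ln 1 e)| + |u (N.ln 2 e)| := abs_add_three _ _ _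
    _ ≤ 3 * ρ := by linarith

lemma linear_step (hn : 0 < n) (N : Net n) (β : Cell n → ℝ) (u : RPt n) (V Irr : Finset (Line n))
    (R ρ : ℝ) (hR0 : 0 ≤ R) (hβ : ∀ e, 0 ≤ β e ∧ β e ≤ 1 / 4) (hV : ∀ v ∈ V, u v = 0)
    (hS0 : ∑ a, u (0, a) = 0) (hS1 : ∑ a, u (1, a) = 0)
    (hB : ∀ v ∉ V, 0.038 * n ≤ ∑ e ∈ N.on v, β e)
    (hreg : ∀ v ∉ V, v ∉ Irr → ∑ e ∈ N.on v, (1 / 4 - β e) ≤ 0.0001 * n)
    (hIrr : (Irr.card : ℝ) ≤ 0.0001 * n)
    (hR : ∀ v ∉ V, |∑ e ∈ N.on v, β e * N.A u e| ≤ n * R)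
    (hρ0 : 0 ≤ ρ) (hρ : ∀ v, |u v| ≤ ρ) : ∀ v, |u v| ≤ 43 * R + 0.0065 * ρ := by
  classical
  have hn' : (0 : ℝ) < n := by exact_mod_cast hn
  -- regular lines
  have hlin : ∀ v ∉ V, v ∉ Irr → |∑ e ∈ N.on v, N.A u e| ≤ n * (4 * R + 0.0012 * ρ) := by
    intro v hv hvI
    have h1 : ∑ e ∈ N.on v, N.A u e = 4 * (∑ e ∈ N.on v, β e * N.A u e +
        ∑ e ∈ N.on v, (1 / 4 - β e) * N.A u e) := by
      rw [← Finset.sum_add_distrib, Finset.mul_sum]
      refine Finset.sum_congr rfl fun e _ => ?_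
      ring
    have h2 : |∑ e ∈ N.on v, (1 / 4 - β e) * N.A u e| ≤ 0.0001 * n * (3 * ρ) := by
      calc |∑ e ∈ N.on v, (1 / 4 - β e) * N.A u e|
          ≤ ∑ e ∈ N.on v, |(1 / 4 - β e) * N.A u e| := Finset.abs_sum_le_sum_abs _ _
        _ ≤ ∑ e ∈ N.on v, (1 / 4 - β e) * (3 * ρ) := by
            refine Finset.sum_le_sum fun e _ => ?_
            rw [abs_mul, abs_of_nonneg (by linarith [(hβ e).2] : (0 : ℝ) ≤ 1 / 4 - β e)]
            exact mul_le_mul_of_nonneg_left (abs_A_le N u hρ e) (by linarith [(hβ e).2])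
        _ = (∑ e ∈ N.on v, (1 / 4 - β e)) * (3 * ρ) := by rw [Finset.sum_mul]
        _ ≤ 0.0001 * n * (3 * ρ) := mul_le_mul_of_nonneg_right (hreg v hv hvI) (by linarith)
    have h3 := hR v hv
    rw [h1, abs_mul, abs_of_pos (by norm_num : (0 : ℝ) < 4)]
    have h4 := abs_add_le (∑ e ∈ N.on v, β e * N.A u e) (∑ e ∈ N.on v, (1 / 4 - β e) * N.A u e)
    nlinarith
  -- type 2
  have h2reg : ∀ a : Fin n, ((2 : Fin 3), a) ∉ V → ((2 : Fin 3), a) ∉ Irr →
      |u (2, a)| ≤ 4 * R + 0.0012 * ρ := by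
    intro a h1 h2
    have h3 := hlin _ h1 h2
    rw [sum_sub_type N u (v := (2, a)) (i := 0) (j := 1) (by simp) (by simp) (by decide),
      hS0, hS1, add_zero, add_zero, abs_mul, abs_of_pos hn'] at h3
    exact le_of_mul_le_mul_left h3 hn'
  have hS2 : |∑ a, u (2, a)| ≤ n * (4 * R + 0.0013 * ρ) := by
    have hterm : ∀ a : Fin n, |u (2, a)| ≤ (4 * R + 0.0012 * ρ) +
        if ((2 : Fin 3), a) ∈ Irr then ρ else 0 := by
      intro a
      have hnn : 0 ≤ 4 * R + 0.0012 * ρ := by positivity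
      by_cases hV' : ((2 : Fin 3), a) ∈ V
      · rw [hV _ hV', abs_zero]
        split_ifs <;> linarith
      · by_cases hI : ((2 : Fin 3), a) ∈ Irr
        · rw [if_pos hI]; linarith [hρ (2, a)]
        · rw [if_neg hI, add_zero]; exact h2reg a hV' hI
    calc |∑ a, u (2, a)| ≤ ∑ a, |u (2, a)| := Finset.abs_sum_le_sum_abs _ _
      _ ≤ ∑ a : Fin n, ((4 * R + 0.0012 * ρ) + if ((2 : Fin 3), a) ∈ Irr then ρ else 0) :=
          Finset.sum_le_sum fun a _ => hterm a
      _ = n * (4 * R + 0.0012 * ρ) + (univ.filter fun a : Fin n => ((2 : Fin 3), a) ∈ Irr).card * ρ := by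
          rw [Finset.sum_add_distrib, Finset.sum_const, Finset.card_univ, Fintype.card_fin,
            nsmul_eq_mul, ← Finset.sum_filter, Finset.sum_const, nsmul_eq_mul]
      _ ≤ n * (4 * R + 0.0012 * ρ) + (0.0001 * n) * ρ := by
          have h1 : (univ.filter fun a : Fin n => ((2 : Fin 3), a) ∈ Irr).card ≤ Irr.card := by
            refine Finset.card_le_card_of_injOn (fun a => ((2 : Fin 3), a)) ?_ ?_
            · intro a ha
              simpa using ha
            · intro a _ b _ h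
              simpa using h
          have h2 : ((univ.filter fun a : Fin n => ((2 : Fin 3), a) ∈ Irr).card : ℝ) ≤ Irr.card := by
            exact_mod_cast h1
          have h3 := mul_le_mul_of_nonneg_right (h2.trans hIrr) hρ0
          linarith
      _ = n * (4 * R + 0.0013 * ρ) := by ring
  -- all regular lines
  have hregall : ∀ v, v ∉ Irr → |u v| ≤ 8 * R + 0.0025 * ρ := by
    intro v hvI
    by_cases hv : v ∈ V
    · rw [hV v hv, abs_zero]; positivity
    have h3 := hlin v hv hvI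
    have hcase : ∀ S : ℝ, |S| ≤ n * (4 * R + 0.0013 * ρ) →
        |n * u v + S| ≤ n * (4 * R + 0.0012 * ρ) → |u v| ≤ 8 * R + 0.0025 * ρ := by
      intro S hS h
      have h4 : n * |u v| ≤ n * (8 * R + 0.0025 * ρ) := by
        rw [show (n : ℝ) * |u v| = |n * u v| by rw [abs_mul, abs_of_pos hn']]
        have h5 : |n * u v| ≤ |n * u v + S| + |S| := by
          have := abs_sub (n * u v + S) S
          rwa [add_sub_cancel_right] at this
        linarith
      exact le_of_mul_le_mul_left h4 hn'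
    obtain ⟨k, a⟩ := v
    rcases fin3_cases k with rfl | rfl | rfl
    · rw [sum_sub_type N u (v := ((0 : Fin 3), a)) (i := 1) (j := 2) (by simp) (by simp) (by decide),
        hS1, zero_add] at h3
      exact hcase _ hS2 h3
    · rw [sum_sub_type N u (v := ((1 : Fin 3), a)) (i := 0) (j := 2) (by simp) (by simp) (by decide),
        hS0, zero_add] at h3
      exact hcase _ hS2 h3
    · have := h2reg a hv hvI
      refine le_trans this ?_
      linarith
  -- all lines
  intro v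
  by_cases hv : v ∈ V
  · rw [hV v hv, abs_zero]; positivity
  obtain ⟨i, j, hi, hj, hij⟩ := three v.1
  set B := ∑ e ∈ N.on v, β e with hBdef
  have hBv := hB v hv
  have hB0 : 0 < B := lt_of_lt_of_le (by positivity) hBv
  have hside : ∀ l : Fin 3, l ≠ v.1 → |∑ e ∈ N.on v, β e * u (N.ln l e)| ≤
      B * (8 * R + 0.0025 * ρ) + 0.000025 * n * ρ := by
    intro l hl
    have hterm : ∀ e ∈ N.on v, |β e * u (N.ln l e)| ≤ β e * (8 * R + 0.0025 * ρ) +
        if (∃ i, i ≠ v.1 ∧ N.ln i e ∈ Irr) then (1 / 4) * ρ else 0 := by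
      intro e _
      rw [abs_mul, abs_of_nonneg (hβ e).1]
      have hnn : 0 ≤ 8 * R + 0.0025 * ρ := by positivity
      by_cases hI : N.ln l e ∈ Irr
      · rw [if_pos ⟨l, hl, hI⟩]
        have h1 : β e * |u (N.ln l e)| ≤ 1 / 4 * ρ :=
          mul_le_mul (hβ e).2 (hρ _) (abs_nonneg _) (by norm_num)
        have h2 := mul_nonneg (hβ e).1 hnn
        linarith
      · have h1 := mul_le_mul_of_nonneg_left (hregall _ hI) (hβ e).1
        split_ifs
        · have : 0 ≤ 1 / 4 * ρ := by positivity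
          linarith
        · linarith
    calc |∑ e ∈ N.on v, β e * u (N.ln l e)| ≤ ∑ e ∈ N.on v, |β e * u (N.ln l e)| :=
          Finset.abs_sum_le_sum_abs _ _
      _ ≤ ∑ e ∈ N.on v, (β e * (8 * R + 0.0025 * ρ) +
          if (∃ i, i ≠ v.1 ∧ N.ln i e ∈ Irr) then (1 / 4) * ρ else 0) := Finset.sum_le_sum hterm
      _ = B * (8 * R + 0.0025 * ρ) +
          ((N.on v).filter fun e => ∃ i, i ≠ v.1 ∧ N.ln i e ∈ Irr).card * ((1 / 4) * ρ) := by
          rw [Finset.sum_add_distrib, ← Finset.sum_mul, ← Finset.sum_filter, Finset.sum_const,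
            nsmul_eq_mul]
      _ ≤ B * (8 * R + 0.0025 * ρ) + (0.0001 * n) * ((1 / 4) * ρ) := by
          have h1 := card_meet_on N Irr v
          have h2 : (((N.on v).filter fun e => ∃ i, i ≠ v.1 ∧ N.ln i e ∈ Irr).card : ℝ) ≤
              Irr.card := by exact_mod_cast h1
          have h3 := mul_le_mul_of_nonneg_right (h2.trans hIrr) (by positivity : 0 ≤ (1 / 4) * ρ)
          linarith
      _ = B * (8 * R + 0.0025 * ρ) + 0.000025 * n * ρ := by ring
  have hsplit : ∑ e ∈ N.on v, β e * N.A u e = B * u v + ∑ e ∈ N.on v, β e * u (N.ln i e) +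
      ∑ e ∈ N.on v, β e * u (N.ln j e) := by
    rw [hBdef, Finset.sum_mul, ← Finset.sum_add_distrib, ← Finset.sum_add_distrib]
    refine Finset.sum_congr rfl fun e he => ?_
    unfold Net.A
    rw [sum_three _ hi hj hij, (mem_on N v e).mp he]
    ring
  have h1 := hside i (Ne.symm hi)
  have h2 := hside j (Ne.symm hj)
  have h3 := hR v hv
  rw [hsplit] at h3
  set s1 := ∑ e ∈ N.on v, β e * u (N.ln i e)
  set s2 := ∑ e ∈ N.on v, β e * u (N.ln j e)
  have h4 : B * |u v| ≤ n * R + 2 * (B * (8 * R + 0.0025 * ρ) + 0.000025 * n * ρ) := by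
    rw [show B * |u v| = |B * u v| by rw [abs_mul, abs_of_pos hB0]]
    have h5 : |B * u v| ≤ |B * u v + s1 + s2| + |s1| + |s2| := by
      have e1 : B * u v = (B * u v + s1 + s2) + (-s1) + (-s2) := by ring
      calc |B * u v| = |(B * u v + s1 + s2) + (-s1) + (-s2)| := by rw [← e1]
        _ ≤ |B * u v + s1 + s2| + |(-s1)| + |(-s2)| := abs_add_three _ _ _
        _ = _ := by rw [abs_neg, abs_neg]
    linarith
  have h6 : B * |u v| ≤ B * (43 * R + 0.0065 * ρ) := by
    have e1 : n * R ≤ B * (27 * R) := by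
      have := mul_le_mul_of_nonneg_right hBv hR0
      nlinarith [mul_nonneg hn'.le hR0]
    have e2 : 2 * (0.000025 * n * ρ) ≤ B * (0.0014 * ρ) := by
      have := mul_le_mul_of_nonneg_right hBv hρ0
      nlinarith [mul_nonneg hn'.le hρ0]
    have e3 : 0 ≤ B * ρ := by positivity
    nlinarith
  exact le_of_mul_le_mul_left h6 hB0

/-! ### gauge and coarse bounds -/

lemma center_gauge (hn : 0 < n) (N : Net n) (z : Pt n q) {ε : ℝ} (hε0 : 0 ≤ ε) (hε : 2 * ε ≤ 1)
    (hfull : N.full z ≤ ε * n ^ 2) (hmean : ∀ i, 1 - 2 * ε ≤ ‖mean z i‖) :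
    ∃ G : Fin 3 → ZMod q, G 0 + G 1 + G 2 = 0 ∧
      ∀ i, ∑ a : Fin n, cst (z (i, a) - G i) ≤ 27 * ε * n := by
  have hn' : (0 : ℝ) < n := by exact_mod_cast hn
  obtain ⟨a0, h0⟩ := exists_center z 0 hn hε (hmean 0)
  obtain ⟨a1, h1⟩ := exists_center z 1 hn hε (hmean 1)
  refine ⟨![z (0, a0), z (1, a1), -z (0, a0) - z (1, a1)], by simp, ?_⟩
  have hεn : 0 ≤ ε * n := by positivity
  intro i
  rcases fin3_cases i with rfl | rfl | rfl
  · refine le_trans h0 ?_
    nlinarith
  · refine le_trans h1 ?_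
    nlinarith
  · have key : n * ∑ a : Fin n, cst (z (2, a) - (-z (0, a0) - z (1, a1))) ≤ n * (27 * ε * n) := by
      rw [← sum_idx N 2 (fun a => cst (z (2, a) - (-z (0, a0) - z (1, a1))))]
      have hterm : ∀ e : Cell n, cst (z (2, N.idx 2 e) - (-z (0, a0) - z (1, a1))) ≤
          3 * (cst (N.y z e) + cst (z (0, N.idx 0 e) - z (0, a0)) +
            cst (z (1, N.idx 1 e) - z (1, a1))) := by
        intro e
        have e1 : z (2, N.idx 2 e) - (-z (0, a0) - z (1, a1)) =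
            N.y z e + -(z (0, N.idx 0 e) - z (0, a0)) + -(z (1, N.idx 1 e) - z (1, a1)) := by
          unfold Net.y Net.ln
          rw [Fin.sum_univ_three]
          ring
        rw [e1]
        have := cst_three (N.y z e) (-(z (0, N.idx 0 e) - z (0, a0)))
          (-(z (1, N.idx 1 e) - z (1, a1)))
        rwa [cst_neg, cst_neg] at this
      calc ∑ e, cst (z (2, N.idx 2 e) - (-z (0, a0) - z (1, a1)))
          ≤ ∑ e, 3 * (cst (N.y z e) + cst (z (0, N.idx 0 e) - z (0, a0)) +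
            cst (z (1, N.idx 1 e) - z (1, a1))) := Finset.sum_le_sum fun e _ => hterm e
        _ = 3 * (N.full z + n * ∑ a : Fin n, cst (z (0, a) - z (0, a0)) +
              n * ∑ a : Fin n, cst (z (1, a) - z (1, a1))) := by
            rw [← Finset.mul_sum, Finset.sum_add_distrib, Finset.sum_add_distrib,
              sum_idx N 0 (fun a => cst (z (0, a) - z (0, a0))),
              sum_idx N 1 (fun a => cst (z (1, a) - z (1, a1)))]
            rfl
        _ ≤ n * (27 * ε * n) := by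
            have p0 := mul_le_mul_of_nonneg_left h0 hn'.le
            have p1 := mul_le_mul_of_nonneg_left h1 hn'.le
            nlinarith
    have := le_of_mul_le_mul_left key hn'
    simpa using this

lemma coarse (N : Net n) (hn : 0 < n) (β : Cell n → ℝ) (hβ : ∀ e, 0 ≤ β e ∧ β e ≤ 1 / 4)
    (V : Finset (Line n)) (hB : ∀ v ∉ V, 0.038 * n ≤ ∑ e ∈ N.on v, β e) (x r : Pt n q)
    (hmin : N.CoordMin β r) (G : Fin 3 → ZMod q) (hG : G 0 + G 1 + G 2 = 0)
    (hκ : ∀ i, ∑ a : Fin n, cst ((x - r) (i, a) - G i) ≤ 2.7e-14 * n)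
    (hx : ∀ v ∉ V, N.lineEn β x v ≤ 1e-12 * n) :
    ∀ v ∉ V, N.lineEn β r v ≤ 3.1e-12 * n ∧ |lift ((x - r) v - G v.1)| ≤ 8e-6 := by
  have hn' : (0 : ℝ) < n := by exact_mod_cast hn
  intro v hv
  obtain ⟨i, j, hi, hj, hij⟩ := three v.1
  set Z : Pt n q := fun v => (x - r) v - G v.1 with hZ
  have hG' : G v.1 + G i + G j = 0 := by
    rw [← sum_three G hi hj hij, Fin.sum_univ_three]; exact hG
  have hy : ∀ e ∈ N.on v, N.y x e = N.y r e + Z v + Z (N.ln i e) + Z (N.ln j e) := by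
    intro e he
    have h1 : N.y (x - r) e = Z v + Z (N.ln i e) + Z (N.ln j e) := by
      unfold Net.y
      rw [sum_three _ hi hj hij, (mem_on N v e).mp he, hZ]
      simp only [Net.ln]
      linear_combination hG'
    rw [y_sub] at h1
    linear_combination h1
  have hside : ∀ l : Fin 3, v.1 ≠ l → ∑ e ∈ N.on v, β e * cst (Z (N.ln l e)) ≤ 0.675e-14 * n := by
    intro l hl
    calc ∑ e ∈ N.on v, β e * cst (Z (N.ln l e))
        ≤ ∑ e ∈ N.on v, (1 / 4) * cst (Z (N.ln l e)) :=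
          Finset.sum_le_sum fun e _ => mul_le_mul_of_nonneg_right (hβ e).2 (cst_nonneg _)
      _ = (1 / 4) * ∑ a : Fin n, cst (Z (l, a)) := by
          rw [← Finset.mul_sum]
          congr 1
          exact sum_on_other N v l hl (fun a => cst (Z (l, a)))
      _ ≤ (1 / 4) * (2.7e-14 * n) := mul_le_mul_of_nonneg_left (hκ l) (by norm_num)
      _ = 0.675e-14 * n := by ring
  have hsi := hside i hi
  have hsj := hside j hj
  have hxv := hx v hv
  have hr : N.lineEn β r v ≤ 3.1e-12 * n := by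
    have h1 := line_min hmin v (Z v)
    have h2 : ∑ e ∈ N.on v, β e * cst (N.y r e + Z v) ≤
        3 * (N.lineEn β x v + ∑ e ∈ N.on v, β e * cst (Z (N.ln i e)) +
          ∑ e ∈ N.on v, β e * cst (Z (N.ln j e))) := by
      unfold Net.lineEn
      rw [← Finset.sum_add_distrib, ← Finset.sum_add_distrib, Finset.mul_sum]
      refine Finset.sum_le_sum fun e he => ?_
      have e1 : N.y r e + Z v = N.y x e + -Z (N.ln i e) + -Z (N.ln j e) := by
        rw [hy e he]; ring
      have := cst_three (N.y x e) (-Z (N.ln i e)) (-Z (N.ln j e))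
      rw [cst_neg, cst_neg, ← e1] at this
      have := mul_le_mul_of_nonneg_left this (hβ e).1
      linarith
    linarith
  refine ⟨hr, ?_⟩
  have hBv := hB v hv
  have h3 : (∑ e ∈ N.on v, β e) * cst (Z v) ≤
      4 * (N.lineEn β x v + N.lineEn β r v + ∑ e ∈ N.on v, β e * cst (Z (N.ln i e)) +
          ∑ e ∈ N.on v, β e * cst (Z (N.ln j e))) := by
    unfold Net.lineEn
    rw [Finset.sum_mul, ← Finset.sum_add_distrib, ← Finset.sum_add_distrib,
      ← Finset.sum_add_distrib, Finset.mul_sum]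
    refine Finset.sum_le_sum fun e he => ?_
    have e1 : Z v = N.y x e + -N.y r e + -Z (N.ln i e) + -Z (N.ln j e) := by
      rw [hy e he]; ring
    have := cst_four (N.y x e) (-N.y r e) (-Z (N.ln i e)) (-Z (N.ln j e))
    rw [cst_neg, cst_neg, cst_neg, ← e1] at this
    have := mul_le_mul_of_nonneg_left this (hβ e).1
    linarith
  have h4 : 0.038 * n * cst (Z v) ≤ 1.646e-11 * n := by
    have := mul_le_mul_of_nonneg_right hBv (cst_nonneg (Z v))
    linarith
  have h5 : cst (Z v) ≤ 4.5e-10 := by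
    by_contra hcon
    push Not at hcon
    have : 0.038 * n * 4.5e-10 < 0.038 * n * cst (Z v) := by
      apply mul_lt_mul_of_pos_left hcon; positivity
    nlinarith
  have h6 := cst_ge (Z v)
  have h7 : lift (Z v) ^ 2 ≤ (8e-6) ^ 2 := by
    norm_num at h5 h6 ⊢
    linarith
  exact abs_le_of_sq_le_sq h7 (by norm_num)

/-! ### recentring -/

lemma recentre (V : Finset (Line n)) (hV : V.card < n) (u : RPt n) {ρ : ℝ} (hρ : 0 ≤ ρ)
    (h : ∀ v ∉ V, |u v| ≤ ρ) : ∃ c : Fin 3 → ℝ, c 0 + c 1 + c 2 = 0 ∧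
      (∀ v ∉ V, |u v - c v.1| ≤ 3 * ρ) ∧
      (∑ a ∈ univ.filter (fun a : Fin n => ((0 : Fin 3), a) ∉ V), (u (0, a) - c 0) = 0) ∧
      (∑ a ∈ univ.filter (fun a : Fin n => ((1 : Fin 3), a) ∉ V), (u (1, a) - c 1) = 0) := by
  classical
  have main : ∀ i : Fin 3, ∃ c : ℝ, |c| ≤ ρ ∧
      ∑ a ∈ univ.filter (fun a : Fin n => (i, a) ∉ V), (u (i, a) - c) = 0 := by
    intro i
    set F := univ.filter (fun a : Fin n => (i, a) ∉ V) with hF
    have hFpos : 0 < F.card := by
      rw [Finset.card_pos]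
      by_contra hne
      rw [Finset.not_nonempty_iff_eq_empty, hF, Finset.filter_eq_empty_iff] at hne
      have hsub : (univ : Finset (Fin n)).card ≤ V.card := by
        refine Finset.card_le_card_of_injOn (fun a => (i, a)) ?_ ?_
        · intro a _
          have := hne (mem_univ a)
          simpa using this
        · intro a _ b _ hab
          simpa using hab
      rw [Finset.card_univ, Fintype.card_fin] at hsub
      omega
    have hFr : (0 : ℝ) < F.card := by exact_mod_cast hFpos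
    refine ⟨(∑ a ∈ F, u (i, a)) / F.card, ?_, ?_⟩
    · rw [abs_div, abs_of_pos hFr, div_le_iff₀ hFr]
      calc |∑ a ∈ F, u (i, a)| ≤ ∑ a ∈ F, |u (i, a)| := Finset.abs_sum_le_sum_abs _ _
        _ ≤ ∑ _a ∈ F, ρ := Finset.sum_le_sum fun a ha => h _ (by
            rw [hF, mem_filter] at ha; exact ha.2)
        _ = ρ * F.card := by rw [Finset.sum_const, nsmul_eq_mul]; ring
    · rw [Finset.sum_sub_distrib, Finset.sum_const, nsmul_eq_mul]
      field_simp
      ring
  obtain ⟨c0, h0, s0⟩ := main 0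
  obtain ⟨c1, h1, s1⟩ := main 1
  refine ⟨![c0, c1, -c0 - c1], by simp, ?_, s0, s1⟩
  rintro ⟨k, a⟩ hv
  have hu := h _ hv
  rw [abs_le] at hu h0 h1 ⊢
  rcases fin3_cases k with rfl | rfl | rfl
  · simp only [Matrix.cons_val_zero]
    constructor <;> linarith
  · simp only [Matrix.cons_val_one, Matrix.cons_val_zero]
    constructor <;> linarith
  · simp only [Matrix.cons_val_two, Matrix.tail_cons, Matrix.head_cons]
    constructor <;> linarith

/-! ### difference of the gradients -/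

lemma trig (a h : ℝ) (hh : |h| ≤ 1) :
    |Real.sin (a + h) - Real.sin a - h| ≤ |h| * (1 - Real.cos a) + h ^ 2 := by
  have e1 : Real.sin (a + h) - Real.sin a - h =
      Real.sin a * (Real.cos h - 1) + Real.cos a * (Real.sin h - h) + (-(h * (1 - Real.cos a))) := by
    rw [Real.sin_add]; ring
  have hc : |Real.cos h - 1| ≤ h ^ 2 / 2 := by
    rw [abs_le]
    have h1 := Real.one_sub_sq_div_two_le_cos (x := h)
    have h2 := Real.cos_le_one h
    constructor <;> nlinarith [sq_nonneg h]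
  have hs : |Real.sin h - h| ≤ h ^ 2 / 4 := by
    have hpos : ∀ t : ℝ, 0 ≤ t → t ≤ 1 → |Real.sin t - t| ≤ t ^ 2 / 4 := by
      intro t ht0 ht1
      rcases eq_or_lt_of_le ht0 with h0 | h0
      · rw [← h0]; simp
      have h1 := Real.sin_gt_sub_cube h0
      have h2 := Real.sin_lt h0
      rw [abs_le]
      constructor
      · have : t ^ 3 ≤ t ^ 2 := by nlinarith [sq_nonneg t]
        nlinarith [sq_nonneg t]
      · nlinarith [sq_nonneg t]
    rcases le_total 0 h with h0 | h0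
    · exact hpos h h0 (by rwa [abs_of_nonneg h0] at hh)
    · have := hpos (-h) (by linarith) (by rwa [abs_of_nonpos h0] at hh)
      rw [Real.sin_neg] at this
      rw [show Real.sin h - h = -(-Real.sin h - -h) by ring, abs_neg]
      simpa using this
  have ha1 := Real.abs_sin_le_one a
  have ha2 := Real.abs_cos_le_one a
  have hcos : 0 ≤ 1 - Real.cos a := by linarith [Real.cos_le_one a]
  calc |Real.sin (a + h) - Real.sin a - h|
      ≤ |Real.sin a * (Real.cos h - 1)| + |Real.cos a * (Real.sin h - h)| +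
        |(-(h * (1 - Real.cos a)))| := by rw [e1]; exact abs_add_three _ _ _
    _ ≤ h ^ 2 / 2 + h ^ 2 / 4 + |h| * (1 - Real.cos a) := by
        rw [abs_mul, abs_mul, abs_neg, abs_mul, abs_of_nonneg hcos]
        have p1 : |Real.sin a| * |Real.cos h - 1| ≤ 1 * (h ^ 2 / 2) :=
          mul_le_mul ha1 hc (abs_nonneg _) zero_le_one
        have p2 : |Real.cos a| * |Real.sin h - h| ≤ 1 * (h ^ 2 / 4) :=
          mul_le_mul ha2 hs (abs_nonneg _) zero_le_one
        linarith
    _ ≤ |h| * (1 - Real.cos a) + h ^ 2 := by nlinarith [sq_nonneg h]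

lemma grad_diff (N : Net n) (β : Cell n → ℝ) (hβ : ∀ e, 0 ≤ β e ∧ β e ≤ 1 / 4)
    (x r : Pt n q) (w : RPt n) {ρ : ℝ} (hρ : ∀ v, |w v| ≤ ρ) (hρ1 : ρ ≤ 0.01)
    (hw : ∀ e, β e ≠ 0 → ∃ m : ℤ, lift (N.y x e) = lift (N.y r e) + N.A w e + m) (v : Line n) :
    2 * Real.pi * |∑ e ∈ N.on v, β e * N.A w e| ≤ |N.grad β x v| + |N.grad β r v| +
      6 * Real.pi * ρ * N.lineEn β r v + 9 * Real.pi ^ 2 * ρ ^ 2 * n := by
  have hρ0 : 0 ≤ ρ := le_trans (abs_nonneg _) (hρ v)
  have hpi := Real.pi_pos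
  have hpi2 := Real.pi_lt_d2
  have hterm : ∀ e, |β e * (Real.sin (2 * Real.pi * lift (N.y x e)) -
      Real.sin (2 * Real.pi * lift (N.y r e)) - 2 * Real.pi * N.A w e)| ≤
      6 * Real.pi * ρ * (β e * cst (N.y r e)) + 9 * Real.pi ^ 2 * ρ ^ 2 := by
    intro e
    by_cases h0 : β e = 0
    · rw [h0]; simp; positivity
    rw [sin_eq_of_lift (hw e h0), show 2 * Real.pi * (lift (N.y r e) + N.A w e) =
      2 * Real.pi * lift (N.y r e) + 2 * Real.pi * N.A w e by ring, abs_mul,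
      abs_of_nonneg (hβ e).1]
    have hA := abs_A_le N w hρ e
    have hh : |2 * Real.pi * N.A w e| ≤ 6 * Real.pi * ρ := by
      rw [abs_mul, abs_of_pos (by positivity : (0 : ℝ) < 2 * Real.pi)]
      nlinarith
    have hh1 : |2 * Real.pi * N.A w e| ≤ 1 := by
      refine hh.trans ?_
      nlinarith
    have ht := trig (2 * Real.pi * lift (N.y r e)) (2 * Real.pi * N.A w e) hh1
    have hsq : (2 * Real.pi * N.A w e) ^ 2 ≤ (6 * Real.pi * ρ) ^ 2 := by
      rw [← sq_abs]
      exact pow_le_pow_left₀ (abs_nonneg _) hh 2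
    have hc0 := cst_nonneg (N.y r e)
    have hc : cst (N.y r e) = 1 - Real.cos (2 * Real.pi * lift (N.y r e)) := rfl
    rw [← hc] at ht
    have h1 : |2 * Real.pi * N.A w e| * cst (N.y r e) ≤ 6 * Real.pi * ρ * cst (N.y r e) :=
      mul_le_mul_of_nonneg_right hh hc0
    have h2 := mul_le_mul_of_nonneg_left (ht.trans (add_le_add h1 hsq)) (hβ e).1
    refine h2.trans ?_
    have h3 : β e * (6 * Real.pi * ρ) ^ 2 ≤ 1 / 4 * (6 * Real.pi * ρ) ^ 2 :=
      mul_le_mul_of_nonneg_right (hβ e).2 (sq_nonneg _)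
    nlinarith
  have hsum : N.grad β x v - N.grad β r v - 2 * Real.pi * ∑ e ∈ N.on v, β e * N.A w e =
      ∑ e ∈ N.on v, β e * (Real.sin (2 * Real.pi * lift (N.y x e)) -
      Real.sin (2 * Real.pi * lift (N.y r e)) - 2 * Real.pi * N.A w e) := by
    unfold Net.grad
    rw [Finset.mul_sum, ← Finset.sum_sub_distrib, ← Finset.sum_sub_distrib]
    refine Finset.sum_congr rfl fun e _ => ?_
    ring
  have hbound : |N.grad β x v - N.grad β r v - 2 * Real.pi * ∑ e ∈ N.on v, β e * N.A w e| ≤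
      6 * Real.pi * ρ * N.lineEn β r v + 9 * Real.pi ^ 2 * ρ ^ 2 * n := by
    rw [hsum]
    calc |∑ e ∈ N.on v, β e * (Real.sin (2 * Real.pi * lift (N.y x e)) -
      Real.sin (2 * Real.pi * lift (N.y r e)) - 2 * Real.pi * N.A w e)|
        ≤ ∑ e ∈ N.on v, |β e * (Real.sin (2 * Real.pi * lift (N.y x e)) -
      Real.sin (2 * Real.pi * lift (N.y r e)) - 2 * Real.pi * N.A w e)| :=
          Finset.abs_sum_le_sum_abs _ _
      _ ≤ ∑ e ∈ N.on v, (6 * Real.pi * ρ * (β e * cst (N.y r e)) + 9 * Real.pi ^ 2 * ρ ^ 2) :=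
          Finset.sum_le_sum fun e _ => hterm e
      _ = 6 * Real.pi * ρ * N.lineEn β r v + 9 * Real.pi ^ 2 * ρ ^ 2 * n := by
          rw [Finset.sum_add_distrib, ← Finset.mul_sum, Finset.sum_const, card_on, nsmul_eq_mul]
          unfold Net.lineEn
          ring
  set S := ∑ e ∈ N.on v, β e * N.A w e
  have h1 : 2 * Real.pi * |S| = |2 * Real.pi * S| := by
    rw [abs_mul, abs_of_pos (by positivity : (0 : ℝ) < 2 * Real.pi)]
  rw [h1]
  have e1 : N.grad β x v + (-N.grad β r v) +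
      (-(N.grad β x v - N.grad β r v - 2 * Real.pi * S)) = 2 * Real.pi * S := by ring
  have e2 := abs_add_three (N.grad β x v) (-N.grad β r v)
    (-(N.grad β x v - N.grad β r v - 2 * Real.pi * S))
  rw [e1, abs_neg, abs_neg] at e2
  linarith

/-! ### eventual inequalities -/

lemma ev_rpow {a b : ℝ} (hab : a < b) (C : ℝ) : ∀ᶠ n : ℕ in atTop, C * (n : ℝ) ^ a ≤ (n : ℝ) ^ b := by
  have h1 : Tendsto (fun n : ℕ => (n : ℝ) ^ (b - a)) atTop atTop :=
    (tendsto_rpow_atTop (sub_pos.mpr hab)).comp tendsto_natCast_atTop_atTop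
  filter_upwards [h1.eventually_ge_atTop C, eventually_gt_atTop 0] with n hn hn0
  have hn' : (0 : ℝ) < n := by exact_mod_cast hn0
  have h2 : (n : ℝ) ^ b = (n : ℝ) ^ (b - a) * (n : ℝ) ^ a := by
    rw [← Real.rpow_add hn']; congr 1; ring
  rw [h2]
  exact mul_le_mul_of_nonneg_right hn (Real.rpow_nonneg hn'.le _)

lemma WOK_B {N : Net n} (hn : 0 < n) {β : Cell n → ℝ} (hW : N.WOK β) {V : Finset (Line n)}
    (hV : (V.card : ℝ) ≤ 0.04 * n) : ∀ v ∉ V, 0.038 * n ≤ ∑ e ∈ N.on v, N.cut V β e := by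
  classical
  intro v hv
  have hn' : (0 : ℝ) < n := by exact_mod_cast hn
  set S := (N.on v).filter fun e => β e < 1 / 25 with hS
  set T := (N.on v).filter fun e => ∃ i, N.ln i e ∈ V with hT
  have hcard : (n : ℝ) - n / 100 - V.card ≤ ((N.on v) \ (S ∪ T)).card := by
    have h1 : (N.on v).card ≤ ((N.on v) \ (S ∪ T)).card + (S.card + T.card) := by
      calc (N.on v).card ≤ ((N.on v) \ (S ∪ T)).card + (S ∪ T).card := by
            have := Finset.le_card_sdiff (S ∪ T) (N.on v)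
            omega
        _ ≤ _ := by
            have := Finset.card_union_le S T
            omega
    rw [card_on] at h1
    have h2 : (n : ℝ) ≤ ((N.on v) \ (S ∪ T)).card + (S.card + T.card) := by exact_mod_cast h1
    have h3 : (S.card : ℝ) ≤ n / 100 := hW.line v
    have h4 : (T.card : ℝ) ≤ V.card := by exact_mod_cast card_cut_on N V hv
    linarith
  calc 0.038 * (n : ℝ) ≤ ((n : ℝ) - n / 100 - V.card) * (1 / 25) := by linarith
    _ ≤ ((N.on v) \ (S ∪ T)).card * (1 / 25 : ℝ) :=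
        mul_le_mul_of_nonneg_right hcard (by norm_num)
    _ = ∑ _e ∈ (N.on v) \ (S ∪ T), (1 / 25 : ℝ) := by rw [Finset.sum_const, nsmul_eq_mul]
    _ ≤ ∑ e ∈ (N.on v) \ (S ∪ T), N.cut V β e := by
        refine Finset.sum_le_sum fun e he => ?_
        rw [Finset.mem_sdiff, mem_union, hS, hT, mem_filter, mem_filter] at he
        obtain ⟨h1, h2⟩ := he
        push Not at h2
        have h3 := h2.1 h1
        unfold Net.cut
        rw [if_neg (by push Not; exact h2.2 h1)]
        exact h3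
    _ ≤ ∑ e ∈ N.on v, N.cut V β e :=
        Finset.sum_le_sum_of_subset_of_nonneg Finset.sdiff_subset
          fun e _ _ => cut_nonneg N V hW.nonneg e

lemma numeric {n ρ τ S gx gr Le Vc : ℝ} (hn : 0 ≤ n) (hρ0 : 0 ≤ ρ) (hρ : ρ ≤ 2.4e-5)
    (h1 : 2 * Real.pi * |S| ≤ gx + gr + 6 * Real.pi * ρ * Le + 9 * Real.pi ^ 2 * ρ ^ 2 * n)
    (h2 : gx ≤ n * τ + Vc / 4) (h3 : gr ≤ 2) (h4 : Le ≤ 3.1e-12 * n)
    (h5 : Vc / 4 + 2 ≤ 0.01 * (n * τ)) (h6 : 0 ≤ Vc) : |S| ≤ n * (0.165 * τ + 0.0004 * ρ) := by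
  have hpi1 := Real.pi_gt_d2
  have hpi2 := Real.pi_lt_d2
  have hpi := Real.pi_pos
  have hnρ : 0 ≤ n * ρ := mul_nonneg hn hρ0
  have k1 : 6 * Real.pi * ρ * Le ≤ 0.0001 * (n * ρ) := by
    have a1 : 6 * Real.pi * ρ * Le ≤ 6 * Real.pi * ρ * (3.1e-12 * n) :=
      mul_le_mul_of_nonneg_left h4 (by positivity)
    have a2 : (6 * Real.pi * 3.1e-12) * (n * ρ) ≤ 0.0001 * (n * ρ) :=
      mul_le_mul_of_nonneg_right (by norm_num at hpi2 ⊢; linarith) hnρ
    linarith
  have k2 : 9 * Real.pi ^ 2 * ρ ^ 2 * n ≤ 0.00217 * (n * ρ) := by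
    have a1 : Real.pi ^ 2 ≤ 9.9225 := by
      have : Real.pi ^ 2 ≤ 3.15 ^ 2 := pow_le_pow_left₀ hpi.le hpi2.le 2
      norm_num at this ⊢
      linarith
    have a2 : 9 * Real.pi ^ 2 * ρ ≤ 9 * 9.9225 * 2.4e-5 :=
      mul_le_mul (by linarith) hρ hρ0 (by norm_num)
    have a3 : 9 * Real.pi ^ 2 * ρ ≤ 0.00217 := a2.trans (by norm_num)
    have a4 := mul_le_mul_of_nonneg_right a3 hnρ
    have a5 : 9 * Real.pi ^ 2 * ρ ^ 2 * n = 9 * Real.pi ^ 2 * ρ * (n * ρ) := by ring
    rw [a5]; exact a4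
  have k3 : 2 * Real.pi * |S| ≤ 1.01 * (n * τ) + 0.00227 * (n * ρ) := by linarith
  have k4 : 6.28 * |S| ≤ 2 * Real.pi * |S| :=
    mul_le_mul_of_nonneg_right (by linarith) (abs_nonneg _)
  have k5 : 0 ≤ n * τ := by linarith
  have e1 : n * (0.165 * τ + 0.0004 * ρ) = 0.165 * (n * τ) + 0.0004 * (n * ρ) := by ring
  rw [e1]
  linarith

end LC

open LC in
theorem lightClose (hM : MeanStatement) : LightCloseStatement := by
  have E1 := ev_rpow (a := 1.45) (b := 2) (by norm_num) (8 * 1e30)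
  have E2 := ev_rpow (a := 0.41) (b := 1) (by norm_num) 25000
  have E3 := ev_rpow (a := 0.41) (b := 0.5) (by norm_num) 50
  have E3' := ev_rpow (a := 0) (b := 0.5) (by norm_num) 400
  have E4 := ev_rpow (a := 1.44) (b := 2) (by norm_num) (3 / 9e-9)
  filter_upwards [E1, E2, E3, E3', E4, eventually_ge_atTop 2] with n E1 E2 E3 E3' E4 hn2
  intro q _ hq N β hW V hV x r τ hτ1 hτ2 hmin hfr hfx hNT hlight hgrad
  classical
  have hn : 0 < n := by omega
  have hn' : (0 : ℝ) < n := by exact_mod_cast hn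
  have hn1 : (1 : ℝ) ≤ n := by exact_mod_cast hn
  rw [Real.rpow_one] at E2
  rw [Real.rpow_zero] at E3'
  rw [show (2 : ℝ) = ((2 : ℕ) : ℝ) by norm_num, Real.rpow_natCast] at E1 E4
  norm_num at E1 E4
  have hβ : ∀ e, 0 ≤ β e ∧ β e ≤ 1 / 4 := fun e => ⟨hW.nonneg e, hW.le e⟩
  set β' := N.cut V β with hβ'def
  have hβ' : ∀ e, 0 ≤ β' e ∧ β' e ≤ 1 / 4 := fun e =>
    ⟨cut_nonneg N V hW.nonneg e, (cut_le N V hW.nonneg e).trans (hW.le e)⟩
  have hVn : (V.card : ℝ) ≤ 0.00004 * n := by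
    norm_num at E2 ⊢
    linarith
  have hB : ∀ v ∉ V, 0.038 * n ≤ ∑ e ∈ N.on v, β' e := WOK_B hn hW (by linarith)
  -- the point z
  set z := x - r with hz
  have hfz : N.full z ≤ 4 * (n : ℝ) ^ (1.45 : ℝ) := by
    have := full_sub_le N x r
    linarith
  have hmean : ∀ i, 1 - 2 * (1e-15 : ℝ) ≤ ‖mean z i‖ := by
    refine hM n q N z 1e-15 hn (by norm_num) (by norm_num) ?_ hNT
    norm_num at hfz E1 ⊢
    linarith
  obtain ⟨G, hG, hκ⟩ := center_gauge hn N z (ε := 1e-15) (by norm_num) (by norm_num)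
    (by norm_num at hfz E1 ⊢; nlinarith) hmean
  have hκ' : ∀ i, ∑ a : Fin n, cst ((x - r) (i, a) - G i) ≤ 2.7e-14 * n := by
    intro i
    have := hκ i
    norm_num at this ⊢
    exact this
  have hx : ∀ v ∉ V, N.lineEn β' x v ≤ 1e-12 * n := by
    intro v hv
    refine le_trans ?_ (hlight v hv)
    exact Finset.sum_le_sum fun e _ =>
      mul_le_mul_of_nonneg_right (cut_le N V hW.nonneg e) (cst_nonneg _)
  have hco := coarse N hn β' hβ' V hB x r hmin G hG hκ' hx
  -- the gauge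
  obtain ⟨m0, hm0⟩ := lift_add (G 0) (G 1)
  obtain ⟨m1, hm1⟩ := lift_neg (G 0 + G 1)
  have hG2 : G 2 = -(G 0 + G 1) := by linear_combination hG
  have hVlt : V.card < n := by
    have : (V.card : ℝ) < n := by linarith
    exact_mod_cast this
  obtain ⟨c, hc, hcb, hs0, hs1⟩ := recentre V hVlt (fun v => lift (z v - G v.1))
    (ρ := 8e-6) (by norm_num) (fun v hv => (hco v hv).2)
  set t : Fin 3 → ℝ := ![lift (G 0), lift (G 1), -lift (G 0) - lift (G 1)] with ht
  set u : RPt n := fun v => lift (z v - G v.1) - c v.1 with hu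
  have htG : ∀ i, ∃ m : ℤ, lift (G i) = t i + m := by
    intro i
    rcases fin3_cases i with rfl | rfl | rfl
    · exact ⟨0, by simp [ht]⟩
    · exact ⟨0, by simp [ht]⟩
    · refine ⟨-m0 + m1, ?_⟩
      rw [hG2, hm1, hm0, ht]
      simp only [Matrix.cons_val_two, Matrix.tail_cons, Matrix.head_cons]
      push_cast; ring
  have hzu : ∀ v, ∃ m : ℤ, lift (z v) = (t v.1 + c v.1) + u v + m := by
    intro v
    obtain ⟨m, hm⟩ := lift_add (z v - G v.1) (G v.1)
    obtain ⟨m', hm'⟩ := htG v.1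
    rw [sub_add_cancel] at hm
    refine ⟨m + m', ?_⟩
    rw [hm, hm', hu]
    push_cast; ring
  have ht0 : (t 0 + c 0) + (t 1 + c 1) + (t 2 + c 2) = 0 := by
    rw [ht]
    simp only [Matrix.cons_val_zero, Matrix.cons_val_one, Matrix.cons_val_two, Matrix.tail_cons,
      Matrix.head_cons]
    linear_combination hc
  refine ⟨fun i => t i + c i, u, ht0, hzu, ?_⟩
  -- the truncated vector
  set w : RPt n := fun v => if v ∈ V then 0 else u v with hw
  have hwu : ∀ v ∉ V, w v = u v := fun v hv => by rw [hw]; simp [hv]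
  have hwV : ∀ v ∈ V, w v = 0 := fun v hv => by rw [hw]; simp [hv]
  have hwS : ∀ k : Fin 3, ∑ a ∈ univ.filter (fun a : Fin n => (k, a) ∉ V),
      (lift (z (k, a) - G k) - c k) = 0 → ∑ a, w (k, a) = 0 := by
    intro k hk
    rw [Finset.sum_filter] at hk
    rw [← hk]
    refine Finset.sum_congr rfl fun a _ => ?_
    by_cases h : (k, a) ∈ V
    · rw [hwV _ h, if_neg (by simpa using h)]
    · rw [hwu _ h, if_pos h]
  have hw0 : ∑ a, w (0, a) = 0 := hwS 0 hs0
  have hw1 : ∑ a, w (1, a) = 0 := hwS 1 hs1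
  set ρ := ‖w‖ with hρ
  have hρ0 : 0 ≤ ρ := norm_nonneg _
  have hρv : ∀ v, |w v| ≤ ρ := fun v => by
    have := norm_le_pi_norm w v
    rwa [Real.norm_eq_abs] at this
  have hρle : ρ ≤ 2.4e-5 := by
    rw [hρ, pi_norm_le_iff_of_nonneg (by norm_num)]
    intro v
    rw [Real.norm_eq_abs]
    by_cases hv : v ∈ V
    · rw [hwV v hv, abs_zero]; norm_num
    · rw [hwu v hv]
      refine (hcb v hv).trans ?_
      norm_num
  -- regular and irregular lines
  set Irr : Finset (Line n) := univ.filter fun v => 9e-5 * n < ∑ e ∈ N.on v, (1 / 4 - β e) with hIrr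
  have hIcard : (Irr.card : ℝ) ≤ 0.0001 * n := by
    have h1 : (Irr.card : ℝ) * (9e-5 * n) ≤ 3 * (n : ℝ) ^ (1.44 : ℝ) := by
      calc (Irr.card : ℝ) * (9e-5 * n) = ∑ _v ∈ Irr, (9e-5 * n : ℝ) := by
            rw [Finset.sum_const, nsmul_eq_mul]
        _ ≤ ∑ v ∈ Irr, ∑ e ∈ N.on v, (1 / 4 - β e) := by
            refine Finset.sum_le_sum fun v hv => ?_
            rw [hIrr, mem_filter] at hv
            exact hv.2.le
        _ ≤ ∑ v, ∑ e ∈ N.on v, (1 / 4 - β e) :=
            Finset.sum_le_sum_of_subset_of_nonneg (Finset.subset_univ _)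
              fun v _ _ => Finset.sum_nonneg fun e _ => by linarith [(hβ e).2]
        _ = 3 * ∑ e, (1 / 4 - β e) := by
            rw [sum_line_on' N (fun e => 1 / 4 - β e), nsmul_eq_mul]; norm_num
        _ ≤ 3 * (n : ℝ) ^ (1.44 : ℝ) := by linarith [hW.sum]
    by_contra hcon
    push Not at hcon
    have h2 : (0.0001 * n) * (9e-5 * n) < (Irr.card : ℝ) * (9e-5 * n) :=
      mul_lt_mul_of_pos_right hcon (by positivity)
    norm_num at h1 h2 E4
    nlinarith
  have hcutsum : ∀ v ∉ V, ∑ e ∈ N.on v, (1 / 4 - β' e) ≤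
      ∑ e ∈ N.on v, (1 / 4 - β e) + V.card / 4 := by
    intro v hv
    have h1 := sum_sub_cut N V hβ hv (fun _ => 1) (by simp)
    simp only [mul_one] at h1
    rw [abs_le] at h1
    rw [Finset.sum_sub_distrib, Finset.sum_sub_distrib]
    linarith [h1.2]
  have hreg : ∀ v ∉ V, v ∉ Irr → ∑ e ∈ N.on v, (1 / 4 - β' e) ≤ 0.0001 * n := by
    intro v hv hvI
    rw [hIrr, mem_filter] at hvI
    push Not at hvI
    have h1 := hvI (mem_univ v)
    have h2 := hcutsum v hv
    linarith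
  -- the gradient estimate
  have hsupp : ∀ e, β' e ≠ 0 → ∀ i, N.ln i e ∉ V := by
    intro e he i hi
    apply he
    rw [hβ'def]
    unfold Net.cut
    rw [if_pos ⟨i, hi⟩]
  have hyw : ∀ e, β' e ≠ 0 → ∃ m : ℤ, lift (N.y x e) = lift (N.y r e) + N.A w e + m := by
    intro e he
    have h1 : N.A w e = N.A u e := by
      unfold Net.A
      exact Finset.sum_congr rfl fun i _ => hwu _ (hsupp e he i)
    obtain ⟨m, hm⟩ := lift_y_of N z (fun i => t i + c i) u ht0 hzu e
    obtain ⟨m', hm'⟩ := lift_add (N.y r e) (N.y z e)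
    rw [hz, y_sub, add_sub_cancel] at hm'
    rw [y_sub] at hm
    refine ⟨m + m', ?_⟩
    rw [hm', hm, h1]
    push_cast; ring
  have hpi1 := Real.pi_gt_d2
  have hpi2 := Real.pi_lt_d2
  have hpi := Real.pi_pos
  have hτ0 : 0 < τ := lt_of_lt_of_le (Real.rpow_pos_of_pos hn' _) hτ1
  have hnτ : (n : ℝ) ^ (0.5 : ℝ) ≤ n * τ := by
    have h1 : (n : ℝ) ^ (0.5 : ℝ) = n * (n : ℝ) ^ (-0.5 : ℝ) := by
      have h2 := Real.rpow_add hn' 1 (-0.5)
      rw [Real.rpow_one] at h2
      rw [← h2]; norm_num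
    rw [h1]
    exact mul_le_mul_of_nonneg_left hτ1 hn'.le
  have hq3 : ((n : ℝ)) ^ 3 ≤ q := by exact_mod_cast hq
  have hq4 : 4 ≤ q := by
    have : 2 ^ 3 ≤ n ^ 3 := Nat.pow_le_pow_left hn2 3
    omega
  have hq0 : (0 : ℝ) < q := q_pos'
  have hR : ∀ v ∉ V, |∑ e ∈ N.on v, β' e * N.A w e| ≤ n * (0.165 * τ + 0.0004 * ρ) := by
    intro v hv
    have h1 := grad_diff N β' hβ' x r w hρv (hρle.trans (by norm_num)) hyw v
    have h2 : |N.grad β' x v| ≤ n * τ + V.card / 4 := by
      have h3 := sum_sub_cut N V hβ hv (fun e => Real.sin (2 * Real.pi * lift (N.y x e)))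
        (fun e => Real.abs_sin_le_one _)
      have h4 := hgrad v
      have h5 : N.grad β' x v = N.grad β x v - (N.grad β x v - N.grad β' x v) := by ring
      rw [h5]
      refine (abs_sub _ _).trans ?_
      exact add_le_add h4 h3
    have h3 : |N.grad β' r v| ≤ 2 := by
      refine (grad_le hmin v hβ' hq4).trans ?_
      rw [div_le_iff₀ hq0]
      have : (n : ℝ) ≤ n ^ 3 := by
        calc (n : ℝ) = n ^ 1 := (pow_one _).symm
          _ ≤ n ^ 3 := pow_le_pow_right₀ hn1 (by norm_num)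
      linarith
    have h7 : (V.card : ℝ) / 4 + 2 ≤ 0.01 * (n * τ) := by
      have a1 : 400 ≤ (n : ℝ) ^ (0.5 : ℝ) := by linarith only [E3']
      linarith only [a1, E3, hnτ, hV]
    exact numeric hn'.le hρ0 hρle h1 h2 h3 (hco v hv).1 h7 (Nat.cast_nonneg _)
  have hfin := linear_step hn N β' w V Irr (0.165 * τ + 0.0004 * ρ) ρ (by positivity) hβ' hwV
    hw0 hw1 hB hreg hIcard hR hρ0 hρv
  have hρfin : ρ ≤ 43 * (0.165 * τ + 0.0004 * ρ) + 0.0065 * ρ := by
    conv_lhs => rw [hρ]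
    rw [pi_norm_le_iff_of_nonneg (by positivity)]
    intro v
    rw [Real.norm_eq_abs]
    exact hfin v
  intro v hv
  rw [← hwu v hv]
  refine (hρv v).trans ?_
  linarith

end

end Pool.Agent.Lib.MP_185394_co.Up
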