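import Pool.Agent.Lib.MP_185394_co.Up.Interfaces

/-!
MP_185394_co, upper bound side, module Na: the explicit density with exact phases at the narrow
generators.
-/

namespace Pool.Agent.Lib.MP_185394_co.Up

open Finset Filter

open scoped Classical

noncomputable section

namespace Narrow

variable {n : ℕ}

/-! ### the operator `Gam` -/

/-- line sums -/
def ls (N : Net n) (h : Cell n → ℝ) (v : Line n) : ℝ := ∑ e ∈ N.on v, h e

/-- the operator `h ↦ h(row) + h(column) + h(symbol) - n h` -/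
def Gam (N : Net n) (h : Cell n → ℝ) (e : Cell n) : ℝ := N.A (ls N h) e - n * h e

lemma sum_ls_type (N : Net n) (h : Cell n → ℝ) (j : Fin 3) :
    ∑ w, ls N h (j, w) = ∑ e, h e := sum_type_on N j h

lemma sum_ls (N : Net n) (h : Cell n → ℝ) : ∑ v, ls N h v = 3 * ∑ e, h e := by
  have := sum_line_on' N h
  rw [nsmul_eq_mul] at this
  exact_mod_cast this

lemma sum_ne (i : Fin 3) [DecidablePred fun j : Fin 3 => j ≠ i] (g : Fin 3 → ℝ) :
    ∑ j ∈ univ.filter (fun j : Fin 3 => j ≠ i), g j = ∑ j, g j - g i := by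
  rw [Finset.sum_filter, Fin.sum_univ_three, Fin.sum_univ_three]
  fin_cases i <;> simp <;> ring

lemma on_Gam (N : Net n) (h : Cell n → ℝ) (v : Line n) :
    ∑ e ∈ N.on v, Gam N h e = 2 * ∑ e, h e := by
  unfold Gam
  rw [Finset.sum_sub_distrib, sum_on_A, ← Finset.mul_sum]
  have h1 : ∑ j ∈ univ.filter (fun j : Fin 3 => j ≠ v.1), ∑ w, ls N h (j, w) = 2 * ∑ e, h e := by
    rw [sum_ne]
    simp only [sum_ls_type, Finset.sum_const, Finset.card_univ, Fintype.card_fin, nsmul_eq_mul]
    push_cast; ring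
  rw [h1]
  unfold ls
  ring

lemma Gam_symm (N : Net n) (h k : Cell n → ℝ) : ∑ e, Gam N h e * k e = ∑ e, h e * Gam N k e := by
  unfold Gam
  simp only [sub_mul, mul_sub, Finset.sum_sub_distrib]
  congr 1
  · rw [Finset.sum_congr rfl (fun e _ => mul_comm (N.A (ls N h) e) (k e)), sum_mul_A, sum_mul_A]
    exact Finset.sum_congr rfl fun v _ => mul_comm _ _
  · exact Finset.sum_congr rfl fun e _ => by ring

lemma Gam_A (N : Net n) (u : RPt n) (e : Cell n) : Gam N (N.A u) e = 2 * ∑ v, u v := by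
  unfold Gam
  have h1 : ∀ v, ls N (N.A u) v =
      n * u v + ∑ j ∈ univ.filter (fun j : Fin 3 => j ≠ v.1), ∑ w, u (j, w) := fun v => sum_on_A N u v
  have h2 : N.A (ls N (N.A u)) e = n * N.A u e + 2 * ∑ v, u v := by
    have h3 : N.A (ls N (N.A u)) e = ∑ i, ls N (N.A u) (N.ln i e) := rfl
    have h4 : n * N.A u e = ∑ i, n * u (N.ln i e) := by rw [Net.A, Finset.mul_sum]
    rw [h3, h4, Finset.sum_congr rfl (fun i _ => h1 (N.ln i e)), Finset.sum_add_distrib]
    congr 1
    simp only [sum_ne]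
    rw [Fintype.sum_prod_type]
    simp only [Net.ln, Fin.sum_univ_three]
    ring
  rw [h2]; ring

lemma Gam_add (N : Net n) (h k : Cell n → ℝ) (e : Cell n) :
    Gam N (fun e => h e + k e) e = Gam N h e + Gam N k e := by
  unfold Gam ls Net.A
  simp only [Finset.sum_add_distrib]
  ring

lemma Gam_sub (N : Net n) (h k : Cell n → ℝ) (e : Cell n) :
    Gam N (fun e => h e - k e) e = Gam N h e - Gam N k e := by
  unfold Gam ls Net.A
  simp only [Finset.sum_sub_distrib]
  ring

lemma Gam_one (N : Net n) (e : Cell n) : Gam N (fun _ => 1) e = 2 * n := by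
  unfold Gam ls Net.A
  simp only [Finset.sum_const, card_on, Finset.card_univ, Fintype.card_fin, nsmul_eq_mul]
  push_cast; ring

lemma Gam_norm (N : Net n) (h : Cell n → ℝ) : ∑ e, |Gam N h e| ≤ 4 * n * ∑ e, |h e| := by
  have h1 : ∀ e, |Gam N h e| ≤ N.A (ls N (fun e => |h e|)) e + n * |h e| := by
    intro e
    unfold Gam
    refine (abs_sub _ _).trans ?_
    rw [abs_mul, Nat.abs_cast]
    refine add_le_add ?_ le_rfl
    unfold Net.A ls
    refine (Finset.abs_sum_le_sum_abs _ _).trans (Finset.sum_le_sum fun i _ => ?_)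
    exact Finset.abs_sum_le_sum_abs _ _
  refine (Finset.sum_le_sum fun e _ => h1 e).trans ?_
  rw [Finset.sum_add_distrib, ← Finset.mul_sum]
  have h2 : ∑ e, N.A (ls N (fun e => |h e|)) e = 3 * n * ∑ e, |h e| := by
    have := sum_mul_A N (fun _ => 1) (ls N (fun e => |h e|))
    simp only [one_mul, Finset.sum_const, card_on, nsmul_eq_mul, mul_one] at this
    rw [this, ← Finset.sum_mul, sum_ls]
    ring
  rw [h2]
  linarith

/-- the difference of the two sides of the integer identity -/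
lemma Gam_int (N : Net n) (κ : Cell n → ℤ) (e : Cell n) :
    Gam N (fun e => (κ e : ℝ)) e =
      ((∑ i, ∑ f ∈ N.on (N.ln i e), κ f - n * κ e : ℤ) : ℝ) := by
  unfold Gam ls Net.A
  push_cast
  ring

/-! ### eventual inequalities -/

lemma ev_pow {a b : ℝ} (c : ℝ) (h : a < b) : ∀ᶠ n : ℕ in atTop, c * (n : ℝ) ^ a ≤ (n : ℝ) ^ b := by
  have h1 : Tendsto (fun n : ℕ => (n : ℝ) ^ (b - a)) atTop atTop :=
    (tendsto_rpow_atTop (by linarith)).comp tendsto_natCast_atTop_atTop
  filter_upwards [h1.eventually_ge_atTop c, eventually_gt_atTop 0] with n hn hpos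
  have hp : (0 : ℝ) < n := by exact_mod_cast hpos
  calc c * (n : ℝ) ^ a ≤ (n : ℝ) ^ (b - a) * (n : ℝ) ^ a :=
        mul_le_mul_of_nonneg_right hn (Real.rpow_nonneg hp.le _)
    _ = (n : ℝ) ^ b := by rw [← Real.rpow_add hp]; congr 1; ring

/-! ### the good cells -/

/-- the good cells -/
def WW (N : Net n) (M : Finset (Line n)) (a : Fin 2 → Cell n → ℝ) : Finset (Cell n) :=
  univ.filter fun e => (∀ i, N.ln i e ∉ M) ∧ ∀ i, |a i e| < 1 / (8 * n)

/-- live cells with a large value of `a i` -/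
def BB (N : Net n) (M : Finset (Line n)) (a : Fin 2 → Cell n → ℝ) (i : Fin 2) :
    Finset (Cell n) :=
  univ.filter fun e => e ∉ N.dead M ∧ 1 / (8 * n) ≤ |a i e|

/-- indicator function -/
def ind {α : Type} (S : Finset α) (x : α) : ℝ := if x ∈ S then 1 else 0

lemma ind_nonneg {α : Type} (S : Finset α) (x : α) : 0 ≤ ind S x := by
  unfold ind; split_ifs <;> norm_num

lemma ind_le_one {α : Type} (S : Finset α) (x : α) : ind S x ≤ 1 := by
  unfold ind; split_ifs <;> norm_num

lemma sum_ind {α : Type} [Fintype α] (S : Finset α) : ∑ x, ind S x = S.card := by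
  unfold ind
  rw [Finset.sum_ite_mem]
  simp

/-- number of pairs of lines in `M` -/
def PP (N : Net n) (M : Finset (Line n)) (e : Cell n) : ℝ :=
  ind M (N.ln 0 e) * ind M (N.ln 1 e) + ind M (N.ln 0 e) * ind M (N.ln 2 e) +
    ind M (N.ln 1 e) * ind M (N.ln 2 e)

lemma sum_PP (N : Net n) (M : Finset (Line n)) : ∑ e, PP N M e ≤ (M.card : ℝ) ^ 2 := by
  have h : ∀ i j : Fin 3, i ≠ j → ∑ e, ind M (N.ln i e) * ind M (N.ln j e) =
      (∑ v, ind M (i, v)) * ∑ v, ind M (j, v) := fun i j hij =>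
    sum_pair N i j hij (fun v => ind M (i, v)) (fun v => ind M (j, v))
  unfold PP
  rw [Finset.sum_add_distrib, Finset.sum_add_distrib, h 0 1 (by decide), h 0 2 (by decide),
    h 1 2 (by decide)]
  have h2 : (M.card : ℝ) = ∑ v, ind M ((0 : Fin 3), v) + ∑ v, ind M ((1 : Fin 3), v) +
      ∑ v, ind M ((2 : Fin 3), v) := by
    rw [← sum_ind M, Fintype.sum_prod_type, Fin.sum_univ_three]
  rw [h2]
  have p0 : 0 ≤ ∑ v, ind M ((0 : Fin 3), v) := Finset.sum_nonneg fun _ _ => ind_nonneg _ _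
  have p1 : 0 ≤ ∑ v, ind M ((1 : Fin 3), v) := Finset.sum_nonneg fun _ _ => ind_nonneg _ _
  have p2 : 0 ≤ ∑ v, ind M ((2 : Fin 3), v) := Finset.sum_nonneg fun _ _ => ind_nonneg _ _
  nlinarith [mul_nonneg p0 p1, mul_nonneg p0 p2, mul_nonneg p1 p2]

lemma dead_iff (N : Net n) (M : Finset (Line n)) (e : Cell n) :
    e ∈ N.dead M ↔ ∀ i, N.ln i e ∈ M := by simp [Net.dead]

lemma fin2 {P : Fin 2 → Prop} (h0 : P 0) (h1 : P 1) : ∀ i, P i := by
  intro i; fin_cases i
  · exact h0
  · exact h1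

lemma fin3 {P : Fin 3 → Prop} (h0 : P 0) (h1 : P 1) (h2 : P 2) : ∀ i, P i := by
  intro i; fin_cases i
  · exact h0
  · exact h1
  · exact h2

/-- pointwise comparison of the indicator of `WW` with `1 - χ` -/
lemma xi_le (N : Net n) (M : Finset (Line n)) (a : Fin 2 → Cell n → ℝ) (e : Cell n) :
    |ind (WW N M a) e - (1 - N.A (ind M) e)| ≤
      PP N M e + (ind (BB N M a 0) e + ind (BB N M a 1) e) := by
  have b0 := ind_nonneg (BB N M a 0) e
  have b1 := ind_nonneg (BB N M a 1) e
  unfold PP Net.A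
  rw [Fin.sum_univ_three]
  by_cases h : ∀ i, N.ln i e ∉ M
  · have i0 : ind M (N.ln 0 e) = 0 := by simp [ind, h 0]
    have i1 : ind M (N.ln 1 e) = 0 := by simp [ind, h 1]
    have i2 : ind M (N.ln 2 e) = 0 := by simp [ind, h 2]
    rw [i0, i1, i2]
    by_cases ha : ∀ i, |a i e| < 1 / (8 * n)
    · have : ind (WW N M a) e = 1 := by
        unfold ind WW
        rw [if_pos]
        simp only [mem_filter, mem_univ, true_and]
        exact ⟨h, ha⟩
      rw [this]; norm_num; linarith
    · have hw : ind (WW N M a) e = 0 := by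
        unfold ind WW
        rw [if_neg]
        simp only [mem_filter, mem_univ, true_and, not_and]
        exact fun _ => ha
      have hnd : e ∉ N.dead M := by
        rw [dead_iff]; exact fun h' => h 0 (h' 0)
      have hb : 1 ≤ ind (BB N M a 0) e + ind (BB N M a 1) e := by
        by_contra hlt
        apply ha
        apply fin2
        · by_contra h3
          have : ind (BB N M a 0) e = 1 := by
            unfold ind BB
            rw [if_pos]
            simp only [mem_filter, mem_univ, true_and]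
            exact ⟨hnd, not_lt.mp h3⟩
          linarith
        · by_contra h3
          have : ind (BB N M a 1) e = 1 := by
            unfold ind BB
            rw [if_pos]
            simp only [mem_filter, mem_univ, true_and]
            exact ⟨hnd, not_lt.mp h3⟩
          linarith
      rw [hw]; norm_num; linarith
  · have hw : ind (WW N M a) e = 0 := by
      unfold ind WW
      rw [if_neg]
      simp only [mem_filter, mem_univ, true_and, not_and]
      exact fun h' => absurd h' h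
    rw [hw]
    by_cases h0 : N.ln 0 e ∈ M <;> by_cases h1 : N.ln 1 e ∈ M <;> by_cases h2 : N.ln 2 e ∈ M
    all_goals
      simp only [ind, h0, h1, h2, if_true, if_false] at b0 b1 ⊢
      try (rw [abs_le]; constructor <;> linarith)
    exact absurd (fin3 h0 h1 h2) h

/-- pointwise lower bound -/
lemma ind_ge (N : Net n) (M : Finset (Line n)) (a : Fin 2 → Cell n → ℝ) (e : Cell n) :
    1 - N.A (ind M) e - (ind (BB N M a 0) e + ind (BB N M a 1) e) ≤ ind (WW N M a) e := by
  have b0 := ind_nonneg (BB N M a 0) e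
  have b1 := ind_nonneg (BB N M a 1) e
  by_cases h : ∀ i, N.ln i e ∉ M
  · have := (abs_le.mp (xi_le N M a e)).1
    have hP : PP N M e = 0 := by simp [PP, ind, h 0, h 1, h 2]
    linarith
  · have hA : 1 ≤ N.A (ind M) e := by
      obtain ⟨i, hi⟩ := not_forall_not.mp h
      unfold Net.A
      have h1 : ind M (N.ln i e) = 1 := by simp [ind, hi]
      rw [← h1]
      exact Finset.single_le_sum (f := fun i => ind M (N.ln i e)) (fun j _ => ind_nonneg _ _)
        (mem_univ i)
    linarith [ind_nonneg (WW N M a) e]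

lemma card_BB (N : Net n) (M : Finset (Line n)) (a : Fin 2 → Cell n → ℝ) (hn : 0 < n) (i : Fin 2)
    (h : ∑ e ∈ (N.dead M)ᶜ, |a i e| ≤ 40) : ∑ e, ind (BB N M a i) e ≤ 320 * n := by
  have hn' : (0 : ℝ) < n := by exact_mod_cast hn
  have h1 : ∑ e, ind (BB N M a i) e ≤ ∑ e ∈ (N.dead M)ᶜ, (8 * n) * |a i e| := by
    rw [← Finset.sum_add_sum_compl (N.dead M)]
    have h2 : ∑ e ∈ N.dead M, ind (BB N M a i) e = 0 := by
      apply Finset.sum_eq_zero
      intro e he
      unfold ind BB
      rw [if_neg]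
      simp [he]
    rw [h2, zero_add]
    apply Finset.sum_le_sum
    intro e _
    unfold ind
    split_ifs with h3
    · simp only [BB, mem_filter, mem_univ, true_and] at h3
      have := h3.2
      rw [div_le_iff₀ (by positivity)] at this
      linarith
    · positivity
  rw [← Finset.mul_sum] at h1
  nlinarith

lemma on_BB (N : Net n) (M : Finset (Line n)) (a : Fin 2 → Cell n → ℝ) (hn : 0 < n) (i : Fin 2)
    (v : Line n) (h : ∑ e ∈ N.on v, |a i e| ≤ 1 / 100) :
    ∑ e ∈ N.on v, ind (BB N M a i) e ≤ 8 / 100 * n := by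
  have hn' : (0 : ℝ) < n := by exact_mod_cast hn
  have h1 : ∑ e ∈ N.on v, ind (BB N M a i) e ≤ ∑ e ∈ N.on v, (8 * n) * |a i e| := by
    apply Finset.sum_le_sum
    intro e _
    unfold ind
    split_ifs with h3
    · simp only [BB, mem_filter, mem_univ, true_and] at h3
      have := h3.2
      rw [div_le_iff₀ (by positivity)] at this
      linarith
    · positivity
  rw [← Finset.mul_sum] at h1
  nlinarith

/-- the phases of integer functions -/
lemma phase (N : Net n) (W : Finset (Cell n)) (hW : 0 < (W.card : ℝ)) (g : ℕ) (κ : Cell n → ℤ)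
    (s : ℝ) (h : ∀ e ∈ W, |Gam N (fun e => (κ e : ℝ)) e - s| < 1 / 2) :
    ∃ m : ℤ, ∑ e, ((2 * g : ℕ) : ℝ) / (2 * W.card) * Gam N (ind W) e * κ e = m := by
  obtain ⟨e0, he0⟩ : W.Nonempty := by
    rw [← Finset.card_pos]; exact_mod_cast hW
  set j : ℤ := ∑ i, ∑ f ∈ N.on (N.ln i e0), κ f - n * κ e0 with hj
  refine ⟨g * j, ?_⟩
  have h1 : ∀ e ∈ W, Gam N (fun e => (κ e : ℝ)) e = j := by
    intro e he
    have h2 := h e he
    have h3 := h e0 he0
    rw [Gam_int] at h2 h3
    rw [Gam_int]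
    have h4 : |(((∑ i, ∑ f ∈ N.on (N.ln i e), κ f - n * κ e : ℤ) : ℝ) - (j : ℝ))| < 1 := by
      rw [abs_lt] at h2 h3 ⊢
      rw [hj]
      constructor <;> linarith [h2.1, h2.2, h3.1, h3.2]
    have h5 : |(∑ i, ∑ f ∈ N.on (N.ln i e), κ f - n * κ e : ℤ) - j| < 1 := by exact_mod_cast h4
    have h6 := Int.abs_lt_one_iff.mp h5
    have h7 : (∑ i, ∑ f ∈ N.on (N.ln i e), κ f - n * κ e : ℤ) = j := by linarith
    exact_mod_cast h7
  have h2 : ∑ e, ((2 * g : ℕ) : ℝ) / (2 * W.card) * Gam N (ind W) e * κ e =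
      ((2 * g : ℕ) : ℝ) / (2 * W.card) * ∑ e, Gam N (ind W) e * κ e := by
    rw [Finset.mul_sum]
    exact Finset.sum_congr rfl fun e _ => by ring
  rw [h2, Gam_symm N (ind W) (fun e => (κ e : ℝ))]
  have h3 : ∑ e, ind W e * Gam N (fun e => (κ e : ℝ)) e = W.card * j := by
    have h4 : ∀ e ∈ (univ : Finset (Cell n)), ind W e * Gam N (fun e => (κ e : ℝ)) e =
        ind W e * j := by
      intro e _
      unfold ind
      split_ifs with h5
      · rw [h1 e h5]
      · simp
    rw [Finset.sum_congr rfl h4, ← Finset.sum_mul, sum_ind]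
  rw [h3]
  push_cast
  field_simp

/-- the estimates for the density, for `n` large -/
lemma density (N : Net n) (M : Finset (Line n)) (a : Fin 2 → Cell n → ℝ) (hn : 1000 ≤ n)
    (hM : (M.card : ℝ) ≤ 0.005 * n) (hX : (M.card : ℝ) ^ 2 + 640 * n ≤ 0.004 * n ^ 2)
    (ha : ∀ i, ∑ e ∈ (N.dead M)ᶜ, |a i e| ≤ 40)
    (hv : ∀ i, ∀ v ∉ M, ∑ e ∈ N.on v, |a i e| ≤ 1 / 100) :
    0 < ((WW N M a).card : ℝ) ∧
    (∀ v, ∑ e ∈ N.on v, ((2 * (n / 4) : ℕ) : ℝ) / (2 * (WW N M a).card) *
      Gam N (ind (WW N M a)) e = ((2 * (n / 4) : ℕ) : ℝ)) ∧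
    (∀ e ∈ N.dead M, ((2 * (n / 4) : ℕ) : ℝ) / (2 * (WW N M a).card) *
      Gam N (ind (WW N M a)) e = 0) ∧
    (∀ e ∉ N.dead M, 1 / 5 ≤ ((2 * (n / 4) : ℕ) : ℝ) / (2 * (WW N M a).card) *
      Gam N (ind (WW N M a)) e ∧ ((2 * (n / 4) : ℕ) : ℝ) / (2 * (WW N M a).card) *
      Gam N (ind (WW N M a)) e ≤ 4 / 5) ∧
    ∑ e, |1 / 2 - ((2 * (n / 4) : ℕ) : ℝ) / (2 * (WW N M a).card) *
      Gam N (ind (WW N M a)) e| ≤ 2 * (M.card : ℝ) ^ 2 + 1282 * n := by
  set W := WW N M a with hW
  set C : ℝ := ((2 * (n / 4) : ℕ) : ℝ) with hC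
  set X : ℝ := (M.card : ℝ) ^ 2 + 640 * n with hXdef
  set m : ℝ := (M.card : ℝ) with hm
  have hn0 : (1000 : ℝ) ≤ n := by exact_mod_cast hn
  have hnp : (0 : ℝ) < n := by linarith
  have hnn : 0 < n := by omega
  have hm0 : 0 ≤ m := Nat.cast_nonneg _
  -- bounds for `C`
  have hC1 : C ≤ n / 2 := by
    have : 4 * (n / 4) ≤ n := Nat.mul_div_le n 4
    have : (4 : ℝ) * ((n / 4 : ℕ) : ℝ) ≤ n := by exact_mod_cast this
    rw [hC]; push_cast; linarith
  have hC2 : n / 2 - 3 / 2 ≤ C := by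
    have : n ≤ 4 * (n / 4) + 3 := by omega
    have : (n : ℝ) ≤ (4 : ℝ) * ((n / 4 : ℕ) : ℝ) + 3 := by exact_mod_cast this
    rw [hC]; push_cast; linarith
  -- the error function
  set ξ : Cell n → ℝ := fun e => ind W e - (1 - N.A (ind M) e) with hξ
  have hξ1 : ∑ e, |ξ e| ≤ X := by
    refine (Finset.sum_le_sum fun e _ => xi_le N M a e).trans ?_
    rw [Finset.sum_add_distrib, Finset.sum_add_distrib]
    have h0 := card_BB N M a hnn 0 (ha 0)
    have h1 := card_BB N M a hnn 1 (ha 1)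
    have h2 := sum_PP N M
    rw [hXdef]; linarith
  have hsumA : ∑ e, N.A (ind M) e = n * m := by
    have := sum_mul_A N (fun _ => 1) (ind M)
    simp only [one_mul, Finset.sum_const, card_on, nsmul_eq_mul, mul_one] at this
    rw [this, ← Finset.sum_mul, sum_ind, mul_comm]
  have hcardW : (W.card : ℝ) = n ^ 2 - n * m + ∑ e, ξ e := by
    rw [hξ, Finset.sum_sub_distrib, Finset.sum_sub_distrib, sum_ind, hsumA]
    simp only [Finset.sum_const, Finset.card_univ, Fintype.card_prod, Fintype.card_fin,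
      nsmul_eq_mul, mul_one]
    push_cast; ring
  have hξ2 : |∑ e, ξ e| ≤ X := (Finset.abs_sum_le_sum_abs _ _).trans hξ1
  have hξ3 := abs_le.mp hξ2
  have hcard1 : 0.991 * (n : ℝ) ^ 2 ≤ W.card := by
    rw [hcardW]; nlinarith
  have hcard2 : (W.card : ℝ) ≤ n ^ 2 := by
    have : W.card ≤ Fintype.card (Cell n) := Finset.card_le_univ _
    rw [Fintype.card_prod, Fintype.card_fin] at this
    have : (W.card : ℝ) ≤ ((n * n : ℕ) : ℝ) := by exact_mod_cast this
    push_cast at this; nlinarith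
  have hWp : 0 < (W.card : ℝ) := by nlinarith
  set ω : ℝ := C / (2 * W.card) with hω
  -- bounds for `ω n`
  have hω0 : 0 ≤ ω := by
    have : 0 ≤ C := by rw [hC]; positivity
    positivity
  have hω1 : ω * n ≤ 0.2523 := by
    rw [hω, div_mul_eq_mul_div, div_le_iff₀ (by positivity)]
    nlinarith
  have hω2 : 0.249 ≤ ω * n := by
    rw [hω, div_mul_eq_mul_div, le_div_iff₀ (by positivity)]
    nlinarith
  have hωW : ω * (2 * W.card) = C := by rw [hω]; field_simp
  -- line sums of the indicator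
  have hls0 : ∀ v, 0 ≤ ls N (ind W) v := fun v => Finset.sum_nonneg fun _ _ => ind_nonneg _ _
  have hls1 : ∀ v, ls N (ind W) v ≤ n := by
    intro v
    refine (Finset.sum_le_sum fun e _ => ind_le_one W e).trans ?_
    rw [Finset.sum_const, card_on, nsmul_eq_mul, mul_one]
  have hlsM : ∀ v ∈ M, ls N (ind W) v = 0 := by
    intro v hvM
    apply Finset.sum_eq_zero
    intro e he
    unfold ind
    rw [if_neg]
    intro h
    simp only [hW, WW, mem_filter, mem_univ, true_and] at h
    apply h.1 v.1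
    rw [(mem_on N v e).mp he]; exact hvM
  have hls2 : ∀ v ∉ M, 0.835 * n ≤ ls N (ind W) v := by
    intro v hvM
    have h1 : ∑ e ∈ N.on v, (1 - N.A (ind M) e -
        (ind (BB N M a 0) e + ind (BB N M a 1) e)) ≤ ls N (ind W) v :=
      Finset.sum_le_sum fun e _ => ind_ge N M a e
    rw [Finset.sum_sub_distrib, Finset.sum_sub_distrib, Finset.sum_add_distrib, sum_on_A,
      Finset.sum_const, card_on, nsmul_eq_mul, mul_one] at h1
    have h2 := on_BB N M a hnn 0 v (hv 0 v hvM)
    have h3 := on_BB N M a hnn 1 v (hv 1 v hvM)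
    have h4 : ind M v = 0 := by simp [ind, hvM]
    have h5 : ∑ j ∈ univ.filter (fun j : Fin 3 => j ≠ v.1), ∑ w, ind M (j, w) ≤ m := by
      rw [sum_ne, hm, ← sum_ind M, Fintype.sum_prod_type]
      have : 0 ≤ ∑ w, ind M (v.1, w) := Finset.sum_nonneg fun _ _ => ind_nonneg _ _
      linarith
    rw [h4] at h1
    nlinarith
  refine ⟨hWp, ?_, ?_, ?_, ?_⟩
  · intro v
    rw [← Finset.mul_sum, on_Gam, sum_ind]
    linarith
  · intro e he
    rw [dead_iff] at he
    have h1 : N.A (ls N (ind W)) e = 0 := by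
      unfold Net.A
      exact Finset.sum_eq_zero fun i _ => hlsM _ (he i)
    have h2 : ind W e = 0 := by
      unfold ind
      rw [if_neg]
      intro h
      simp only [hW, WW, mem_filter, mem_univ, true_and] at h
      exact h.1 0 (he 0)
    unfold Gam
    rw [h1, h2]; ring
  · intro e he
    have h1 : Gam N (ind W) e = ls N (ind W) (N.ln 0 e) + ls N (ind W) (N.ln 1 e) +
        ls N (ind W) (N.ln 2 e) - n * ind W e := by
      unfold Gam Net.A; rw [Fin.sum_univ_three]
    have a0 := hls0 (N.ln 0 e)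
    have a1 := hls0 (N.ln 1 e)
    have a2 := hls0 (N.ln 2 e)
    have b0 := hls1 (N.ln 0 e)
    have b1 := hls1 (N.ln 1 e)
    have b2 := hls1 (N.ln 2 e)
    have key : 0.835 * n ≤ Gam N (ind W) e ∧ Gam N (ind W) e ≤ 3 * n := by
      by_cases hW' : e ∈ W
      · have h2 : ind W e = 1 := by simp [ind, hW']
        have h3 : ∀ i, N.ln i e ∉ M := by
          simp only [hW, WW, mem_filter, mem_univ, true_and] at hW'
          exact hW'.1
        have c0 := hls2 _ (h3 0)
        have c1 := hls2 _ (h3 1)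
        have c2 := hls2 _ (h3 2)
        rw [h1, h2]
        constructor <;> nlinarith
      · have h2 : ind W e = 0 := by simp [ind, hW']
        rw [h1, h2]
        refine ⟨?_, by linarith⟩
        rw [dead_iff] at he
        obtain ⟨i, hi⟩ := not_forall.mp he
        have := hls2 _ hi
        fin_cases i
        · simp only [Fin.zero_eta] at this; linarith
        · simp only [Fin.mk_one] at this; linarith
        · simp only [Fin.reduceFinMk] at this; linarith
    constructor
    · calc (1 / 5 : ℝ) ≤ 0.835 * (ω * n) := by linarith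
        _ = ω * (0.835 * n) := by ring
        _ ≤ ω * Gam N (ind W) e := mul_le_mul_of_nonneg_left key.1 hω0
    · calc ω * Gam N (ind W) e ≤ ω * (3 * n) := mul_le_mul_of_nonneg_left key.2 hω0
        _ = 3 * (ω * n) := by ring
        _ ≤ 4 / 5 := by linarith
  · have h1 : ∀ e, Gam N (ind W) e = (2 * n - 2 * m) + Gam N ξ e := by
      intro e
      have e1 : Gam N ξ e = Gam N (ind W) e - (Gam N (fun _ => 1) e - Gam N (N.A (ind M)) e) := by
        rw [← Gam_sub, ← Gam_sub]
      rw [e1, Gam_one, Gam_A, sum_ind]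
      ring
    have h2 : ∀ e ∈ (univ : Finset (Cell n)), |1 / 2 - ω * Gam N (ind W) e| ≤
        (3 / 2 / n + 2 * ω * X / n) + ω * |Gam N ξ e| := by
      intro e _
      have e1 : 1 / 2 - ω * Gam N (ind W) e =
          (1 / 2 - C / n) + (C / n - ω * (2 * n - 2 * m)) - ω * Gam N ξ e := by
        rw [h1 e]; ring
      rw [e1]
      refine (abs_sub _ _).trans (add_le_add ((abs_add_le _ _).trans (add_le_add ?_ ?_)) ?_)
      · rw [abs_le]
        constructor
        · have : C / n ≤ 1 / 2 := by rw [div_le_iff₀ hnp]; linarith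
          have : 0 ≤ 3 / 2 / (n : ℝ) := by positivity
          linarith
        · have : 1 / 2 - 3 / 2 / n ≤ C / n := by
            rw [le_div_iff₀ hnp]
            field_simp
            linarith
          linarith
      · have e2 : C / n - ω * (2 * n - 2 * m) = 2 * ω * (∑ e, ξ e) / n := by
          rw [← hωW, hcardW]
          field_simp
          ring
        rw [e2, abs_div, abs_mul, abs_of_nonneg (by positivity : (0:ℝ) ≤ 2 * ω), Nat.abs_cast]
        gcongr
      · rw [abs_mul, abs_of_nonneg hω0]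
    refine (Finset.sum_le_sum h2).trans ?_
    rw [Finset.sum_add_distrib, ← Finset.mul_sum, Finset.sum_const, Finset.card_univ,
      Fintype.card_prod, Fintype.card_fin, nsmul_eq_mul]
    have h3 := Gam_norm N ξ
    have h4 : ω * ∑ e, |Gam N ξ e| ≤ ω * (4 * n * X) :=
      mul_le_mul_of_nonneg_left (h3.trans (mul_le_mul_of_nonneg_left hξ1 (by positivity))) hω0
    have h5 : ((n * n : ℕ) : ℝ) * (3 / 2 / n + 2 * ω * X / n) = 3 / 2 * n + 2 * (ω * n) * X := by
      push_cast
      field_simp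
    rw [h5]
    have hX0 : 0 ≤ X := by rw [hXdef]; positivity
    have h6 : (ω * n) * X ≤ 0.2523 * X := mul_le_mul_of_nonneg_right hω1 hX0
    have h7 : ω * (4 * n * X) = 4 * ((ω * n) * X) := by ring
    have h8 : X = m ^ 2 + 640 * n := hXdef
    nlinarith

end Narrow

open Narrow in
/-- module Na -/
theorem narrow : NarrowStatement := by
  unfold NarrowStatement
  have ev1 := ev_pow 200 (by norm_num : (0.714 : ℝ) < 1)
  have ev2 := ev_pow 500 (by norm_num : (1.428 : ℝ) < 2)
  have ev3 := ev_pow 4 (by norm_num : (1.428 : ℝ) < 1.432)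
  have ev4 := ev_pow 2564 (by norm_num : (1 : ℝ) < 1.432)
  have ev5 := ev_pow 500 (by norm_num : (-1.4 : ℝ) < -1)
  filter_upwards [ev1, ev2, ev3, ev4, ev5, eventually_ge_atTop 1000000] with n h1 h2 h3 h4 h5 hn
  intro N M hM Y κ a b hY ha hb hv
  have hn0 : (1000000 : ℝ) ≤ n := by exact_mod_cast hn
  have hnp : (0 : ℝ) < n := by linarith
  rw [Real.rpow_one] at h1 h4
  rw [Real.rpow_neg_one] at h5
  have h2' : (n : ℝ) ^ (2 : ℝ) = n ^ 2 := by exact_mod_cast Real.rpow_natCast (n : ℝ) 2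
  rw [h2'] at h2
  have hM2 : (M.card : ℝ) ^ 2 ≤ (n : ℝ) ^ (1.428 : ℝ) := by
    calc (M.card : ℝ) ^ 2 ≤ ((n : ℝ) ^ (0.714 : ℝ)) ^ 2 :=
          pow_le_pow_left₀ (Nat.cast_nonneg _) hM 2
      _ = (n : ℝ) ^ (1.428 : ℝ) := by
          rw [← Real.rpow_natCast, ← Real.rpow_mul hnp.le]; norm_num
  have hM1 : (M.card : ℝ) ≤ 0.005 * n := by linarith
  have hX : (M.card : ℝ) ^ 2 + 640 * n ≤ 0.004 * n ^ 2 := by nlinarith
  obtain ⟨hWp, d1, d2, d3, d4⟩ := density N M a (by omega) hM1 hX ha hv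
  -- the bound for `b`
  have hbn : 5 * (n : ℝ) ^ (-1.4 : ℝ) ≤ 1 / 100 / n := by
    rw [div_eq_mul_inv (1 / 100 : ℝ)]; linarith
  have phases : ∀ (Y' : RPt n) (κ' : Cell n → ℤ) (a' b' : Cell n → ℝ),
      (∀ e ∉ N.dead M, N.A Y' e - κ' e = a' e + b' e) → (∀ e, |b' e| ≤ 1 / 100 / n) →
      (∀ v ∉ M, ∑ e ∈ N.on v, |a' e| ≤ 1 / 100) → (∀ e ∈ WW N M a, |a' e| < 1 / (8 * n)) →
      ∃ m : ℤ, ∑ e, ((2 * (n / 4) : ℕ) : ℝ) / (2 * (WW N M a).card) *
        Gam N (ind (WW N M a)) e * κ' e = m := by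
    intro Y' κ' a' b' g1 g2 g3 g4
    refine phase N (WW N M a) hWp (n / 4) κ' (2 * ∑ v, Y' v) ?_
    intro e he
    have he' := he
    simp only [WW, mem_filter, mem_univ, true_and] at he'
    have hδ : Gam N (fun e => (κ' e : ℝ)) e = 2 * ∑ v, Y' v -
        Gam N (fun e => N.A Y' e - κ' e) e := by
      rw [Gam_sub, Gam_A]; ring
    rw [hδ]
    have hl : ∀ i, |ls N (fun e => N.A Y' e - κ' e) (N.ln i e)| ≤ 2 / 100 := by
      intro i
      unfold ls
      refine (Finset.abs_sum_le_sum_abs _ _).trans ?_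
      have k1 : ∀ f ∈ N.on (N.ln i e), |N.A Y' f - κ' f| ≤ |a' f| + 1 / 100 / n := by
        intro f hf
        have hnd : f ∉ N.dead M := by
          rw [dead_iff]
          intro hall
          have := hall i
          have k2 := (mem_on N (N.ln i e) f).mp hf
          exact he'.1 i (k2 ▸ this)
        rw [g1 f hnd]
        exact (abs_add_le _ _).trans (add_le_add le_rfl (g2 f))
      refine (Finset.sum_le_sum k1).trans ?_
      rw [Finset.sum_add_distrib, Finset.sum_const, card_on, nsmul_eq_mul]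
      have := g3 _ (he'.1 i)
      have k3 : (n : ℝ) * (1 / 100 / n) = 1 / 100 := by field_simp
      rw [k3]; linarith
    have hnd : e ∉ N.dead M := by
      rw [dead_iff]; exact fun hall => he'.1 0 (hall 0)
    have hc : |n * (N.A Y' e - κ' e)| ≤ 1 / 8 + 1 / 100 := by
      rw [abs_mul, Nat.abs_cast, g1 e hnd]
      have k1 := (abs_add_le (a' e) (b' e)).trans (add_le_add (g4 e he).le (g2 e))
      calc (n : ℝ) * |a' e + b' e| ≤ n * (1 / (8 * n) + 1 / 100 / n) :=
            mul_le_mul_of_nonneg_left k1 hnp.le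
        _ = 1 / 8 + 1 / 100 := by field_simp
    have e1 : 2 * ∑ v, Y' v - Gam N (fun e => N.A Y' e - κ' e) e - 2 * ∑ v, Y' v =
        n * (N.A Y' e - κ' e) - (ls N (fun e => N.A Y' e - κ' e) (N.ln 0 e) +
        ls N (fun e => N.A Y' e - κ' e) (N.ln 1 e) +
        ls N (fun e => N.A Y' e - κ' e) (N.ln 2 e)) := by
      unfold Gam
      rw [show N.A (ls N fun e => N.A Y' e - κ' e) e =
        ls N (fun e => N.A Y' e - κ' e) (N.ln 0 e) +
        ls N (fun e => N.A Y' e - κ' e) (N.ln 1 e) +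
        ls N (fun e => N.A Y' e - κ' e) (N.ln 2 e) by
          rw [Net.A, Fin.sum_univ_three]]
      ring
    rw [e1]
    have l0 := abs_le.mp (hl 0)
    have l1 := abs_le.mp (hl 1)
    have l2 := abs_le.mp (hl 2)
    have lc := abs_le.mp hc
    rw [abs_lt]
    constructor <;> linarith [l0.1, l0.2, l1.1, l1.2, l2.1, l2.2, lc.1, lc.2]
  refine ⟨fun e => ((2 * (n / 4) : ℕ) : ℝ) / (2 * (WW N M a).card) * Gam N (ind (WW N M a)) e,
    d1, d2, d3, ?_, ?_, ?_⟩
  · linarith
  · intro i
    refine phases (Y i) (κ i) (a i) (b i) (hY i) (fun e => (hb i e).trans hbn) (hv i) ?_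
    intro e he
    simp only [WW, mem_filter, mem_univ, true_and] at he
    exact he.2 i
  · intro Y' κ' h
    refine phases Y' κ' (fun _ => 0) (fun _ => 0) ?_ ?_ ?_ ?_
    · intro e he
      rw [h e he]; simp
    · intro e; rw [abs_zero]; positivity
    · intro v _; simp
    · intro e _; rw [abs_zero]; positivity

end

end Pool.Agent.Lib.MP_185394_co.Up
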