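import Pool.Agent.Lib.MP_185394_co.Up.Interfaces

/-!
MP_185394_co, module F (PhaseStatement): modulus and argument of `1 - p + p e(s)`.
-/

namespace Pool.Agent.Lib.MP_185394_co.Up

noncomputable section

namespace PhaseAux

lemma z_eq (p s : ℝ) :
    ((1 - p : ℝ) : ℂ) + (p : ℂ) * Complex.exp (2 * Real.pi * Complex.I * (s : ℂ)) =
      (⟨1 - p + p * Real.cos (2 * Real.pi * s), p * Real.sin (2 * Real.pi * s)⟩ : ℂ) := by
  have h : (2 * Real.pi * Complex.I * (s : ℂ)) = ((2 * Real.pi * s : ℝ) : ℂ) * Complex.I := by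
    push_cast; ring
  rw [h]
  apply Complex.ext
  · rw [Complex.add_re, Complex.mul_re, Complex.exp_ofReal_mul_I_re, Complex.ofReal_re,
      Complex.ofReal_re, Complex.ofReal_im]
    ring
  · rw [Complex.add_im, Complex.mul_im, Complex.exp_ofReal_mul_I_im, Complex.ofReal_re,
      Complex.ofReal_im, Complex.ofReal_im]
    ring

lemma normSq_z (p s : ℝ) :
    ‖((1 - p : ℝ) : ℂ) + (p : ℂ) * Complex.exp (2 * Real.pi * Complex.I * (s : ℂ))‖ ^ 2 =
      1 - 2 * (p * (1 - p) * (1 - Real.cos (2 * Real.pi * s))) := by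
  rw [z_eq, ← Complex.normSq_eq_norm_sq, Complex.normSq_apply]
  simp only
  have := Real.sin_sq_add_cos_sq (2 * Real.pi * s)
  linear_combination p ^ 2 * this

lemma im_bound (p θ : ℝ) (hp : 0 ≤ p) (hp1 : p ≤ 1) :
    |p * Real.sin ((1 - p) * θ) - (1 - p) * Real.sin (p * θ)| ≤ |1 - 2 * p| * |θ| ^ 3 / 8 := by
  set f : ℝ → ℝ := fun x => p * Real.sin ((1 - p) * x) - (1 - p) * Real.sin (p * x) with hf
  have hd : ∀ x, HasDerivAt f (p * (Real.cos ((1 - p) * x) * (1 - p)) -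
      (1 - p) * (Real.cos (p * x) * p)) x := by
    intro x
    have h1 : HasDerivAt (fun x : ℝ => (1 - p) * x) (1 - p) x := by
      simpa using (hasDerivAt_id x).const_mul (1 - p)
    have h2 : HasDerivAt (fun x : ℝ => p * x) p x := by
      simpa using (hasDerivAt_id x).const_mul p
    exact ((h1.sin).const_mul p).sub ((h2.sin).const_mul (1 - p))
  have hpp : 0 ≤ p * (1 - p) := mul_nonneg hp (by linarith)
  have hpq : p * (1 - p) ≤ 1 / 4 := by nlinarith [sq_nonneg (p - 1 / 2)]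
  have hb : ∀ x ∈ Set.Icc (-|θ|) |θ|, ‖deriv f x‖ ≤ |1 - 2 * p| * |θ| ^ 2 / 8 := by
    intro x hx
    rw [(hd x).deriv, Real.norm_eq_abs]
    have e1 : p * (Real.cos ((1 - p) * x) * (1 - p)) - (1 - p) * (Real.cos (p * x) * p) =
        p * (1 - p) * (Real.cos ((1 - p) * x) - Real.cos (p * x)) := by ring
    rw [e1, Real.cos_sub_cos, abs_mul, abs_of_nonneg hpp]
    have e2 : ((1 - p) * x + p * x) / 2 = x / 2 := by ring
    have e3 : ((1 - p) * x - p * x) / 2 = (1 - 2 * p) * x / 2 := by ring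
    rw [e2, e3, abs_mul, abs_mul]
    have h1 : |Real.sin (x / 2)| ≤ |θ| / 2 := by
      refine (Real.abs_sin_le_abs).trans ?_
      rw [abs_div, abs_two]
      have : |x| ≤ |θ| := abs_le.mpr ⟨hx.1, hx.2⟩
      linarith
    have h2 : |Real.sin ((1 - 2 * p) * x / 2)| ≤ |1 - 2 * p| * |θ| / 2 := by
      refine (Real.abs_sin_le_abs).trans ?_
      rw [abs_div, abs_two, abs_mul]
      have : |x| ≤ |θ| := abs_le.mpr ⟨hx.1, hx.2⟩
      have h3 := mul_le_mul_of_nonneg_left this (abs_nonneg (1 - 2 * p))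
      linarith
    have h3 : |(-2 : ℝ)| = 2 := by norm_num
    rw [h3]
    have h4 : |Real.sin (x / 2)| * |Real.sin ((1 - 2 * p) * x / 2)| ≤
        (|θ| / 2) * (|1 - 2 * p| * |θ| / 2) :=
      mul_le_mul h1 h2 (abs_nonneg _) (by positivity)
    have h5 : p * (1 - p) * (2 * |Real.sin (x / 2)| * |Real.sin ((1 - 2 * p) * x / 2)|) ≤
        1 / 4 * (2 * ((|θ| / 2) * (|1 - 2 * p| * |θ| / 2))) := by
      refine mul_le_mul hpq ?_ (by positivity) (by norm_num)
      nlinarith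
    refine h5.trans (le_of_eq ?_)
    ring
  have hm := Convex.norm_image_sub_le_of_norm_deriv_le (f := f) (s := Set.Icc (-|θ|) |θ|)
    (x := 0) (y := θ) (fun x _ => (hd x).differentiableAt) hb (convex_Icc _ _)
    ⟨by linarith [abs_nonneg θ], abs_nonneg θ⟩ ⟨neg_abs_le θ, le_abs_self θ⟩
  have hf0 : f 0 = 0 := by simp [hf]
  rw [hf0, sub_zero, sub_zero, Real.norm_eq_abs, Real.norm_eq_abs] at hm
  refine hm.trans (le_of_eq ?_)
  ring

lemma re_bound (p θ : ℝ) (hp : 0 ≤ p) (hp1 : p ≤ 1) (hθ : |θ| ≤ Real.pi / 2) :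
    0.69 ≤ p * Real.cos ((1 - p) * θ) + (1 - p) * Real.cos (p * θ) := by
  have h1 := Real.one_sub_sq_div_two_le_cos (x := (1 - p) * θ)
  have h2 := Real.one_sub_sq_div_two_le_cos (x := p * θ)
  have hpq : p * (1 - p) ≤ 1 / 4 := by nlinarith [sq_nonneg (p - 1 / 2)]
  have h3 : θ ^ 2 ≤ 2.48 := by
    have h4 : θ ^ 2 = |θ| ^ 2 := (sq_abs θ).symm
    rw [h4]
    have hpi : Real.pi < 3.1416 := Real.pi_lt_d4
    nlinarith [abs_nonneg θ, Real.pi_pos]
  have h5 := mul_le_mul_of_nonneg_left h1 hp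
  have h6 := mul_le_mul_of_nonneg_left h2 (by linarith : 0 ≤ 1 - p)
  have h7 : p * (1 - ((1 - p) * θ) ^ 2 / 2) + (1 - p) * (1 - (p * θ) ^ 2 / 2) =
      1 - p * (1 - p) * θ ^ 2 / 2 := by ring
  have h8 : p * (1 - p) * θ ^ 2 ≤ 1 / 4 * 2.48 :=
    mul_le_mul hpq h3 (sq_nonneg _) (by norm_num)
  linarith

lemma g_eq (p θ : ℝ) :
    (⟨1 - p + p * Real.cos θ, p * Real.sin θ⟩ : ℂ) * Complex.exp (((-(p * θ) : ℝ) : ℂ) * Complex.I) =
      (⟨p * Real.cos ((1 - p) * θ) + (1 - p) * Real.cos (p * θ),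
        p * Real.sin ((1 - p) * θ) - (1 - p) * Real.sin (p * θ)⟩ : ℂ) := by
  have e1 : (1 - p) * θ = θ - p * θ := by ring
  apply Complex.ext
  · rw [Complex.mul_re, Complex.exp_ofReal_mul_I_re, Complex.exp_ofReal_mul_I_im, e1]
    simp only [Real.cos_neg, Real.sin_neg, Real.cos_sub]
    ring
  · rw [Complex.mul_im, Complex.exp_ofReal_mul_I_re, Complex.exp_ofReal_mul_I_im, e1]
    simp only [Real.cos_neg, Real.sin_neg, Real.sin_sub]
    ring

end PhaseAux

open PhaseAux in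
theorem phase : PhaseStatement := by
  intro p s hp hp1
  have hpp : 0 ≤ p * (1 - p) := mul_nonneg hp (by linarith)
  have hpq : p * (1 - p) ≤ 1 / 4 := by nlinarith [sq_nonneg (p - 1 / 2)]
  have hN := normSq_z p s
  set Y : ℝ := p * (1 - p) * (1 - Real.cos (2 * Real.pi * s)) with hY
  set z : ℂ := ((1 - p : ℝ) : ℂ) + (p : ℂ) * Complex.exp (2 * Real.pi * Complex.I * (s : ℂ)) with hz
  have hcos1 := Real.cos_le_one (2 * Real.pi * s)
  have hY0 : 0 ≤ Y := mul_nonneg hpp (by linarith)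
  have hexp2 : Real.exp (-Y) ^ 2 = Real.exp (-(2 * Y)) := by
    rw [← Real.exp_nat_mul]; congr 1; push_cast; ring
  refine ⟨?_, ?_⟩
  · refine le_of_sq_le_sq ?_ (Real.exp_pos _).le
    rw [hN, hexp2]
    have := Real.add_one_le_exp (-(2 * Y))
    linarith
  intro hs
  have hθ : |2 * Real.pi * s| ≤ Real.pi / 2 := by
    rw [abs_mul, abs_of_pos (by positivity : (0 : ℝ) < 2 * Real.pi)]
    nlinarith [Real.pi_pos, abs_nonneg s]
  have hcos0 : 0 ≤ Real.cos (2 * Real.pi * s) :=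
    Real.cos_nonneg_of_mem_Icc ⟨(abs_le.mp hθ).1, (abs_le.mp hθ).2⟩
  have hX2 : 2 * Y ≤ 1 / 2 := by
    have : Y ≤ 1 / 4 * 1 := mul_le_mul hpq (by linarith) (by linarith) (by norm_num)
    linarith
  have hXs : 2 * Y ≤ Real.pi ^ 2 * s ^ 2 := by
    have h1 := one_sub_cos_le s
    have : Y ≤ 1 / 4 * (2 * Real.pi ^ 2 * s ^ 2) :=
      mul_le_mul hpq h1 (by linarith) (by norm_num)
    linarith
  have hpi4 : Real.pi ^ 4 ≤ 100 := by
    have h1 : Real.pi < 3.1416 := Real.pi_lt_d4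
    have h2 : Real.pi ^ 2 ≤ 9.87 := by nlinarith [Real.pi_pos]
    have h3 : Real.pi ^ 4 = (Real.pi ^ 2) ^ 2 := by ring
    rw [h3]
    nlinarith [sq_nonneg Real.pi]
  have hXX : (2 * Y) ^ 2 ≤ 100 * s ^ 4 := by
    have h1 : (2 * Y) ^ 2 ≤ (Real.pi ^ 2 * s ^ 2) ^ 2 :=
      pow_le_pow_left₀ (by linarith) hXs 2
    have h2 : (Real.pi ^ 2 * s ^ 2) ^ 2 = Real.pi ^ 4 * s ^ 4 := by ring
    rw [h2] at h1
    refine h1.trans ?_
    exact mul_le_mul_of_nonneg_right hpi4 (by positivity)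
  refine ⟨?_, ?_⟩
  · refine le_of_sq_le_sq ?_ (norm_nonneg _)
    rw [hN, ← Real.exp_nat_mul]
    have h1 : 0 < 1 - 2 * Y := by linarith
    have h2 := Real.add_one_le_exp (2 * Y / (1 - 2 * Y))
    have h3 : 2 * Y / (1 - 2 * Y) + 1 = (1 - 2 * Y)⁻¹ := by
      field_simp
      ring
    rw [h3] at h2
    have h4 : Real.exp (-(2 * Y / (1 - 2 * Y))) ≤ 1 - 2 * Y := by
      rw [Real.exp_neg]
      exact inv_le_of_inv_le₀ h1 h2
    refine le_trans (Real.exp_le_exp.mpr ?_) h4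
    have h5 : 2 * Y / (1 - 2 * Y) ≤ 2 * Y + 2 * (2 * Y) ^ 2 := by
      rw [div_le_iff₀ h1]
      nlinarith [mul_nonneg (sq_nonneg (2 * Y)) (by linarith : (0 : ℝ) ≤ 1 / 2 - 2 * Y)]
    have h6 : 0 ≤ s ^ 4 := by positivity
    push_cast
    nlinarith
  · set θ : ℝ := 2 * Real.pi * s with hθd
    set g : ℂ := (⟨p * Real.cos ((1 - p) * θ) + (1 - p) * Real.cos (p * θ),
        p * Real.sin ((1 - p) * θ) - (1 - p) * Real.sin (p * θ)⟩ : ℂ) with hg
    have hzg : z * Complex.exp (((-(p * θ) : ℝ) : ℂ) * Complex.I) = g := by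
      rw [hz, z_eq, hg]
      exact g_eq p θ
    have hzg' : z = g * Complex.exp (((p * θ : ℝ) : ℂ) * Complex.I) := by
      rw [← hzg, mul_assoc, ← Complex.exp_add]
      have : ((-(p * θ) : ℝ) : ℂ) * Complex.I + ((p * θ : ℝ) : ℂ) * Complex.I = 0 := by
        push_cast; ring
      rw [this, Complex.exp_zero, mul_one]
    have hnorm : ‖z‖ = ‖g‖ := by
      rw [hzg', norm_mul, Complex.norm_exp_ofReal_mul_I, mul_one]
    have hre : 0.69 ≤ g.re := re_bound p θ hp hp1 hθ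
    have him : |g.im| ≤ |1 - 2 * p| * |θ| ^ 3 / 8 := im_bound p θ hp hp1
    have hgn : 0.69 ≤ ‖g‖ := hre.trans (Complex.re_le_norm g)
    refine ⟨g.arg, ?_, ?_⟩
    · have h1 : |g.arg| ≤ Real.pi / 2 := by
        rw [Complex.abs_arg_le_pi_div_two_iff]
        linarith
      have h2 := Real.mul_abs_le_abs_sin h1
      have hg0 : g ≠ 0 := by
        intro h
        rw [h] at hgn
        norm_num at hgn
      rw [Complex.sin_arg, abs_div, abs_of_nonneg (norm_nonneg g)] at h2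
      have h3 : |g.im| / ‖g‖ ≤ |g.im| / 0.69 := by
        apply div_le_div_of_nonneg_left (abs_nonneg _) (by norm_num) hgn
      have h4 : |θ| ^ 3 = 8 * Real.pi ^ 3 * |s| ^ 3 := by
        rw [hθd, abs_mul, abs_of_pos (by positivity : (0 : ℝ) < 2 * Real.pi)]
        ring
      rw [h4] at him
      have h5 : 2 / Real.pi * |g.arg| ≤ (|1 - 2 * p| * (8 * Real.pi ^ 3 * |s| ^ 3) / 8) / 0.69 :=
        h2.trans (h3.trans (by gcongr))
      have h6 : |g.arg| ≤ (Real.pi / 2) * ((|1 - 2 * p| * (8 * Real.pi ^ 3 * |s| ^ 3) / 8) / 0.69) := by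
        have := mul_le_mul_of_nonneg_left h5 (by positivity : 0 ≤ Real.pi / 2)
        have h7 : Real.pi / 2 * (2 / Real.pi * |g.arg|) = |g.arg| := by
          have := Real.pi_ne_zero
          field_simp
        rw [h7] at this
        exact this
      refine h6.trans ?_
      have h8 : (Real.pi / 2) * ((|1 - 2 * p| * (8 * Real.pi ^ 3 * |s| ^ 3) / 8) / 0.69) =
          (Real.pi ^ 4 / 1.38) * (|1 - 2 * p| * |s| ^ 3) := by ring
      rw [h8, mul_assoc 100]
      refine mul_le_mul_of_nonneg_right ?_ (by positivity)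
      rw [div_le_iff₀ (by norm_num)]
      linarith
    · rw [hnorm]
      have h1 : Complex.exp (Complex.I * ((2 * Real.pi * (p * s) + g.arg : ℝ) : ℂ)) =
          Complex.exp (g.arg * Complex.I) * Complex.exp (((p * θ : ℝ) : ℂ) * Complex.I) := by
        rw [← Complex.exp_add]
        congr 1
        rw [hθd]
        push_cast
        ring
      rw [h1, ← mul_assoc, Complex.norm_mul_exp_arg_mul_I]
      exact hzg'

end

end Pool.Agent.Lib.MP_185394_co.Up
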