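import Pool.Agent.Lib.MP_185394_co.Up.Interfaces

/-!
MP_185394_co, upper bound side: module R (structure of near trivial points of small energy).
-/

namespace Pool.Agent.Lib.MP_185394_co.Up

open Finset Filter

namespace SmallAux

lemma ev_pow (C a b : ℝ) (h : a < b) : ∀ᶠ n : ℕ in atTop, C * (n : ℝ) ^ a ≤ (n : ℝ) ^ b := by
  have h1 : Tendsto (fun n : ℕ => (n : ℝ) ^ (b - a)) atTop atTop :=
    (tendsto_rpow_atTop (by linarith)).comp tendsto_natCast_atTop_atTop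
  filter_upwards [h1.eventually_ge_atTop C, eventually_gt_atTop 0] with n hn h0
  have hn0 : (0 : ℝ) < n := by exact_mod_cast h0
  calc C * (n : ℝ) ^ a ≤ (n : ℝ) ^ (b - a) * (n : ℝ) ^ a :=
        mul_le_mul_of_nonneg_right hn (by positivity)
    _ = (n : ℝ) ^ b := by rw [← Real.rpow_add hn0]; congr 1; ring

variable {n q : ℕ} [NeZero q]

lemma var_eq (hn : 0 < n) (x : Pt n q) (i : Fin 3) :
    ∑ v : Fin n, ‖ph (x (i, v)) - mean x i‖ ^ 2 = n * (1 - ‖mean x i‖ ^ 2) := by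
  have hn' : (n : ℂ) ≠ 0 := by exact_mod_cast hn.ne'
  have hsum : ∑ v : Fin n, ph (x (i, v)) = n * mean x i := by
    unfold mean; field_simp
  have h1 : ∀ v : Fin n, ‖ph (x (i, v)) - mean x i‖ ^ 2 =
      1 - 2 * (ph (x (i, v)) * (starRingEnd ℂ) (mean x i)).re + ‖mean x i‖ ^ 2 := by
    intro v
    have h2 : ‖ph (x (i, v))‖ ^ 2 = 1 := by rw [norm_ph]; norm_num
    rw [← Complex.normSq_eq_norm_sq, Complex.normSq_apply] at h2 ⊢
    rw [← Complex.normSq_eq_norm_sq, Complex.normSq_apply]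
    simp only [Complex.sub_re, Complex.sub_im, Complex.mul_re, Complex.conj_re, Complex.conj_im]
    nlinarith
  rw [Finset.sum_congr rfl fun v _ => h1 v]
  rw [Finset.sum_add_distrib, Finset.sum_sub_distrib, ← Finset.mul_sum, ← Complex.re_sum,
    ← Finset.sum_mul, hsum, mul_assoc, Complex.mul_conj, Complex.normSq_eq_norm_sq]
  simp only [Finset.sum_const, Finset.card_univ, Fintype.card_fin, nsmul_eq_mul, mul_one]
  have h3 : ((n : ℂ) * ((‖mean x i‖ ^ 2 : ℝ) : ℂ)).re = n * ‖mean x i‖ ^ 2 := by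
    rw [← Complex.ofReal_natCast, ← Complex.ofReal_mul, Complex.ofReal_re]
  rw [h3]
  ring

lemma two_cases : ∀ k : Fin 3, k ≠ 2 → k = 0 ∨ k = 1 := by decide

lemma univ_three : ∀ k i j : Fin 3, k ≠ i → k ≠ j → i ≠ j →
    (univ : Finset (Fin 3)) = {k, i, j} := by decide

omit [NeZero q] in
lemma y_three (N : Net n) (x : Pt n q) (e : Cell n) {k i j : Fin 3} (hki : k ≠ i) (hkj : k ≠ j)
    (hij : i ≠ j) : N.y x e = x (N.ln k e) + (x (N.ln i e) + x (N.ln j e)) := by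
  unfold Net.y
  rw [univ_three k i j hki hkj hij, Finset.sum_insert (by simp [hki, hkj]),
    Finset.sum_insert (by simp [hij]), Finset.sum_singleton]

/-- closeness of the labels on a line -/
lemma line_close (N : Net n) (M : Finset (Line n)) (z : Pt n q) (hn : 0 < n) {ε : ℝ}
    (hm : ∀ i, 1 - 2 * ε ≤ ‖mean z i‖) (hε : 0 ≤ ε) (v : Line n) {i j : Fin 3}
    (hvi : v.1 ≠ i) (hvj : v.1 ≠ j) (hij : i ≠ j) :
    ((n : ℝ) - M.card) * ‖ph (z v) * (mean z i * mean z j) - 1‖ ^ 2 ≤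
      8 * Real.pi ^ 2 * N.Phi M z + 32 * ε * n := by
  classical
  set X := ph (z v) * (mean z i * mean z j) - 1 with hX
  -- pointwise
  have hpt : ∀ e ∈ N.on v, ‖X‖ ^ 2 ≤ 2 * ‖ph (N.y z e) - 1‖ ^ 2 +
      (4 * ‖ph (z (i, N.idx i e)) - mean z i‖ ^ 2 +
        4 * ‖ph (z (j, N.idx j e)) - mean z j‖ ^ 2) := by
    intro e he
    have hv : N.ln v.1 e = v := (mem_on N v e).mp he
    have h1 : ph (N.y z e) = ph (z v) * (ph (z (i, N.idx i e)) * ph (z (j, N.idx j e))) := by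
      rw [y_three N z e hvi hvj hij, ph_add, ph_add, hv]; rfl
    set a := ph (z (i, N.idx i e)) with ha
    set b := ph (z (j, N.idx j e)) with hb
    have h2 : X = (ph (N.y z e) - 1) - ph (z v) * ((a - mean z i) * b +
        mean z i * (b - mean z j)) := by
      rw [h1, hX]; ring
    have h3 : ‖X‖ ≤ ‖ph (N.y z e) - 1‖ + (‖a - mean z i‖ + ‖b - mean z j‖) := by
      rw [h2]
      refine (norm_sub_le _ _).trans (add_le_add le_rfl ?_)
      rw [norm_mul, norm_ph, one_mul]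
      refine (norm_add_le _ _).trans (add_le_add ?_ ?_)
      · rw [norm_mul, hb, norm_ph, mul_one]
      · rw [norm_mul]
        calc ‖mean z i‖ * ‖b - mean z j‖ ≤ 1 * ‖b - mean z j‖ :=
              mul_le_mul_of_nonneg_right (norm_mean_le z i) (norm_nonneg _)
          _ = ‖b - mean z j‖ := one_mul _
    have h4 := norm_nonneg X
    have h5 := norm_nonneg (ph (N.y z e) - 1)
    have h6 := norm_nonneg (a - mean z i)
    have h7 := norm_nonneg (b - mean z j)
    have h8 : ‖X‖ ^ 2 ≤ (‖ph (N.y z e) - 1‖ + (‖a - mean z i‖ + ‖b - mean z j‖)) ^ 2 :=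
      pow_le_pow_left₀ h4 h3 2
    nlinarith [sq_nonneg (‖ph (N.y z e) - 1‖ - (‖a - mean z i‖ + ‖b - mean z j‖)),
      sq_nonneg (‖a - mean z i‖ - ‖b - mean z j‖)]
  set Lv := (N.on v) \ (N.dead M) with hLv
  have hcard : (n : ℝ) - M.card ≤ Lv.card := by
    have h1 : (N.on v ∩ N.dead M).card ≤ M.card := card_dead_on N M v
    have h2 : Lv.card + (N.on v ∩ N.dead M).card = (N.on v).card :=
      Finset.card_sdiff_add_card_inter _ _
    rw [card_on] at h2
    have h3 : (Lv.card : ℝ) + ((N.on v ∩ N.dead M).card : ℝ) = n := by exact_mod_cast h2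
    have h4 : ((N.on v ∩ N.dead M).card : ℝ) ≤ M.card := by exact_mod_cast h1
    linarith
  have hmul : ((n : ℝ) - M.card) * ‖X‖ ^ 2 ≤ ∑ _e ∈ Lv, ‖X‖ ^ 2 := by
    rw [Finset.sum_const, nsmul_eq_mul]
    exact mul_le_mul_of_nonneg_right hcard (by positivity)
  refine hmul.trans ?_
  have hsub : Lv ⊆ N.on v := Finset.sdiff_subset
  refine (Finset.sum_le_sum fun e he => hpt e (hsub he)).trans ?_
  rw [Finset.sum_add_distrib]
  refine add_le_add ?_ ?_
  · have h1 : ∀ e ∈ Lv, 2 * ‖ph (N.y z e) - 1‖ ^ 2 ≤ 8 * Real.pi ^ 2 * lift (N.y z e) ^ 2 := by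
      intro e _
      rw [norm_ph_sub_one_sq]
      have := cst_le (N.y z e)
      linarith
    refine (Finset.sum_le_sum h1).trans ?_
    rw [← Finset.mul_sum]
    refine mul_le_mul_of_nonneg_left ?_ (by positivity)
    unfold Net.Phi
    refine Finset.sum_le_sum_of_subset_of_nonneg ?_ (fun _ _ _ => sq_nonneg _)
    intro e he
    rw [hLv, Finset.mem_sdiff] at he
    rw [Finset.mem_compl]
    exact he.2
  · have h1 : ∑ e ∈ Lv, (4 * ‖ph (z (i, N.idx i e)) - mean z i‖ ^ 2 +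
        4 * ‖ph (z (j, N.idx j e)) - mean z j‖ ^ 2) ≤
        ∑ e ∈ N.on v, (4 * ‖ph (z (i, N.idx i e)) - mean z i‖ ^ 2 +
        4 * ‖ph (z (j, N.idx j e)) - mean z j‖ ^ 2) :=
      Finset.sum_le_sum_of_subset_of_nonneg hsub (fun _ _ _ => by positivity)
    refine h1.trans ?_
    rw [Finset.sum_add_distrib, ← Finset.mul_sum, ← Finset.mul_sum,
      sum_on_other N v i hvi (fun w => ‖ph (z (i, w)) - mean z i‖ ^ 2),
      sum_on_other N v j hvj (fun w => ‖ph (z (j, w)) - mean z j‖ ^ 2),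
      var_eq hn, var_eq hn]
    have hb : ∀ l, 1 - ‖mean z l‖ ^ 2 ≤ 4 * ε := by
      intro l
      have h2 := hm l
      have h3 := norm_mean_le z l
      have h4 := norm_nonneg (mean z l)
      nlinarith
    have hn' : (0 : ℝ) ≤ n := Nat.cast_nonneg n
    have h5 := mul_le_mul_of_nonneg_left (hb i) hn'
    have h6 := mul_le_mul_of_nonneg_left (hb j) hn'
    linarith

/-- two labels of the same type are close -/
lemma labels_close (N : Net n) (M : Finset (Line n)) (z : Pt n q) (hn : 0 < n) {ε : ℝ}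
    (hm : ∀ i, 1 - 2 * ε ≤ ‖mean z i‖) (hε : 0 ≤ ε) (hε' : ε ≤ 1 / 8)
    (hM : (M.card : ℝ) ≤ n / 2)
    (hbd : 8 * Real.pi ^ 2 * N.Phi M z + 32 * ε * n ≤ n / 2 * (1 / 100) ^ 2)
    (k : Fin 3) (a b : Fin n) : |lift (z (k, a) - z (k, b))| ≤ 1 / 100 := by
  obtain ⟨i, j, hki, hkj, hij⟩ : ∃ i j : Fin 3, k ≠ i ∧ k ≠ j ∧ i ≠ j := by
    revert k; decide
  have hn' : (0 : ℝ) < n := by exact_mod_cast hn
  have hX : ∀ c : Fin n, ‖ph (z (k, c)) * (mean z i * mean z j) - 1‖ ≤ 1 / 100 := by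
    intro c
    have h1 := line_close N M z hn hm hε (k, c) hki hkj hij
    have h2 : (n : ℝ) / 2 * ‖ph (z (k, c)) * (mean z i * mean z j) - 1‖ ^ 2 ≤
        n / 2 * (1 / 100) ^ 2 := by
      refine le_trans ?_ (h1.trans hbd)
      exact mul_le_mul_of_nonneg_right (by linarith) (by positivity)
    have h3 : ‖ph (z (k, c)) * (mean z i * mean z j) - 1‖ ^ 2 ≤ (1 / 100) ^ 2 :=
      le_of_mul_le_mul_left h2 (by linarith)
    exact abs_le_of_sq_le_sq' h3 (by norm_num) |>.2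
  have hmm : 1 / 2 ≤ ‖mean z i * mean z j‖ := by
    rw [norm_mul]
    have h1 := hm i
    have h2 := hm j
    nlinarith
  have h1 : ‖ph (z (k, a)) - ph (z (k, b))‖ * ‖mean z i * mean z j‖ ≤ 2 * (1 / 100) := by
    rw [← norm_mul]
    have : (ph (z (k, a)) - ph (z (k, b))) * (mean z i * mean z j) =
        (ph (z (k, a)) * (mean z i * mean z j) - 1) -
          (ph (z (k, b)) * (mean z i * mean z j) - 1) := by ring
    rw [this]
    refine (norm_sub_le _ _).trans ?_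
    linarith [hX a, hX b]
  have h2 : ‖ph (z (k, a)) - ph (z (k, b))‖ ≤ 4 / 100 := by
    have h3 := norm_nonneg (ph (z (k, a)) - ph (z (k, b)))
    nlinarith
  have h3 : ‖ph (z (k, a)) - ph (z (k, b))‖ ^ 2 ≤ (4 / 100) ^ 2 :=
    pow_le_pow_left₀ (norm_nonneg _) h2 2
  rw [norm_ph_sub_sq] at h3
  have h4 := cst_ge (z (k, a) - z (k, b))
  have h5 : lift (z (k, a) - z (k, b)) ^ 2 ≤ (1 / 100) ^ 2 := by linarith
  exact abs_le.mpr (abs_le_of_sq_le_sq' h5 (by norm_num))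

/-- expansion of the square sum -/
lemma sum_A_sq (N : Net n) (u : RPt n) (h0 : ∑ w, u (0, w) = 0) (h1 : ∑ w, u (1, w) = 0) :
    ∑ e, N.A u e ^ 2 = n * ∑ v, u v ^ 2 := by
  have h := sum_mul_A N (N.A u) u
  have h' : ∑ e, N.A u e ^ 2 = ∑ e, N.A u e * N.A u e :=
    Finset.sum_congr rfl fun e _ => sq _
  rw [h', h]
  have h2 : ∀ v : Line n, u v * ∑ e ∈ N.on v, N.A u e = n * u v ^ 2 +
      u v * ∑ j ∈ univ.filter (fun j : Fin 3 => j ≠ v.1), ∑ w, u (j, w) := by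
    intro v
    rw [sum_on_A]; ring
  rw [Finset.sum_congr rfl fun v _ => h2 v, Finset.sum_add_distrib, ← Finset.mul_sum]
  have h3 : ∑ v : Line n, u v * ∑ j ∈ univ.filter (fun j : Fin 3 => j ≠ v.1), ∑ w, u (j, w) = 0 := by
    rw [Fintype.sum_prod_type]
    simp only
    rw [Fin.sum_univ_three]
    simp only [← Finset.sum_mul]
    rw [h0, h1]
    have e2 : (univ.filter fun j : Fin 3 => j ≠ 2) = {0, 1} := by decide
    rw [e2, Finset.sum_insert (by decide), Finset.sum_singleton, h0, h1]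
    ring
  rw [h3, add_zero]

lemma sum_dead_A_sq (N : Net n) (M : Finset (Line n)) (u : RPt n) :
    ∑ e ∈ N.dead M, N.A u e ^ 2 ≤ 3 * M.card * ∑ v, u v ^ 2 := by
  classical
  have h1 : ∀ e, N.A u e ^ 2 ≤ 3 * ∑ i, u (N.ln i e) ^ 2 := by
    intro e
    unfold Net.A
    have := sq_sum_le_card_mul_sum_sq (s := (univ : Finset (Fin 3))) (f := fun i => u (N.ln i e))
    simpa using this
  refine (Finset.sum_le_sum fun e _ => h1 e).trans ?_
  rw [← Finset.mul_sum, mul_assoc]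
  refine mul_le_mul_of_nonneg_left ?_ (by norm_num)
  have h2 := sum_line_on N (fun v e => if e ∈ N.dead M then u v ^ 2 else 0)
  have h3 : ∑ e ∈ N.dead M, ∑ i, u (N.ln i e) ^ 2 =
      ∑ e, ∑ i, (if e ∈ N.dead M then u (N.ln i e) ^ 2 else 0) := by
    rw [← Finset.sum_filter_add_sum_filter_not univ (fun e => e ∈ N.dead M)]
    rw [Finset.sum_congr rfl (g := fun _ => (0 : ℝ)) (s₁ := univ.filter fun e => ¬ e ∈ N.dead M)]
    · simp only [Finset.sum_const_zero, add_zero, Finset.filter_mem_eq_inter,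
        Finset.univ_inter]
      exact Finset.sum_congr rfl fun e he => by simp [he]
    · intro e he
      simp only [mem_filter, mem_univ, true_and] at he
      simp [he]
  rw [h3, ← h2, Finset.mul_sum]
  refine Finset.sum_le_sum fun v _ => ?_
  rw [← Finset.sum_filter, Finset.sum_const, nsmul_eq_mul]
  refine mul_le_mul_of_nonneg_right ?_ (sq_nonneg _)
  have h4 : ((N.on v).filter fun e => e ∈ N.dead M) = N.on v ∩ N.dead M := by
    ext e; simp
  rw [h4]
  exact_mod_cast card_dead_on N M v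

end SmallAux

open SmallAux in
/-- Module R. -/
theorem small (hD1 : MeanStatement) : SmallStatement := by
  classical
  have hpi : Real.pi ^ 2 ≤ 10 := by
    have h1 := Real.pi_lt_d2
    have h2 := Real.pi_pos
    nlinarith
  unfold SmallStatement
  filter_upwards [ev_pow 6 0.72 1 (by norm_num), ev_pow 32 0 0.28 (by norm_num),
    ev_pow (10 / 3) 0.9 1.44 (by norm_num), ev_pow (4e4 * 80) 0.9 1 (by norm_num),
    ev_pow (4e4 * 128) 0.72 1 (by norm_num), ev_pow 4 1.44 2 (by norm_num),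
    ev_pow 4e4 0.9 2 (by norm_num), eventually_gt_atTop 0]
    with n f1 f2 f3 f4 f5 f6 f7 hn q _ N M hM z hz hPhi
  have hn0 : (0 : ℝ) < n := by exact_mod_cast hn
  rw [Real.rpow_one] at f1 f4 f5
  rw [Real.rpow_zero, mul_one] at f2
  have hsq2 : (n : ℝ) ^ (2 : ℝ) = (n : ℝ) ^ 2 := by
    rw [← Real.rpow_natCast]; norm_num
  rw [hsq2] at f6 f7
  -- the parameter
  set ε := 4 * (n : ℝ) ^ (-0.28 : ℝ) with hε
  have hε0 : 0 ≤ ε := by positivity
  have hinv : (n : ℝ) ^ (-0.28 : ℝ) * (n : ℝ) ^ (0.28 : ℝ) = 1 := by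
    rw [← Real.rpow_add hn0]; norm_num
  have hε8 : ε ≤ 1 / 8 := by
    have h1 : (n : ℝ) ^ (-0.28 : ℝ) * 32 ≤ (n : ℝ) ^ (-0.28 : ℝ) * (n : ℝ) ^ (0.28 : ℝ) :=
      mul_le_mul_of_nonneg_left f2 (by positivity)
    rw [hinv] at h1
    rw [hε]; linarith
  have hεn : ε * n = 4 * (n : ℝ) ^ (0.72 : ℝ) := by
    rw [hε, mul_assoc]
    congr 1
    nth_rewrite 2 [← Real.rpow_one (n : ℝ)]
    rw [← Real.rpow_add hn0]; norm_num
  have hεsq : ε ^ 2 * (n : ℝ) ^ 2 = 16 * (n : ℝ) ^ (1.44 : ℝ) := by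
    have : (n : ℝ) ^ (0.72 : ℝ) * (n : ℝ) ^ (0.72 : ℝ) = (n : ℝ) ^ (1.44 : ℝ) := by
      rw [← Real.rpow_add hn0]; norm_num
    calc ε ^ 2 * (n : ℝ) ^ 2 = (ε * n) * (ε * n) := by ring
      _ = 16 * ((n : ℝ) ^ (0.72 : ℝ) * (n : ℝ) ^ (0.72 : ℝ)) := by rw [hεn]; ring
      _ = 16 * (n : ℝ) ^ (1.44 : ℝ) := by rw [this]
  have hMsq : ((M.card : ℝ)) ^ 2 ≤ (n : ℝ) ^ (1.44 : ℝ) := by
    have h1 : (n : ℝ) ^ (0.72 : ℝ) * (n : ℝ) ^ (0.72 : ℝ) = (n : ℝ) ^ (1.44 : ℝ) := by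
      rw [← Real.rpow_add hn0]; norm_num
    rw [← h1, sq]
    exact mul_le_mul hM hM (Nat.cast_nonneg _) (by positivity)
  have hdead : ((N.dead M).card : ℝ) ≤ (n : ℝ) ^ (1.44 : ℝ) := by
    have h1 : ((N.dead M).card : ℝ) ≤ (M.card : ℝ) ^ 2 := by exact_mod_cast card_dead N M
    exact h1.trans hMsq
  have hPhi0 : 0 ≤ N.Phi M z := Finset.sum_nonneg fun _ _ => sq_nonneg _
  -- D1
  have hfull : 2 * N.full z ≤ ε ^ 2 * (n : ℝ) ^ 2 := by
    rw [hεsq]
    have h1 := full_le_Phi N M z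
    have h2 : Real.pi ^ 2 * N.Phi M z ≤ 10 * (n : ℝ) ^ (0.9 : ℝ) :=
      mul_le_mul hpi hPhi hPhi0 (by norm_num)
    have h3 : 0 ≤ (n : ℝ) ^ (1.44 : ℝ) := by positivity
    linarith
  have hm := hD1 n q N z ε hn hε0 hε8 hfull hz
  have hbd : 8 * Real.pi ^ 2 * N.Phi M z + 32 * ε * n ≤ n / 2 * (1 / 100) ^ 2 := by
    have h2 : Real.pi ^ 2 * N.Phi M z ≤ 10 * (n : ℝ) ^ (0.9 : ℝ) :=
      mul_le_mul hpi hPhi hPhi0 (by norm_num)
    have h3 : 32 * ε * n = 128 * (n : ℝ) ^ (0.72 : ℝ) := by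
      rw [mul_assoc, hεn]; ring
    rw [h3]
    linarith
  have hM2 : (M.card : ℝ) ≤ n / 2 := by linarith
  have hclose : ∀ (k : Fin 3) (a b : Fin n), |lift (z (k, a) - z (k, b))| ≤ 1 / 100 :=
    labels_close N M z hn hm hε0 hε8 hM2 hbd
  -- a cell with a small value
  obtain ⟨e₀, he₀⟩ : ∃ e : Cell n, |lift (N.y z e)| ≤ 1 / 100 := by
    by_contra hno
    push Not at hno
    have h1 : ((N.dead M)ᶜ.card : ℝ) * (1 / 100) ^ 2 ≤ N.Phi M z := by
      unfold Net.Phi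
      rw [← nsmul_eq_mul, ← Finset.sum_const]
      refine Finset.sum_le_sum fun e _ => ?_
      rw [← sq_abs (lift (N.y z e))]
      exact pow_le_pow_left₀ (by norm_num) (hno e).le 2
    have h2 : ((N.dead M).card : ℝ) + ((N.dead M)ᶜ.card : ℝ) = (n : ℝ) ^ 2 := by
      have := Finset.card_add_card_compl (N.dead M)
      rw [Fintype.card_prod, Fintype.card_fin] at this
      have h3 : ((N.dead M).card : ℝ) + ((N.dead M)ᶜ.card : ℝ) = (n : ℝ) * n := by
        exact_mod_cast this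
      rw [h3]; ring
    have h4 : (0 : ℝ) < (n : ℝ) ^ 2 := by positivity
    linarith
  -- the first gauge
  set s : Fin 3 → ZMod q := fun k => z (N.ln k e₀) with hs
  set t : Fin 3 → ℝ := ![lift (s 0), lift (s 1), -(lift (s 0) + lift (s 1))] with ht
  have hy0 : ∃ m : ℤ, lift (s 2) = t 2 + lift (N.y z e₀) + m := by
    obtain ⟨m, hm'⟩ := lift_sum (univ : Finset (Fin 3)) s
    refine ⟨-m, ?_⟩
    have h1 : N.y z e₀ = ∑ i, s i := rfl
    rw [h1, hm', Fin.sum_univ_three]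
    simp only [ht, Matrix.cons_val]
    push_cast
    ring
  have hu1 : ∀ v : Line n, ∃ r : ℝ, |r| ≤ 2 / 100 ∧ ∃ m : ℤ, lift (z v) = t v.1 + r + m := by
    rintro ⟨k, a⟩
    have h1 := hclose k a (N.idx k e₀)
    obtain ⟨m, hm'⟩ := lift_add (z (k, a) - z (k, N.idx k e₀)) (s k)
    have h2 : z (k, a) - z (k, N.idx k e₀) + s k = z (k, a) := by
      simp only [hs, Net.ln]; ring
    rw [h2] at hm'
    by_cases hk : k = 2
    · subst hk
      obtain ⟨m', hm''⟩ := hy0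
      refine ⟨lift (z (2, a) - z (2, N.idx 2 e₀)) + lift (N.y z e₀), ?_, m + m', ?_⟩
      · refine (abs_add_le _ _).trans ?_
        linarith
      · rw [hm', hm'']; push_cast; ring
    · refine ⟨lift (z (k, a) - z (k, N.idx k e₀)), by linarith, m, ?_⟩
      rw [hm']
      have h3 : lift (s k) = t k := by
        rcases two_cases k hk with rfl | rfl <;> simp [ht]
      rw [h3]; ring
  choose u hu hmu using hu1
  have ht0 : t 0 + t 1 + t 2 = 0 := by simp [ht]
  -- exact values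
  have hval : ∀ e, lift (N.y z e) = N.A u e := by
    intro e
    refine lift_unique ?_ (lift_y_of N z t u ht0 hmu e)
    unfold Net.A
    rw [Fin.sum_univ_three]
    have h1 := hu (N.ln 0 e)
    have h2 := hu (N.ln 1 e)
    have h3 := hu (N.ln 2 e)
    have h4 := abs_add_three (u (N.ln 0 e)) (u (N.ln 1 e)) (u (N.ln 2 e))
    linarith
  -- recentre
  set c : Fin 3 → ℝ := ![(∑ w, u (0, w)) / n, (∑ w, u (1, w)) / n,
    -((∑ w, u (0, w)) / n + (∑ w, u (1, w)) / n)] with hc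
  have hc0 : c 0 + c 1 + c 2 = 0 := by simp [hc]
  set u' : RPt n := fun v => u v - c v.1 with hu'
  have hA : ∀ e, N.A u' e = N.A u e := by
    intro e
    unfold Net.A
    simp only [hu', Fin.sum_univ_three, Net.ln]
    linarith
  have hS0 : ∑ w, u' (0, w) = 0 := by
    simp only [hu', Finset.sum_sub_distrib, Finset.sum_const, Finset.card_univ, Fintype.card_fin,
      nsmul_eq_mul]
    simp only [hc, Matrix.cons_val_zero]
    rw [mul_div_cancel₀ _ hn0.ne', sub_self]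
  have hS1 : ∑ w, u' (1, w) = 0 := by
    simp only [hu', Finset.sum_sub_distrib, Finset.sum_const, Finset.card_univ, Fintype.card_fin,
      nsmul_eq_mul]
    simp only [hc, Matrix.cons_val_one, Matrix.cons_val_zero]
    rw [mul_div_cancel₀ _ hn0.ne', sub_self]
  refine ⟨fun k => t k + c k, u', by simp only; linarith, fun v => ?_, fun v => ?_, fun e => ?_⟩
  · obtain ⟨m, hm'⟩ := hmu v
    exact ⟨m, by rw [hm']; simp only [hu']; ring⟩
  · have h1 := sum_A_sq N u' hS0 hS1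
    have h2 := sum_dead_A_sq N M u'
    have h3 : N.Phi M z = ∑ e ∈ (N.dead M)ᶜ, N.A u' e ^ 2 := by
      unfold Net.Phi
      exact Finset.sum_congr rfl fun e _ => by rw [hval e, hA e]
    have h4 : ∑ e ∈ N.dead M, N.A u' e ^ 2 + ∑ e ∈ (N.dead M)ᶜ, N.A u' e ^ 2 =
        ∑ e, N.A u' e ^ 2 := Finset.sum_add_sum_compl _ _
    have h5 : 0 ≤ ∑ v, u' v ^ 2 := Finset.sum_nonneg fun _ _ => sq_nonneg _
    have h6 : (n : ℝ) / 2 * ∑ v, u' v ^ 2 ≤ N.Phi M z := by
      have h7 : 3 * (M.card : ℝ) * ∑ v, u' v ^ 2 ≤ n / 2 * ∑ v, u' v ^ 2 :=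
        mul_le_mul_of_nonneg_right (by linarith) h5
      rw [h3]
      linarith
    have h8 : u' v ^ 2 ≤ ∑ v, u' v ^ 2 :=
      Finset.single_le_sum (f := fun v => u' v ^ 2) (fun _ _ => sq_nonneg _) (mem_univ v)
    refine Real.abs_le_sqrt ?_
    rw [le_div_iff₀ hn0]
    have h9 := mul_le_mul_of_nonneg_left h8 hn0.le
    linarith
  · rw [hval e, hA e]

end Pool.Agent.Lib.MP_185394_co.Up
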