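import Pool.Agent.Lib.MP_185394_co.Up.StructA

/-!
MP_185394_co, module St (helper10): structure of the lattice of low energy vectors.
-/

namespace Pool.Agent.Lib.MP_185394_co.Up

namespace StA

open Finset Filter

open scoped Classical

noncomputable section

variable {n : ℕ}

theorem dead_mono (N : Net n) {M M' : Finset (Line n)} (h : M ⊆ M') : N.dead M ⊆ N.dead M' := by
  intro e he
  simp only [Net.dead, mem_filter, mem_univ, true_and] at he ⊢
  exact fun i => h (he i)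

/-- functions which are of the form `A u` on the live cells -/
def HM (N : Net n) (M : Finset (Line n)) : Submodule ℝ (Cell n → ℝ) where
  carrier := {h | ∃ u : RPt n, ∀ e ∉ N.dead M, h e = N.A u e}
  add_mem' := by
    rintro a b ⟨u, hu⟩ ⟨u', hu'⟩
    exact ⟨u + u', fun e he => by rw [Pi.add_apply, hu e he, hu' e he, A_add]⟩
  zero_mem' := ⟨0, fun e _ => by rw [A_zero]; rfl⟩
  smul_mem' := by
    rintro c a ⟨u, hu⟩
    exact ⟨c • u, fun e he => by rw [Pi.smul_apply, hu e he, A_smul, smul_eq_mul]⟩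

theorem mem_HM {N : Net n} {M : Finset (Line n)} {h : Cell n → ℝ} :
    h ∈ HM N M ↔ ∃ u : RPt n, ∀ e ∉ N.dead M, h e = N.A u e := Iff.rfl

theorem HM_mono (N : Net n) {M M' : Finset (Line n)} (h : M ⊆ M') : HM N M ≤ HM N M' := by
  rintro x ⟨u, hu⟩
  exact ⟨u, fun e he => hu e fun h' => he (dead_mono N h h')⟩

/-- the vectors as a homomorphism -/
def vecHom {k : ℕ} (α : Fin k → Cell n → ℝ) : (Fin k → ℤ) →+ (Cell n → ℝ) where
  toFun j := vec α j
  map_zero' := by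
    funext e
    simp [vec]
  map_add' x y := by
    funext e
    simp only [vec, Pi.add_apply, Int.cast_add]
    rw [← Finset.sum_add_distrib]
    exact Finset.sum_congr rfl fun l _ => by ring

theorem vecHom_apply {k : ℕ} (α : Fin k → Cell n → ℝ) (j : Fin k → ℤ) (e : Cell n) :
    vecHom α j e = vec α j e := rfl

theorem exists_pos_lower {X : Type*} (s : Finset X) (f : X → ℝ) (h : ∀ x ∈ s, 0 < f x) :
    ∃ c > 0, ∀ x ∈ s, c ≤ f x := by
  rcases s.eq_empty_or_nonempty with rfl | hs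
  · exact ⟨1, one_pos, by simp⟩
  · obtain ⟨x, hx, hmin⟩ := s.exists_min_image f hs
    exact ⟨f x, h x hx, hmin⟩

/-- (a) discreteness -/
theorem disc {A B : ℝ} (hA : 0 < A) (hB : 0 < B) (N : Net n) (M : Finset (Line n))
    (G : GF (Cell n) A B) :
    ∃ c > 0, ∀ κ : Cell n → ℤ, (fun e => (κ e : ℝ)) ∉ HM N M →
      c ≤ NH (HM N M) A B (fun e => (κ e : ℝ)) := by
  obtain ⟨c₁, hc₁, hmin⟩ := exists_pos_lower
    ((Fintype.piFinset fun _ : Cell n => Finset.Icc (-4 : ℤ) 4).filter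
      fun κ => (fun e => (κ e : ℝ)) ∉ HM N M)
    (fun κ => NH (HM N M) A B (fun e => (κ e : ℝ)))
    (fun κ hκ => G.pos _ _ (mem_filter.1 hκ).2)
  refine ⟨min c₁ (min (A / 2) (B / 2)), by positivity, fun κ hκ => ?_⟩
  by_contra hcon
  push Not at hcon
  obtain ⟨h, ⟨u, hu⟩, a, b, hab, ha, hb⟩ := G.ext _ _ _ hcon
  have hc2 : min c₁ (min (A / 2) (B / 2)) ≤ A / 2 := (min_le_right _ _).trans (min_le_left _ _)
  have hc3 : min c₁ (min (A / 2) (B / 2)) ≤ B / 2 := (min_le_right _ _).trans (min_le_right _ _)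
  have ha' : ∀ e, |a e| < 1 / 2 := by
    intro e
    have h1 : |a e| ≤ ∑ e, |a e| :=
      Finset.single_le_sum (f := fun e => |a e|) (fun _ _ => abs_nonneg _) (mem_univ e)
    have h2 : A * ∑ e, |a e| < A * (1 / 2) := by linarith
    have h3 := lt_of_mul_lt_mul_left h2 hA.le
    linarith
  have hb' : ∀ e, |b e| < 1 / 2 := by
    intro e
    have h2 : B * |b e| < B * (1 / 2) := by
      have := hb e
      linarith
    exact lt_of_mul_lt_mul_left h2 hB.le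
  -- reduced integer vector
  set κ' : Cell n → ℤ := fun e => if e ∈ N.dead M then 0 else κ e + ∑ i, ⌊u (N.ln i e)⌋ with hκ'
  have hdiff : (fun e => (κ' e : ℝ)) - (fun e => (κ e : ℝ)) ∈ HM N M := by
    refine ⟨fun v => (⌊u v⌋ : ℝ), fun e he => ?_⟩
    simp only [Pi.sub_apply, hκ', he, if_false, Net.A]
    push_cast
    ring
  have heq : NH (HM N M) A B (fun e => (κ' e : ℝ)) = NH (HM N M) A B (fun e => (κ e : ℝ)) := by
    rw [← G.add_mem _ (fun e => (κ e : ℝ)) _ hdiff]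
    congr 1
    abel
  have hnot : (fun e => (κ' e : ℝ)) ∉ HM N M := by
    intro hmem
    apply hκ
    have := Submodule.sub_mem _ hmem hdiff
    simpa using this
  have hmemF : κ' ∈ (Fintype.piFinset fun _ : Cell n => Finset.Icc (-4 : ℤ) 4).filter
      fun κ => (fun e => (κ e : ℝ)) ∉ HM N M := by
    rw [mem_filter]
    refine ⟨?_, hnot⟩
    rw [Fintype.mem_piFinset]
    intro e
    rw [Finset.mem_Icc]
    by_cases he : e ∈ N.dead M
    · simp [hκ', he]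
    · have h1 : (κ e : ℝ) + N.A u e = a e + b e := by
        rw [← hu e he]
        exact hab e
      have h2 : |(κ e : ℝ) + N.A u e| < 1 := by
        rw [h1]
        have := abs_add_le (a e) (b e)
        have := ha' e
        have := hb' e
        linarith
      have h3 : (κ' e : ℝ) = (κ e : ℝ) + N.A u e - ∑ i, Int.fract (u (N.ln i e)) := by
        simp only [hκ', he, if_false, Net.A, Int.fract, Finset.sum_sub_distrib]
        push_cast
        ring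
      have h4 : 0 ≤ ∑ i, Int.fract (u (N.ln i e)) :=
        Finset.sum_nonneg fun i _ => Int.fract_nonneg _
      have h5 : ∑ i, Int.fract (u (N.ln i e)) ≤ 3 := by
        have : ∑ i : Fin 3, Int.fract (u (N.ln i e)) ≤ ∑ _i : Fin 3, (1 : ℝ) :=
          Finset.sum_le_sum fun i _ => (Int.fract_lt_one _).le
        simpa using this
      rw [abs_lt] at h2
      constructor
      · have : (-4 : ℝ) ≤ (κ' e : ℝ) := by linarith
        exact_mod_cast this
      · have : (κ' e : ℝ) ≤ 4 := by linarith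
        exact_mod_cast this
  have h6 := hmin κ' hmemF
  rw [heq] at h6
  have h7 := min_le_left c₁ (min (A / 2) (B / 2))
  linarith

theorem vec_split (N : Net n) {k : ℕ} (α : Fin k → Cell n → ℝ) (X : Fin k → RPt n)
    (κ : Fin k → Cell n → ℤ) (hα : ∀ l e, α l e = N.A (X l) e - κ l e) (j : Fin k → ℤ) :
    ∃ (Y : RPt n) (κ' : Cell n → ℤ), ∀ e, vec α j e = κ' e + N.A Y e := by
  refine ⟨fun v => ∑ l, (j l : ℝ) * X l v, fun e => -∑ l, j l * κ l e, fun e => ?_⟩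
  have h1 : N.A (fun v => ∑ l, (j l : ℝ) * X l v) e = ∑ l, (j l : ℝ) * N.A (X l) e := by
    simp only [Net.A, Finset.mul_sum]
    rw [Finset.sum_comm]
  rw [h1, vec]
  push_cast
  rw [← Finset.sum_neg_distrib, ← Finset.sum_add_distrib]
  refine Finset.sum_congr rfl fun l _ => ?_
  rw [hα]
  ring

theorem disc' {A B : ℝ} (hA : 0 < A) (hB : 0 < B) (N : Net n) (M : Finset (Line n))
    (G : GF (Cell n) A B) {k : ℕ} (α : Fin k → Cell n → ℝ) (X : Fin k → RPt n)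
    (κ : Fin k → Cell n → ℤ) (hα : ∀ l e, α l e = N.A (X l) e - κ l e) :
    ∃ c > 0, ∀ j, vecHom α j ∉ HM N M → c ≤ NH (HM N M) A B (vecHom α j) := by
  obtain ⟨c, hc, h⟩ := disc hA hB N M G
  refine ⟨c, hc, fun j hj => ?_⟩
  obtain ⟨Y, κ', hY⟩ := vec_split N α X κ hα j
  have h1 : vecHom α j = (fun e => (κ' e : ℝ)) + fun e => N.A Y e := by
    funext e
    exact hY e
  have h2 : (fun e => N.A Y e) ∈ HM N M := ⟨Y, fun e _ => rfl⟩
  rw [h1, G.add_mem _ _ _ h2]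
  refine h κ' fun h3 => hj ?_
  rw [h1]
  exact Submodule.add_mem _ h3 h2

/-- (b) dimension -/
theorem dim2 (N : Net n) (M : Finset (Line n)) {k : ℕ} (α : Fin k → Cell n → ℝ)
    (h : ∀ l : Fin 3 → Fin k, ∃ d : Fin 3 → ℤ, d ≠ 0 ∧ ∃ u : RPt n, ∀ e ∉ N.dead M,
        ∑ i, d i * α (l i) e = N.A u e) : Dim2 (vecHom α) (HM N M) := by
  intro g₁ g₂ j h1 h2
  by_contra h3
  set H := HM N M with hH
  set π := H.mkQ with hπ
  have hker : ∀ x, π x = 0 ↔ x ∈ H := fun x => by rw [hπ, Submodule.mkQ_apply, Submodule.Quotient.mk_eq_zero]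
  set f : Fin k → (Cell n → ℝ) ⧸ H := fun l => π (α l) with hf
  set W := Submodule.span ℝ (Set.range f) with hW
  have hmem : ∀ i, π (vecHom α i) ∈ W := by
    intro i
    have e1 : vecHom α i = ∑ l, (i l : ℝ) • α l := by
      funext e
      rw [vecHom_apply, vec, Finset.sum_apply]
      rfl
    rw [e1, map_sum]
    refine Submodule.sum_mem _ fun l _ => ?_
    rw [map_smul]
    exact Submodule.smul_mem _ _ (Submodule.subset_span ⟨l, rfl⟩)
  set x₁ := π (vecHom α g₁) with hx₁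
  set x₂ := π (vecHom α g₂) with hx₂
  set x₃ := π (vecHom α j) with hx₃
  have hx₁' : x₁ ∉ (⊥ : Submodule ℝ ((Cell n → ℝ) ⧸ H)) := by
    rw [Submodule.mem_bot, hx₁, hker]
    exact h1
  have hx₂' : x₂ ∉ Submodule.span ℝ {x₁} := by
    intro hc
    obtain ⟨s, hs⟩ := Submodule.mem_span_singleton.1 hc
    apply h2
    refine mem_sup_of (s := s) ?_
    rw [← hker, map_sub, map_smul, ← hx₁, ← hx₂, hs, sub_self]
  have hx₃' : x₃ ∉ Submodule.span ℝ {x₁} ⊔ Submodule.span ℝ {x₂} := by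
    intro hc
    obtain ⟨y, hy, z, hz, hyz⟩ := Submodule.mem_sup.1 hc
    obtain ⟨s, rfl⟩ := Submodule.mem_span_singleton.1 hy
    obtain ⟨t, rfl⟩ := Submodule.mem_span_singleton.1 hz
    apply h3
    refine mem_sup_of (s := t) (mem_sup_of (s := s) ?_)
    rw [← hker, map_sub, map_sub, map_smul, map_smul, ← hx₁, ← hx₂, ← hx₃, ← hyz]
    abel
  have hl1 : (⊥ : Submodule ℝ ((Cell n → ℝ) ⧸ H)) < Submodule.span ℝ {x₁} :=
    SetLike.lt_iff_le_and_exists.2 ⟨bot_le, x₁, Submodule.mem_span_singleton_self _, hx₁'⟩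
  have hl2 : Submodule.span ℝ {x₁} < Submodule.span ℝ {x₁} ⊔ Submodule.span ℝ {x₂} :=
    SetLike.lt_iff_le_and_exists.2 ⟨le_sup_left, x₂,
      Submodule.mem_sup_right (Submodule.mem_span_singleton_self _), hx₂'⟩
  have hl3 : Submodule.span ℝ {x₁} ⊔ Submodule.span ℝ {x₂} < W := by
    refine SetLike.lt_iff_le_and_exists.2 ⟨sup_le ?_ ?_, x₃, hmem _, hx₃'⟩
    · rw [Submodule.span_le]
      rintro _ rfl
      exact hmem _
    · rw [Submodule.span_le]
      rintro _ rfl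
      exact hmem _
  have hr1 := Submodule.finrank_lt_finrank_of_lt hl1
  have hr2 := Submodule.finrank_lt_finrank_of_lt hl2
  have hr3 := Submodule.finrank_lt_finrank_of_lt hl3
  have hr : 3 ≤ Module.finrank ℝ W := by omega
  obtain ⟨b, hb1, hb2, hb3⟩ := exists_linearIndependent ℝ (Set.range f)
  have hbf : b.Finite := (Set.finite_range f).subset hb1
  haveI : Fintype b := hbf.fintype
  have hcard : Module.finrank ℝ (Submodule.span ℝ b) = b.toFinset.card :=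
    finrank_span_set_eq_card hb3
  have hcard3 : Fintype.card (Fin 3) ≤ Fintype.card b := by
    rw [Fintype.card_fin, ← Set.toFinset_card, ← hcard, hb2]
    exact hr
  obtain ⟨φ⟩ := Function.Embedding.nonempty_of_card_le hcard3
  have hφ : ∀ i : Fin 3, ∃ l : Fin k, f l = (φ i : (Cell n → ℝ) ⧸ H) := fun i => hb1 (φ i).2
  choose l hl using hφ
  obtain ⟨d, hd, u, hu⟩ := h l
  have hli : LinearIndependent ℝ (fun i : Fin 3 => ((φ i : b) : (Cell n → ℝ) ⧸ H)) :=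
    hb3.comp φ φ.injective
  have hsum : ∑ i, (d i : ℝ) • ((φ i : b) : (Cell n → ℝ) ⧸ H) = 0 := by
    have e2 : ∑ i, (d i : ℝ) • ((φ i : b) : (Cell n → ℝ) ⧸ H)
        = π (∑ i, (d i : ℝ) • α (l i)) := by
      rw [map_sum]
      refine Finset.sum_congr rfl fun i _ => ?_
      rw [map_smul, ← hl i]
    rw [e2, hker]
    refine ⟨u, fun e he => ?_⟩
    rw [← hu e he, Finset.sum_apply]
    rfl
  have hz := Fintype.linearIndependent_iff.1 hli (fun i => (d i : ℝ)) hsum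
  apply hd
  funext i
  exact_mod_cast hz i

/-- the number of lines with a large sum of `|a|` -/
theorem card_large (N : Net n) (a : Cell n → ℝ) (ha : ∑ e, |a e| ≤ 40) :
    ((univ.filter fun v : Line n => 1 / 100 < ∑ e ∈ N.on v, |a e|).card : ℝ) ≤ 12000 := by
  set T := univ.filter fun v : Line n => 1 / 100 < ∑ e ∈ N.on v, |a e| with hT
  have h1 : ∑ v, ∑ e ∈ N.on v, |a e| = 3 * ∑ e, |a e| := by
    rw [sum_line_on' N (fun e => |a e|), nsmul_eq_mul]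
    norm_num
  have h2 : ∑ v ∈ T, (1 / 100 : ℝ) ≤ ∑ v ∈ T, ∑ e ∈ N.on v, |a e| :=
    Finset.sum_le_sum fun v hv => (mem_filter.1 hv).2.le
  have h3 : ∑ v ∈ T, ∑ e ∈ N.on v, |a e| ≤ ∑ v, ∑ e ∈ N.on v, |a e| :=
    Finset.sum_le_sum_of_subset_of_nonneg (filter_subset _ _)
      fun v _ _ => Finset.sum_nonneg fun e _ => abs_nonneg _
  rw [Finset.sum_const, nsmul_eq_mul] at h2
  linarith

/-- one stage: generators, their decomposition and the new lines -/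
theorem stage {B : ℝ} (hB : 0 < B) (N : Net n) (M : Finset (Line n))
    (G : GF (Cell n) (1 / 8) B) {k : ℕ} (α : Fin k → Cell n → ℝ) (c : ℝ) (hc : 0 < c)
    (hlow : ∀ j, vecHom α j ∉ HM N M → c ≤ NH (HM N M) (1 / 8) B (vecHom α j))
    (hD : Dim2 (vecHom α) (HM N M)) :
    ∃ (M' : Finset (Line n)) (g : Fin 2 → Fin k → ℤ) (y : Fin 2 → RPt n)
      (a b : Fin 2 → Cell n → ℝ),
      M ⊆ M' ∧ (M'.card : ℝ) ≤ M.card + 24000 ∧
      (∀ i, ∀ e ∉ N.dead M, vec α (g i) e + N.A (y i) e = a i e + b i e) ∧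
      (∀ i, ∑ e, |a i e| ≤ 40) ∧ (∀ i e, |b i e| ≤ 5 / B) ∧
      (∀ i, ∀ v ∉ M', ∑ e ∈ N.on v, |a i e| ≤ 1 / 100) ∧
      ∀ j, vecHom α j ∈ VN (1 / 8) B (vecHom α) (HM N M) →
        ∃ m : Fin 2 → ℤ, vecHom α (j - m 0 • g 0 - m 1 • g 1) ∈ HM N M := by
  obtain ⟨g, hg1, hg2⟩ := generators G (vecHom α) (HM N M) c hc hlow hD
  have hex : ∀ i, ∃ (y : RPt n) (a b : Cell n → ℝ),
      (∀ e ∉ N.dead M, vec α (g i) e + N.A y e = a e + b e) ∧
      (∑ e, |a e| ≤ 40) ∧ ∀ e, |b e| ≤ 5 / B := by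
    intro i
    obtain ⟨h, ⟨u, hu⟩, a, b, hab, ha, hb⟩ := G.ext _ _ _ (hg1 i)
    refine ⟨u, a, b, fun e he => ?_, by linarith, fun e => ?_⟩
    · rw [← hu e he]
      exact hab e
    · rw [le_div_iff₀ hB]
      have := hb e
      linarith
  choose y a b h1 h2 h3 using hex
  refine ⟨M ∪ ((univ.filter fun v : Line n => 1 / 100 < ∑ e ∈ N.on v, |a 0 e|) ∪
    (univ.filter fun v : Line n => 1 / 100 < ∑ e ∈ N.on v, |a 1 e|)), g, y, a, b,
    subset_union_left, ?_, h1, h2, h3, ?_, hg2⟩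
  · have e0 := card_large N (a 0) (h2 0)
    have e1 := card_large N (a 1) (h2 1)
    have e2 := card_union_le M ((univ.filter fun v : Line n => 1 / 100 < ∑ e ∈ N.on v, |a 0 e|) ∪
      (univ.filter fun v : Line n => 1 / 100 < ∑ e ∈ N.on v, |a 1 e|))
    have e3 := card_union_le (univ.filter fun v : Line n => 1 / 100 < ∑ e ∈ N.on v, |a 0 e|)
      (univ.filter fun v : Line n => 1 / 100 < ∑ e ∈ N.on v, |a 1 e|)
    have e4 := e2.trans (Nat.add_le_add_left e3 _)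
    have e5 : ((M ∪ ((univ.filter fun v : Line n => 1 / 100 < ∑ e ∈ N.on v, |a 0 e|) ∪
      (univ.filter fun v : Line n => 1 / 100 < ∑ e ∈ N.on v, |a 1 e|))).card : ℝ) ≤
      M.card + (((univ.filter fun v : Line n => 1 / 100 < ∑ e ∈ N.on v, |a 0 e|).card : ℝ) +
        ((univ.filter fun v : Line n => 1 / 100 < ∑ e ∈ N.on v, |a 1 e|).card : ℝ)) := by
      exact_mod_cast e4
    linarith
  · intro i v hv
    by_contra hcon
    push Not at hcon
    apply hv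
    rw [mem_union, mem_union, mem_filter, mem_filter]
    right
    fin_cases i
    · left
      exact ⟨mem_univ _, hcon⟩
    · right
      exact ⟨mem_univ _, hcon⟩

/-- from two consecutive stages with the same narrow part to the conclusion -/
theorem finish {B : ℝ} (hB : 0 < B) (N : Net n) (M M' : Finset (Line n)) (hMM : M ⊆ M')
    (G : GF (Cell n) (1 / 8) B) {k : ℕ} (α : Fin k → Cell n → ℝ) (c : ℝ) (hc : 0 < c)
    (hlow : ∀ j, vecHom α j ∉ HM N M' → c ≤ NH (HM N M') (1 / 8) B (vecHom α j))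
    (hD : Dim2 (vecHom α) (HM N M')) (g : Fin 2 → Fin k → ℤ) (y : Fin 2 → RPt n)
    (a b : Fin 2 → Cell n → ℝ)
    (h1 : ∀ i, ∀ e ∉ N.dead M, vec α (g i) e + N.A (y i) e = a i e + b i e)
    (h2 : ∀ i, ∑ e, |a i e| ≤ 40) (h3 : ∀ i e, |b i e| ≤ 5 / B)
    (h4 : ∀ i, ∀ v ∉ M', ∑ e ∈ N.on v, |a i e| ≤ 1 / 100)
    (h5 : ∀ j, vecHom α j ∈ VN (1 / 8) B (vecHom α) (HM N M) →
        ∃ m : Fin 2 → ℤ, vecHom α (j - m 0 • g 0 - m 1 • g 1) ∈ HM N M)
    (h6 : ∀ j, vecHom α j ∈ VN (1 / 8) B (vecHom α) (HM N M') →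
      vecHom α j ∈ VN (1 / 8) B (vecHom α) (HM N M)) :
      ∃ (𝒩 : AddSubgroup (Fin k → ℤ)) (g : Fin 2 → Fin k → ℤ) (y : Fin 2 → RPt n)
        (a b : Fin 2 → Cell n → ℝ),
        (∀ i, ∀ e ∉ N.dead M', vec α (g i) e + N.A (y i) e = a i e + b i e) ∧
        (∀ i, ∑ e ∈ (N.dead M')ᶜ, |a i e| ≤ 40) ∧
        (∀ i e, |b i e| ≤ 5 / B) ∧
        (∀ i, ∀ v ∉ M', ∑ e ∈ N.on v, |a i e| ≤ 1 / 100) ∧
        (∀ j ∈ 𝒩, ∃ (m : Fin 2 → ℤ) (u : RPt n), ∀ e ∉ N.dead M',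
          vec α j e - m 0 * vec α (g 0) e - m 1 * vec α (g 1) e = N.A u e) ∧
        ∀ ℓ : (Fin k → ℤ) →+ ℝ, (∀ j ∈ 𝒩, ∃ m : ℤ, ℓ j = m) →
          ∃ w : Cell n → ℝ, (∀ v, ∑ e ∈ N.on v, w e = 0) ∧ (∀ e ∈ N.dead M', w e = 0) ∧
            (∀ e, |w e| ≤ 1 / 8) ∧ ∑ e, |w e| ≤ B ∧
            ∀ j, ∃ m : ℤ, ∑ e, w e * vec α j e = ℓ j + m := by
  refine ⟨(VN (1 / 8) B (vecHom α) (HM N M')).toAddSubgroup.comap (vecHom α), g, y, a, b,
    fun i e he => h1 i e fun h => he (dead_mono N hMM h), fun i => ?_, h3, h4, ?_, ?_⟩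
  · exact (Finset.sum_le_univ_sum_of_nonneg fun e => abs_nonneg _).trans (h2 i)
  · intro j hj
    have hj' : vecHom α j ∈ VN (1 / 8) B (vecHom α) (HM N M') := hj
    obtain ⟨m, u, hu⟩ := h5 j (h6 j hj')
    refine ⟨m, u, fun e he => ?_⟩
    rw [← hu e fun h => he (dead_mono N hMM h)]
    rw [map_sub, map_sub, map_zsmul, map_zsmul, Pi.sub_apply, Pi.sub_apply, Pi.smul_apply,
      Pi.smul_apply, zsmul_eq_mul, zsmul_eq_mul, vecHom_apply, vecHom_apply, vecHom_apply]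
  · intro ℓ hℓ
    obtain ⟨w, hw1, hw2, hw3, hw4⟩ := functionals G (by norm_num) hB (vecHom α) (HM N M') c hc
      hlow hD ℓ (fun j hj => hℓ j hj)
    refine ⟨w, fun v => ?_, fun e he => ?_, hw2, hw3, hw4⟩
    · have h := hw1 (fun e => N.A (Pi.single v 1) e) ⟨Pi.single v 1, fun e _ => rfl⟩
      rw [sum_mul_A, Finset.sum_eq_single v] at h
      · simpa using h
      · intro v' _ hv'
        rw [Pi.single_eq_of_ne hv', zero_mul]
      · intro h'
        exact absurd (mem_univ v) h'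
    · have h := hw1 (Pi.single e 1) ⟨0, fun e' he' => by
        rw [A_zero, Pi.single_eq_of_ne]
        rintro rfl
        exact he' he⟩
      rw [Finset.sum_eq_single e] at h
      · simpa using h
      · intro e' _ he'
        rw [Pi.single_eq_of_ne he', mul_zero]
      · intro h'
        exact absurd (mem_univ e) h'

theorem eventually_large : ∀ᶠ n : ℕ in atTop, (72000 : ℝ) ≤ (n : ℝ) ^ (0.6 : ℝ) := by
  have h : Tendsto (fun n : ℕ => (n : ℝ) ^ (0.6 : ℝ)) atTop atTop :=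
    (tendsto_rpow_atTop (by norm_num)).comp tendsto_natCast_atTop_atTop
  exact h.eventually_ge_atTop _

/-- Module St. -/
theorem struct (hG : GaugeStatement) : StructStatement := by
  unfold StructStatement
  filter_upwards [eventually_large, eventually_ge_atTop 1] with n hn hn1
  intro N k α X κ hα M₁ hrange
  have hnpos : (0 : ℝ) < n := by exact_mod_cast hn1
  set B : ℝ := (n : ℝ) ^ (1.4 : ℝ) with hBdef
  have hB : 0 < B := Real.rpow_pos_of_pos hnpos _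
  have hBinv : 5 / B = 5 * (n : ℝ) ^ (-1.4 : ℝ) := by
    rw [hBdef, Real.rpow_neg hnpos.le, div_eq_mul_inv]
  have G : GF (Cell n) (1 / 8) B := GF.of hG (Cell n) (by norm_num) hB
  have hdisc : ∀ M : Finset (Line n), ∃ c > 0, ∀ j, vecHom α j ∉ HM N M →
      c ≤ NH (HM N M) (1 / 8) B (vecHom α j) := fun M => disc' (by norm_num) hB N M G α X κ hα
  have hdim : ∀ M : Finset (Line n), M₁ ⊆ M → (M.card : ℝ) ≤ M₁.card + (n : ℝ) ^ (0.6 : ℝ) →
      Dim2 (vecHom α) (HM N M) := fun M h1 h2 => dim2 N M α (hrange M h1 h2)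
  obtain ⟨c₁, hc₁, hl₁⟩ := hdisc M₁
  have hD₁ := hdim M₁ subset_rfl (by linarith)
  obtain ⟨M₂, g₁, y₁, a₁, b₁, hM₂, hcard₂, r₁, s₁, t₁, p₁, q₁⟩ := stage hB N M₁ G α c₁ hc₁ hl₁ hD₁
  obtain ⟨c₂, hc₂, hl₂⟩ := hdisc M₂
  have hD₂ := hdim M₂ hM₂ (by linarith)
  obtain ⟨M₃, g₂, y₂, a₂, b₂, hM₃, hcard₃, r₂, s₂, t₂, p₂, q₂⟩ := stage hB N M₂ G α c₂ hc₂ hl₂ hD₂
  obtain ⟨c₃, hc₃, hl₃⟩ := hdisc M₃
  have hD₃ := hdim M₃ (hM₂.trans hM₃) (by linarith)
  obtain ⟨M₄, g₃, y₃, a₃, b₃, hM₄, hcard₄, r₃, s₃, t₃, p₃, q₃⟩ := stage hB N M₃ G α c₃ hc₃ hl₃ hD₃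
  obtain ⟨c₄, hc₄, hl₄⟩ := hdisc M₄
  have hD₄ := hdim M₄ ((hM₂.trans hM₃).trans hM₄) (by linarith)
  rw [← hBinv]
  by_cases e₁ : ∀ j, vecHom α j ∈ VN (1 / 8) B (vecHom α) (HM N M₂) →
      vecHom α j ∈ VN (1 / 8) B (vecHom α) (HM N M₁)
  · exact ⟨M₂, hM₂, by linarith, finish hB N M₁ M₂ hM₂ G α c₂ hc₂ hl₂ hD₂ g₁ y₁ a₁ b₁ r₁ s₁ t₁ p₁
      q₁ e₁⟩
  by_cases e₂ : ∀ j, vecHom α j ∈ VN (1 / 8) B (vecHom α) (HM N M₃) →
      vecHom α j ∈ VN (1 / 8) B (vecHom α) (HM N M₂)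
  · exact ⟨M₃, hM₂.trans hM₃, by linarith, finish hB N M₂ M₃ hM₃ G α c₃ hc₃ hl₃ hD₃ g₂ y₂ a₂ b₂ r₂
      s₂ t₂ p₂ q₂ e₂⟩
  by_cases e₃ : ∀ j, vecHom α j ∈ VN (1 / 8) B (vecHom α) (HM N M₄) →
      vecHom α j ∈ VN (1 / 8) B (vecHom α) (HM N M₃)
  · exact ⟨M₄, (hM₂.trans hM₃).trans hM₄, by linarith, finish hB N M₃ M₄ hM₄ G α c₄ hc₄ hl₄ hD₄ g₃
      y₃ a₃ b₃ r₃ s₃ t₃ p₃ q₃ e₃⟩
  exfalso
  push Not at e₁ e₂ e₃
  obtain ⟨j₁, h11, h12⟩ := e₁
  obtain ⟨j₂, h21, h22⟩ := e₂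
  obtain ⟨j₃, h31, h32⟩ := e₃
  have hV12 : VN (1 / 8) B (vecHom α) (HM N M₁) ≤ VN (1 / 8) B (vecHom α) (HM N M₂) :=
    VN_mono G (HM_mono N hM₂)
  have hV23 : VN (1 / 8) B (vecHom α) (HM N M₂) ≤ VN (1 / 8) B (vecHom α) (HM N M₃) :=
    VN_mono G (HM_mono N hM₃)
  have k1 : vecHom α j₁ ∉ HM N M₁ := fun h => h12 (le_VN h)
  have l1 : HM N M₁ ⊔ Submodule.span ℝ {vecHom α j₁} ≤ VN (1 / 8) B (vecHom α) (HM N M₂) := by
    refine sup_le (le_VN.trans hV12) (Submodule.span_le.2 ?_)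
    rintro _ rfl
    exact h11
  have k2 : vecHom α j₂ ∉ HM N M₁ ⊔ Submodule.span ℝ {vecHom α j₁} := fun h => h22 (l1 h)
  have l2 : HM N M₁ ⊔ Submodule.span ℝ {vecHom α j₁} ⊔ Submodule.span ℝ {vecHom α j₂} ≤
      VN (1 / 8) B (vecHom α) (HM N M₃) := by
    refine sup_le (l1.trans hV23) (Submodule.span_le.2 ?_)
    rintro _ rfl
    exact h21
  exact h32 (l2 (hD₁ j₁ j₂ j₃ k1 k2))

end

end StA

/-- Module St. -/
theorem struct (hG : GaugeStatement) : StructStatement := StA.struct hG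

end Pool.Agent.Lib.MP_185394_co.Up
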