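import Pool.Agent.Lib.MP_185394_co.Up.Interfaces

/-! Assembly of the tilt. -/

namespace Pool.Agent.Lib.MP_185394_co.Up

open Finset Filter

noncomputable section

variable {n q : ℕ} [NeZero q]

lemma rpow_le_rpow_of_exp {n : ℕ} (hn : 1 ≤ n) {a b : ℝ} (h : a ≤ b) :
    (n : ℝ) ^ a ≤ (n : ℝ) ^ b :=
  Real.rpow_le_rpow_of_exponent_le (by exact_mod_cast hn) h

/-- for `a < b`, `C n ^ a ≤ n ^ b` eventually -/
lemma eventually_mul_rpow_le (C : ℝ) {a b : ℝ} (h : a < b) :
    ∀ᶠ n : ℕ in atTop, C * (n : ℝ) ^ a ≤ (n : ℝ) ^ b := by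
  have h1 : Tendsto (fun n : ℕ => (n : ℝ) ^ (b - a)) atTop atTop :=
    (tendsto_rpow_atTop (by linarith)).comp tendsto_natCast_atTop_atTop
  filter_upwards [h1.eventually_ge_atTop C, eventually_ge_atTop 1] with n hn h1n
  have hpos : (0 : ℝ) < n := by exact_mod_cast h1n
  calc C * (n : ℝ) ^ a ≤ (n : ℝ) ^ (b - a) * (n : ℝ) ^ a :=
        mul_le_mul_of_nonneg_right hn (Real.rpow_nonneg hpos.le _)
    _ = (n : ℝ) ^ b := by rw [← Real.rpow_add hpos]; congr 1; ring

/-- the integer matrix of a point: `A (lift x) e - lift (y e)` is an integer -/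
lemma exists_int_matrix (N : Net n) (x : Pt n q) (e : Cell n) :
    ∃ m : ℤ, N.A (fun v => lift (x v)) e - lift (N.y x e) = m := by
  obtain ⟨m, hm⟩ := lift_sum univ (fun i => x (N.ln i e))
  refine ⟨-m, ?_⟩
  unfold Net.A Net.y
  rw [hm]; push_cast; ring

lemma sum_lines {M : Type*} [AddCommMonoid M] (f : Line n → M) :
    ∑ v : Line n, f v = ∑ i : Fin 3, ∑ w : Fin n, f (i, w) := Fintype.sum_prod_type f

lemma vec_sub' {k : ℕ} (α : Fin k → Cell n → ℝ) (X : Fin k → RPt n) (κ : Fin k → Cell n → ℤ)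
    (N : Net n) (h : ∀ l e, α l e = N.A (X l) e - κ l e) (j : Fin k → ℤ) (e : Cell n) :
    vec α j e = N.A (∑ l, (j l : ℝ) • X l) e - ((∑ l, j l * κ l e : ℤ) : ℝ) := by
  unfold vec
  simp only [h]
  have : N.A (∑ l, (j l : ℝ) • X l) e = ∑ l, (j l : ℝ) * N.A (X l) e := by
    unfold Net.A
    simp only [Finset.sum_apply, Pi.smul_apply, smul_eq_mul]
    rw [Finset.sum_comm]
    exact Finset.sum_congr rfl fun l _ => by rw [Finset.mul_sum]
  rw [this]
  push_cast
  rw [← Finset.sum_sub_distrib]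
  exact Finset.sum_congr rfl fun l _ => by ring

theorem tilt (hW : WitnessStatement) (hS : StructStatement) (hN : NarrowStatement) :
    TiltStatement := by
  intro K
  filter_upwards [hW K, hS, hN, eventually_mul_rpow_le 2 (show (0.711 : ℝ) < 0.714 by norm_num),
    eventually_mul_rpow_le 2 (show (1.432 : ℝ) < 1.435 by norm_num),
    eventually_mul_rpow_le 1 (show (0.714 : ℝ) < 0.72 by norm_num), eventually_ge_atTop 1]
    with n hW hS hN hn1 hn2 hn3 hn0
  intro q _ hq N
  obtain ⟨k, xs, M₁, hwit⟩ := hW q hq N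
  -- data
  set α : Fin k → Cell n → ℝ := fun l e => lift (N.y (xs l) e) with hα
  set X : Fin k → RPt n := fun l v => lift (xs l v) with hX
  have hκ : ∀ l e, ∃ m : ℤ, N.A (X l) e - lift (N.y (xs l) e) = m :=
    fun l e => exists_int_matrix N (xs l) e
  choose κ hκ using hκ
  have hαX : ∀ l e, α l e = N.A (X l) e - κ l e := fun l e => by
    have := hκ l e
    simp only [hα]; linarith
  obtain ⟨M, hM1, hMc, 𝒩, g, y, a, b, hab, ha, hb, hline, hgen, hwide⟩ :=
    hS N k α X κ hαX M₁ hwit.rank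
  -- the cardinality of `M`
  have h06 : (n : ℝ) ^ (0.6 : ℝ) ≤ (n : ℝ) ^ (0.711 : ℝ) := rpow_le_rpow_of_exp hn0 (by norm_num)
  have hMc' : (M.card : ℝ) ≤ (n : ℝ) ^ (0.714 : ℝ) := by
    have := hwit.cardM
    linarith
  -- the narrow density
  set Y : Fin 2 → RPt n := fun i => ∑ l, (g i l : ℝ) • X l + y i with hY
  set κ₂ : Fin 2 → Cell n → ℤ := fun i e => ∑ l, g i l * κ l e with hκ₂
  have hYab : ∀ i, ∀ e ∉ N.dead M, N.A (Y i) e - κ₂ i e = a i e + b i e := by
    intro i e he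
    rw [← hab i e he, vec_sub' α X κ N hαX]
    simp only [hY, hκ₂]
    rw [A_add]
    ring
  obtain ⟨p, hp1, hp2, hp3, hp4, hp5, hp6⟩ := hN N M hMc' Y κ₂ a b hYab ha hb hline
  -- the wide functional
  set L₀ : (Fin k → ℤ) →+ ℝ :=
    { toFun := fun j => ∑ e, p e * ((∑ l, j l * κ l e : ℤ) : ℝ)
      map_zero' := by simp
      map_add' := by
        intro j j'
        rw [← Finset.sum_add_distrib]
        refine Finset.sum_congr rfl fun e _ => ?_
        rw [← mul_add, ← Int.cast_add, ← Finset.sum_add_distrib]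
        congr 2
        exact Finset.sum_congr rfl fun l _ => by simp [add_mul] } with hL₀
  have hL₀' : ∀ j, L₀ j = ∑ e, p e * ((∑ l, j l * κ l e : ℤ) : ℝ) := fun j => rfl
  have hint : ∀ j ∈ 𝒩, ∃ m : ℤ, L₀ j = m := by
    intro j hj
    obtain ⟨m, u, hu⟩ := hgen j hj
    obtain ⟨m₁, hm₁⟩ := hp6
      (∑ l, (j l : ℝ) • X l - (m 0 : ℝ) • ∑ l, (g 0 l : ℝ) • X l
        - (m 1 : ℝ) • ∑ l, (g 1 l : ℝ) • X l - u)
      (fun e => (∑ l, j l * κ l e) - m 0 * κ₂ 0 e - m 1 * κ₂ 1 e) (by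
        intro e he
        have h1 := hu e he
        rw [vec_sub' α X κ N hαX, vec_sub' α X κ N hαX, vec_sub' α X κ N hαX] at h1
        simp only [A_sub, A_smul]
        simp only [hκ₂]
        push_cast at h1 ⊢
        linarith)
    obtain ⟨m₂, hm₂⟩ := hp5 0
    obtain ⟨m₃, hm₃⟩ := hp5 1
    refine ⟨m₁ + m 0 * m₂ + m 1 * m₃, ?_⟩
    rw [hL₀']
    push_cast at hm₁ ⊢
    rw [← hm₁, ← hm₂, ← hm₃, Finset.mul_sum, Finset.mul_sum, ← Finset.sum_add_distrib,
      ← Finset.sum_add_distrib]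
    refine Finset.sum_congr rfl fun e _ => ?_
    ring
  obtain ⟨w, hw1, hw2, hw3, hw4, hw5⟩ := hwide L₀ hint
  refine ⟨M, fun e => p e + w e, ?_, ?_, ?_, ?_, ?_, ?_⟩
  · intro v
    rw [Finset.sum_add_distrib, hp1, hw1, add_zero]
  · intro e he
    rw [hp2 e he, hw2 e he, add_zero]
  · intro e he
    have h1 := hp3 e he
    have h2 := abs_le.mp (hw3 e)
    constructor <;> linarith [h1.1, h1.2, h2.1, h2.2]
  · linarith
  · calc ∑ e, |1 / 2 - (p e + w e)| ≤ ∑ e, (|1 / 2 - p e| + |w e|) := by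
          refine Finset.sum_le_sum fun e _ => ?_
          have : 1 / 2 - (p e + w e) = (1 / 2 - p e) + (-w e) := by ring
          rw [this]
          refine (abs_add_le _ _).trans ?_
          rw [abs_neg]
      _ = ∑ e, |1 / 2 - p e| + ∑ e, |w e| := Finset.sum_add_distrib
      _ ≤ (n : ℝ) ^ (1.432 : ℝ) + (n : ℝ) ^ (1.4 : ℝ) := add_le_add hp4 hw4
      _ ≤ (n : ℝ) ^ (1.432 : ℝ) + (n : ℝ) ^ (1.432 : ℝ) :=
          add_le_add le_rfl (rpow_le_rpow_of_exp hn0 (by norm_num))
      _ ≤ (n : ℝ) ^ (1.435 : ℝ) := by linarith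
  · intro x hx
    obtain ⟨ε, t, u, ht, hlift, hrep⟩ := hwit.repr M hM1 hMc x hx
    refine ⟨fun e he => (hrep e he).2, ?_⟩
    set P : Cell n → ℝ := fun e => p e + w e with hP
    have hPline : ∀ v, ∑ e ∈ N.on v, P e = ((2 * (n / 4) : ℕ) : ℝ) := by
      intro v
      simp only [hP]
      rw [Finset.sum_add_distrib, hp1, hw1, add_zero]
    have hPdead : ∀ e ∈ N.dead M, P e = 0 := by
      intro e he
      simp only [hP]
      rw [hp2 e he, hw2 e he, add_zero]
    -- phases at the generators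
    have hgenP : ∀ l, ∃ m : ℤ, ∑ e, P e * κ l e = m := by
      intro l
      obtain ⟨m, hm⟩ := hw5 (Pi.single l 1)
      refine ⟨-m, ?_⟩
      have h1 : ∀ e, vec α (Pi.single l 1) e = α l e := by
        intro e
        unfold vec
        rw [Finset.sum_eq_single l]
        · simp
        · intro b _ hb; simp [hb]
        · intro h; exact absurd (mem_univ _) h
      have h2 : L₀ (Pi.single l 1) = ∑ e, p e * κ l e := by
        rw [hL₀']
        refine Finset.sum_congr rfl fun e _ => ?_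
        congr 2
        rw [Finset.sum_eq_single l]
        · simp
        · intro b _ hb; simp [hb]
        · intro h; exact absurd (mem_univ _) h
      simp only [h1, h2] at hm
      have h3 : ∑ e, w e * N.A (X l) e = 0 := by
        rw [sum_mul_A]
        refine Finset.sum_eq_zero fun v _ => ?_
        rw [hw1, mul_zero]
      have h4 : ∑ e, w e * κ l e = - ∑ e, w e * α l e := by
        have : ∑ e, w e * κ l e = ∑ e, w e * N.A (X l) e - ∑ e, w e * α l e := by
          rw [← Finset.sum_sub_distrib]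
          refine Finset.sum_congr rfl fun e _ => ?_
          rw [hαX]; ring
        rw [this, h3, zero_sub]
      simp only [hP, add_mul, Finset.sum_add_distrib]
      rw [h4, hm]
      push_cast; ring
    choose mg hmg using hgenP
    choose mv hmv using hlift
    -- compute
    have hsum : ∑ v, lift (x v) = ∑ l, ε l * ∑ v, X l v + ∑ v, u v + ((∑ v, mv v : ℤ) : ℝ) := by
      have h1 : ∀ v, lift (x v) = ∑ l, ε l * X l v + t v.1 + u v + mv v := fun v => hmv v
      have h2 : ∑ v : Line n, t v.1 = 0 := by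
        rw [sum_lines]
        simp only [Finset.sum_const, Finset.card_univ, Fintype.card_fin, nsmul_eq_mul]
        rw [Fin.sum_univ_three]
        have : (n : ℝ) * t 0 + n * t 1 + n * t 2 = n * (t 0 + t 1 + t 2) := by ring
        rw [this, ht, mul_zero]
      simp only [h1, Finset.sum_add_distrib, h2]
      rw [Finset.sum_comm]
      simp only [Finset.mul_sum]
      push_cast
      ring
    have hPA : ∀ u' : RPt n, ∑ e, P e * N.A u' e = ((2 * (n / 4) : ℕ) : ℝ) * ∑ v, u' v := by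
      intro u'
      rw [sum_mul_A, Finset.mul_sum]
      refine Finset.sum_congr rfl fun v _ => ?_
      rw [hPline, mul_comm]
    have hPx : ∑ e, P e * lift (N.y x e) =
        ∑ l, ε l * ∑ e, P e * α l e + ∑ e, P e * N.A u e := by
      have : ∀ e, P e * lift (N.y x e) = ∑ l, ε l * (P e * α l e) + P e * N.A u e := by
        intro e
        by_cases he : e ∈ N.dead M
        · simp [hPdead e he]
        · rw [(hrep e he).1, mul_add, Finset.mul_sum]
          congr 1
          exact Finset.sum_congr rfl fun l _ => by simp only [hα]; ring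
      simp only [this, Finset.sum_add_distrib]
      rw [Finset.sum_comm]
      simp only [Finset.mul_sum]
    have hPα : ∀ l, ∑ e, P e * α l e = ((2 * (n / 4) : ℕ) : ℝ) * ∑ v, X l v - mg l := by
      intro l
      rw [← hPA, ← hmg l, ← Finset.sum_sub_distrib]
      refine Finset.sum_congr rfl fun e _ => ?_
      rw [hαX]; ring
    refine ⟨((2 * (n / 4) : ℕ) : ℤ) * (∑ v, mv v) + ∑ l, ε l * mg l, ?_⟩
    show ((2 * (n / 4) : ℕ) : ℝ) * ∑ v, lift (x v) - ∑ e, P e * lift (N.y x e) = _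
    rw [hsum, hPx, hPA u]
    simp only [hPα]
    have h5 : ∑ l, (ε l : ℝ) * (((2 * (n / 4) : ℕ) : ℝ) * ∑ v, X l v - mg l) =
        ((2 * (n / 4) : ℕ) : ℝ) * ∑ l, ε l * ∑ v, X l v - ∑ l, (ε l : ℝ) * mg l := by
      rw [Finset.mul_sum, ← Finset.sum_sub_distrib]
      exact Finset.sum_congr rfl fun l _ => by ring
    rw [h5]
    have h6 : ((((2 * (n / 4) : ℕ) : ℤ) * (∑ v, mv v) + ∑ l, ε l * mg l : ℤ) : ℝ) =
        ((2 * (n / 4) : ℕ) : ℝ) * ((∑ v, mv v : ℤ) : ℝ) + ∑ l, (ε l : ℝ) * mg l := by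
      rw [Int.cast_add, Int.cast_mul, Int.cast_natCast, Int.cast_sum (s := univ)
        (f := fun l => ε l * mg l)]
      simp only [Int.cast_mul]
    rw [h6]
    generalize ((2 * (n / 4) : ℕ) : ℝ) = C
    generalize ((∑ v, mv v : ℤ) : ℝ) = S₁
    generalize ∑ l, (ε l : ℝ) * mg l = S₂
    generalize ∑ l, (ε l : ℝ) * ∑ v, X l v = S₃
    generalize ∑ v, u v = S₄
    ring

end

end Pool.Agent.Lib.MP_185394_co.Up
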