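import Pool.Agent.Lib.MP_185394_co.Up.Interfaces
import Pool.Agent.Lib.MP_185394_co.Up.Asymp

/-! Assembly of the upper bound (module U). -/

namespace Pool.Agent.Lib.MP_185394_co.Up

open Finset Filter

open scoped Classical

noncomputable section

variable {n q : ℕ} [NeZero q]

lemma sum_le_of_cover {α ι : Type*} [Fintype α] (s : Finset α) (I : Finset ι)
    (t : ι → Finset α) (f : α → ℝ) (hf : ∀ x, 0 ≤ f x) (h : ∀ x ∈ s, ∃ i ∈ I, x ∈ t i) :
    ∑ x ∈ s, f x ≤ ∑ i ∈ I, ∑ x ∈ t i, f x := by
  have h1 : ∀ i, ∑ x ∈ t i, f x = ∑ x, if x ∈ t i then f x else 0 := fun i => by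
    rw [Finset.sum_ite_mem, Finset.univ_inter]
  have h2 : ∑ x ∈ s, f x = ∑ x, if x ∈ s then f x else 0 := by
    rw [Finset.sum_ite_mem, Finset.univ_inter]
  rw [h2]
  simp only [h1]
  rw [Finset.sum_comm]
  refine Finset.sum_le_sum fun x _ => ?_
  by_cases hx : x ∈ s
  · obtain ⟨i, hi, hxi⟩ := h x hx
    rw [if_pos hx]
    have h3 : (if x ∈ t i then f x else 0) ≤ ∑ i ∈ I, if x ∈ t i then f x else 0 :=
      Finset.single_le_sum (f := fun i => if x ∈ t i then f x else 0)
        (fun j _ => by split_ifs; exact hf x; exact le_rfl) hi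
    rwa [if_pos hxi] at h3
  · rw [if_neg hx]
    exact Finset.sum_nonneg fun i _ => by split_ifs; exact hf x; exact le_rfl

lemma cut_empty (N : Net n) (β : Cell n → ℝ) : N.cut ∅ β = β := by
  funext e
  simp [Net.cut]

lemma cut_nonneg (N : Net n) (V : Finset (Line n)) {β : Cell n → ℝ} (hβ : ∀ e, 0 ≤ β e)
    (e : Cell n) : 0 ≤ N.cut V β e := by
  unfold Net.cut
  split_ifs
  · exact le_rfl
  · exact hβ e

lemma cut_le (N : Net n) (V : Finset (Line n)) {β : Cell n → ℝ} (hβ : ∀ e, 0 ≤ β e)
    (e : Cell n) : N.cut V β e ≤ β e := by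
  unfold Net.cut
  split_ifs
  · exact hβ e
  · exact le_rfl

/-- the heavy lines -/
def heavy (N : Net n) (β : Cell n → ℝ) (x : Pt n q) : Finset (Line n) :=
  univ.filter fun v => 1e-12 * n < N.lineEn β x v

lemma card_heavy (N : Net n) {β : Cell n → ℝ} (hβ : ∀ e, 0 ≤ β e) (x : Pt n q) :
    (heavy N β x).card * (1e-12 * n) ≤ 3 * N.en β x := by
  rw [← sum_lineEn' N β x]
  calc ((heavy N β x).card : ℝ) * (1e-12 * n) = ∑ _v ∈ heavy N β x, 1e-12 * (n : ℝ) := by
        rw [Finset.sum_const, nsmul_eq_mul]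
    _ ≤ ∑ v ∈ heavy N β x, N.lineEn β x v := by
        refine Finset.sum_le_sum fun v hv => ?_
        simp only [heavy, mem_filter, mem_univ, true_and] at hv
        exact hv.le
    _ ≤ ∑ v, N.lineEn β x v :=
        Finset.sum_le_sum_of_subset_of_nonneg (Finset.subset_univ _)
          fun v _ _ => lineEn_nonneg N hβ x v

/-- removing the heavy lines costs energy -/
lemma en_cut_add (N : Net n) {β : Cell n → ℝ} (hβ : ∀ e, 0 ≤ β e) (x : Pt n q)
    (V : Finset (Line n)) (c : ℝ) (h : ∀ v ∈ V, c ≤ N.lineEn β x v) :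
    N.en (N.cut V β) x + V.card * c / 3 ≤ N.en β x := by
  set f : Cell n → ℝ := fun e => β e * cst (N.y x e) with hf
  have hf0 : ∀ e, 0 ≤ f e := fun e => mul_nonneg (hβ e) (cst_nonneg _)
  have h1 : (V.card : ℝ) * c ≤ ∑ e, ∑ i, if N.ln i e ∈ V then f e else 0 := by
    rw [← sum_line_on N (fun v e => if v ∈ V then f e else 0)]
    calc (V.card : ℝ) * c = ∑ _v ∈ V, c := by rw [Finset.sum_const, nsmul_eq_mul]
      _ ≤ ∑ v ∈ V, N.lineEn β x v := Finset.sum_le_sum h
      _ = ∑ v ∈ V, ∑ e ∈ N.on v, (if v ∈ V then f e else 0) := by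
          refine Finset.sum_congr rfl fun v hv => ?_
          simp only [hv, if_true]; rfl
      _ ≤ ∑ v, ∑ e ∈ N.on v, (if v ∈ V then f e else 0) :=
          Finset.sum_le_sum_of_subset_of_nonneg (Finset.subset_univ _) fun v _ _ =>
            Finset.sum_nonneg fun e _ => by split_ifs <;> first | exact hf0 e | exact le_rfl
  have h2 : ∀ e, N.cut V β e * cst (N.y x e) + (∑ i, if N.ln i e ∈ V then f e else 0) / 3 ≤ f e := by
    intro e
    by_cases hm : ∃ i, N.ln i e ∈ V
    · have : N.cut V β e = 0 := by unfold Net.cut; rw [if_pos hm]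
      rw [this, zero_mul, zero_add]
      have h3 : ∑ i, (if N.ln i e ∈ V then f e else 0) ≤ ∑ _i : Fin 3, f e :=
        Finset.sum_le_sum fun i _ => by split_ifs; exact le_rfl; exact hf0 e
      rw [Finset.sum_const, Finset.card_univ, Fintype.card_fin, nsmul_eq_mul] at h3
      push_cast at h3
      linarith
    · have h4 : N.cut V β e = β e := by unfold Net.cut; rw [if_neg hm]
      have h5 : ∑ i, (if N.ln i e ∈ V then f e else 0) = 0 := by
        refine Finset.sum_eq_zero fun i _ => ?_
        rw [if_neg (fun hi => hm ⟨i, hi⟩)]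
      rw [h4, h5]
      simp [hf]
  have h3 : N.en (N.cut V β) x + (∑ e, ∑ i, if N.ln i e ∈ V then f e else 0) / 3 ≤ N.en β x := by
    unfold Net.en
    rw [Finset.sum_div, ← Finset.sum_add_distrib]
    exact Finset.sum_le_sum fun e _ => h2 e
  linarith

/-- sum over a translated class -/
lemma sum_class_le (N : Net n) {β : Cell n → ℝ} (r : Pt n q) (V : Finset (Line n))
    (ρ : ℝ)
    (hP : ∀ z : Pt n q, Near V ρ z →
      0.98 * N.en (N.cut V β) r + N.en (N.cut V β) z - 0.02 ≤ N.en (N.cut V β) (r + z))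
    (c : ℝ) (s : Finset (Pt n q))
    (hs : ∀ x ∈ s, Near V ρ (x - r) ∧ N.en (N.cut V β) x + c ≤ N.en β x) :
    ∑ x ∈ s, Real.exp (-N.en β x) ≤
      Real.exp (-(0.98 * N.en (N.cut V β) r) + 0.02 - c) *
        ∑ z ∈ univ.filter (fun z : Pt n q => Near V ρ z), Real.exp (-N.en (N.cut V β) z) := by
  rw [Finset.mul_sum]
  calc ∑ x ∈ s, Real.exp (-N.en β x)
      ≤ ∑ x ∈ s, Real.exp (-(0.98 * N.en (N.cut V β) r) + 0.02 - c) *
          Real.exp (-N.en (N.cut V β) (x - r)) := by
        refine Finset.sum_le_sum fun x hx => ?_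
        obtain ⟨h1, h2⟩ := hs x hx
        have h3 := hP (x - r) h1
        rw [add_sub_cancel] at h3
        rw [← Real.exp_add]
        apply Real.exp_le_exp.mpr
        linarith
    _ = ∑ z ∈ s.image (fun x => x - r), Real.exp (-(0.98 * N.en (N.cut V β) r) + 0.02 - c) *
          Real.exp (-N.en (N.cut V β) z) := by
        rw [Finset.sum_image]
        intro x _ y _ hxy
        exact sub_left_injective hxy
    _ ≤ _ := by
        refine Finset.sum_le_sum_of_subset_of_nonneg ?_ fun z _ _ => by positivity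
        intro z hz
        rw [Finset.mem_image] at hz
        obtain ⟨x, hx, rfl⟩ := hz
        simp only [mem_filter, mem_univ, true_and]
        exact (hs x hx).1

theorem upper (hC : ConcStatement) (hK : ClassStatement) (hLC : LightCloseStatement)
    (hP : PointStatement) (hX : ExtStatement) (hH : HighStatement) : UpperStatement := by
  intro K hK1
  -- numerical facts
  have hτ1 : ∀ᶠ n : ℕ in atTop, (n : ℝ) ^ (-0.5 : ℝ) ≤ K * Real.log n / √n := by
    filter_upwards [Asymp.log_ge 1, eventually_ge_atTop 1] with n hl hn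
    have hpos : (0 : ℝ) < n := by exact_mod_cast hn
    rw [Real.rpow_neg hpos.le, show (0.5 : ℝ) = 1 / 2 by norm_num, ← Real.sqrt_eq_rpow,
      ← one_div]
    apply div_le_div_of_nonneg_right _ (Real.sqrt_nonneg _)
    nlinarith
  have hτ2 : ∀ᶠ n : ℕ in atTop, 11 * (K * Real.log n / √n) ≤ (n : ℝ) ^ (-0.4 : ℝ) := by
    filter_upwards [Asymp.mul_log_pow_mul_rpow_le (11 * K) 1 (show (-0.5 : ℝ) < -0.4 by norm_num),
      eventually_ge_atTop 1] with n hl hn
    have hpos : (0 : ℝ) < n := by exact_mod_cast hn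
    refine le_trans (le_of_eq ?_) hl
    rw [Real.rpow_neg hpos.le, show (0.5 : ℝ) = 1 / 2 by norm_num, ← Real.sqrt_eq_rpow]
    ring
  have hbad : ∀ᶠ n : ℕ in atTop,
      500 * (n : ℝ) ^ 2 * Real.exp (-(2 * n * (K * Real.log n / √n) ^ 2)) * (12 * n) ≤
        1 / 4 * Real.exp (-(K * Real.log n ^ 2)) := by
    filter_upwards [Asymp.log_ge (3 + Real.log 24000), eventually_ge_atTop 1] with n hl hn
    have hpos : (0 : ℝ) < n := by exact_mod_cast hn
    have hlog : 0 ≤ Real.log n := Real.log_natCast_nonneg n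
    have h1 : 2 * (n : ℝ) * (K * Real.log n / √n) ^ 2 = 2 * K ^ 2 * Real.log n ^ 2 := by
      rw [div_pow, mul_pow, Real.sq_sqrt hpos.le]
      field_simp
    rw [h1]
    have h2 : 500 * (n : ℝ) ^ 2 * Real.exp (-(2 * K ^ 2 * Real.log n ^ 2)) * (12 * n) =
        1 / 4 * (24000 * (n : ℝ) ^ 3 * Real.exp (-(2 * K ^ 2 * Real.log n ^ 2))) := by ring
    rw [h2]
    apply mul_le_mul_of_nonneg_left _ (by norm_num)
    have h3 : (24000 : ℝ) = Real.exp (Real.log 24000) := by rw [Real.exp_log]; norm_num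
    rw [Asymp.pow_eq_exp hn, h3, ← Real.exp_add, ← Real.exp_add]
    apply Real.exp_le_exp.mpr
    have h4 : 0 ≤ Real.log 24000 := Real.log_nonneg (by norm_num)
    have h5 : (3 + Real.log 24000) * 1 ≤ Real.log n * Real.log n := by
      nlinarith
    have h6 : 3 * Real.log n + Real.log 24000 ≤ Real.log n ^ 2 := by
      nlinarith
    have h7 : K * Real.log n ^ 2 + Real.log n ^ 2 ≤ 2 * K ^ 2 * Real.log n ^ 2 := by
      have : K + 1 ≤ 2 * K ^ 2 := by nlinarith
      nlinarith [sq_nonneg (Real.log n)]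
    push_cast
    linarith
  have hhigh : ∀ᶠ n : ℕ in atTop, Real.exp (-(n : ℝ) ^ (1.39 : ℝ)) ≤
      1 / 4 * Real.exp (-(K * Real.log n ^ 2)) := by
    filter_upwards [Asymp.mul_log_pow_le (K + 2) 2 (show (0 : ℝ) < 1.39 by norm_num),
      Asymp.log_ge 1] with n hl hn
    have h1 : (1 / 4 : ℝ) ≥ Real.exp (-2) := by
      have := Real.add_one_le_exp (2 : ℝ)
      rw [Real.exp_neg, ge_iff_le, one_div]
      apply inv_anti₀ (by norm_num)
      have h2 : Real.exp 2 = Real.exp 1 * Real.exp 1 := by rw [← Real.exp_add]; norm_num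
      have h3 := Real.exp_one_gt_d9
      rw [h2]; nlinarith
    calc Real.exp (-(n : ℝ) ^ (1.39 : ℝ)) ≤ Real.exp (-2 + -(K * Real.log n ^ 2)) := by
          apply Real.exp_le_exp.mpr
          nlinarith
      _ = Real.exp (-2) * Real.exp (-(K * Real.log n ^ 2)) := Real.exp_add _ _
      _ ≤ _ := mul_le_mul_of_nonneg_right h1 (Real.exp_nonneg _)
  have hlow : ∀ᶠ n : ℕ in atTop, 2 * (n : ℝ) * Real.exp (-(0.98 * (3 * K * Real.log n ^ 2)) + 0.02) ≤
      1 / 4 * Real.exp (-(K * Real.log n ^ 2)) := by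
    filter_upwards [Asymp.log_ge 4, eventually_ge_atTop 1] with n hl hn
    have hpos : (0 : ℝ) < n := by exact_mod_cast hn
    have h1 : (2 : ℝ) * n * Real.exp (-(0.98 * (3 * K * Real.log n ^ 2)) + 0.02) =
        1 / 4 * (8 * (n : ℝ) ^ 1 * Real.exp (-(0.98 * (3 * K * Real.log n ^ 2)) + 0.02)) := by ring
    rw [h1]
    apply mul_le_mul_of_nonneg_left _ (by norm_num)
    have h3 : (8 : ℝ) ≤ Real.exp 3 := by
      have h2 : Real.exp 3 = Real.exp 1 * Real.exp 1 * Real.exp 1 := by
        rw [← Real.exp_add, ← Real.exp_add]; norm_num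
      have h3 := Real.exp_one_gt_d9
      rw [h2]; nlinarith [Real.exp_pos (1:ℝ)]
    rw [Asymp.pow_eq_exp hn]
    calc (8 : ℝ) * Real.exp ((1 : ℕ) * Real.log n) *
          Real.exp (-(0.98 * (3 * K * Real.log n ^ 2)) + 0.02)
        ≤ Real.exp 3 * Real.exp ((1 : ℕ) * Real.log n) *
          Real.exp (-(0.98 * (3 * K * Real.log n ^ 2)) + 0.02) := by gcongr
      _ = Real.exp (3 + (1 : ℕ) * Real.log n + (-(0.98 * (3 * K * Real.log n ^ 2)) + 0.02)) := by
          rw [← Real.exp_add, ← Real.exp_add]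
      _ ≤ _ := by
          apply Real.exp_le_exp.mpr
          push_cast
          have h5 : Real.log n ^ 2 ≤ K * Real.log n ^ 2 := by nlinarith [sq_nonneg (Real.log n)]
          nlinarith
  have hV : ∀ᶠ n : ℕ in atTop, 2 * (n : ℝ) * Real.exp 0.02 *
      ((1 + Real.exp (-(1e-12 * n / 3)) * (n * Real.exp (50 * n *
        (11 * (K * Real.log n / √n)) ^ 2))) ^ (3 * n) - 1) ≤
      1 / 4 * Real.exp (-(K * Real.log n ^ 2)) := by
    -- θ = exp (-η n / 3) n exp (50 n ρ^2)
    filter_upwards [Asymp.mul_log_pow_le ((10 * K + 50 * 121 * K ^ 2 + 100) * 3 * 10 ^ 12) 2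
      (show (0 : ℝ) < 1 by norm_num), Asymp.log_ge 10, eventually_ge_atTop 1] with n hl hlog10 hn
    have hpos : (0 : ℝ) < n := by exact_mod_cast hn
    have hlog : 0 ≤ Real.log n := Real.log_natCast_nonneg n
    set θ : ℝ := Real.exp (-(1e-12 * n / 3)) * (n * Real.exp (50 * n *
        (11 * (K * Real.log n / √n)) ^ 2)) with hθ
    have h1 : 50 * (n : ℝ) * (11 * (K * Real.log n / √n)) ^ 2 =
        50 * 121 * K ^ 2 * Real.log n ^ 2 := by
      rw [mul_pow, div_pow, mul_pow, Real.sq_sqrt hpos.le]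
      field_simp
      ring
    have hθle : θ ≤ Real.exp (-(K * Real.log n ^ 2) - 10 * Real.log n - 10) := by
      rw [hθ, h1]
      have h2 : (n : ℝ) = Real.exp (Real.log n) := (Real.exp_log hpos).symm
      calc Real.exp (-(1e-12 * n / 3)) * (n * Real.exp (50 * 121 * K ^ 2 * Real.log n ^ 2))
          = Real.exp (-(1e-12 * n / 3)) * (Real.exp (Real.log n) *
              Real.exp (50 * 121 * K ^ 2 * Real.log n ^ 2)) := by rw [← h2]
        _ = Real.exp (-(1e-12 * n / 3) + (Real.log n + 50 * 121 * K ^ 2 * Real.log n ^ 2)) := by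
            rw [← Real.exp_add, ← Real.exp_add]
        _ ≤ _ := by
            apply Real.exp_le_exp.mpr
            rw [Real.rpow_one] at hl
            have h3 : (10 * K + 50 * 121 * K ^ 2 + 100) * Real.log n ^ 2 ≤ 1e-12 * n / 3 := by
              have : (1e-12 : ℝ) = 1 / 10 ^ 12 := by norm_num
              rw [this]
              linarith
            have h4 : 10 * Real.log n ≤ Real.log n ^ 2 := by nlinarith
            have h5 : 0 ≤ K * Real.log n ^ 2 := by positivity
            nlinarith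
    have hθ0 : 0 ≤ θ := by positivity
    have hpow : (1 + θ) ^ (3 * n) - 1 ≤ 2 * (3 * n * θ) := by
      have h2 : (1 + θ) ^ (3 * n) ≤ Real.exp (3 * n * θ) := by
        calc (1 + θ) ^ (3 * n) ≤ (Real.exp θ) ^ (3 * n) := by
              apply pow_le_pow_left₀ (by linarith)
              linarith [Real.add_one_le_exp θ]
          _ = Real.exp (3 * n * θ) := by
              rw [← Real.exp_nat_mul]; push_cast; ring_nf
      have h3 : 3 * (n : ℝ) * θ ≤ 1 := by
        have h4 : (n : ℝ) = Real.exp (Real.log n) := (Real.exp_log hpos).symm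
        have h5 : (3 : ℝ) ≤ Real.exp 2 := by linarith [Real.add_one_le_exp (2 : ℝ)]
        calc 3 * (n : ℝ) * θ ≤ Real.exp 2 * Real.exp (Real.log n) *
              Real.exp (-(K * Real.log n ^ 2) - 10 * Real.log n - 10) := by
              rw [← h4]; gcongr
          _ = Real.exp (2 + Real.log n + (-(K * Real.log n ^ 2) - 10 * Real.log n - 10)) := by
              rw [← Real.exp_add, ← Real.exp_add]
          _ ≤ Real.exp 0 := by
              apply Real.exp_le_exp.mpr
              have : 0 ≤ K * Real.log n ^ 2 := by positivity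
              linarith
          _ = 1 := Real.exp_zero
      have h6 : Real.exp (3 * n * θ) - 1 ≤ 2 * (3 * n * θ) := by
        have h7 := Real.abs_exp_sub_one_le (x := 3 * n * θ) (by
          rw [abs_of_nonneg (by positivity)]; exact h3)
        rw [abs_of_nonneg (by positivity : (0:ℝ) ≤ 3 * n * θ)] at h7
        exact (le_abs_self _).trans h7
      linarith
    calc 2 * (n : ℝ) * Real.exp 0.02 * ((1 + θ) ^ (3 * n) - 1)
        ≤ 2 * (n : ℝ) * Real.exp 0.02 * (2 * (3 * n * θ)) := by gcongr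
      _ ≤ 2 * (n : ℝ) * Real.exp 1 * (2 * (3 * n * θ)) := by
          gcongr
          norm_num
      _ ≤ 1 / 4 * Real.exp (-(K * Real.log n ^ 2)) := by
          have h4 : (n : ℝ) = Real.exp (Real.log n) := (Real.exp_log hpos).symm
          have h5 : 2 * (n : ℝ) * Real.exp 1 * (2 * (3 * n * θ)) =
            1 / 4 * (48 * ((n : ℝ) * n) * Real.exp 1 * θ) := by ring
          rw [h5]
          apply mul_le_mul_of_nonneg_left _ (by norm_num)
          have h6 : (48 : ℝ) ≤ Real.exp 4 := by
            have h2 : Real.exp 4 = Real.exp 1 * Real.exp 1 * Real.exp 1 * Real.exp 1 := by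
              rw [← Real.exp_add, ← Real.exp_add, ← Real.exp_add]; norm_num
            have h3 := Real.exp_one_gt_d9
            have h3' : (2.7 : ℝ) ≤ Real.exp 1 := by linarith
            have h7 : (2.7 : ℝ) ^ 4 ≤ Real.exp 1 ^ 4 := pow_le_pow_left₀ (by norm_num) h3' 4
            rw [h2]
            have : Real.exp 1 * Real.exp 1 * Real.exp 1 * Real.exp 1 = Real.exp 1 ^ 4 := by ring
            rw [this]
            refine le_trans ?_ h7
            norm_num
          calc 48 * ((n : ℝ) * n) * Real.exp 1 * θ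
              ≤ Real.exp 4 * (Real.exp (Real.log n) * Real.exp (Real.log n)) * Real.exp 1 *
                Real.exp (-(K * Real.log n ^ 2) - 10 * Real.log n - 10) := by
                rw [← h4]; gcongr
            _ = Real.exp (4 + (Real.log n + Real.log n) + 1 +
                (-(K * Real.log n ^ 2) - 10 * Real.log n - 10)) := by
                rw [← Real.exp_add, ← Real.exp_add, ← Real.exp_add, ← Real.exp_add]
            _ ≤ _ := by
                apply Real.exp_le_exp.mpr
                linarith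
  filter_upwards [hK, hLC, hP, hX, hH, hτ1, hτ2, hbad, hhigh, hlow, hV,
    Asymp.mul_rpow_le (3 * 10 ^ 12) (show (0.4 : ℝ) < 0.41 by norm_num),
    Asymp.mul_rpow_le 2 (show (1.44 : ℝ) < 1.445 by norm_num),
    Asymp.mul_rpow_le 12 (show (1.44 : ℝ) < 1.45 by norm_num),
    Asymp.log_ge 1, eventually_ge_atTop 10]
    with n hK hLC hP hX hH hτ1 hτ2 hbad hhigh hlow hV hc1 hc2 hc3 hlog1 hn10
  intro q _ hq N β hβ
  have hn1 : 1 ≤ n := by omega
  have hpos : (0 : ℝ) < n := by exact_mod_cast hn1
  have hlog : 0 ≤ Real.log n := Real.log_natCast_nonneg n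
  set τ : ℝ := K * Real.log n / √n with hτ
  set ρ : ℝ := 11 * τ with hρ
  set f : Pt n q → ℝ := fun x => Real.exp (-N.en β x) with hf
  have hf0 : ∀ x, 0 ≤ f x := fun x => Real.exp_nonneg _
  set Z : ℝ := ∑ z ∈ univ.filter (fun z : Pt n q => Near ∅ ρ z), f z with hZ
  set Tot : ℝ := ∑ x : Pt n q, f x with hTot
  have hZ0 : 0 ≤ Z := Finset.sum_nonneg fun z _ => hf0 z
  have hTot0 : 0 ≤ Tot := Finset.sum_nonneg fun z _ => hf0 z
  have hτ0 : 0 ≤ τ := by positivity
  have hβ' : ∀ e, 0 ≤ β e ∧ β e ≤ 1 / 4 := fun e => ⟨hβ.nonneg e, hβ.le e⟩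
  have h1ρ : 1 / (n : ℝ) ≤ ρ := by
    have h1 : (n : ℝ) ^ (-1 : ℝ) ≤ (n : ℝ) ^ (-0.5 : ℝ) := Asymp.rpow_mono hn1 (by norm_num)
    rw [Real.rpow_neg_one] at h1
    rw [one_div]
    linarith
  have hρ2 : ρ ≤ (n : ℝ) ^ (-0.39 : ℝ) := hτ2.trans (Asymp.rpow_mono hn1 (by norm_num))
  have hτ3 : τ ≤ (n : ℝ) ^ (-0.4 : ℝ) := by linarith
  -- (C)
  have hCn := hC n q N β hn1 (by nlinarith [hq, hn10]) hβ' τ hτ0
  -- (H)
  have hHn := hH q hq N β hβ' ρ h1ρ
  -- good points
  set Bad : Finset (Pt n q) := univ.filter (fun x : Pt n q => ∃ v, n * τ ≤ |N.grad β x v|) with hBad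
  set High : Finset (Pt n q) := univ.filter (fun x : Pt n q => (n : ℝ) ^ (1.4 : ℝ) < N.en β x)
    with hHigh
  set Good : Finset (Pt n q) := univ.filter
    (fun x : Pt n q => (∀ v, |N.grad β x v| < n * τ) ∧ N.en β x ≤ (n : ℝ) ^ (1.4 : ℝ)) with hGood
  -- representatives
  have hcutsum : ∀ V : Finset (Line n), (V.card : ℝ) ≤ (n : ℝ) ^ (0.41 : ℝ) →
      ∑ e, (1 / 4 - N.cut V β e) ≤ (n : ℝ) ^ (1.445 : ℝ) := by
    intro V hVc
    have h1 : ∀ e, 1 / 4 - N.cut V β e ≤ (1 / 4 - β e) + ∑ i, if N.ln i e ∈ V then 1 / 4 else 0 := by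
      intro e
      have h0 := hβ.le e
      have h00 := hβ.nonneg e
      unfold Net.cut
      split_ifs with h
      · obtain ⟨i, hi⟩ := h
        have h3 : (if N.ln i e ∈ V then (1 / 4 : ℝ) else 0) ≤
            ∑ i, if N.ln i e ∈ V then 1 / 4 else 0 :=
          Finset.single_le_sum (f := fun i => if N.ln i e ∈ V then (1 / 4 : ℝ) else 0)
            (fun j _ => by split_ifs <;> norm_num) (mem_univ i)
        rw [if_pos hi] at h3
        linarith
      · have h3 : 0 ≤ ∑ i, if N.ln i e ∈ V then (1 / 4 : ℝ) else 0 :=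
          Finset.sum_nonneg fun j _ => by split_ifs <;> norm_num
        linarith
    have h2 : ∑ e, ∑ i, (if N.ln i e ∈ V then (1 / 4 : ℝ) else 0) = V.card * (n / 4) := by
      rw [← sum_line_on N (fun v _ => if v ∈ V then (1 / 4 : ℝ) else 0)]
      have : ∀ v : Line n, ∑ e ∈ N.on v, (if v ∈ V then (1 / 4 : ℝ) else 0) =
          if v ∈ V then (n : ℝ) / 4 else 0 := by
        intro v
        rw [Finset.sum_const, card_on, nsmul_eq_mul]
        split_ifs <;> ring
      simp only [this]
      rw [← Finset.sum_filter, Finset.sum_const, nsmul_eq_mul, Finset.filter_mem_eq_inter,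
        Finset.univ_inter]
    calc ∑ e, (1 / 4 - N.cut V β e)
        ≤ ∑ e, ((1 / 4 - β e) + ∑ i, if N.ln i e ∈ V then 1 / 4 else 0) :=
          Finset.sum_le_sum fun e _ => h1 e
      _ = ∑ e, (1 / 4 - β e) + V.card * (n / 4) := by rw [Finset.sum_add_distrib, h2]
      _ ≤ (n : ℝ) ^ (1.44 : ℝ) + (n : ℝ) ^ (0.41 : ℝ) * n := by
          refine add_le_add hβ.sum ?_
          have : 0 ≤ (V.card : ℝ) := Nat.cast_nonneg _
          nlinarith
      _ ≤ (n : ℝ) ^ (1.44 : ℝ) + (n : ℝ) ^ (1.44 : ℝ) := by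
          refine add_le_add le_rfl ?_
          have : (n : ℝ) ^ (0.41 : ℝ) * n = (n : ℝ) ^ (1.41 : ℝ) := by
            nth_rewrite 2 [← Real.rpow_one (n : ℝ)]
            rw [← Real.rpow_add hpos]; norm_num
          rw [this]
          exact Asymp.rpow_mono hn1 (by norm_num)
      _ ≤ (n : ℝ) ^ (1.445 : ℝ) := by linarith
  have hrep : ∀ V : Finset (Line n), (V.card : ℝ) ≤ (n : ℝ) ^ (0.41 : ℝ) →
      ∃ R : Finset (Pt n q), (R.card : ℝ) ≤ 2 * n ∧
      (∀ r ∈ R, N.CoordMin (N.cut V β) r ∧ N.full r ≤ (n : ℝ) ^ (1.45 : ℝ)) ∧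
      ∀ x, N.en (N.cut V β) x ≤ (n : ℝ) ^ (1.4 : ℝ) →
        ∃ r ∈ R, NT (x - r) ∧ N.en (N.cut V β) r ≤ N.en (N.cut V β) x := by
    intro V hVc
    exact hK q hq N (N.cut V β)
      (fun e => ⟨cut_nonneg N V hβ.nonneg e, (cut_le N V hβ.nonneg e).trans (hβ.le e)⟩)
      (hcutsum V hVc)
  choose! R hR1 hR2 hR3 using hrep
  -- every good point is near a representative
  have hgood : ∀ x ∈ Good, ∃ r ∈ R (heavy N β x), Near (heavy N β x) ρ (x - r) ∧
      ((heavy N β x).card : ℝ) ≤ (n : ℝ) ^ (0.41 : ℝ) := by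
    intro x hx
    simp only [hGood, mem_filter, mem_univ, true_and] at hx
    obtain ⟨hx1, hx2⟩ := hx
    have hVc : ((heavy N β x).card : ℝ) ≤ (n : ℝ) ^ (0.41 : ℝ) := by
      have h1 := card_heavy N hβ.nonneg x
      have h2 : ((heavy N β x).card : ℝ) * n ≤ 3 * 10 ^ 12 * (n : ℝ) ^ (1.4 : ℝ) := by
        have h3 : (1e-12 : ℝ) = 1 / 10 ^ 12 := by norm_num
        rw [h3] at h1
        have h4 : ((heavy N β x).card : ℝ) * (1 / 10 ^ 12 * n) =
          ((heavy N β x).card : ℝ) * n / 10 ^ 12 := by ring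
        rw [h4, div_le_iff₀ (by positivity)] at h1
        nlinarith
      have h3 : (n : ℝ) ^ (1.4 : ℝ) = (n : ℝ) ^ (0.4 : ℝ) * n := by
        nth_rewrite 3 [← Real.rpow_one (n : ℝ)]
        rw [← Real.rpow_add hpos]; norm_num
      rw [h3] at h2
      have h4 : ((heavy N β x).card : ℝ) ≤ 3 * 10 ^ 12 * (n : ℝ) ^ (0.4 : ℝ) := by
        have : ((heavy N β x).card : ℝ) * n ≤ 3 * 10 ^ 12 * (n : ℝ) ^ (0.4 : ℝ) * n := by linarith
        exact le_of_mul_le_mul_right this hpos
      linarith
    have hencut : N.en (N.cut (heavy N β x) β) x ≤ N.en β x := by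
      unfold Net.en
      exact Finset.sum_le_sum fun e _ =>
        mul_le_mul_of_nonneg_right (cut_le N _ hβ.nonneg e) (cst_nonneg _)
    obtain ⟨r, hr, hnt, _⟩ := hR3 _ hVc x (hencut.trans hx2)
    have hfullx : N.full x ≤ (n : ℝ) ^ (1.45 : ℝ) := by
      have h1 := full_le N hβ.le x
      have h2 := hβ.sum
      have h3 : (n : ℝ) ^ (1.4 : ℝ) ≤ (n : ℝ) ^ (1.44 : ℝ) := Asymp.rpow_mono hn1 (by norm_num)
      linarith
    refine ⟨r, hr, hLC q hq N β hβ _ hVc x r τ hτ1 hτ3 (hR2 _ hVc r hr).1 (hR2 _ hVc r hr).2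
      hfullx hnt ?_ (fun v => (hx1 v).le), hVc⟩
    intro v hv
    simp only [heavy, mem_filter, mem_univ, true_and, not_lt] at hv
    exact hv
  -- pointwise bound
  have hPV : ∀ (V : Finset (Line n)) (r : Pt n q), N.CoordMin (N.cut V β) r →
      ∀ z : Pt n q, Near V ρ z →
      0.98 * N.en (N.cut V β) r + N.en (N.cut V β) z - 0.02 ≤ N.en (N.cut V β) (r + z) := by
    intro V r hr z hz
    refine hP q hq N (N.cut V β)
      (fun e => ⟨cut_nonneg N V hβ.nonneg e, (cut_le N V hβ.nonneg e).trans (hβ.le e)⟩) V ?_ r z ρ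
      hρ2 hr hz
    intro e i he
    unfold Net.cut
    rw [if_pos ⟨i, he⟩]
  -- the part with heavy lines
  have hG1 : ∑ x ∈ Good.filter (fun x => heavy N β x ≠ ∅), f x ≤
      1 / 4 * Real.exp (-(K * Real.log n ^ 2)) * Z := by
    set I : Finset (Finset (Line n)) := univ.filter
      (fun V : Finset (Line n) => V ≠ ∅ ∧ (V.card : ℝ) ≤ (n : ℝ) ^ (0.41 : ℝ)) with hI
    have hcov := sum_le_of_cover (Good.filter (fun x => heavy N β x ≠ ∅)) I
      (fun V => Good.filter (fun x => heavy N β x = V)) f hf0 (by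
        intro x hx
        rw [mem_filter] at hx
        obtain ⟨_, _, _, hVc⟩ := hgood x hx.1
        refine ⟨heavy N β x, ?_, ?_⟩
        · simp only [hI, mem_filter, mem_univ, true_and]
          exact ⟨hx.2, hVc⟩
        · rw [mem_filter]; exact ⟨hx.1, rfl⟩)
    refine hcov.trans ?_
    have hone : ∀ V ∈ I, ∑ x ∈ Good.filter (fun x => heavy N β x = V), f x ≤
        (2 * n * Real.exp 0.02 * Z) * (Real.exp (-(1e-12 * n / 3)) * (n * Real.exp (50 * n *
        ρ ^ 2))) ^ V.card := by
      intro V hVI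
      simp only [hI, mem_filter, mem_univ, true_and] at hVI
      obtain ⟨hVne, hVc⟩ := hVI
      have hcov2 := sum_le_of_cover (Good.filter (fun x => heavy N β x = V)) (R V)
        (fun r => Good.filter (fun x => heavy N β x = V ∧ Near V ρ (x - r))) f hf0 (by
          intro x hx
          rw [mem_filter] at hx
          obtain ⟨r, hr, hnear, _⟩ := hgood x hx.1
          rw [hx.2] at hr hnear
          exact ⟨r, hr, by rw [mem_filter]; exact ⟨hx.1, hx.2, hnear⟩⟩)
      refine hcov2.trans ?_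
      have hone2 : ∀ r ∈ R V,
          ∑ x ∈ Good.filter (fun x => heavy N β x = V ∧ Near V ρ (x - r)), f x ≤
          Real.exp 0.02 * Z * (Real.exp (-(1e-12 * n / 3)) * (n * Real.exp (50 * n *
            ρ ^ 2))) ^ V.card := by
        intro r hr
        have hrcm := (hR2 V hVc r hr).1
        have h1 := sum_class_le N (β := β) r V ρ (hPV V r hrcm) (V.card * (1e-12 * n) / 3)
          (Good.filter (fun x => heavy N β x = V ∧ Near V ρ (x - r))) (by
            intro x hx
            rw [mem_filter] at hx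
            refine ⟨hx.2.2, en_cut_add N hβ.nonneg x V (1e-12 * n) ?_⟩
            intro v hv
            rw [← hx.2.1] at hv
            simp only [heavy, mem_filter, mem_univ, true_and] at hv
            exact hv.le)
        refine h1.trans ?_
        have h2 := hX q hq N β hβ' V ρ h1ρ hρ2
        have h3 : Real.exp (-(0.98 * N.en (N.cut V β) r) + 0.02 - V.card * (1e-12 * n) / 3) ≤
            Real.exp 0.02 * Real.exp (-(1e-12 * n / 3)) ^ V.card := by
          rw [← Real.exp_nat_mul, ← Real.exp_add]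
          apply Real.exp_le_exp.mpr
          have := en_nonneg N (cut_nonneg N V hβ.nonneg) r
          nlinarith
        calc Real.exp (-(0.98 * N.en (N.cut V β) r) + 0.02 - V.card * (1e-12 * n) / 3) *
              ∑ z ∈ univ.filter (fun z : Pt n q => Near V ρ z), Real.exp (-N.en (N.cut V β) z)
            ≤ (Real.exp 0.02 * Real.exp (-(1e-12 * n / 3)) ^ V.card) *
              (n ^ V.card * Real.exp (50 * V.card * n * ρ ^ 2) * Z) := by
              refine mul_le_mul h3 h2 (Finset.sum_nonneg fun z _ => Real.exp_nonneg _)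
                (by positivity)
          _ = _ := by
              have h4 : Real.exp (50 * V.card * n * ρ ^ 2) = Real.exp (50 * n * ρ ^ 2) ^ V.card := by
                rw [← Real.exp_nat_mul]; ring_nf
              rw [h4]
              rw [mul_pow, mul_pow]
              ring
      calc ∑ r ∈ R V, ∑ x ∈ Good.filter (fun x => heavy N β x = V ∧ Near V ρ (x - r)), f x
          ≤ ∑ _r ∈ R V, Real.exp 0.02 * Z * (Real.exp (-(1e-12 * n / 3)) * (n * Real.exp (50 * n *
            ρ ^ 2))) ^ V.card := Finset.sum_le_sum hone2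
        _ = (R V).card * (Real.exp 0.02 * Z * (Real.exp (-(1e-12 * n / 3)) *
            (n * Real.exp (50 * n * ρ ^ 2))) ^ V.card) := by
            rw [Finset.sum_const, nsmul_eq_mul]
        _ ≤ 2 * n * (Real.exp 0.02 * Z * (Real.exp (-(1e-12 * n / 3)) *
            (n * Real.exp (50 * n * ρ ^ 2))) ^ V.card) :=
            mul_le_mul_of_nonneg_right (hR1 V hVc) (by positivity)
        _ = _ := by ring
    set θ : ℝ := Real.exp (-(1e-12 * n / 3)) * (n * Real.exp (50 * n * ρ ^ 2)) with hθ
    have hθ0 : 0 ≤ θ := by positivity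
    calc ∑ V ∈ I, ∑ x ∈ Good.filter (fun x => heavy N β x = V), f x
        ≤ ∑ V ∈ I, (2 * n * Real.exp 0.02 * Z) * θ ^ V.card := Finset.sum_le_sum hone
      _ ≤ ∑ V ∈ (univ : Finset (Finset (Line n))).erase ∅,
            (2 * n * Real.exp 0.02 * Z) * θ ^ V.card := by
          refine Finset.sum_le_sum_of_subset_of_nonneg ?_ fun V _ _ => by positivity
          intro V hV
          simp only [hI, mem_filter, mem_univ, true_and] at hV
          exact Finset.mem_erase.mpr ⟨hV.1, mem_univ _⟩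
      _ = (2 * n * Real.exp 0.02 * Z) * ((1 + θ) ^ (3 * n) - 1) := by
          rw [← Finset.mul_sum]
          congr 1
          have h1 : ∑ V : Finset (Line n), θ ^ V.card = (1 + θ) ^ (3 * n) := by
            have := Finset.sum_pow_mul_eq_add_pow θ 1 (univ : Finset (Line n))
            simp only [one_pow, mul_one, Finset.card_univ, Fintype.card_prod, Fintype.card_fin]
              at this
            rw [add_comm, ← this, Finset.powerset_univ]
          rw [← h1, ← Finset.add_sum_erase univ _ (mem_univ (∅ : Finset (Line n)))]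
          simp
      _ = (2 * n * Real.exp 0.02 * ((1 + θ) ^ (3 * n) - 1)) * Z := by ring
      _ ≤ _ := by
          apply mul_le_mul_of_nonneg_right _ hZ0
          have := hV
          rw [hθ, hρ]
          exact this
  -- the part without heavy lines, one representative
  have hone0 : ∀ r ∈ R ∅, ∀ s : Finset (Pt n q),
      (∀ x ∈ s, Near ∅ ρ (x - r)) → ∑ x ∈ s, f x ≤
        Real.exp (-(0.98 * N.en β r) + 0.02) * Z := by
    intro r hr s hs
    have h0 : ((∅ : Finset (Line n)).card : ℝ) ≤ (n : ℝ) ^ (0.41 : ℝ) := by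
      simp only [Finset.card_empty, Nat.cast_zero]
      positivity
    have hrcm := (hR2 ∅ h0 r hr).1
    have h1 := sum_class_le N (β := β) r ∅ ρ (hPV ∅ r hrcm) 0 s (by
      intro x hx
      refine ⟨hs x hx, ?_⟩
      rw [cut_empty]; linarith)
    rw [cut_empty] at h1
    rw [sub_zero] at h1
    exact h1
  have h0c : ((∅ : Finset (Line n)).card : ℝ) ≤ (n : ℝ) ^ (0.41 : ℝ) := by
    simp only [Finset.card_empty, Nat.cast_zero]
    positivity
  have hG2all : ∑ x ∈ Good.filter (fun x => heavy N β x = ∅), f x ≤ 3 * n * Z := by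
    have hcov := sum_le_of_cover (Good.filter (fun x => heavy N β x = ∅)) (R ∅)
      (fun r => Good.filter (fun x => Near ∅ ρ (x - r))) f hf0 (by
        intro x hx
        rw [mem_filter] at hx
        obtain ⟨r, hr, hnear, _⟩ := hgood x hx.1
        rw [hx.2] at hr hnear
        exact ⟨r, hr, by rw [mem_filter]; exact ⟨hx.1, hnear⟩⟩)
    refine hcov.trans ?_
    calc ∑ r ∈ R ∅, ∑ x ∈ Good.filter (fun x => Near ∅ ρ (x - r)), f x
        ≤ ∑ _r ∈ R ∅, 1.5 * Z := by
          refine Finset.sum_le_sum fun r hr => ?_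
          refine (hone0 r hr _ (fun x hx => (mem_filter.mp hx).2)).trans ?_
          apply mul_le_mul_of_nonneg_right _ hZ0
          have h1 := en_nonneg N hβ.nonneg r
          calc Real.exp (-(0.98 * N.en β r) + 0.02) ≤ Real.exp (0.02 : ℝ) := by
                apply Real.exp_le_exp.mpr; linarith
            _ ≤ 1.5 := by
                have h2 : Real.exp (0.02 : ℝ) ≤ Real.exp (1 / 3 : ℝ) := by
                  apply Real.exp_le_exp.mpr; norm_num
                have h3 : Real.exp (1 / 3 : ℝ) ^ 3 = Real.exp 1 := by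
                  rw [← Real.exp_nat_mul]; norm_num
                have h4 := Real.exp_one_lt_d9
                have h5 : Real.exp (1 / 3 : ℝ) ≤ 1.5 := by
                  by_contra hcon
                  push Not at hcon
                  have : (1.5 : ℝ) ^ 3 < Real.exp (1 / 3 : ℝ) ^ 3 :=
                    pow_lt_pow_left₀ hcon (by norm_num) (by norm_num)
                  rw [h3] at this
                  norm_num at this
                  linarith
                linarith
      _ = (R ∅).card * (1.5 * Z) := by rw [Finset.sum_const, nsmul_eq_mul]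
      _ ≤ 2 * n * (1.5 * Z) := mul_le_mul_of_nonneg_right (hR1 ∅ h0c) (by positivity)
      _ = 3 * n * Z := by ring
  -- total
  have hsplit : ∀ x : Pt n q, x ∈ Bad ∨ x ∈ High ∨ x ∈ Good := by
    intro x
    by_cases h1 : ∃ v, n * τ ≤ |N.grad β x v|
    · left; simp only [hBad, mem_filter, mem_univ, true_and]; exact h1
    · push Not at h1
      rcases lt_or_ge ((n : ℝ) ^ (1.4 : ℝ)) (N.en β x) with h2 | h2
      · right; left; simp only [hHigh, mem_filter, mem_univ, true_and]; exact h2
      · right; right; simp only [hGood, mem_filter, mem_univ, true_and]; exact ⟨h1, h2⟩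
  have hexp1 : Real.exp (-(K * Real.log n ^ 2)) ≤ 1 := by
    rw [Real.exp_le_one_iff]
    have : 0 ≤ K * Real.log n ^ 2 := by positivity
    linarith
  have hHZ : ∑ x ∈ High, f x ≤ 1 / 4 * Real.exp (-(K * Real.log n ^ 2)) * Z :=
    hHn.trans (mul_le_mul_of_nonneg_right hhigh hZ0)
  set bc : ℝ := 500 * (n : ℝ) ^ 2 * Real.exp (-(2 * n * τ ^ 2)) with hbc
  have hbc0 : 0 ≤ bc := by positivity
  have hbcle : bc * (12 * n) ≤ 1 / 4 * Real.exp (-(K * Real.log n ^ 2)) := hbad
  have hTotle : Tot ≤ 12 * n * Z := by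
    have h1 : Tot ≤ ∑ x ∈ Bad, f x + ∑ x ∈ High, f x +
        (∑ x ∈ Good.filter (fun x => heavy N β x ≠ ∅), f x +
          ∑ x ∈ Good.filter (fun x => heavy N β x = ∅), f x) := by
      have hcov := sum_le_of_cover (univ : Finset (Pt n q)) (univ : Finset (Fin 4))
        (fun i => ![Bad, High, Good.filter (fun x => heavy N β x ≠ ∅),
          Good.filter (fun x => heavy N β x = ∅)] i) f hf0 (by
          intro x _
          rcases hsplit x with h | h | h
          · exact ⟨0, mem_univ _, h⟩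
          · exact ⟨1, mem_univ _, h⟩
          · by_cases hv : heavy N β x = ∅
            · exact ⟨3, mem_univ _, by
                show x ∈ Good.filter (fun x => heavy N β x = ∅)
                rw [mem_filter]; exact ⟨h, hv⟩⟩
            · exact ⟨2, mem_univ _, by
                show x ∈ Good.filter (fun x => heavy N β x ≠ ∅)
                rw [mem_filter]; exact ⟨h, hv⟩⟩)
      refine hcov.trans ?_
      rw [Fin.sum_univ_four]
      simp only [Matrix.cons_val_zero, Matrix.cons_val_one, Matrix.cons_val]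
      linarith
    have h2 : ∑ x ∈ Bad, f x ≤ 1 / 4 * Tot := by
      refine hCn.trans ?_
      apply mul_le_mul_of_nonneg_right _ hTot0
      have h3 : bc * 1 ≤ bc * (12 * n) := by
        apply mul_le_mul_of_nonneg_left _ hbc0
        have : (1 : ℝ) ≤ n := by exact_mod_cast hn1
        linarith
      linarith
    have h3 : (1 : ℝ) ≤ n := by exact_mod_cast hn1
    have h4 : 1 / 4 * Real.exp (-(K * Real.log n ^ 2)) * Z ≤ 1 / 4 * Z := by
      apply mul_le_mul_of_nonneg_right _ hZ0
      linarith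
    nlinarith
  refine ⟨?_, hTotle⟩
  -- part (a)
  set NL : Finset (Pt n q) := univ.filter (fun x : Pt n q => ¬ ∃ r : Pt n q, N.CoordMin β r ∧
        N.full r ≤ (n : ℝ) ^ (1.45 : ℝ) ∧ N.en β r ≤ 3 * K * Real.log n ^ 2 ∧
        Near ∅ ρ (x - r)) with hNL
  have hG2 : ∑ x ∈ NL.filter (fun x => x ∈ Good ∧ heavy N β x = ∅), f x ≤
      1 / 4 * Real.exp (-(K * Real.log n ^ 2)) * Z := by
    have hcov := sum_le_of_cover (NL.filter (fun x => x ∈ Good ∧ heavy N β x = ∅)) (R ∅)
      (fun r => NL.filter (fun x => Near ∅ ρ (x - r))) f hf0 (by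
        intro x hx
        rw [mem_filter] at hx
        obtain ⟨r, hr, hnear, _⟩ := hgood x hx.2.1
        rw [hx.2.2] at hr hnear
        exact ⟨r, hr, by rw [mem_filter]; exact ⟨hx.1, hnear⟩⟩)
    refine hcov.trans ?_
    calc ∑ r ∈ R ∅, ∑ x ∈ NL.filter (fun x => Near ∅ ρ (x - r)), f x
        ≤ ∑ _r ∈ R ∅, Real.exp (-(0.98 * (3 * K * Real.log n ^ 2)) + 0.02) * Z := by
          refine Finset.sum_le_sum fun r hr => ?_
          rcases le_or_gt (N.en β r) (3 * K * Real.log n ^ 2) with hlow' | hlow'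
          · -- no such points
            have : NL.filter (fun x => Near ∅ ρ (x - r)) = ∅ := by
              rw [Finset.eq_empty_iff_forall_notMem]
              intro x hx
              rw [mem_filter] at hx
              simp only [hNL, mem_filter, mem_univ, true_and] at hx
              refine hx.1 ⟨r, ?_, (hR2 ∅ h0c r hr).2, hlow', hx.2⟩
              have := (hR2 ∅ h0c r hr).1
              rwa [cut_empty] at this
            rw [this, Finset.sum_empty]
            positivity
          · refine (hone0 r hr _ (fun x hx => (mem_filter.mp hx).2)).trans ?_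
            apply mul_le_mul_of_nonneg_right _ hZ0
            apply Real.exp_le_exp.mpr
            nlinarith
      _ = (R ∅).card * (Real.exp (-(0.98 * (3 * K * Real.log n ^ 2)) + 0.02) * Z) := by
          rw [Finset.sum_const, nsmul_eq_mul]
      _ ≤ 2 * n * (Real.exp (-(0.98 * (3 * K * Real.log n ^ 2)) + 0.02) * Z) :=
          mul_le_mul_of_nonneg_right (hR1 ∅ h0c) (by positivity)
      _ = (2 * n * Real.exp (-(0.98 * (3 * K * Real.log n ^ 2)) + 0.02)) * Z := by ring
      _ ≤ _ := mul_le_mul_of_nonneg_right hlow hZ0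
  have hBadZ : ∑ x ∈ Bad, f x ≤ 1 / 4 * Real.exp (-(K * Real.log n ^ 2)) * Z := by
    calc ∑ x ∈ Bad, f x ≤ bc * Tot := hCn
      _ ≤ bc * (12 * n * Z) := mul_le_mul_of_nonneg_left hTotle hbc0
      _ = (bc * (12 * n)) * Z := by ring
      _ ≤ _ := mul_le_mul_of_nonneg_right hbcle hZ0
  have hcov := sum_le_of_cover NL (univ : Finset (Fin 4))
    (fun i => ![Bad, High, Good.filter (fun x => heavy N β x ≠ ∅),
      NL.filter (fun x => x ∈ Good ∧ heavy N β x = ∅)] i) f hf0 (by
      intro x hxNL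
      rcases hsplit x with h | h | h
      · exact ⟨0, mem_univ _, h⟩
      · exact ⟨1, mem_univ _, h⟩
      · by_cases hv : heavy N β x = ∅
        · exact ⟨3, mem_univ _, by
            show x ∈ NL.filter (fun x => x ∈ Good ∧ heavy N β x = ∅)
            rw [mem_filter]; exact ⟨hxNL, h, hv⟩⟩
        · exact ⟨2, mem_univ _, by
            show x ∈ Good.filter (fun x => heavy N β x ≠ ∅)
            rw [mem_filter]; exact ⟨h, hv⟩⟩)
  refine hcov.trans ?_
  rw [Fin.sum_univ_four]
  simp only [Matrix.cons_val_zero, Matrix.cons_val_one, Matrix.cons_val]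
  linarith

end

end Pool.Agent.Lib.MP_185394_co.Up
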