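import Pool.Agent.Lib.MP_185394_co.Up.MinRep

/-! Module W: there are at most `2n` classes of points of low energy. -/

namespace Pool.Agent.Lib.MP_185394_co.Up

open Finset Filter

noncomputable section

variable {n q : ℕ} [NeZero q]

/-- line sums of the phases of a difference -/
lemma norm_line_sum_sub_le (N : Net n) (x x' : Pt n q) (v : Line n) :
    ‖∑ e ∈ N.on v, (ph (N.y (x - x') e) - 1)‖ ≤
      2 * (∑ e ∈ N.on v, cst (N.y x e) + ∑ e ∈ N.on v, cst (N.y x' e)) +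
      |N.grad (fun _ => 1) x v| + |N.grad (fun _ => 1) x' v| := by
  have hre : ∀ t : ZMod q, ph t - 1 = ((-cst t : ℝ) : ℂ) +
      ((Real.sin (2 * Real.pi * lift t) : ℝ) : ℂ) * Complex.I := by
    intro t
    rw [← ph_im t, cst_eq t]
    apply Complex.ext <;> simp
  have hG : ∀ z : Pt n q, ‖∑ e ∈ N.on v, (ph (N.y z e) - 1)‖ ≤
      ∑ e ∈ N.on v, cst (N.y z e) + |N.grad (fun _ => 1) z v| := by
    intro z
    have h1 : ∑ e ∈ N.on v, (ph (N.y z e) - 1) =
        ((-∑ e ∈ N.on v, cst (N.y z e) : ℝ) : ℂ) +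
          ((N.grad (fun _ => 1) z v : ℝ) : ℂ) * Complex.I := by
      rw [Finset.sum_congr rfl fun e _ => hre (N.y z e), Finset.sum_add_distrib,
        ← Finset.sum_mul]
      congr 2
      · push_cast
        rw [Finset.sum_neg_distrib]
      · unfold Net.grad
        push_cast
        simp
    rw [h1]
    refine (norm_add_le _ _).trans (le_of_eq ?_)
    rw [norm_mul, Complex.norm_I, mul_one, Complex.norm_real, Complex.norm_real, Real.norm_eq_abs,
      Real.norm_eq_abs, abs_neg, abs_of_nonneg (Finset.sum_nonneg fun e _ => cst_nonneg _)]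
  have h2 : ∑ e ∈ N.on v, (ph (N.y (x - x') e) - 1) =
      ∑ e ∈ N.on v, (ph (N.y x e) - 1) +
        (starRingEnd ℂ) (∑ e ∈ N.on v, (ph (N.y x' e) - 1)) +
        ∑ e ∈ N.on v, (ph (N.y x e) - 1) * (starRingEnd ℂ) (ph (N.y x' e) - 1) := by
    rw [map_sum, ← Finset.sum_add_distrib, ← Finset.sum_add_distrib]
    refine Finset.sum_congr rfl fun e _ => ?_
    rw [y_sub, ph_sub, map_sub, map_one]
    ring
  have h3 : ‖∑ e ∈ N.on v, (ph (N.y x e) - 1) * (starRingEnd ℂ) (ph (N.y x' e) - 1)‖ ≤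
      ∑ e ∈ N.on v, cst (N.y x e) + ∑ e ∈ N.on v, cst (N.y x' e) := by
    refine (norm_sum_le _ _).trans ?_
    rw [← Finset.sum_add_distrib]
    refine Finset.sum_le_sum fun e _ => ?_
    rw [norm_mul, RCLike.norm_conj]
    have h4 := norm_ph_sub_one_sq (N.y x e)
    have h5 := norm_ph_sub_one_sq (N.y x' e)
    nlinarith [sq_nonneg (‖ph (N.y x e) - 1‖ - ‖ph (N.y x' e) - 1‖)]
  rw [h2]
  have h6 := hG x
  have h7 := hG x'
  have h8 := norm_add_le (∑ e ∈ N.on v, (ph (N.y x e) - 1) +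
        (starRingEnd ℂ) (∑ e ∈ N.on v, (ph (N.y x' e) - 1)))
    (∑ e ∈ N.on v, (ph (N.y x e) - 1) * (starRingEnd ℂ) (ph (N.y x' e) - 1))
  have h9 := norm_add_le (∑ e ∈ N.on v, (ph (N.y x e) - 1))
        ((starRingEnd ℂ) (∑ e ∈ N.on v, (ph (N.y x' e) - 1)))
  rw [RCLike.norm_conj] at h9
  linarith

/-- Welch's identity -/
lemma welch_identity {ι κ : Type*} (s : Finset ι) (t : Finset κ) (U : ι → κ → ℂ) :
    ∑ a ∈ s, ∑ b ∈ s, ‖∑ r ∈ t, U a r * (starRingEnd ℂ) (U b r)‖ ^ 2 =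
      ∑ r ∈ t, ∑ r' ∈ t, ‖∑ a ∈ s, U a r * (starRingEnd ℂ) (U a r')‖ ^ 2 := by
  have hsq : ∀ z : ℂ, ((‖z‖ ^ 2 : ℝ) : ℂ) = z * (starRingEnd ℂ) z := by
    intro z
    rw [Complex.mul_conj, Complex.normSq_eq_norm_sq]
  have key : ((∑ a ∈ s, ∑ b ∈ s, ‖∑ r ∈ t, U a r * (starRingEnd ℂ) (U b r)‖ ^ 2 : ℝ) : ℂ) =
      ((∑ r ∈ t, ∑ r' ∈ t, ‖∑ a ∈ s, U a r * (starRingEnd ℂ) (U a r')‖ ^ 2 : ℝ) : ℂ) := by
    push_cast
    have hsq' : ∀ z : ℂ, ((‖z‖ : ℝ) : ℂ) ^ 2 = z * (starRingEnd ℂ) z := by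
      intro z; rw [← hsq]; push_cast; rfl
    simp only [hsq', map_sum, map_mul, Complex.conj_conj, Finset.sum_mul_sum]
    -- both sides are the quadruple sum
    calc ∑ a ∈ s, ∑ b ∈ s, ∑ r ∈ t, ∑ r' ∈ t,
          U a r * (starRingEnd ℂ) (U b r) * ((starRingEnd ℂ) (U a r') * U b r')
        = ∑ a ∈ s, ∑ r ∈ t, ∑ b ∈ s, ∑ r' ∈ t,
          U a r * (starRingEnd ℂ) (U b r) * ((starRingEnd ℂ) (U a r') * U b r') :=
          Finset.sum_congr rfl fun a _ => Finset.sum_comm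
      _ = ∑ r ∈ t, ∑ a ∈ s, ∑ b ∈ s, ∑ r' ∈ t,
          U a r * (starRingEnd ℂ) (U b r) * ((starRingEnd ℂ) (U a r') * U b r') :=
          Finset.sum_comm
      _ = ∑ r ∈ t, ∑ a ∈ s, ∑ r' ∈ t, ∑ b ∈ s,
          U a r * (starRingEnd ℂ) (U b r) * ((starRingEnd ℂ) (U a r') * U b r') :=
          Finset.sum_congr rfl fun r _ => Finset.sum_congr rfl fun a _ => Finset.sum_comm
      _ = ∑ r ∈ t, ∑ r' ∈ t, ∑ a ∈ s, ∑ b ∈ s,
          U a r * (starRingEnd ℂ) (U b r) * ((starRingEnd ℂ) (U a r') * U b r') :=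
          Finset.sum_congr rfl fun r _ => Finset.sum_comm
      _ = _ := by
          refine Finset.sum_congr rfl fun r _ => Finset.sum_congr rfl fun r' _ =>
            Finset.sum_congr rfl fun a _ => Finset.sum_congr rfl fun b _ => ?_
          ring
  exact_mod_cast key

/-- few vectors of unimodular numbers with small inner products -/
lemma welch_bound {ι : Type*} [DecidableEq ι] (s : Finset ι) (U : ι → Fin n → ℂ) (c : ℝ)
    (hU : ∀ a ∈ s, ∀ r, ‖U a r‖ = 1)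
    (hc : ∀ a ∈ s, ∀ b ∈ s, a ≠ b → ‖∑ r, U a r * (starRingEnd ℂ) (U b r)‖ ≤ c) :
    (n : ℝ) * (s.card : ℝ) ^ 2 ≤ s.card * (n : ℝ) ^ 2 + (s.card : ℝ) ^ 2 * c ^ 2 := by
  have h1 := welch_identity s univ U
  have hone : ∀ a ∈ s, ∀ r, U a r * (starRingEnd ℂ) (U a r) = 1 := by
    intro a ha r
    rw [Complex.mul_conj, Complex.normSq_eq_norm_sq, hU a ha r]; simp
  have h2 : (n : ℝ) * (s.card : ℝ) ^ 2 ≤
      ∑ r : Fin n, ∑ r' : Fin n, ‖∑ a ∈ s, U a r * (starRingEnd ℂ) (U a r')‖ ^ 2 := by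
    calc (n : ℝ) * (s.card : ℝ) ^ 2 = ∑ r : Fin n, (s.card : ℝ) ^ 2 := by simp
      _ ≤ _ := by
        refine Finset.sum_le_sum fun r _ => ?_
        have h3 : ‖∑ a ∈ s, U a r * (starRingEnd ℂ) (U a r)‖ ^ 2 = (s.card : ℝ) ^ 2 := by
          rw [Finset.sum_congr rfl fun a ha => hone a ha r]
          simp
        rw [← h3]
        exact Finset.single_le_sum
          (f := fun r' : Fin n => ‖∑ a ∈ s, U a r * (starRingEnd ℂ) (U a r')‖ ^ 2)
          (fun _ _ => by positivity) (mem_univ r)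
  rw [← h1] at h2
  refine h2.trans ?_
  have h4 : ∀ a ∈ s, ∑ b ∈ s, ‖∑ r, U a r * (starRingEnd ℂ) (U b r)‖ ^ 2 ≤
      (n : ℝ) ^ 2 + s.card * c ^ 2 := by
    intro a ha
    rw [← Finset.add_sum_erase s _ ha]
    refine add_le_add (le_of_eq ?_) ?_
    · rw [Finset.sum_congr rfl fun r _ => hone a ha r]
      simp
    · calc ∑ b ∈ s.erase a, ‖∑ r, U a r * (starRingEnd ℂ) (U b r)‖ ^ 2
          ≤ ∑ _b ∈ s.erase a, c ^ 2 := by
            refine Finset.sum_le_sum fun b hb => ?_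
            have hb' := Finset.mem_erase.mp hb
            exact pow_le_pow_left₀ (norm_nonneg _) (hc a ha b hb'.2 (Ne.symm hb'.1)) 2
        _ = (s.erase a).card * c ^ 2 := by rw [Finset.sum_const, nsmul_eq_mul]
        _ ≤ s.card * c ^ 2 := by
            refine mul_le_mul_of_nonneg_right ?_ (sq_nonneg c)
            exact_mod_cast Finset.card_le_card (Finset.erase_subset a s)
  calc ∑ a ∈ s, ∑ b ∈ s, ‖∑ r, U a r * (starRingEnd ℂ) (U b r)‖ ^ 2
      ≤ ∑ _a ∈ s, ((n : ℝ) ^ 2 + s.card * c ^ 2) := Finset.sum_le_sum h4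
    _ = s.card * (n : ℝ) ^ 2 + (s.card : ℝ) ^ 2 * c ^ 2 := by
        rw [Finset.sum_const, nsmul_eq_mul]; ring

lemma coordMin_full (N : Net n) {x : Pt n q} (h : ∀ v t, N.full x ≤ N.full (Function.update x v t)) :
    N.CoordMin (fun _ => 1) x := by
  intro v t
  rw [← full_eq, ← full_eq]
  exact h v t

/-- Module W -/
theorem welch (hD2 : RefinedStatement) (hD3 : TransStatement) : WelchStatement := by
  classical
  unfold WelchStatement
  filter_upwards [hD3, eventually_ge_atTop 4,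
    Asymp.mul_rpow_neg_le 5 (a := -0.55) (c := 1 / 8) (by norm_num) (by norm_num),
    Asymp.mul_rpow_neg_le 100 (a := -0.1) (c := 1 / 2) (by norm_num) (by norm_num),
    Asymp.const_le_rpow 10 (a := 1.45) (by norm_num)] with n hT hn4 hε hw hten
  intro q _ hq N 𝒮 hS hcl
  have hn0 : (0 : ℝ) < n := by
    have : 0 < n := by omega
    exact_mod_cast this
  have hn1 : (1 : ℝ) ≤ n := by
    have : 1 ≤ n := by omega
    exact_mod_cast this
  have hq4 : 4 ≤ q := by
    have : 4 ≤ n ^ 3 := by nlinarith [Nat.pow_le_pow_left hn4 3]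
    omega
  have hq0 : (0 : ℝ) < q := q_pos'
  have hqn : (n : ℝ) ^ 3 ≤ q := by exact_mod_cast hq
  -- representatives
  have hrep : ∀ x : Pt n q, ∃ r : Pt n q, N.full x ≤ (n : ℝ) ^ (1.45 : ℝ) →
      N.full r ≤ (n : ℝ) ^ (1.45 : ℝ) ∧ NT (r - x) ∧ N.CoordMin (fun _ => 1) r := by
    intro x
    by_cases hx : N.full x ≤ (n : ℝ) ^ (1.45 : ℝ)
    · obtain ⟨r, h1, h2, h3, -⟩ := exists_minRep hn4 N N.full _ (fun _ h => h) (hT q N) x hx
      exact ⟨r, fun _ => ⟨h1, h2, coordMin_full N h3⟩⟩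
    · exact ⟨x, fun h => absurd h hx⟩
  choose st hst using hrep
  set ε : ℝ := 5 * (n : ℝ) ^ (-0.55 : ℝ) with hεd
  have hε0 : 0 ≤ ε := by positivity
  have hnp : (n : ℝ) ^ (-0.55 : ℝ) * n ^ 2 = (n : ℝ) ^ (1.45 : ℝ) := by
    rw [← Real.rpow_natCast (n : ℝ) 2, ← Real.rpow_add hn0]
    norm_num
  -- the key estimate
  have hmean : ∀ a ∈ 𝒮, ∀ b ∈ 𝒮, a ≠ b → ‖mean (st a - st b) 0‖ ≤ 2 * ε := by
    intro a ha b hb hab
    obtain ⟨fa, nta, cma⟩ := hst a (hS a ha)
    obtain ⟨fb, ntb, cmb⟩ := hst b (hS b hb)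
    refine hD2 n q N (st a - st b) ε (by omega) hε0 hε ?_ ?_ 0
    · intro i
      have hgrad : ∀ r : Pt n q, N.CoordMin (fun _ => 1) r → ∀ v,
          |N.grad (fun _ => 1) r v| ≤ 5 * n / q := by
        intro r hr v
        have := grad_le_of_coordMin N (fun _ => zero_le_one) hq4 hr v
        refine this.trans (le_of_eq ?_)
        rw [Finset.sum_const, card_on, nsmul_eq_mul, mul_one]
        ring
      calc ∑ v : Fin n, ‖∑ e ∈ N.on (i, v), (ph (N.y (st a - st b) e) - 1)‖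
          ≤ ∑ v : Fin n, (2 * (∑ e ∈ N.on (i, v), cst (N.y (st a) e) +
              ∑ e ∈ N.on (i, v), cst (N.y (st b) e)) + 5 * n / q + 5 * n / q) := by
            refine Finset.sum_le_sum fun v _ => ?_
            have h1 := norm_line_sum_sub_le N (st a) (st b) (i, v)
            have h2 := hgrad _ cma (i, v)
            have h3 := hgrad _ cmb (i, v)
            linarith
        _ = 2 * (N.full (st a) + N.full (st b)) + n * (10 * n / q) := by
            rw [Finset.sum_add_distrib, Finset.sum_add_distrib, ← Finset.mul_sum,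
              Finset.sum_add_distrib, sum_type_on N i, sum_type_on N i]
            simp only [Finset.sum_const, Finset.card_univ, Fintype.card_fin, nsmul_eq_mul]
            unfold Net.full
            ring
        _ ≤ 2 * ((n : ℝ) ^ (1.45 : ℝ) + (n : ℝ) ^ (1.45 : ℝ)) + 10 := by
            refine add_le_add (by linarith) ?_
            have h1 : (n : ℝ) * (10 * n / q) = 10 * (n ^ 2 / q) := by ring
            rw [h1]
            have h2 : (n : ℝ) ^ 2 / q ≤ 1 := by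
              rw [div_le_one hq0]
              refine le_trans ?_ hqn
              exact pow_le_pow_right₀ hn1 (by norm_num)
            linarith
        _ ≤ 5 * (n : ℝ) ^ (1.45 : ℝ) := by linarith
        _ = ε * n ^ 2 := by rw [hεd, mul_assoc, hnp]
    · intro hnt
      refine hcl a ha b hb hab ?_
      have h1 : NT (a - st b) :=
        hT q N a (st a) (st b) (hS a ha) fa fb (NT_sub_comm nta) hnt
      exact hT q N a (st b) b (hS a ha) fb (hS b hb) h1 ntb
  have hb := welch_bound 𝒮 (fun a r => ph (st a (0, r))) (n * (2 * ε))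
    (fun a _ r => norm_ph _) (by
      intro a ha b hb hab
      have h1 := hmean a ha b hb hab
      have h2 : ∑ r : Fin n, ph (st a (0, r)) * (starRingEnd ℂ) (ph (st b (0, r))) =
          n * mean (st a - st b) 0 := by
        unfold mean
        rw [mul_div_cancel₀]
        · exact Finset.sum_congr rfl fun r _ => by rw [Pi.sub_apply, ph_sub]
        · exact_mod_cast hn0.ne'
      rw [h2, norm_mul, Complex.norm_natCast]
      exact mul_le_mul_of_nonneg_left h1 hn0.le)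
  set J : ℝ := (𝒮.card : ℝ) with hJ
  have hJ0 : 0 ≤ J := Nat.cast_nonneg _
  -- (n 2ε)^2 = 100 n^0.9 ≤ n / 2
  have hsq : ((n : ℝ) * (2 * ε)) ^ 2 ≤ n / 2 := by
    have h1 : ((n : ℝ) ^ (-0.55 : ℝ)) ^ 2 * n = (n : ℝ) ^ (-0.1 : ℝ) := by
      rw [← Real.rpow_natCast ((n : ℝ) ^ (-0.55 : ℝ)) 2, ← Real.rpow_mul hn0.le]
      nth_rewrite 2 [← Real.rpow_one (n : ℝ)]
      rw [← Real.rpow_add hn0]
      norm_num
    have h2 : ((n : ℝ) * (2 * ε)) ^ 2 = n * (100 * (((n : ℝ) ^ (-0.55 : ℝ)) ^ 2 * n)) := by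
      rw [hεd]; ring
    rw [h2, h1]
    nlinarith
  by_contra hlt
  push Not at hlt
  have hJpos : 0 < J := by linarith
  have h3 : (n : ℝ) * J ^ 2 ≤ J * n ^ 2 + J ^ 2 * (n / 2) := by
    have := mul_le_mul_of_nonneg_left hsq (sq_nonneg J)
    linarith
  have h4 : (n : ℝ) * J * J ≤ 2 * n * n * J := by nlinarith
  have h5 : (n : ℝ) * J ≤ 2 * n * n := le_of_mul_le_mul_right h4 hJpos
  nlinarith

end

end Pool.Agent.Lib.MP_185394_co.Up
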