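import Pool.Agent.Lib.MP_185394_co.Up.Interfaces

/-! Module Wit: a generating family for the points of low energy. -/

namespace Pool.Agent.Lib.MP_185394_co.Up

open Finset Filter

open scoped Classical

noncomputable section

set_option linter.unusedSectionVars false
set_option linter.unusedVariables false

namespace WitM

variable {n q : ℕ} [NeZero q]

/-! ### lifts and `Phi` -/

/-- the lift has the smallest absolute value in its class -/
lemma lift_abs_le {t : ZMod q} {r : ℝ} (h : ∃ m : ℤ, lift t = r + m) : |lift t| ≤ |r| := by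
  obtain ⟨m, hm⟩ := h
  by_cases h0 : m = 0
  · subst h0; simp at hm; rw [hm]
  · have h1 : (1 : ℝ) ≤ |(m : ℝ)| := by
      have : (1 : ℤ) ≤ |m| := Int.one_le_abs h0
      have h2 : ((1 : ℤ) : ℝ) ≤ ((|m| : ℤ) : ℝ) := by exact_mod_cast this
      simpa using h2
    have h2 := abs_lift_le t
    have h3 : |(m : ℝ)| ≤ |lift t| + |r| := by
      have : (m : ℝ) = lift t - r := by rw [hm]; ring
      rw [this]; exact abs_sub _ _
    linarith

lemma lift_comb {ι : Type*} (s : Finset ι) (a : ι → ℤ) (f : ι → ZMod q) :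
    ∃ m : ℤ, lift (∑ i ∈ s, a i • f i) = ∑ i ∈ s, a i * lift (f i) + m := by
  obtain ⟨m, hm⟩ := lift_sum s (fun i => a i • f i)
  choose m' hm' using fun i => lift_zsmul (a i) (f i)
  refine ⟨m + ∑ i ∈ s, m' i, ?_⟩
  rw [hm]
  have : ∀ i ∈ s, lift (a i • f i) = a i * lift (f i) + m' i := fun i _ => hm' i
  rw [Finset.sum_congr rfl this, Finset.sum_add_distrib]
  push_cast; ring

lemma Phi_nonneg (N : Net n) (M : Finset (Line n)) (x : Pt n q) : 0 ≤ N.Phi M x :=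
  Finset.sum_nonneg fun _ _ => sq_nonneg _

omit [NeZero q] in
lemma dead_mono (N : Net n) {M M' : Finset (Line n)} (h : M ⊆ M') : N.dead M ⊆ N.dead M' := by
  intro e he
  simp only [Net.dead, mem_filter, mem_univ, true_and] at he ⊢
  exact fun i => h (he i)

omit [NeZero q] in
lemma Phi_anti (N : Net n) {M M' : Finset (Line n)} (h : M ⊆ M') (x : Pt n q) :
    N.Phi M' x ≤ N.Phi M x := by
  unfold Net.Phi
  refine Finset.sum_le_sum_of_subset_of_nonneg ?_ (fun _ _ _ => sq_nonneg _)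
  intro e he
  rw [mem_compl] at he ⊢
  exact fun h' => he (dead_mono N h h')

lemma Phi_comb (N : Net n) (M : Finset (Line n)) {ι : Type*} [Fintype ι] (a : ι → ℤ)
    (f : ι → Pt n q) :
    N.Phi M (∑ i, a i • f i) ≤ (∑ i, (a i : ℝ) ^ 2) * ∑ i, N.Phi M (f i) := by
  unfold Net.Phi
  rw [Finset.sum_comm, Finset.mul_sum]
  refine Finset.sum_le_sum fun e _ => ?_
  have h1 : N.y (∑ i, a i • f i) e = ∑ i, a i • N.y (f i) e := by
    rw [y_sum]; exact Finset.sum_congr rfl fun i _ => y_zsmul N _ _ _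
  rw [h1]
  have h2 := lift_abs_le (lift_comb univ a (fun i => N.y (f i) e))
  have h3 := Finset.sum_mul_sq_le_sq_mul_sq univ (fun i => (a i : ℝ)) (fun i => lift (N.y (f i) e))
  have h4 : lift (∑ i, a i • N.y (f i) e) ^ 2 ≤ (∑ i, (a i : ℝ) * lift (N.y (f i) e)) ^ 2 :=
    sq_le_sq.mpr h2
  exact h4.trans h3

/-! ### dissociated families -/

/-- dissociated family -/
def Dis (N : Net n) (T : ℝ) {k : ℕ} (M : Finset (Line n)) (xs : Fin k → Pt n q) : Prop :=
  (∀ i, N.Phi M (xs i) ≤ T) ∧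
    ∀ ε : Fin k → ℤ, (∀ i, |ε i| ≤ 1) → ε ≠ 0 → ¬ NT (∑ i, ε i • xs i)

/-- existence of dissociated families -/
def Ex (N : Net n) (q : ℕ) [NeZero q] (T b : ℝ) (k : ℕ) : Prop :=
  ∃ (M : Finset (Line n)) (xs : Fin k → Pt n q), (M.card : ℝ) ≤ k * b ∧ Dis N T M xs

lemma Ex_zero (N : Net n) (T b : ℝ) : Ex N q T b 0 := by
  refine ⟨∅, fun i => i.elim0, by simp, fun i => i.elim0, ?_⟩
  intro ε _ hε
  exact absurd (funext fun i => i.elim0) hε

lemma sq_le_one_of_abs {a : ℤ} (h : |a| ≤ 1) : (a : ℝ) ^ 2 ≤ 1 := by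
  have h1 : (|(a : ℝ)|) ≤ 1 := by exact_mod_cast h
  rw [← sq_abs]
  have := abs_nonneg (a : ℝ)
  nlinarith

lemma Phi_comb_le (N : Net n) (M : Finset (Line n)) {k : ℕ} (a : Fin k → ℤ) (xs : Fin k → Pt n q)
    {T : ℝ} (h : ∀ i, N.Phi M (xs i) ≤ T) (C : ℝ) (ha : ∀ i, (a i : ℝ) ^ 2 ≤ C) (hT : 0 ≤ T) :
    N.Phi M (∑ i, a i • xs i) ≤ (k * C) * (k * T) := by
  refine (Phi_comb N M a xs).trans ?_
  have h1 : ∑ i, (a i : ℝ) ^ 2 ≤ k * C := by
    calc ∑ i, (a i : ℝ) ^ 2 ≤ ∑ _i : Fin k, C := Finset.sum_le_sum fun i _ => ha i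
      _ = k * C := by simp
  have h2 : ∑ i, N.Phi M (xs i) ≤ k * T := by
    calc ∑ i, N.Phi M (xs i) ≤ ∑ _i : Fin k, T := Finset.sum_le_sum fun i _ => h i
      _ = k * T := by simp
  have h3 : 0 ≤ ∑ i, (a i : ℝ) ^ 2 := Finset.sum_nonneg fun _ _ => sq_nonneg _
  have h4 : 0 ≤ ∑ i, N.Phi M (xs i) := Finset.sum_nonneg fun _ _ => Phi_nonneg _ _ _
  exact mul_le_mul h1 h2 h4 (h3.trans h1)

/-- a long dissociated family contradicts the bound on the number of classes -/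
lemma not_Ex (hn : 0 < n) (N : Net n) (T b F : ℝ) (k : ℕ) (hT : 0 ≤ T) (hb : 0 ≤ b)
    (hW : ∀ 𝒮 : Finset (Pt n q), (∀ x ∈ 𝒮, N.full x ≤ F) →
      (∀ x ∈ 𝒮, ∀ x' ∈ 𝒮, x ≠ x' → ¬ NT (x - x')) → (𝒮.card : ℝ) ≤ 2 * n)
    (hF : 2 * Real.pi ^ 2 * ((k * 1) * (k * T)) + 2 * (k * b) ^ 2 ≤ F)
    (hk : (2 : ℝ) * n < 2 ^ k) : ¬ Ex N q T b k := by
  rintro ⟨M, xs, hM, hPhi, hdis⟩
  set f : (Fin k → Bool) → Pt n q := fun s => ∑ i, (if s i then (1 : ℤ) else 0) • xs i with hf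
  have hsub : ∀ s s' : Fin k → Bool, s ≠ s' → ¬ NT (f s - f s') := by
    intro s s' hs
    have h1 : f s - f s' =
        ∑ i, ((if s i then (1 : ℤ) else 0) - (if s' i then (1 : ℤ) else 0)) • xs i := by
      rw [hf]
      simp only [sub_smul, Finset.sum_sub_distrib]
    rw [h1]
    apply hdis
    · intro i
      by_cases h2 : s i <;> by_cases h3 : s' i <;> simp [h2, h3]
    · intro h
      apply hs
      funext i
      have h2 := congrFun h i
      by_cases h3 : s i <;> by_cases h4 : s' i <;> simp [h3, h4] at h2 ⊢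
  have hinj : Function.Injective f := by
    intro s s' h
    by_contra hs
    apply hsub s s' hs
    rw [h, sub_self]
    exact NT_zero hn
  have hcard : (Finset.univ.image f).card = 2 ^ k := by
    rw [Finset.card_image_of_injective _ hinj]
    simp
  have h1 := hW (Finset.univ.image f) ?_ ?_
  · rw [hcard] at h1
    push_cast at h1
    linarith
  · intro x hx
    simp only [mem_image, mem_univ, true_and] at hx
    obtain ⟨s, rfl⟩ := hx
    refine (full_le_Phi N M (f s)).trans (le_trans ?_ hF)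
    have h2 : N.Phi M (f s) ≤ (k * 1) * (k * T) := by
      refine Phi_comb_le N M _ xs hPhi 1 ?_ hT
      intro i
      by_cases h2 : s i <;> simp [h2]
    have h3 : ((N.dead M).card : ℝ) ≤ (M.card : ℝ) ^ 2 := by exact_mod_cast card_dead N M
    have h4 : (M.card : ℝ) ^ 2 ≤ (k * b) ^ 2 := by
      have : (0 : ℝ) ≤ M.card := Nat.cast_nonneg _
      exact pow_le_pow_left₀ this hM 2
    have h5 : 0 ≤ 2 * Real.pi ^ 2 := by positivity
    nlinarith [mul_le_mul_of_nonneg_left h2 h5]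
  · intro x hx x' hx' hne
    simp only [mem_image, mem_univ, true_and] at hx hx'
    obtain ⟨s, rfl⟩ := hx
    obtain ⟨s', rfl⟩ := hx'
    exact hsub s s' (fun h => hne (by rw [h]))

/-! ### the set `M₁` -/

/-- cells which are not dead with a large value -/
def bad (N : Net n) {k : ℕ} (M : Finset (Line n)) (xs : Fin k → Pt n q) (s : ℝ) :
    Finset (Cell n) :=
  (N.dead M)ᶜ.filter fun e => ∃ l, s < |lift (N.y (xs l) e)|

/-- `M` and the lines through the cells with a large value -/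
def ext (N : Net n) {k : ℕ} (M : Finset (Line n)) (xs : Fin k → Pt n q) (s : ℝ) :
    Finset (Line n) :=
  M ∪ (bad N M xs s).biUnion fun e => univ.image fun i => N.ln i e

lemma card_bad (N : Net n) {k : ℕ} (M : Finset (Line n)) (xs : Fin k → Pt n q) {s T : ℝ}
    (hs : 0 < s) (h : ∀ i, N.Phi M (xs i) ≤ T) : (bad N M xs s).card * s ^ 2 ≤ k * T := by
  have h2 : ∑ i, N.Phi M (xs i) ≤ k * T := by
    calc ∑ i, N.Phi M (xs i) ≤ ∑ _i : Fin k, T := Finset.sum_le_sum fun i _ => h i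
      _ = k * T := by simp
  refine le_trans ?_ h2
  unfold Net.Phi
  rw [Finset.sum_comm]
  calc ((bad N M xs s).card : ℝ) * s ^ 2 = ∑ _e ∈ bad N M xs s, s ^ 2 := by
        rw [Finset.sum_const, nsmul_eq_mul]
    _ ≤ ∑ e ∈ bad N M xs s, ∑ i, lift (N.y (xs i) e) ^ 2 := by
        refine Finset.sum_le_sum fun e he => ?_
        simp only [bad, mem_filter] at he
        obtain ⟨_, l, hl⟩ := he
        have h3 : s ^ 2 ≤ lift (N.y (xs l) e) ^ 2 := by
          rw [← sq_abs (lift _)]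
          exact pow_le_pow_left₀ hs.le hl.le 2
        exact h3.trans (Finset.single_le_sum (f := fun i => lift (N.y (xs i) e) ^ 2)
          (fun _ _ => sq_nonneg _) (mem_univ l))
    _ ≤ ∑ e ∈ (N.dead M)ᶜ, ∑ i, lift (N.y (xs i) e) ^ 2 := by
        refine Finset.sum_le_sum_of_subset_of_nonneg (Finset.filter_subset _ _) ?_
        intro _ _ _
        exact Finset.sum_nonneg fun _ _ => sq_nonneg _

lemma card_ext (N : Net n) {k : ℕ} (M : Finset (Line n)) (xs : Fin k → Pt n q) (s : ℝ) :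
    (ext N M xs s).card ≤ M.card + 3 * (bad N M xs s).card := by
  unfold ext
  refine (Finset.card_union_le _ _).trans (Nat.add_le_add_left ?_ _)
  refine Finset.card_biUnion_le.trans ?_
  calc ∑ e ∈ bad N M xs s, (univ.image fun i => N.ln i e).card
      ≤ ∑ _e ∈ bad N M xs s, 3 := by
        refine Finset.sum_le_sum fun e _ => ?_
        exact Finset.card_image_le.trans (by simp)
    _ = 3 * (bad N M xs s).card := by rw [Finset.sum_const, smul_eq_mul, mul_comm]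

lemma ext_sup (N : Net n) {k : ℕ} (M : Finset (Line n)) (xs : Fin k → Pt n q) (s : ℝ) (l : Fin k)
    (e : Cell n) (he : e ∉ N.dead (ext N M xs s)) : |lift (N.y (xs l) e)| ≤ s := by
  by_contra hcon
  push Not at hcon
  apply he
  by_cases hd : e ∈ N.dead M
  · exact dead_mono N Finset.subset_union_left hd
  · have hb : e ∈ bad N M xs s := by
      simp only [bad, mem_filter, mem_compl]
      exact ⟨hd, l, hcon⟩
    simp only [Net.dead, mem_filter, mem_univ, true_and]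
    intro i
    unfold ext
    rw [mem_union]
    right
    rw [mem_biUnion]
    exact ⟨e, hb, by simp⟩

lemma A_abs_le (N : Net n) {u : RPt n} {ρ : ℝ} (h : ∀ v, |u v| ≤ ρ) (e : Cell n) :
    |N.A u e| ≤ 3 * ρ := by
  unfold Net.A
  rw [Fin.sum_univ_three]
  have h0 := h (N.ln 0 e)
  have h1 := h (N.ln 1 e)
  have h2 := h (N.ln 2 e)
  have := abs_add_three (u (N.ln 0 e)) (u (N.ln 1 e)) (u (N.ln 2 e))
  linarith

/-! ### the main lemma with all numerical inequalities as hypotheses -/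

lemma main (hn : 0 < n) (N : Net n) (K L : ℝ) (k₀ : ℕ) (hK : 1 ≤ K) (hL : 1 ≤ L)
    (hLn : L = Real.log n)
    (hW : ∀ 𝒮 : Finset (Pt n q), (∀ x ∈ 𝒮, N.full x ≤ (n : ℝ) ^ (1.45 : ℝ)) →
      (∀ x ∈ 𝒮, ∀ x' ∈ 𝒮, x ≠ x' → ¬ NT (x - x')) → (𝒮.card : ℝ) ≤ 2 * n)
    (hR : ∀ M : Finset (Line n), (M.card : ℝ) ≤ (n : ℝ) ^ (0.72 : ℝ) → ∀ z : Pt n q, NT z →
      N.Phi M z ≤ (n : ℝ) ^ (0.9 : ℝ) →
      ∃ (t : Fin 3 → ℝ) (u : RPt n), t 0 + t 1 + t 2 = 0 ∧
        (∀ v, ∃ m : ℤ, lift (z v) = t v.1 + u v + m) ∧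
        (∀ v, |u v| ≤ √(2 * N.Phi M z / n)) ∧ ∀ e, lift (N.y z e) = N.A u e)
    (hk₀ : (k₀ : ℝ) ≤ 3 * L) (hk₀' : (2 : ℝ) * n < 2 ^ k₀)
    (N2 : 3 * ((3 * L) * (K * L ^ 2) * (n : ℝ) ^ (0.7 : ℝ)) + (n : ℝ) ^ (0.6 : ℝ) ≤
      (n : ℝ) ^ (0.705 : ℝ))
    (N3 : 3 * L * (n : ℝ) ^ (0.705 : ℝ) ≤ (n : ℝ) ^ (0.711 : ℝ))
    (N4 : 2 * Real.pi ^ 2 * ((3 * L * 1) * (3 * L * (K * L ^ 2))) +
      2 * (3 * L * (n : ℝ) ^ (0.705 : ℝ)) ^ 2 ≤ (n : ℝ) ^ (1.45 : ℝ))
    (N5 : (3 * L * 1) * (3 * L * (K * L ^ 2)) ≤ (n : ℝ) ^ (0.9 : ℝ))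
    (N6 : 3 * L * (n : ℝ) ^ (-0.35 : ℝ) +
      3 * √(2 * ((3 * L * 1) * (3 * L * (K * L ^ 2))) / n) ≤ (n : ℝ) ^ (-0.34 : ℝ))
    (N7 : (n : ℝ) ^ (-0.34 : ℝ) < 1 / 2)
    (N8 : 2 * (n : ℝ) < (n : ℝ) ^ (1.02 : ℝ))
    (N9 : 2 * Real.pi ^ 2 * ((3 * (n : ℝ) ^ (0.68 : ℝ)) * (3 * (K * L ^ 2))) +
      2 * ((n : ℝ) ^ (0.711 : ℝ)) ^ 2 ≤ (n : ℝ) ^ (1.45 : ℝ))
    (N10 : (3 * (n : ℝ) ^ (0.68 : ℝ)) * (3 * (K * L ^ 2)) ≤ (n : ℝ) ^ (0.9 : ℝ))
    (N11 : 3 * (n : ℝ) ^ (-0.01 : ℝ) < 1 / 2) :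
    ∃ (k : ℕ) (xs : Fin k → Pt n q) (M₁ : Finset (Line n)), Witness N q K xs M₁ := by
  have hnR : (0 : ℝ) < n := by exact_mod_cast hn
  have h1n : (1 : ℝ) ≤ n := by exact_mod_cast hn
  set T : ℝ := K * L ^ 2 with hTdef
  set b : ℝ := (n : ℝ) ^ (0.705 : ℝ) with hbdef
  have hT : 0 ≤ T := by positivity
  have hb : 0 ≤ b := by positivity
  -- the largest dissociated family
  have hfail : ¬ Ex N q T b k₀ := by
    refine not_Ex hn N T b _ k₀ hT hb hW (le_trans ?_ N4) hk₀'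
    have h0 : (0 : ℝ) ≤ k₀ := Nat.cast_nonneg _
    have h1 : (k₀ : ℝ) * 1 * (k₀ * T) ≤ (3 * L * 1) * (3 * L * T) := by
      have h2 : (k₀ : ℝ) * T ≤ 3 * L * T := mul_le_mul_of_nonneg_right hk₀ hT
      have h3 : (k₀ : ℝ) * 1 ≤ 3 * L * 1 := by linarith
      exact mul_le_mul h3 h2 (by positivity) (by positivity)
    have h2 : ((k₀ : ℝ) * b) ^ 2 ≤ (3 * L * b) ^ 2 :=
      pow_le_pow_left₀ (by positivity) (mul_le_mul_of_nonneg_right hk₀ hb) 2
    have h3 : 0 ≤ 2 * Real.pi ^ 2 := by positivity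
    have h4 := mul_le_mul_of_nonneg_left h1 h3
    linarith
  have hex : ∃ k, ¬ Ex N q T b k := ⟨k₀, hfail⟩
  obtain ⟨k, hkEx, hkS, hkk⟩ : ∃ k, Ex N q T b k ∧ ¬ Ex N q T b (k + 1) ∧ k + 1 ≤ k₀ := by
    have h1 := Nat.find_spec hex
    have h2 : Nat.find hex ≤ k₀ := Nat.find_min' hex hfail
    rcases Nat.exists_eq_succ_of_ne_zero (n := Nat.find hex)
      (by intro h; rw [h] at h1; exact h1 (Ex_zero N T b)) with ⟨m, hm⟩
    refine ⟨m, ?_, ?_, ?_⟩
    · by_contra hcon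
      have := Nat.find_min' hex hcon
      omega
    · rw [hm] at h1; exact h1
    · omega
  have hk3 : (k : ℝ) + 1 ≤ 3 * L := by
    refine le_trans ?_ hk₀
    exact_mod_cast hkk
  have hk0 : (0 : ℝ) ≤ k := Nat.cast_nonneg _
  obtain ⟨M, xs, hMc, hPhi, hdis⟩ := hkEx
  set s : ℝ := (n : ℝ) ^ (-0.35 : ℝ) with hsdef
  have hs : 0 < s := by positivity
  have hs2 : s ^ 2 * (n : ℝ) ^ (0.7 : ℝ) = 1 := by
    rw [hsdef, ← Real.rpow_natCast, ← Real.rpow_mul hnR.le, ← Real.rpow_add hnR]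
    norm_num
  set M₁ := ext N M xs s with hM₁
  have hMM₁ : M ⊆ M₁ := Finset.subset_union_left
  have hcardM₁ : (M₁.card : ℝ) + (n : ℝ) ^ (0.6 : ℝ) ≤ (k + 1) * b := by
    have h1 : (M₁.card : ℝ) ≤ M.card + 3 * (bad N M xs s).card := by
      exact_mod_cast card_ext N M xs s
    have h2 := card_bad N M xs hs hPhi
    have h3 : ((bad N M xs s).card : ℝ) ≤ k * T * (n : ℝ) ^ (0.7 : ℝ) := by
      have h4 := mul_le_mul_of_nonneg_right h2 (by positivity : 0 ≤ (n : ℝ) ^ (0.7 : ℝ))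
      rw [mul_assoc, hs2, mul_one] at h4
      exact h4
    have h4 : (k : ℝ) * T * (n : ℝ) ^ (0.7 : ℝ) ≤ (3 * L) * T * (n : ℝ) ^ (0.7 : ℝ) := by
      have : (k : ℝ) ≤ 3 * L := by linarith
      gcongr
    nlinarith
  have hrange : ∀ M' : Finset (Line n), (M'.card : ℝ) ≤ M₁.card + (n : ℝ) ^ (0.6 : ℝ) →
      (M'.card : ℝ) ≤ (n : ℝ) ^ (0.711 : ℝ) := by
    intro M' hM'
    refine hM'.trans (hcardM₁.trans (le_trans ?_ N3))
    exact mul_le_mul_of_nonneg_right hk3 hb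
  have h711 : (n : ℝ) ^ (0.711 : ℝ) ≤ (n : ℝ) ^ (0.72 : ℝ) :=
    Real.rpow_le_rpow_of_exponent_le h1n (by norm_num)
  have hsup : ∀ l, ∀ e ∉ N.dead M₁, |lift (N.y (xs l) e)| ≤ s :=
    fun l e he => ext_sup N M xs s l e he
  refine ⟨k, xs, M₁, ?_, hsup, ?_, ?_⟩
  · -- cardM
    apply hrange
    have : 0 ≤ (n : ℝ) ^ (0.6 : ℝ) := by positivity
    linarith
  · -- repr
    intro M' hM₁M' hM'c x hx
    rw [← hLn] at hx
    have hPhi' : ∀ i, N.Phi M' (xs i) ≤ T := fun i =>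
      (Phi_anti N (hMM₁.trans hM₁M') (xs i)).trans (hPhi i)
    set ys : Fin (k + 1) → Pt n q := Fin.cons x xs with hys
    have hPhiys : ∀ i, N.Phi M' (ys i) ≤ T := by
      intro i
      refine Fin.cases ?_ (fun i => ?_) i
      · simpa [hys] using hx
      · simpa [hys] using hPhi' i
    have hnd : ¬ Dis N T M' ys := by
      intro hD
      refine hkS ⟨M', ys, ?_, hD⟩
      push_cast
      exact hM'c.trans hcardM₁
    unfold Dis at hnd
    push Not at hnd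
    obtain ⟨ε', hε1, hεne, hNT⟩ := hnd hPhiys
    -- the first coefficient is `± 1`
    have hsplit : ∀ c : ℤ, ∑ i, (c * ε' i) • ys i =
        (c * ε' 0) • x + ∑ i : Fin k, (c * ε' i.succ) • xs i := by
      intro c
      rw [Fin.sum_univ_succ]
      simp [hys]
    have h0 : ε' 0 ≠ 0 := by
      intro h0
      have h1 := hsplit 1
      simp only [one_mul, h0, zero_smul, zero_add] at h1
      rw [h1] at hNT
      refine hdis (fun i => ε' i.succ) (fun i => hε1 _) ?_ hNT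
      intro h2
      apply hεne
      funext i
      refine Fin.cases h0 (fun i => ?_) i
      exact congrFun h2 i
    have hsq : ε' 0 * ε' 0 = 1 := by
      have h1 := hε1 0
      rw [abs_le] at h1
      have : ε' 0 = 1 ∨ ε' 0 = -1 := by omega
      rcases this with h | h <;> rw [h] <;> norm_num
    set z : Pt n q := ∑ i, (ε' 0 * ε' i) • ys i with hz
    have hNTz : NT z := by
      have h1 := hε1 0
      rw [abs_le] at h1
      have : ε' 0 = 1 ∨ ε' 0 = -1 := by omega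
      rcases this with h | h
      · rw [hz, h]; simpa using hNT
      · rw [hz, h]
        have h2 : ∑ i, (-1 * ε' i) • ys i = -∑ i, ε' i • ys i := by
          rw [← Finset.sum_neg_distrib]
          exact Finset.sum_congr rfl fun i _ => by simp
        rw [h2]
        exact NT_neg hNT
    have hzx : z = x + ∑ i : Fin k, (ε' 0 * ε' i.succ) • xs i := by
      rw [hz, hsplit, hsq, one_smul]
    have habs : ∀ i, |ε' 0 * ε' i| ≤ 1 := by
      intro i
      rw [abs_mul]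
      have h1 := hε1 0
      have h2 := hε1 i
      have h3 := abs_nonneg (ε' 0)
      have h4 := abs_nonneg (ε' i)
      nlinarith
    have hPhiz : N.Phi M' z ≤ (3 * L * 1) * (3 * L * T) := by
      have h1 := Phi_comb_le N M' (fun i => ε' 0 * ε' i) ys hPhiys 1
        (fun i => sq_le_one_of_abs (habs i)) hT
      refine h1.trans ?_
      push_cast
      have h2 : ((k : ℝ) + 1) * T ≤ 3 * L * T := mul_le_mul_of_nonneg_right hk3 hT
      have h3 : ((k : ℝ) + 1) * 1 ≤ 3 * L * 1 := by linarith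
      exact mul_le_mul h3 h2 (by positivity) (by positivity)
    obtain ⟨t, u, ht, hlift, hu, hA⟩ := hR M' ((hrange M' hM'c).trans h711) z hNTz
      (hPhiz.trans N5)
    refine ⟨fun i => -(ε' 0 * ε' i.succ), t, u, ht, ?_, ?_⟩
    · intro v
      have hxz : x v = z v + ∑ i : Fin k, (-(ε' 0 * ε' i.succ)) • xs i v := by
        rw [hzx]
        simp only [Pi.add_apply, Finset.sum_apply, Pi.smul_apply, neg_smul,
          Finset.sum_neg_distrib]
        ring
      obtain ⟨m1, hm1⟩ := lift_add (z v) (∑ i : Fin k, (-(ε' 0 * ε' i.succ)) • xs i v)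
      obtain ⟨m2, hm2⟩ := lift_comb univ (fun i : Fin k => -(ε' 0 * ε' i.succ))
        (fun i => xs i v)
      obtain ⟨m3, hm3⟩ := hlift v
      refine ⟨m1 + m2 + m3, ?_⟩
      rw [hxz, hm1, hm2, hm3]
      push_cast; ring
    · intro e he
      have he1 : e ∉ N.dead M₁ := fun h => he (dead_mono N hM₁M' h)
      have hxz : N.y x e = N.y z e + ∑ i : Fin k, (-(ε' 0 * ε' i.succ)) • N.y (xs i) e := by
        rw [hzx, y_add, y_sum]
        simp only [y_zsmul, neg_smul, Finset.sum_neg_distrib]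
        ring
      obtain ⟨m1, hm1⟩ := lift_add (N.y z e)
        (∑ i : Fin k, (-(ε' 0 * ε' i.succ)) • N.y (xs i) e)
      obtain ⟨m2, hm2⟩ := lift_comb univ (fun i : Fin k => -(ε' 0 * ε' i.succ))
        (fun i => N.y (xs i) e)
      set r : ℝ := ∑ l : Fin k, ((-(ε' 0 * ε' l.succ) : ℤ) : ℝ) * lift (N.y (xs l) e) + N.A u e
        with hr
      have hrb : |r| ≤ (n : ℝ) ^ (-0.34 : ℝ) := by
        have h1 : |∑ l : Fin k, ((-(ε' 0 * ε' l.succ) : ℤ) : ℝ) * lift (N.y (xs l) e)| ≤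
            3 * L * s := by
          calc |∑ l : Fin k, ((-(ε' 0 * ε' l.succ) : ℤ) : ℝ) * lift (N.y (xs l) e)|
              ≤ ∑ l : Fin k, |((-(ε' 0 * ε' l.succ) : ℤ) : ℝ) * lift (N.y (xs l) e)| :=
                Finset.abs_sum_le_sum_abs _ _
            _ ≤ ∑ _l : Fin k, s := by
                refine Finset.sum_le_sum fun l _ => ?_
                rw [abs_mul]
                have h2 : |((-(ε' 0 * ε' l.succ) : ℤ) : ℝ)| ≤ 1 := by
                  have := habs l.succ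
                  rw [← abs_neg] at this
                  exact_mod_cast this
                have h3 := hsup l e he1
                have h4 := abs_nonneg (lift (N.y (xs l) e))
                have h5 := abs_nonneg ((-(ε' 0 * ε' l.succ) : ℤ) : ℝ)
                nlinarith
            _ = k * s := by simp
            _ ≤ 3 * L * s := by
                apply mul_le_mul_of_nonneg_right _ hs.le
                linarith
        have h2 : |N.A u e| ≤ 3 * √(2 * ((3 * L * 1) * (3 * L * T)) / n) := by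
          refine A_abs_le N (fun v => (hu v).trans ?_) e
          apply Real.sqrt_le_sqrt
          gcongr
        calc |r| ≤ _ := abs_add_le _ _
          _ ≤ 3 * L * s + 3 * √(2 * ((3 * L * 1) * (3 * L * T)) / n) := add_le_add h1 h2
          _ ≤ _ := N6
      have hlx : lift (N.y x e) = r := by
        apply lift_unique (lt_of_le_of_lt hrb N7)
        refine ⟨m1 + m2, ?_⟩
        rw [hxz, hm1, hm2, hA, hr]
        push_cast; ring
      refine ⟨?_, ?_⟩
      · rw [hlx, hr]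
      · rw [hlx]; exact hrb
  · -- rank
    intro M' hM₁M' hM'c l
    have hPhi' : ∀ i, N.Phi M' (xs i) ≤ T := fun i =>
      (Phi_anti N (hMM₁.trans hM₁M') (xs i)).trans (hPhi i)
    have hM'711 := hrange M' hM'c
    set J : ℕ := ⌊(n : ℝ) ^ (0.34 : ℝ)⌋₊ with hJ
    have hJle : (J : ℝ) ≤ (n : ℝ) ^ (0.34 : ℝ) := Nat.floor_le (by positivity)
    have hJlt : (n : ℝ) ^ (0.34 : ℝ) < J + 1 := Nat.lt_floor_add_one _
    have hJsq : (J : ℝ) ^ 2 ≤ (n : ℝ) ^ (0.68 : ℝ) := by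
      have h1 := pow_le_pow_left₀ (Nat.cast_nonneg J) hJle 2
      have h2 : ((n : ℝ) ^ (0.34 : ℝ)) ^ 2 = (n : ℝ) ^ (0.68 : ℝ) := by
        rw [← Real.rpow_natCast, ← Real.rpow_mul hnR.le]
        norm_num
      rwa [h2] at h1
    have hPhic : ∀ d : Fin 3 → ℤ, (∀ i, |d i| ≤ J) →
        N.Phi M' (∑ i, d i • xs (l i)) ≤ (3 * (n : ℝ) ^ (0.68 : ℝ)) * (3 * T) := by
      intro d hd
      have h1 := Phi_comb_le N M' d (fun i => xs (l i)) (fun i => hPhi' _)
        ((n : ℝ) ^ (0.68 : ℝ)) ?_ hT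
      · push_cast at h1
        exact h1
      · intro i
        refine le_trans ?_ hJsq
        have h2 : |(d i : ℝ)| ≤ J := by exact_mod_cast hd i
        rw [← sq_abs]
        exact pow_le_pow_left₀ (abs_nonneg _) h2 2
    have hfull : ∀ d : Fin 3 → ℤ, (∀ i, |d i| ≤ J) →
        N.full (∑ i, d i • xs (l i)) ≤ (n : ℝ) ^ (1.45 : ℝ) := by
      intro d hd
      refine (full_le_Phi N M' _).trans (le_trans ?_ N9)
      have h3 : ((N.dead M').card : ℝ) ≤ (M'.card : ℝ) ^ 2 := by exact_mod_cast card_dead N M'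
      have h4 : (M'.card : ℝ) ^ 2 ≤ ((n : ℝ) ^ (0.711 : ℝ)) ^ 2 :=
        pow_le_pow_left₀ (Nat.cast_nonneg _) hM'711 2
      have h5 : 0 ≤ 2 * Real.pi ^ 2 := by positivity
      have h6 := mul_le_mul_of_nonneg_left (hPhic d hd) h5
      linarith
    -- two triples with near trivial difference
    obtain ⟨d, hd0, hdJ, hdNT⟩ : ∃ d : Fin 3 → ℤ, d ≠ 0 ∧ (∀ i, |d i| ≤ J) ∧
        NT (∑ i, d i • xs (l i)) := by
      by_contra hcon
      push Not at hcon
      set f : (Fin 3 → Fin (J + 1)) → Pt n q := fun j => ∑ i, ((j i : ℕ) : ℤ) • xs (l i) with hf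
      have hsub : ∀ j j' : Fin 3 → Fin (J + 1), j ≠ j' → ¬ NT (f j - f j') := by
        intro j j' hj
        have h1 : f j - f j' = ∑ i, (((j i : ℕ) : ℤ) - ((j' i : ℕ) : ℤ)) • xs (l i) := by
          rw [hf]
          simp only [sub_smul, Finset.sum_sub_distrib]
        rw [h1]
        apply hcon
        · intro h
          apply hj
          funext i
          have h2 := congrFun h i
          simp only [Pi.zero_apply] at h2
          apply Fin.ext
          omega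
        · intro i
          have h2 := (j i).2
          have h3 := (j' i).2
          rw [abs_le]
          constructor <;> omega
      have hinj : Function.Injective f := by
        intro j j' h
        by_contra hj
        apply hsub j j' hj
        rw [h, sub_self]
        exact NT_zero hn
      have hcard : (Finset.univ.image f).card = (J + 1) ^ 3 := by
        rw [Finset.card_image_of_injective _ hinj]
        simp
      have h1 := hW (Finset.univ.image f) ?_ ?_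
      · rw [hcard] at h1
        push_cast at h1
        have h2 : (n : ℝ) ^ (1.02 : ℝ) ≤ ((J : ℝ) + 1) ^ 3 := by
          have h3 := pow_le_pow_left₀ (by positivity : 0 ≤ (n : ℝ) ^ (0.34 : ℝ)) hJlt.le 3
          have h4 : ((n : ℝ) ^ (0.34 : ℝ)) ^ 3 = (n : ℝ) ^ (1.02 : ℝ) := by
            rw [← Real.rpow_natCast, ← Real.rpow_mul hnR.le]
            norm_num
          rwa [h4] at h3
        linarith
      · intro x hx
        simp only [mem_image, mem_univ, true_and] at hx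
        obtain ⟨j, rfl⟩ := hx
        apply hfull
        intro i
        have := (j i).2
        rw [abs_le]
        constructor <;> omega
      · intro x hx x' hx' hne
        simp only [mem_image, mem_univ, true_and] at hx hx'
        obtain ⟨j, rfl⟩ := hx
        obtain ⟨j', rfl⟩ := hx'
        exact hsub j j' (fun h => hne (by rw [h]))
    obtain ⟨t, u, ht, hlift, hu, hA⟩ := hR M' (hM'711.trans h711) _ hdNT
      ((hPhic d hdJ).trans N10)
    refine ⟨d, hd0, u, ?_⟩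
    intro e he
    have he1 : e ∉ N.dead M₁ := fun h => he (dead_mono N hM₁M' h)
    rw [← hA e]
    symm
    apply lift_unique
    · have h1 : |∑ i : Fin 3, (d i : ℝ) * lift (N.y (xs (l i)) e)| ≤ 3 * (J * s) := by
        calc |∑ i : Fin 3, (d i : ℝ) * lift (N.y (xs (l i)) e)|
            ≤ ∑ i : Fin 3, |(d i : ℝ) * lift (N.y (xs (l i)) e)| :=
              Finset.abs_sum_le_sum_abs _ _
          _ ≤ ∑ _i : Fin 3, (J : ℝ) * s := by
              refine Finset.sum_le_sum fun i _ => ?_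
              rw [abs_mul]
              have h2 : |(d i : ℝ)| ≤ J := by exact_mod_cast hdJ i
              exact mul_le_mul h2 (hsup _ e he1) (abs_nonneg _) (Nat.cast_nonneg _)
          _ = 3 * (J * s) := by simp
      have h2 : (J : ℝ) * s ≤ (n : ℝ) ^ (-0.01 : ℝ) := by
        calc (J : ℝ) * s ≤ (n : ℝ) ^ (0.34 : ℝ) * s := mul_le_mul_of_nonneg_right hJle hs.le
          _ = (n : ℝ) ^ (-0.01 : ℝ) := by
              rw [hsdef, ← Real.rpow_add hnR]; norm_num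
      linarith
    · have h1 : N.y (∑ i, d i • xs (l i)) e = ∑ i, d i • N.y (xs (l i)) e := by
        rw [y_sum]; exact Finset.sum_congr rfl fun i _ => y_zsmul N _ _ _
      rw [h1]
      exact lift_comb univ d (fun i => N.y (xs (l i)) e)

/-! ### numerical inequalities -/

lemma pow_x {X : ℝ} (hX : 0 < X) (m : ℕ) :
    (X ^ (0.0001 : ℝ)) ^ m = X ^ (0.0001 * (m : ℝ)) := by
  rw [← Real.rpow_natCast, ← Real.rpow_mul hX.le]

lemma x_mul {X : ℝ} (hX : 0 < X) (m : ℕ) (a : ℝ) :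
    (X ^ (0.0001 : ℝ)) ^ m * X ^ a = X ^ (0.0001 * (m : ℝ) + a) := by
  rw [pow_x hX, ← Real.rpow_add hX]

lemma numerics {X K L : ℝ} (hX : 1 ≤ X) (hK : 1 ≤ K) (hL : 1 ≤ L)
    (hKx : 1000 * K ≤ X ^ (0.0001 : ℝ)) (hLx : L ≤ X ^ (0.0001 : ℝ)) :
    (3 * ((3 * L) * (K * L ^ 2) * X ^ (0.7 : ℝ)) + X ^ (0.6 : ℝ) ≤ X ^ (0.705 : ℝ)) ∧
    (3 * L * X ^ (0.705 : ℝ) ≤ X ^ (0.711 : ℝ)) ∧
    (2 * Real.pi ^ 2 * ((3 * L * 1) * (3 * L * (K * L ^ 2))) +
      2 * (3 * L * X ^ (0.705 : ℝ)) ^ 2 ≤ X ^ (1.45 : ℝ)) ∧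
    ((3 * L * 1) * (3 * L * (K * L ^ 2)) ≤ X ^ (0.9 : ℝ)) ∧
    (3 * L * X ^ (-0.35 : ℝ) +
      3 * √(2 * ((3 * L * 1) * (3 * L * (K * L ^ 2))) / X) ≤ X ^ (-0.34 : ℝ)) ∧
    (X ^ (-0.34 : ℝ) < 1 / 2) ∧
    (2 * X < X ^ (1.02 : ℝ)) ∧
    (2 * Real.pi ^ 2 * ((3 * X ^ (0.68 : ℝ)) * (3 * (K * L ^ 2))) +
      2 * (X ^ (0.711 : ℝ)) ^ 2 ≤ X ^ (1.45 : ℝ)) ∧
    ((3 * X ^ (0.68 : ℝ)) * (3 * (K * L ^ 2)) ≤ X ^ (0.9 : ℝ)) ∧
    (3 * X ^ (-0.01 : ℝ) < 1 / 2) := by
  have hX0 : 0 < X := by linarith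
  set x : ℝ := X ^ (0.0001 : ℝ) with hx
  have hx1000 : 1000 ≤ x := by linarith
  have hx0 : 0 < x := by linarith
  have hpi : Real.pi ^ 2 ≤ 10 := by
    have h1 := Real.pi_lt_d2
    have h2 := Real.pi_pos
    nlinarith
  have hmono : ∀ {a b : ℝ}, a ≤ b → X ^ a ≤ X ^ b := fun h =>
    Real.rpow_le_rpow_of_exponent_le hX h
  have hL2 : L ^ 2 ≤ x ^ 2 := pow_le_pow_left₀ (by linarith) hLx 2
  have hL3 : L ^ 3 ≤ x ^ 3 := pow_le_pow_left₀ (by linarith) hLx 3
  have hL4 : L ^ 4 ≤ x ^ 4 := pow_le_pow_left₀ (by linarith) hLx 4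
  have hKL2 : 1000 * (K * L ^ 2) ≤ x ^ 3 := by
    calc 1000 * (K * L ^ 2) = (1000 * K) * L ^ 2 := by ring
      _ ≤ x * x ^ 2 := mul_le_mul hKx hL2 (by positivity) hx0.le
      _ = x ^ 3 := by ring
  have hKL3 : 1000 * (K * L ^ 3) ≤ x ^ 4 := by
    calc 1000 * (K * L ^ 3) = (1000 * K) * L ^ 3 := by ring
      _ ≤ x * x ^ 3 := mul_le_mul hKx hL3 (by positivity) hx0.le
      _ = x ^ 4 := by ring
  have hKL4 : 1000 * (K * L ^ 4) ≤ x ^ 5 := by
    calc 1000 * (K * L ^ 4) = (1000 * K) * L ^ 4 := by ring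
      _ ≤ x * x ^ 4 := mul_le_mul hKx hL4 (by positivity) hx0.le
      _ = x ^ 5 := by ring
  have hx2 : 1000 * x ≤ x ^ 2 := by nlinarith
  have hx3 : 1000 * x ^ 2 ≤ x ^ 3 := by nlinarith [pow_pos hx0 2]
  have hx4 : 1000 * x ^ 3 ≤ x ^ 4 := by nlinarith [pow_pos hx0 3]
  have hx5 : 1000 * x ^ 4 ≤ x ^ 5 := by nlinarith [pow_pos hx0 4]
  have hinv : X ^ (-0.0001 : ℝ) ≤ 1 / 1000 := by
    rw [show (-0.0001 : ℝ) = -(0.0001 : ℝ) by norm_num, Real.rpow_neg hX0.le, ← hx]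
    rw [← one_div]
    exact one_div_le_one_div_of_le (by norm_num) hx1000
  refine ⟨?_, ?_, ?_, ?_, ?_, ?_, ?_, ?_, ?_, ?_⟩
  · have h1 : X ^ (0.6 : ℝ) ≤ X ^ (0.7 : ℝ) := hmono (by norm_num)
    have h2 : x ^ 4 * X ^ (0.7 : ℝ) ≤ X ^ (0.705 : ℝ) := by
      rw [hx, x_mul hX0]
      exact hmono (by norm_num)
    have h3 : (0 : ℝ) < X ^ (0.7 : ℝ) := by positivity
    have h4 : 9 * (K * L ^ 3) + 1 ≤ x ^ 4 := by nlinarith [pow_pos hx0 3]
    have h5 := mul_le_mul_of_nonneg_right h4 h3.le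
    nlinarith
  · have h2 : x ^ 2 * X ^ (0.705 : ℝ) ≤ X ^ (0.711 : ℝ) := by
      rw [hx, x_mul hX0]
      exact hmono (by norm_num)
    have h3 : (0 : ℝ) < X ^ (0.705 : ℝ) := by positivity
    have h4 : 3 * L ≤ x ^ 2 := by nlinarith
    have h5 := mul_le_mul_of_nonneg_right h4 h3.le
    linarith
  · have h1 : (X ^ (0.705 : ℝ)) ^ 2 = X ^ (1.41 : ℝ) := by
      rw [← Real.rpow_natCast, ← Real.rpow_mul hX0.le]; norm_num
    have h2 : x ^ 5 * X ^ (1.41 : ℝ) ≤ X ^ (1.45 : ℝ) := by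
      rw [hx, x_mul hX0]
      exact hmono (by norm_num)
    have h3 : (1 : ℝ) ≤ X ^ (1.41 : ℝ) := Real.one_le_rpow hX (by norm_num)
    have h4 : 180 * (K * L ^ 4) + 18 * L ^ 2 ≤ x ^ 5 := by nlinarith
    have h5 := mul_le_mul_of_nonneg_right h4 (by linarith : (0:ℝ) ≤ X ^ (1.41 : ℝ))
    have h6 : 2 * Real.pi ^ 2 * ((3 * L * 1) * (3 * L * (K * L ^ 2))) ≤ 180 * (K * L ^ 4) := by
      have h7 : 0 ≤ K * L ^ 4 := by positivity
      nlinarith [mul_le_mul_of_nonneg_right hpi h7]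
    have h7 : 180 * (K * L ^ 4) ≤ 180 * (K * L ^ 4) * X ^ (1.41 : ℝ) := by
      have h8 : 0 ≤ 180 * (K * L ^ 4) := by positivity
      nlinarith
    have h8 : 2 * (3 * L * X ^ (0.705 : ℝ)) ^ 2 = 18 * L ^ 2 * X ^ (1.41 : ℝ) := by
      rw [mul_pow, h1]; ring
    rw [h8]
    nlinarith
  · have h2 : x ^ 5 ≤ X ^ (0.9 : ℝ) := by
      rw [hx, pow_x hX0]
      exact hmono (by norm_num)
    nlinarith
  · have h1 : √(2 * ((3 * L * 1) * (3 * L * (K * L ^ 2))) / X) ≤ x ^ 3 * X ^ (-0.5 : ℝ) := by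
      apply Real.sqrt_le_iff.mpr
      constructor
      · positivity
      · have h2 : (x ^ 3 * X ^ (-0.5 : ℝ)) ^ 2 = x ^ 6 / X := by
          rw [mul_pow, ← pow_mul]
          have : (X ^ (-0.5 : ℝ)) ^ 2 = X⁻¹ := by
            rw [← Real.rpow_natCast, ← Real.rpow_mul hX0.le]
            norm_num
            rw [Real.rpow_neg_one]
          rw [this]; norm_num [div_eq_mul_inv]
        rw [h2]
        apply div_le_div_of_nonneg_right _ hX0.le
        have hx6 : 1000 * x ^ 5 ≤ x ^ 6 := by nlinarith [pow_pos hx0 5]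
        nlinarith [pow_pos hx0 5]
    have h2 : X ^ (-0.5 : ℝ) ≤ X ^ (-0.35 : ℝ) := hmono (by norm_num)
    have h3 : x ^ 4 * X ^ (-0.35 : ℝ) ≤ X ^ (-0.34 : ℝ) := by
      rw [hx, x_mul hX0]
      exact hmono (by norm_num)
    have h4 : (0 : ℝ) < X ^ (-0.35 : ℝ) := by positivity
    have h5 : 3 * L + 3 * x ^ 3 ≤ x ^ 4 := by nlinarith [pow_pos hx0 2]
    have h6 := mul_le_mul_of_nonneg_right h5 h4.le
    have h7 : x ^ 3 * X ^ (-0.5 : ℝ) ≤ x ^ 3 * X ^ (-0.35 : ℝ) :=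
      mul_le_mul_of_nonneg_left h2 (by positivity)
    linarith
  · have h1 : X ^ (-0.34 : ℝ) ≤ X ^ (-0.0001 : ℝ) := hmono (by norm_num)
    linarith
  · have h1 : X * x ≤ X ^ (1.02 : ℝ) := by
      have h2 : X * x = X ^ (1.0001 : ℝ) := by
        rw [hx]
        nth_rewrite 1 [← Real.rpow_one X]
        rw [← Real.rpow_add hX0]; norm_num
      rw [h2]
      exact hmono (by norm_num)
    nlinarith
  · have h1 : (X ^ (0.711 : ℝ)) ^ 2 = X ^ (1.422 : ℝ) := by
      rw [← Real.rpow_natCast, ← Real.rpow_mul hX0.le]; norm_num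
    have h2 : x ^ 4 * X ^ (1.422 : ℝ) ≤ X ^ (1.45 : ℝ) := by
      rw [hx, x_mul hX0]
      exact hmono (by norm_num)
    have h3 : X ^ (0.68 : ℝ) ≤ X ^ (1.422 : ℝ) := hmono (by norm_num)
    have h4 : 180 * (K * L ^ 2) + 2 ≤ x ^ 4 := by nlinarith [pow_pos hx0 3]
    have h5 : (0 : ℝ) < X ^ (1.422 : ℝ) := by positivity
    have h6 := mul_le_mul_of_nonneg_right h4 h5.le
    have h7 : 2 * Real.pi ^ 2 * ((3 * X ^ (0.68 : ℝ)) * (3 * (K * L ^ 2))) ≤
        180 * (K * L ^ 2) * X ^ (1.422 : ℝ) := by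
      have h8 : 0 ≤ K * L ^ 2 := by positivity
      have h9 : (0 : ℝ) < X ^ (0.68 : ℝ) := by positivity
      calc 2 * Real.pi ^ 2 * ((3 * X ^ (0.68 : ℝ)) * (3 * (K * L ^ 2)))
          = 18 * Real.pi ^ 2 * (K * L ^ 2) * X ^ (0.68 : ℝ) := by ring
        _ ≤ 18 * 10 * (K * L ^ 2) * X ^ (1.422 : ℝ) := by gcongr
        _ = _ := by ring
    rw [h1]
    linarith
  · have h2 : x ^ 4 * X ^ (0.68 : ℝ) ≤ X ^ (0.9 : ℝ) := by
      rw [hx, x_mul hX0]
      exact hmono (by norm_num)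
    have h4 : 9 * (K * L ^ 2) ≤ x ^ 4 := by nlinarith [pow_pos hx0 3]
    have h5 : (0 : ℝ) < X ^ (0.68 : ℝ) := by positivity
    have h6 := mul_le_mul_of_nonneg_right h4 h5.le
    linarith
  · have h1 : X ^ (-0.01 : ℝ) ≤ X ^ (-0.0001 : ℝ) := hmono (by norm_num)
    linarith

lemma exists_k₀ {n : ℕ} (hn : 0 < n) (hL : 2 ≤ Real.log n) :
    ∃ k₀ : ℕ, (k₀ : ℝ) ≤ 3 * Real.log n ∧ (2 : ℝ) * n < 2 ^ k₀ := by
  have hnR : (0 : ℝ) < n := by exact_mod_cast hn
  have hl2 := Real.log_two_gt_d9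
  have hl2' := Real.log_two_lt_d9
  set r : ℝ := Real.log (2 * n) / Real.log 2 with hr
  have hlog : Real.log (2 * n) = Real.log 2 + Real.log n := Real.log_mul (by norm_num) hnR.ne'
  have hr0 : 0 ≤ r := by
    rw [hr, hlog]
    positivity
  refine ⟨⌊r⌋₊ + 1, ?_, ?_⟩
  · have h1 : (⌊r⌋₊ : ℝ) ≤ r := Nat.floor_le hr0
    push_cast
    have h2 : r ≤ 1 + Real.log n / 0.69 := by
      rw [hr, hlog, add_div, div_self (by positivity)]
      have : Real.log n / Real.log 2 ≤ Real.log n / 0.69 := by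
        apply div_le_div_of_nonneg_left (by linarith) (by norm_num)
        linarith
      linarith
    have h3 : Real.log n / 0.69 ≤ 1.45 * Real.log n := by
      rw [div_le_iff₀ (by norm_num)]
      nlinarith
    linarith
  · have h1 : r < ⌊r⌋₊ + 1 := Nat.lt_floor_add_one r
    have h2 : Real.log (2 * n) < (⌊r⌋₊ + 1) * Real.log 2 := by
      rwa [hr, div_lt_iff₀ (by positivity)] at h1
    have h3 : (0 : ℝ) < 2 * n := by positivity
    rw [← Real.log_lt_log_iff h3 (by positivity), Real.log_pow]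
    push_cast
    exact h2

end WitM

/-- Module Wit. -/
theorem wit (hW : WelchStatement) (hR : SmallStatement) : WitnessStatement := by
  intro K₀
  set K : ℝ := max K₀ 1 with hKdef
  have hK : 1 ≤ K := le_max_right _ _
  have hcast : Tendsto (fun n : ℕ => (n : ℝ)) atTop atTop := tendsto_natCast_atTop_atTop
  have hx : ∀ᶠ n : ℕ in atTop, 1000 * K ≤ (n : ℝ) ^ (0.0001 : ℝ) :=
    ((tendsto_rpow_atTop (by norm_num)).comp hcast).eventually_ge_atTop _
  have hlog : ∀ᶠ n : ℕ in atTop, Real.log n ≤ (n : ℝ) ^ (0.0001 : ℝ) := by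
    have h1 := (isLittleO_log_rpow_atTop (r := 0.0001) (by norm_num)).bound
      (by norm_num : (0 : ℝ) < 1)
    filter_upwards [hcast.eventually h1] with n hn
    rw [one_mul] at hn
    exact (le_abs_self _).trans (hn.trans (by
      rw [Real.norm_eq_abs, abs_of_nonneg (by positivity)]))
  have hlog2 : ∀ᶠ n : ℕ in atTop, 2 ≤ Real.log n :=
    (Real.tendsto_log_atTop.comp hcast).eventually_ge_atTop _
  filter_upwards [hW, hR, hx, hlog, hlog2, eventually_gt_atTop 0] with n hWn hRn hxn hln hl2 hn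
  intro q _ hq N
  have hnR : (1 : ℝ) ≤ n := by exact_mod_cast hn
  obtain ⟨N2, N3, N4, N5, N6, N7, N8, N9, N10, N11⟩ :=
    WitM.numerics hnR hK (by linarith : 1 ≤ Real.log n) hxn hln
  obtain ⟨k₀, hk₀, hk₀'⟩ := WitM.exists_k₀ hn hl2
  obtain ⟨k, xs, M₁, hwit⟩ := WitM.main hn N K (Real.log n) k₀ hK (by linarith) rfl
    (hWn q hq N) (hRn q N) hk₀ hk₀' N2 N3 N4 N5 N6 N7 N8 N9 N10 N11
  refine ⟨k, xs, M₁, hwit.cardM, hwit.sup, ?_, hwit.rank⟩
  intro M hM hMc x hx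
  refine hwit.repr M hM hMc x (hx.trans ?_)
  exact mul_le_mul_of_nonneg_right (le_max_left _ _) (sq_nonneg _)

end

end Pool.Agent.Lib.MP_185394_co.Up
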