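import Pool.Agent.Lib.MP_185394_co.Up.Analytic
import Pool.Agent.Lib.MP_185394_co.Up.Classes
import Pool.Agent.Lib.MP_185394_co.Up.Conc
import Pool.Agent.Lib.MP_185394_co.Up.Dich
import Pool.Agent.Lib.MP_185394_co.Up.Ext
import Pool.Agent.Lib.MP_185394_co.Up.Final
import Pool.Agent.Lib.MP_185394_co.Up.Gauge
import Pool.Agent.Lib.MP_185394_co.Up.High
import Pool.Agent.Lib.MP_185394_co.Up.Inversion
import Pool.Agent.Lib.MP_185394_co.Up.LightClose
import Pool.Agent.Lib.MP_185394_co.Up.Narrow
import Pool.Agent.Lib.MP_185394_co.Up.Phase
import Pool.Agent.Lib.MP_185394_co.Up.Point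
import Pool.Agent.Lib.MP_185394_co.Up.Small
import Pool.Agent.Lib.MP_185394_co.Up.Struct
import Pool.Agent.Lib.MP_185394_co.Up.Tilt
import Pool.Agent.Lib.MP_185394_co.Up.Upper
import Pool.Agent.Lib.MP_185394_co.Up.Welch
import Pool.Agent.Lib.MP_185394_co.Up.Witness

/-! Assembly: every Latin square of large order `n` has a `2⌊n/4⌋`-plex. -/

namespace Pool.Agent.Lib.MP_185394_co.Up

theorem welch_main : WelchStatement := welch dich_refined dich_trans

theorem class_main : ClassStatement := classes welch_main dich_trans

theorem lightClose_main : LightCloseStatement := lightClose dich_mean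

theorem upper_main : UpperStatement :=
  upper conc class_main lightClose_main point ext high

theorem analytic_main : AnalyticStatement :=
  analytic inversion upper_main conc lightClose_main phase

theorem witness_main : WitnessStatement := wit welch_main (small dich_mean)

theorem tilt_main : TiltStatement := tilt witness_main (struct gauge) narrow

theorem main : FinalStatement := final analytic_main tilt_main

end Pool.Agent.Lib.MP_185394_co.Up
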