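import Pool.Agent.Lib.MP_185394_co.Up.Interfaces
import Pool.Agent.Lib.MP_185394_co.Up.Asymp

/-! Coordinatewise minimal points: small gradient, and minimal representatives of the classes. -/

namespace Pool.Agent.Lib.MP_185394_co.Up

open Finset Filter

noncomputable section

variable {n q : ℕ} [NeZero q]

/-! ### changing one coordinate -/

lemma NT_update (hn : 4 ≤ n) (x : Pt n q) (v : Line n) (t : ZMod q) :
    NT (Function.update x v t - x) := by
  classical
  unfold NT mean
  have hn0 : (0 : ℝ) < n := by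
    have : 0 < n := by omega
    exact_mod_cast this
  have hn4 : (4 : ℝ) ≤ n := by exact_mod_cast hn
  rw [norm_div, Complex.norm_natCast, le_div_iff₀ hn0]
  have h1 : ∀ w : Fin n, ‖ph ((Function.update x v t - x) (0, w)) - 1‖ ≤
      if v = (0, w) then 2 else 0 := by
    intro w
    split_ifs with h
    · calc ‖ph ((Function.update x v t - x) (0, w)) - 1‖
          ≤ ‖ph ((Function.update x v t - x) (0, w))‖ + ‖(1 : ℂ)‖ := norm_sub_le _ _
        _ = 2 := by rw [norm_ph, norm_one]; norm_num
    · rw [Pi.sub_apply, Function.update_of_ne (Ne.symm h), sub_self, ph_zero, sub_self, norm_zero]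
  have h2 : ‖∑ w : Fin n, (ph ((Function.update x v t - x) (0, w)) - 1)‖ ≤ 2 := by
    calc ‖∑ w : Fin n, (ph ((Function.update x v t - x) (0, w)) - 1)‖
        ≤ ∑ w : Fin n, ‖ph ((Function.update x v t - x) (0, w)) - 1‖ := norm_sum_le _ _
      _ ≤ ∑ w : Fin n, (if v = (0, w) then (2 : ℝ) else 0) := Finset.sum_le_sum fun w _ => h1 w
      _ ≤ ∑ w : Fin n, (if v.2 = w then (2 : ℝ) else 0) := by
          refine Finset.sum_le_sum fun w _ => ?_
          by_cases h : v = (0, w)
          · rw [if_pos h, if_pos (by rw [h])]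
          · rw [if_neg h]
            split_ifs <;> norm_num
      _ = 2 := by simp
  rw [Finset.sum_sub_distrib] at h2
  simp only [Finset.sum_const, Finset.card_univ, Fintype.card_fin, nsmul_eq_mul, mul_one] at h2
  have h3 : ‖(n : ℂ)‖ ≤ ‖∑ w : Fin n, ph ((Function.update x v t - x) (0, w))‖ +
      ‖∑ w : Fin n, ph ((Function.update x v t - x) (0, w)) - n‖ := by
    have := norm_sub_le (∑ w : Fin n, ph ((Function.update x v t - x) (0, w)))
      (∑ w : Fin n, ph ((Function.update x v t - x) (0, w)) - n)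
    rwa [sub_sub_cancel] at this
  rw [Complex.norm_natCast] at h3
  linarith

lemma NT_sub_self (hn : 0 < n) (x : Pt n q) : NT (x - x) := by
  rw [sub_self]; exact NT_zero hn

omit [NeZero q] in
/-- value of `y` after changing one coordinate -/
lemma y_update (N : Net n) (x : Pt n q) (v : Line n) (s : ZMod q) (e : Cell n) :
    N.y (Function.update x v (x v + s)) e = N.y x e + if e ∈ N.on v then s else 0 := by
  classical
  have h : Function.update x v (x v + s) = x + fun w => if w = v then s else 0 := by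
    funext w
    by_cases hw : w = v
    · subst hw; simp
    · simp [hw]
  rw [h, y_add]
  congr 1
  unfold Net.y
  have h2 : ∀ i : Fin 3, (if N.ln i e = v then s else 0) =
      if i = v.1 then (if e ∈ N.on v then s else 0) else 0 := by
    intro i
    by_cases hi : i = v.1
    · rw [if_pos hi]
      subst hi
      simp only [mem_on]
    · rw [if_neg hi, if_neg]
      intro h
      exact hi (congrArg Prod.fst h)
  simp only [h2, Finset.sum_ite_eq', Finset.mem_univ, if_true]

/-- energy after changing one coordinate -/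
lemma en_update (N : Net n) (β : Cell n → ℝ) (x : Pt n q) (v : Line n) (s : ZMod q) :
    N.en β (Function.update x v (x v + s)) - N.en β x =
      ((1 - ph s) * ∑ e ∈ N.on v, (β e : ℂ) * ph (N.y x e)).re := by
  classical
  unfold Net.en
  rw [← Finset.sum_sub_distrib]
  have h1 : ∀ e, β e * cst (N.y (Function.update x v (x v + s)) e) - β e * cst (N.y x e) =
      if e ∈ N.on v then ((1 - ph s) * ((β e : ℂ) * ph (N.y x e))).re else 0 := by
    intro e
    rw [y_update]
    by_cases he : e ∈ N.on v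
    · rw [if_pos he, if_pos he, cst_eq, cst_eq, ph_add]
      have : (1 - ph s) * ((β e : ℂ) * ph (N.y x e)) =
          (β e : ℂ) * (ph (N.y x e) - ph (N.y x e) * ph s) := by ring
      rw [this, Complex.re_ofReal_mul, Complex.sub_re]
      ring
    · rw [if_neg he, if_neg he, add_zero, sub_self]
  rw [Finset.sum_congr rfl fun e _ => h1 e, Finset.sum_ite_mem, Finset.univ_inter,
    ← Complex.re_sum, ← Finset.mul_sum]

lemma ph_one : ph (1 : ZMod q) = Complex.exp (((2 * Real.pi / q : ℝ) : ℂ) * Complex.I) := by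
  have h := lift_of_int (1 : ZMod q) 1 (by simp)
  rw [ph_eq_of_lift h]
  congr 1
  push_cast
  ring

/-- the gradient at a coordinatewise minimal point is small -/
lemma grad_le_of_coordMin (N : Net n) {β : Cell n → ℝ} (hβ : ∀ e, 0 ≤ β e) (hq : 4 ≤ q)
    {x : Pt n q} (hx : N.CoordMin β x) (v : Line n) :
    |N.grad β x v| ≤ 5 / q * ∑ e ∈ N.on v, β e := by
  classical
  set w : ℂ := ∑ e ∈ N.on v, (β e : ℂ) * ph (N.y x e) with hw
  set B : ℝ := ∑ e ∈ N.on v, β e with hB
  have hB0 : 0 ≤ B := Finset.sum_nonneg fun e _ => hβ e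
  have him : w.im = N.grad β x v := by
    rw [hw, Complex.im_sum]
    unfold Net.grad
    exact Finset.sum_congr rfl fun e _ => by rw [Complex.im_ofReal_mul, ph_im]
  have hre : w.re ≤ B := by
    rw [hw, Complex.re_sum, hB]
    refine Finset.sum_le_sum fun e _ => ?_
    rw [Complex.re_ofReal_mul, ph_re]
    exact mul_le_of_le_one_right (hβ e) (Real.cos_le_one _)
  have hq0 : (0 : ℝ) < q := q_pos'
  have hq4 : (4 : ℝ) ≤ q := by exact_mod_cast hq
  set θ : ℝ := 2 * Real.pi / q with hθ
  have hθ0 : 0 < θ := by positivity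
  have hθ1 : θ ≤ Real.pi / 2 := by
    rw [hθ, div_le_div_iff₀ hq0 (by norm_num)]
    nlinarith [Real.pi_pos]
  have hsin : 2 / Real.pi * θ ≤ Real.sin θ := Real.mul_le_sin hθ0.le hθ1
  have hsin' : 4 / q ≤ Real.sin θ := by
    refine le_trans (le_of_eq ?_) hsin
    rw [hθ]
    field_simp
    ring
  have hcos : 1 - Real.cos θ ≤ θ ^ 2 / 2 := by
    have := Real.one_sub_sq_div_two_le_cos (x := θ)
    linarith
  have hph : ph (1 : ZMod q) = (Real.cos θ : ℂ) + Real.sin θ * Complex.I := by
    rw [ph_one, Complex.exp_mul_I, Complex.ofReal_cos, Complex.ofReal_sin]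
  have hphm : ph (-1 : ZMod q) = (Real.cos θ : ℂ) - Real.sin θ * Complex.I := by
    rw [ph_neg, hph]
    simp only [map_add, map_mul, Complex.conj_ofReal, Complex.conj_I]
    ring
  have h1 := hx v (x v + 1)
  have h2 := hx v (x v + -1)
  have e1 := en_update N β x v 1
  have e2 := en_update N β x v (-1)
  rw [← hw, hph] at e1
  rw [← hw, hphm] at e2
  have r1 : ((1 - ((Real.cos θ : ℂ) + Real.sin θ * Complex.I)) * w).re =
      (1 - Real.cos θ) * w.re + Real.sin θ * w.im := by
    simp only [Complex.mul_re, Complex.sub_re, Complex.one_re, Complex.add_re, Complex.ofReal_re,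
      Complex.ofReal_im, Complex.I_re, Complex.I_im, Complex.sub_im, Complex.one_im,
      Complex.add_im, Complex.mul_im]
    ring
  have r2 : ((1 - ((Real.cos θ : ℂ) - Real.sin θ * Complex.I)) * w).re =
      (1 - Real.cos θ) * w.re - Real.sin θ * w.im := by
    simp only [Complex.mul_re, Complex.sub_re, Complex.one_re, Complex.ofReal_re,
      Complex.ofReal_im, Complex.I_re, Complex.I_im, Complex.sub_im, Complex.one_im,
      Complex.mul_im]
    ring
  rw [r1] at e1
  rw [r2] at e2
  have hc0 : 0 ≤ 1 - Real.cos θ := by linarith [Real.cos_le_one θ]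
  have key : Real.sin θ * |w.im| ≤ θ ^ 2 / 2 * B := by
    have hb : (1 - Real.cos θ) * w.re ≤ θ ^ 2 / 2 * B :=
      (mul_le_mul_of_nonneg_left hre hc0).trans (mul_le_mul_of_nonneg_right hcos hB0)
    rcases abs_cases w.im with ⟨h, _⟩ | ⟨h, _⟩ <;> rw [h] <;> nlinarith
  rw [← him]
  have h3 : 4 / q * |w.im| ≤ θ ^ 2 / 2 * B :=
    (mul_le_mul_of_nonneg_right hsin' (abs_nonneg _)).trans key
  have h4 : θ ^ 2 / 2 ≤ 4 / q * (5 / q) := by
    rw [hθ]
    have : (2 * Real.pi / q) ^ 2 / 2 = (2 * Real.pi ^ 2) / (q * q) := by ring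
    rw [this]
    have h5 : (4 : ℝ) / q * (5 / q) = 20 / (q * q) := by ring
    rw [h5]
    refine div_le_div_of_nonneg_right ?_ (by positivity)
    have := Real.pi_lt_d2
    nlinarith [Real.pi_pos]
  have h6 : 4 / q * |w.im| ≤ 4 / q * (5 / q * B) := by
    calc 4 / (q:ℝ) * |w.im| ≤ θ ^ 2 / 2 * B := h3
      _ ≤ 4 / q * (5 / q) * B := mul_le_mul_of_nonneg_right h4 hB0
      _ = 4 / q * (5 / q * B) := by ring
  exact le_of_mul_le_mul_left h6 (by positivity)

/-! ### minimal representatives -/

/-- minimal representative of a class -/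
lemma exists_minRep (hn : 4 ≤ n) (N : Net n) (E : Pt n q → ℝ) (b : ℝ)
    (hE : ∀ x, E x ≤ b → N.full x ≤ (n : ℝ) ^ (1.45 : ℝ))
    (hT : ∀ x x' x'' : Pt n q, N.full x ≤ (n : ℝ) ^ (1.45 : ℝ) →
      N.full x' ≤ (n : ℝ) ^ (1.45 : ℝ) → N.full x'' ≤ (n : ℝ) ^ (1.45 : ℝ) →
      NT (x - x') → NT (x' - x'') → NT (x - x''))
    (x : Pt n q) (hx : E x ≤ b) :
    ∃ r : Pt n q, E r ≤ b ∧ NT (r - x) ∧ (∀ v t, E r ≤ E (Function.update r v t)) ∧
      ∀ x', E x' ≤ b → NT (x' - x) → E r ≤ E x' := by
  classical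
  obtain ⟨r, hr, hmin⟩ := Finset.exists_min_image
    (univ.filter fun x' : Pt n q => E x' ≤ b ∧ NT (x' - x)) E
    ⟨x, by simp [hx, NT_zero (by omega : 0 < n)]⟩
  simp only [mem_filter, mem_univ, true_and] at hr hmin
  refine ⟨r, hr.1, hr.2, ?_, fun x' h1 h2 => hmin x' ⟨h1, h2⟩⟩
  intro v t
  by_contra hlt
  push Not at hlt
  have hb : E (Function.update r v t) ≤ b := hlt.le.trans hr.1
  have hnt : NT (Function.update r v t - x) :=
    hT _ r x (hE _ hb) (hE _ hr.1) (hE _ hx) (NT_update hn r v t) hr.2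
  exact absurd (hmin _ ⟨hb, hnt⟩) (not_le.mpr hlt)

end

end Pool.Agent.Lib.MP_185394_co.Up
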