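import Pool.Agent.Lib.MP_185394_co.Up.Interfaces
import Pool.Agent.Lib.MP_185394_co.Up.Asymp
import Pool.Agent.Lib.MP_185394_co.Up.Coord

/-! Module P: pointwise bound near a coordinatewise minimal point. -/

namespace Pool.Agent.Lib.MP_185394_co.Up

open Finset Filter Coord

noncomputable section

/-- `|sin b - b| ≤ |b|³ / 4` for `|b| ≤ 1` -/
lemma abs_sin_sub_le {b : ℝ} (hb : |b| ≤ 1) : |Real.sin b - b| ≤ |b| ^ 3 / 4 := by
  have h := Real.sin_bound hb
  have h1 : Real.sin b - b = (Real.sin b - (b - b ^ 3 / 6)) + (-(b ^ 3 / 6)) := by ring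
  have h2 : |-(b ^ 3 / 6)| = |b| ^ 3 / 6 := by
    rw [abs_neg, abs_div, abs_pow]; norm_num
  have h3 : |b| ^ 5 ≤ |b| ^ 3 := pow_le_pow_of_le_one (abs_nonneg b) hb (by norm_num)
  calc |Real.sin b - b| ≤ |Real.sin b - (b - b ^ 3 / 6)| + |-(b ^ 3 / 6)| := by
        rw [h1]; exact abs_add_le _ _
    _ ≤ |b| ^ 5 / 100 + |b| ^ 3 / 6 := by rw [h2]; linarith
    _ ≤ |b| ^ 3 / 4 := by
        have : 0 ≤ |b| ^ 3 := by positivity
        linarith

/-- the pointwise inequality -/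
lemma point_aux {a b b₀ : ℝ} (hb : |b| ≤ b₀) (hb₀ : b₀ ≤ 1 / 10) :
    0.99 * (1 - Real.cos a) + (1 - Real.cos b) + Real.sin a * b - 6.25 * b₀ ^ 6 ≤
      1 - Real.cos (a + b) := by
  have hb0 : 0 ≤ b₀ := (abs_nonneg b).trans hb
  rw [Real.cos_add]
  have hca : 0 ≤ 1 - Real.cos a := by linarith [Real.cos_le_one a]
  have hcb : 0 ≤ 1 - Real.cos b := by linarith [Real.cos_le_one b]
  have hb2 : 1 - Real.cos b ≤ 0.005 := by
    have h1 := Real.one_sub_sq_div_two_le_cos (x := b)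
    have h2 : b ^ 2 ≤ (1 / 10) ^ 2 := by
      rw [← sq_abs b]
      exact pow_le_pow_left₀ (abs_nonneg b) (hb.trans hb₀) 2
    nlinarith
  have h1 : (1 - Real.cos a) * (1 - Real.cos b) ≤ 0.005 * (1 - Real.cos a) := by
    rw [mul_comm]; exact mul_le_mul_of_nonneg_right hb2 hca
  have hs := abs_sin_sub_le (b := b) (hb.trans (by linarith))
  have h2 : |Real.sin a * (Real.sin b - b)| ≤ 0.005 * (1 - Real.cos a) + 6.25 * b₀ ^ 6 := by
    rw [abs_mul]
    have h3 : |b| ^ 3 ≤ b₀ ^ 3 := pow_le_pow_left₀ (abs_nonneg b) hb 3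
    have h4 : |Real.sin a| * |Real.sin b - b| ≤ |Real.sin a| * (b₀ ^ 3 / 4) :=
      mul_le_mul_of_nonneg_left (by linarith) (abs_nonneg _)
    have h5 : |Real.sin a| * (b₀ ^ 3 / 4) ≤ 0.0025 * Real.sin a ^ 2 + 6.25 * b₀ ^ 6 := by
      rw [← sq_abs (Real.sin a)]
      nlinarith [sq_nonneg (0.05 * |Real.sin a| - 2.5 * b₀ ^ 3)]
    have h6 : Real.sin a ^ 2 ≤ 2 * (1 - Real.cos a) := by
      have := Real.sin_sq_add_cos_sq a
      nlinarith [Real.neg_one_le_cos a, Real.cos_le_one a]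
    linarith
  have h7 := (abs_le.mp h2).1
  nlinarith

theorem point : PointStatement := by
  have e1 := Asymp.mul_rpow_neg_le (6 * Real.pi) (a := -0.39) (c := 1 / 10) (by norm_num)
    (by norm_num)
  have e2 := Asymp.mul_rpow_neg_le (6.25 / 4 * (6 * Real.pi) ^ 6) (a := -0.34) (c := 0.01)
    (by norm_num) (by norm_num)
  filter_upwards [e1, e2, eventually_ge_atTop 10] with n h1 h2 hn
  intro q _ hq N β hβ V hV r z ρ hρ hr hz
  obtain ⟨t, u, ht, hu, hun⟩ := hz
  have hn0 : (0 : ℝ) < n := by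
    have : 0 < n := by omega
    exact_mod_cast this
  have hn10 : (10 : ℝ) ≤ n := by exact_mod_cast hn
  have hq0 : (0 : ℝ) < q := q_pos'
  have hq3 : (n : ℝ) ^ 3 ≤ q := by exact_mod_cast hq
  have hq7 : 7 ≤ q := by
    refine le_trans ?_ hq
    calc 7 ≤ n := by omega
      _ ≤ n ^ 3 := Nat.le_self_pow (by norm_num) n
  -- the bound on the perturbation
  set ρ' := max ρ 0 with hρ'
  have hρ0 : 0 ≤ ρ' := le_max_right _ _
  have hρ1 : ρ' ≤ (n : ℝ) ^ (-0.39 : ℝ) := max_le hρ (Real.rpow_nonneg hn0.le _)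
  have hun' : ∀ v ∉ V, |u v| ≤ ρ' := fun v hv => (hun v hv).trans (le_max_left _ _)
  set b₀ := 6 * Real.pi * ρ' with hb₀
  have hπ := Real.pi_pos
  have hb00 : 0 ≤ b₀ := by positivity
  have hb1 : b₀ ≤ 1 / 10 := le_trans (mul_le_mul_of_nonneg_left hρ1 (by positivity)) h1
  have hb6 : 6.25 * b₀ ^ 6 * (n ^ 2 / 4) ≤ 0.01 := by
    have h3 : ρ' ^ 6 ≤ (n : ℝ) ^ (-2.34 : ℝ) := by
      calc ρ' ^ 6 ≤ ((n : ℝ) ^ (-0.39 : ℝ)) ^ 6 := pow_le_pow_left₀ hρ0 hρ1 6
        _ = (n : ℝ) ^ (-2.34 : ℝ) := by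
            rw [← Real.rpow_natCast, ← Real.rpow_mul hn0.le]; norm_num
    have h4 : (n : ℝ) ^ (-2.34 : ℝ) * n ^ 2 = (n : ℝ) ^ (-0.34 : ℝ) := by
      rw [← Real.rpow_natCast, ← Real.rpow_add hn0]; norm_num
    calc 6.25 * b₀ ^ 6 * (n ^ 2 / 4) = 6.25 / 4 * (6 * Real.pi) ^ 6 * (ρ' ^ 6 * n ^ 2) := by
          rw [hb₀]; ring
      _ ≤ 6.25 / 4 * (6 * Real.pi) ^ 6 * ((n : ℝ) ^ (-2.34 : ℝ) * n ^ 2) := by
          gcongr
      _ ≤ 0.01 := by rw [h4]; exact h2
  -- pointwise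
  have hpt : ∀ e, β e * (0.99 * cst (N.y r e) + cst (N.y z e) +
      2 * Real.pi * (Real.sin (2 * Real.pi * lift (N.y r e)) * N.A u e) - 6.25 * b₀ ^ 6) ≤
      β e * cst (N.y (r + z) e) := by
    intro e
    rcases eq_or_lt_of_le (hβ e).1 with h0 | h0
    · rw [← h0]; simp
    · refine mul_le_mul_of_nonneg_left ?_ h0.le
      have hln : ∀ i, N.ln i e ∉ V := fun i hi => h0.ne' (hV e i hi)
      have hA : |N.A u e| ≤ 3 * ρ' := by
        unfold Net.A
        refine (Finset.abs_sum_le_sum_abs _ _).trans ?_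
        refine (Finset.sum_le_sum fun i _ => hun' _ (hln i)).trans ?_
        simp
      have hz' := lift_y_of N z t u ht hu e
      have hcz : cst (N.y z e) = 1 - Real.cos (2 * Real.pi * N.A u e) := cst_eq_of_lift hz'
      have hrz : ∃ m : ℤ, lift (N.y (r + z) e) = (lift (N.y r e) + N.A u e) + m := by
        rw [y_add]
        obtain ⟨m, hm⟩ := lift_add (N.y r e) (N.y z e)
        obtain ⟨m', hm'⟩ := hz'
        exact ⟨m + m', by rw [hm, hm']; push_cast; ring⟩
      have hcrz := cst_eq_of_lift hrz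
      have h := point_aux (a := 2 * Real.pi * lift (N.y r e)) (b := 2 * Real.pi * N.A u e)
        (b₀ := b₀) (by
          rw [abs_mul, abs_of_pos (by positivity : (0:ℝ) < 2 * Real.pi), hb₀]
          calc 2 * Real.pi * |N.A u e| ≤ 2 * Real.pi * (3 * ρ') := by gcongr
            _ = 6 * Real.pi * ρ' := by ring) hb1
      rw [hcrz, hcz]
      rw [mul_add (2 * Real.pi)]
      unfold cst
      linarith
  have hsum := Finset.sum_le_sum fun e (_ : e ∈ univ) => hpt e
  -- the linear term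
  have hlin : |2 * Real.pi * ∑ e, (β e * Real.sin (2 * Real.pi * lift (N.y r e))) * N.A u e| ≤
      0.01 := by
    rw [sum_mul_A, abs_mul, abs_of_pos (by positivity : (0:ℝ) < 2 * Real.pi)]
    have hterm : ∀ v : Line n, |u v * ∑ e ∈ N.on v, β e * Real.sin (2 * Real.pi * lift (N.y r e))| ≤
        ρ' * (n / q) := by
      intro v
      rw [abs_mul]
      by_cases hv : v ∈ V
      · have : ∑ e ∈ N.on v, β e * Real.sin (2 * Real.pi * lift (N.y r e)) = 0 := by
          refine Finset.sum_eq_zero fun e he => ?_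
          rw [hV e v.1 (by rw [(mem_on N v e).mp he]; exact hv), zero_mul]
        rw [this, abs_zero, mul_zero]
        positivity
      · refine mul_le_mul (hun' v hv) ?_ (abs_nonneg _) hρ0
        have hg := grad_le_of_coordMin N (fun e => (hβ e).1) hr hq7 v
        refine hg.trans ?_
        gcongr
        calc 4 * ∑ e ∈ N.on v, β e ≤ 4 * ∑ _e ∈ N.on v, (1 / 4 : ℝ) := by
              gcongr with e he; exact (hβ e).2
          _ = n := by rw [Finset.sum_const, card_on, nsmul_eq_mul]; ring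
    calc 2 * Real.pi * |∑ v, u v * ∑ e ∈ N.on v, β e * Real.sin (2 * Real.pi * lift (N.y r e))|
        ≤ 2 * Real.pi * ∑ _v : Line n, ρ' * (n / q) := by
          refine mul_le_mul_of_nonneg_left ?_ (by positivity)
          exact (Finset.abs_sum_le_sum_abs _ _).trans (Finset.sum_le_sum fun v _ => hterm v)
      _ = b₀ * (n ^ 2 / q) := by
          rw [Finset.sum_const, Finset.card_univ, Fintype.card_prod, Fintype.card_fin,
            Fintype.card_fin, nsmul_eq_mul, hb₀]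
          push_cast; ring
      _ ≤ (1 / 10) * (1 / 10) := by
          refine mul_le_mul hb1 ?_ (by positivity) (by norm_num)
          rw [div_le_iff₀ hq0]
          have : (n : ℝ) ^ 2 * 10 ≤ n ^ 3 := by nlinarith [sq_nonneg (n : ℝ)]
          linarith
      _ = 0.01 := by norm_num
  have hlin' := (abs_le.mp hlin).1
  have hβsum : ∑ e, β e ≤ (n : ℝ) ^ 2 / 4 := by
    calc ∑ e, β e ≤ ∑ _e : Cell n, (1 / 4 : ℝ) := Finset.sum_le_sum fun e _ => (hβ e).2
      _ = (n : ℝ) ^ 2 / 4 := by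
          rw [Finset.sum_const, Finset.card_univ, Fintype.card_prod, Fintype.card_fin,
            nsmul_eq_mul]
          push_cast; ring
  have hexp : ∑ e, β e * (0.99 * cst (N.y r e) + cst (N.y z e) +
      2 * Real.pi * (Real.sin (2 * Real.pi * lift (N.y r e)) * N.A u e) - 6.25 * b₀ ^ 6) =
      0.99 * N.en β r + N.en β z +
      2 * Real.pi * ∑ e, (β e * Real.sin (2 * Real.pi * lift (N.y r e))) * N.A u e -
      6.25 * b₀ ^ 6 * ∑ e, β e := by
    unfold Net.en
    simp only [Finset.mul_sum, ← Finset.sum_add_distrib, ← Finset.sum_sub_distrib]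
    exact Finset.sum_congr rfl fun e _ => by ring
  rw [hexp] at hsum
  have hlast : 6.25 * b₀ ^ 6 * ∑ e, β e ≤ 0.01 :=
    (mul_le_mul_of_nonneg_left hβsum (by positivity)).trans hb6
  have hen := en_nonneg N (fun e => (hβ e).1) r
  have hgoal : N.en β (r + z) = ∑ e, β e * cst (N.y (r + z) e) := rfl
  rw [hgoal]
  linarith

end

end Pool.Agent.Lib.MP_185394_co.Up
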