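import Pool.Agent.Lib.MP_185394_co.Up.Interfaces

/-!
MP_185394_co, module St (helper10), abstract part: generators and functionals for a lattice of
dimension at most two modulo a subspace, with respect to the gauge `NH`.
-/

namespace Pool.Agent.Lib.MP_185394_co.Up

namespace StA

open Finset Filter

open scoped Classical

noncomputable section

/-- the gauge facts for fixed `ι`, `A`, `B` -/
structure GF (ι : Type) [Fintype ι] (A B : ℝ) : Prop where
  nn : ∀ (H : Submodule ℝ (ι → ℝ)) (v : ι → ℝ), 0 ≤ NH H A B v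
  tri : ∀ (H : Submodule ℝ (ι → ℝ)) (v w : ι → ℝ), NH H A B (v + w) ≤ NH H A B v + NH H A B w
  smul : ∀ (H : Submodule ℝ (ι → ℝ)) (c : ℝ) (v : ι → ℝ), NH H A B (c • v) = |c| * NH H A B v
  zero : ∀ (H : Submodule ℝ (ι → ℝ)) (v : ι → ℝ), NH H A B v = 0 ↔ v ∈ H
  mono : ∀ (H H' : Submodule ℝ (ι → ℝ)) (v : ι → ℝ), H ≤ H' → NH H' A B v ≤ NH H A B v
  adj : ∀ (H : Submodule ℝ (ι → ℝ)) (w v : ι → ℝ) (c : ℝ), (∀ s : ℝ, c ≤ NH H A B (v + s • w)) →
      c ≤ NH (H ⊔ Submodule.span ℝ {w}) A B v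
  ext : ∀ (H : Submodule ℝ (ι → ℝ)) (v : ι → ℝ) (c : ℝ), NH H A B v < c →
      ∃ h ∈ H, ∃ a b : ι → ℝ, (∀ e, v e + h e = a e + b e) ∧ A * ∑ e, |a e| < c ∧
        ∀ e, B * |b e| < c
  hb : ∀ (H : Submodule ℝ (ι → ℝ)) (v : ι → ℝ) (τ μ : ℝ), 0 ≤ μ → |τ| ≤ μ * NH H A B v →
      ∃ w : ι → ℝ, (∀ h ∈ H, ∑ e, w e * h e = 0) ∧ ∑ e, w e * v e = τ ∧
        (∀ e, |w e| ≤ μ * A) ∧ ∑ e, |w e| ≤ μ * B

theorem GF.of (h : GaugeStatement) (ι : Type) [Fintype ι] {A B : ℝ} (hA : 0 < A) (hB : 0 < B) :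
    GF ι A B := by
  obtain ⟨h1, h2, h3, h4, h5, h6, h7, h8⟩ := h ι A B hA hB
  exact ⟨h1, h2, h3, h4, h5, h6, h7, h8⟩

variable {ι : Type} [Fintype ι] {A B : ℝ}

theorem GF.neg (G : GF ι A B) (H : Submodule ℝ (ι → ℝ)) (v : ι → ℝ) :
    NH H A B (-v) = NH H A B v := by
  have h := G.smul H (-1) v
  simpa using h

theorem GF.le_add (G : GF ι A B) (H : Submodule ℝ (ι → ℝ)) (v w : ι → ℝ) :
    NH H A B v - NH H A B w ≤ NH H A B (v + w) := by
  have h := G.tri H (v + w) (-w)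
  rw [G.neg] at h
  have e : v + w + -w = v := by abel
  rw [e] at h
  linarith

theorem GF.add_mem (G : GF ι A B) (H : Submodule ℝ (ι → ℝ)) (v h : ι → ℝ) (hh : h ∈ H) :
    NH H A B (v + h) = NH H A B v := by
  have h0 := (G.zero H h).2 hh
  have h1 := G.tri H v h
  have h2 := G.le_add H v h
  linarith

theorem GF.pos (G : GF ι A B) (H : Submodule ℝ (ι → ℝ)) (v : ι → ℝ) (hv : v ∉ H) :
    0 < NH H A B v := by
  rcases lt_or_eq_of_le (G.nn H v) with h | h
  · exact h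
  · exact absurd ((G.zero H v).1 h.symm) hv

theorem abs_sub_round' (s : ℝ) : |s - (round s : ℤ)| ≤ 1 / 2 := abs_sub_round s

variable {Λ : Type} [AddCommGroup Λ]

theorem mem_sup_span {H : Submodule ℝ (ι → ℝ)} {w x : ι → ℝ}
    (hx : x ∈ H ⊔ Submodule.span ℝ {w}) : ∃ s : ℝ, x - s • w ∈ H := by
  obtain ⟨h, hh, y, hy, rfl⟩ := Submodule.mem_sup.1 hx
  obtain ⟨s, rfl⟩ := Submodule.mem_span_singleton.1 hy
  exact ⟨s, by simpa using hh⟩

theorem mem_sup_of {H : Submodule ℝ (ι → ℝ)} {w x : ι → ℝ} {s : ℝ}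
    (hx : x - s • w ∈ H) : x ∈ H ⊔ Submodule.span ℝ {w} := by
  have h1 : x = (x - s • w) + s • w := by abel
  rw [h1]
  exact Submodule.add_mem_sup hx (Submodule.smul_mem _ _ (Submodule.mem_span_singleton_self w))

/-- near minimal elements generate -/
theorem near_int (G : GF ι A B) (v : Λ →+ (ι → ℝ)) (H : Submodule ℝ (ι → ℝ)) (g : Λ)
    (hg : v g ∉ H) (hmin : ∀ j, v j ∉ H → NH H A B (v g) ≤ 1.1 * NH H A B (v j)) (j : Λ)
    (hj : v j ∈ H ⊔ Submodule.span ℝ {v g}) : ∃ m : ℤ, v (j - m • g) ∈ H := by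
  obtain ⟨s, hs⟩ := mem_sup_span hj
  refine ⟨round s, ?_⟩
  by_contra hne
  have h1 := hmin _ hne
  have h2 : v (j - round s • g) = (s - (round s : ℤ)) • v g + (v j - s • v g) := by
    rw [map_sub, map_zsmul, sub_smul]
    have : ((round s : ℤ) : ℝ) • v g = (round s) • v g := by
      rw [Int.cast_smul_eq_zsmul]
    rw [this]
    abel
  rw [h2, G.add_mem _ _ _ hs, G.smul] at h1
  have h3 := G.pos H _ hg
  have h4 := abs_sub_round' s
  nlinarith

/-- near minimal elements: lower bound after adjoining -/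
theorem near_low (G : GF ι A B) (v : Λ →+ (ι → ℝ)) (H : Submodule ℝ (ι → ℝ)) (g : Λ)
    (hmin : ∀ j, v j ∉ H → NH H A B (v g) ≤ 1.1 * NH H A B (v j)) (j : Λ)
    (hj : v j ∉ H ⊔ Submodule.span ℝ {v g}) :
    0.4 * NH H A B (v g) ≤ NH (H ⊔ Submodule.span ℝ {v g}) A B (v j) := by
  refine G.adj _ _ _ _ fun s => ?_
  have h2 : v j + s • v g = v (j + round s • g) + (s - (round s : ℤ)) • v g := by
    rw [map_add, map_zsmul, sub_smul]
    have : ((round s : ℤ) : ℝ) • v g = (round s) • v g := by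
      rw [Int.cast_smul_eq_zsmul]
    rw [this]
    abel
  have h3 : v (j + round s • g) ∉ H := by
    intro h
    apply hj
    rw [map_add, map_zsmul] at h
    refine mem_sup_of (s := -((round s : ℤ) : ℝ)) ?_
    rw [neg_smul, Int.cast_smul_eq_zsmul, sub_neg_eq_add]
    exact h
  have h4 := hmin _ h3
  have h5 := G.le_add H (v (j + round s • g)) ((s - (round s : ℤ)) • v g)
  rw [G.smul] at h5
  rw [h2]
  have h6 := abs_sub_round' s
  have h7 := G.nn H (v g)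
  nlinarith

/-- existence of near minimal elements -/
theorem exists_near (G : GF ι A B) (v : Λ →+ (ι → ℝ)) (H : Submodule ℝ (ι → ℝ)) (P : Set Λ)
    (hP : P.Nonempty) (c : ℝ) (hc : 0 < c) (hlow : ∀ j ∈ P, c ≤ NH H A B (v j)) :
    ∃ g ∈ P, ∀ j ∈ P, NH H A B (v g) ≤ 1.1 * NH H A B (v j) := by
  set S := (fun j => NH H A B (v j)) '' P with hS
  have hne : S.Nonempty := hP.image _
  have hbd : BddBelow S := ⟨c, by rintro _ ⟨j, hj, rfl⟩; exact hlow j hj⟩
  have hinf : c ≤ sInf S := le_csInf hne (by rintro _ ⟨j, hj, rfl⟩; exact hlow j hj)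
  have hlt : sInf S < 1.1 * sInf S := by nlinarith
  obtain ⟨_, ⟨g, hg, rfl⟩, hgl⟩ := exists_lt_of_csInf_lt hne hlt
  refine ⟨g, hg, fun j hj => ?_⟩
  have h1 : sInf S ≤ NH H A B (v j) := csInf_le hbd ⟨j, hj, rfl⟩
  have h2 : NH H A B (v g) < 1.1 * sInf S := hgl
  linarith

/-- one Hahn-Banach step -/
theorem hb_step (G : GF ι A B) (v : Λ →+ (ι → ℝ)) (H : Submodule ℝ (ι → ℝ)) (c : ℝ) (hc : 0 < c)
    (hlow : ∀ j, v j ∉ H → c ≤ NH H A B (v j)) (ℓ : Λ →+ ℝ)
    (hℓ : ∀ j, v j ∈ H → ∃ m : ℤ, ℓ j = m) (hex : ∃ j, v j ∉ H) :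
    ∃ g, v g ∉ H ∧ (∀ j, v j ∉ H → NH H A B (v g) ≤ 1.1 * NH H A B (v j)) ∧
      ∃ w : ι → ℝ, (∀ h ∈ H, ∑ e, w e * h e = 0) ∧ (∀ e, |w e| ≤ 1 / (2 * c) * A) ∧
        ∑ e, |w e| ≤ 1 / (2 * c) * B ∧
        ∀ j, v j ∈ H ⊔ Submodule.span ℝ {v g} → ∃ m : ℤ, ∑ e, w e * v j e = ℓ j + m := by
  obtain ⟨g, hg, hmin⟩ := exists_near G v H {j | v j ∉ H} hex c hc hlow
  refine ⟨g, hg, hmin, ?_⟩
  have h1 : |ℓ g - (round (ℓ g) : ℤ)| ≤ 1 / (2 * c) * NH H A B (v g) := by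
    refine (abs_sub_round' _).trans ?_
    have h2 := hlow g hg
    rw [div_mul_eq_mul_div, le_div_iff₀ (by positivity)]
    linarith
  obtain ⟨w, hw1, hw2, hw3, hw4⟩ := G.hb H (v g) _ _ (by positivity) h1
  refine ⟨w, hw1, hw3, hw4, fun j hj => ?_⟩
  obtain ⟨m, hm⟩ := near_int G v H g hg hmin j hj
  obtain ⟨r, hr⟩ := hℓ _ hm
  refine ⟨-(r + m * round (ℓ g)), ?_⟩
  have h3 := hw1 _ hm
  have h4 : ∑ e, w e * v (j - m • g) e = ∑ e, w e * v j e - m * ∑ e, w e * v g e := by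
    rw [Finset.mul_sum, ← Finset.sum_sub_distrib]
    refine Finset.sum_congr rfl fun e _ => ?_
    rw [map_sub, map_zsmul, Pi.sub_apply, Pi.smul_apply, zsmul_eq_mul]
    ring
  rw [h4, hw2] at h3
  rw [map_sub, map_zsmul, zsmul_eq_mul] at hr
  push_cast
  linarith

/-- the subspace spanned by the narrow vectors -/
def VN (A B : ℝ) (v : Λ →+ (ι → ℝ)) (H : Submodule ℝ (ι → ℝ)) : Submodule ℝ (ι → ℝ) :=
  H ⊔ Submodule.span ℝ {x | ∃ j, v j = x ∧ NH H A B x < 5 / 2}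

theorem VN_le {v : Λ →+ (ι → ℝ)} {H W : Submodule ℝ (ι → ℝ)} (h : H ≤ W)
    (h2 : ∀ j, NH H A B (v j) < 5 / 2 → v j ∈ W) : VN A B v H ≤ W := by
  refine sup_le h (Submodule.span_le.2 ?_)
  rintro _ ⟨j, rfl, hj⟩
  exact h2 j hj

theorem mem_VN {v : Λ →+ (ι → ℝ)} {H : Submodule ℝ (ι → ℝ)} {j : Λ}
    (h : NH H A B (v j) < 5 / 2) : v j ∈ VN A B v H :=
  Submodule.mem_sup_right (Submodule.subset_span ⟨j, rfl, h⟩)

theorem le_VN {v : Λ →+ (ι → ℝ)} {H : Submodule ℝ (ι → ℝ)} : H ≤ VN A B v H := le_sup_left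

theorem VN_mono (G : GF ι A B) {v : Λ →+ (ι → ℝ)} {H H' : Submodule ℝ (ι → ℝ)} (h : H ≤ H') :
    VN A B v H ≤ VN A B v H' :=
  VN_le (h.trans le_VN) fun _ hj => mem_VN (lt_of_le_of_lt (G.mono _ _ _ h) hj)

/-- the dimension hypothesis -/
def Dim2 (v : Λ →+ (ι → ℝ)) (H : Submodule ℝ (ι → ℝ)) : Prop :=
  ∀ g₁ g₂ j, v g₁ ∉ H → v g₂ ∉ H ⊔ Submodule.span ℝ {v g₁} →
    v j ∈ H ⊔ Submodule.span ℝ {v g₁} ⊔ Submodule.span ℝ {v g₂}

/-- a near minimal narrow element is near minimal -/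
theorem exists_narrow (G : GF ι A B) (v : Λ →+ (ι → ℝ)) (H : Submodule ℝ (ι → ℝ)) (c : ℝ)
    (hc : 0 < c) (hlow : ∀ j, v j ∉ H → c ≤ NH H A B (v j)) (j₀ : Λ) (hj₀ : v j₀ ∉ H)
    (hj₀' : NH H A B (v j₀) < 5 / 2) :
    ∃ g, v g ∉ H ∧ NH H A B (v g) < 5 / 2 ∧
      ∀ j, v j ∉ H → NH H A B (v g) ≤ 1.1 * NH H A B (v j) := by
  obtain ⟨g, hg, hmin⟩ := exists_near G v H {j | v j ∉ H ∧ NH H A B (v j) < 5 / 2}
    ⟨j₀, hj₀, hj₀'⟩ c hc fun j hj => hlow j hj.1
  refine ⟨g, hg.1, hg.2, fun j hj => ?_⟩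
  by_cases h : NH H A B (v j) < 5 / 2
  · exact hmin j ⟨hj, h⟩
  · have h1 := hg.2
    push Not at h
    linarith

/-- (d) generators of the narrow part -/
theorem generators (G : GF ι A B) (v : Λ →+ (ι → ℝ)) (H : Submodule ℝ (ι → ℝ)) (c : ℝ)
    (hc : 0 < c) (hlow : ∀ j, v j ∉ H → c ≤ NH H A B (v j)) (hD : Dim2 v H) :
    ∃ g : Fin 2 → Λ, (∀ i, NH H A B (v (g i)) < 5) ∧
      ∀ j, v j ∈ VN A B v H → ∃ m : Fin 2 → ℤ, v (j - m 0 • g 0 - m 1 • g 1) ∈ H := by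
  by_cases h0 : ∀ j, NH H A B (v j) < 5 / 2 → v j ∈ H
  · refine ⟨fun _ => 0, fun i => ?_, fun j hj => ⟨fun _ => 0, ?_⟩⟩
    · rw [map_zero, (G.zero H 0).2 (Submodule.zero_mem _)]
      norm_num
    · simpa using VN_le le_rfl h0 hj
  push Not at h0
  obtain ⟨j₀, hj₀', hj₀⟩ := h0
  obtain ⟨g, hg, hg2, hmin⟩ := exists_narrow G v H c hc hlow j₀ hj₀ hj₀'
  set H' := H ⊔ Submodule.span ℝ {v g} with hH'
  by_cases h1 : ∀ j, NH H A B (v j) < 5 / 2 → v j ∈ H'
  · refine ⟨fun i => if i = 0 then g else 0, fun i => ?_, fun j hj => ?_⟩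
    · by_cases hi : i = 0
      · simp only [hi, if_true]
        linarith
      · simp only [hi, if_false]
        rw [map_zero, (G.zero H 0).2 (Submodule.zero_mem _)]
        norm_num
    · obtain ⟨m, hm⟩ := near_int G v H g hg hmin j (VN_le le_sup_left h1 hj)
      exact ⟨fun _ => m, by simpa using hm⟩
  push Not at h1
  obtain ⟨j₁, hj₁', hj₁⟩ := h1
  have hlow' : ∀ j, v j ∉ H' → 0.4 * NH H A B (v g) ≤ NH H' A B (v j) :=
    fun j hj => near_low G v H g hmin j hj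
  have hpos := G.pos H _ hg
  obtain ⟨g', hg', hmin'⟩ := exists_near G v H' {j | v j ∉ H'} ⟨j₁, hj₁⟩
    (0.4 * NH H A B (v g)) (by positivity) hlow'
  have h2 : NH H' A B (v g') < 3 := by
    have := hmin' j₁ hj₁
    have h3 := G.mono H H' (v j₁) le_sup_left
    linarith
  obtain ⟨s, hs⟩ : ∃ s : ℝ, NH H A B (v g' + s • v g) < 3 := by
    by_contra hcon
    push Not at hcon
    have := G.adj H (v g) (v g') 3 hcon
    linarith
  set r : ℤ := round s with hr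
  set g₂ : Λ := g' + r • g with hg₂
  have h4 : NH H A B (v g₂) < 5 := by
    have e1 : v g₂ = (v g' + s • v g) + (-(s - (r : ℤ))) • v g := by
      rw [hg₂, map_add, map_zsmul, neg_smul, sub_smul, Int.cast_smul_eq_zsmul]
      abel
    rw [e1]
    have h5 := G.tri H (v g' + s • v g) ((-(s - (r : ℤ))) • v g)
    rw [G.smul, abs_neg] at h5
    have h6 := abs_sub_round' s
    rw [← hr] at h6
    nlinarith
  refine ⟨fun i => if i = 0 then g else g₂, fun i => ?_, fun j _ => ?_⟩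
  · by_cases hi : i = 0
    · simp only [hi, if_true]
      linarith
    · simp only [hi, if_false]
      exact h4
  · have hj : v j ∈ H' ⊔ Submodule.span ℝ {v g'} := hD g g' j hg hg'
    obtain ⟨m₁, hm₁⟩ := near_int G v H' g' hg' hmin' j hj
    obtain ⟨m₀, hm₀⟩ := near_int G v H g hg hmin _ hm₁
    refine ⟨fun i => if i = 0 then m₀ - m₁ * r else m₁, ?_⟩
    have e2 : j - (m₀ - m₁ * r) • g - m₁ • g₂ = j - m₁ • g' - m₀ • g := by
      rw [hg₂, smul_add, sub_smul, mul_smul]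
      abel
    simpa [e2] using hm₀

/-- (f) functionals -/
theorem functionals (G : GF ι A B) (hA : 0 < A) (hB : 0 < B) (v : Λ →+ (ι → ℝ))
    (H : Submodule ℝ (ι → ℝ)) (c : ℝ)
    (hc : 0 < c) (hlow : ∀ j, v j ∉ H → c ≤ NH H A B (v j)) (hD : Dim2 v H) (ℓ : Λ →+ ℝ)
    (hℓ : ∀ j, v j ∈ VN A B v H → ∃ m : ℤ, ℓ j = m) :
    ∃ w : ι → ℝ, (∀ h ∈ H, ∑ e, w e * h e = 0) ∧ (∀ e, |w e| ≤ A) ∧ ∑ e, |w e| ≤ B ∧
      ∀ j, ∃ m : ℤ, ∑ e, w e * v j e = ℓ j + m := by
  -- the case when everything is narrow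
  have htriv : (∀ j, v j ∈ VN A B v H) → ∃ w : ι → ℝ, (∀ h ∈ H, ∑ e, w e * h e = 0) ∧
      (∀ e, |w e| ≤ A) ∧ ∑ e, |w e| ≤ B ∧ ∀ j, ∃ m : ℤ, ∑ e, w e * v j e = ℓ j + m := by
    intro h
    refine ⟨fun _ => 0, by simp, by simp [hA.le], by simp [hB.le], fun j => ?_⟩
    obtain ⟨m, hm⟩ := hℓ j (h j)
    exact ⟨-m, by simp [hm]⟩
  by_cases h0 : ∀ j, NH H A B (v j) < 5 / 2 → v j ∈ H
  · by_cases hall : ∀ j, v j ∈ H
    · exact htriv fun j => le_VN (hall j)
    push Not at hall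
    have hlow1 : ∀ j, v j ∉ H → 5 / 2 ≤ NH H A B (v j) := by
      intro j hj
      by_contra hcon
      push Not at hcon
      exact hj (h0 j hcon)
    obtain ⟨g, hg, hmin, w, hw1, hw2, hw3, hw4⟩ := hb_step G v H (5 / 2) (by norm_num) hlow1 ℓ
      (fun j hj => hℓ j (le_VN hj)) hall
    set H' := H ⊔ Submodule.span ℝ {v g} with hH'
    by_cases hall' : ∀ j, v j ∈ H'
    · refine ⟨w, hw1, fun e => (hw2 e).trans ?_, hw3.trans ?_, fun j => hw4 j (hall' j)⟩
      · nlinarith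
      · nlinarith
    push Not at hall'
    have hlow2 : ∀ j, v j ∉ H' → 1 ≤ NH H' A B (v j) := by
      intro j hj
      have h1 := near_low G v H g hmin j hj
      have h2 := hlow1 g hg
      linarith
    -- the corrected functional
    let ev : Λ →+ ℝ :=
      { toFun := fun j => ∑ e, w e * v j e
        map_zero' := by simp
        map_add' := fun x y => by
          rw [← Finset.sum_add_distrib]
          refine Finset.sum_congr rfl fun e _ => ?_
          rw [map_add, Pi.add_apply]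
          ring }
    obtain ⟨g', hg', hmin', w', hw1', hw2', hw3', hw4'⟩ := hb_step G v H' 1 (by norm_num) hlow2
      (ℓ - ev) (fun j hj => by
        obtain ⟨m, hm⟩ := hw4 j hj
        refine ⟨-m, ?_⟩
        have : (ℓ - ev) j = ℓ j - ∑ e, w e * v j e := rfl
        rw [this, hm]
        push_cast
        ring) hall'
    refine ⟨fun e => w e + w' e, fun h hh => ?_, fun e => ?_, ?_, fun j => ?_⟩
    · have h1 := hw1 h hh
      have h2 := hw1' h (Submodule.mem_sup_left hh)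
      have : ∑ e, (w e + w' e) * h e = ∑ e, w e * h e + ∑ e, w' e * h e := by
        rw [← Finset.sum_add_distrib]
        exact Finset.sum_congr rfl fun e _ => by ring
      rw [this, h1, h2, add_zero]
    · have h1 := hw2 e
      have h2 := hw2' e
      have h3 := abs_add_le (w e) (w' e)
      nlinarith
    · have h3 : ∑ e, |w e + w' e| ≤ ∑ e, |w e| + ∑ e, |w' e| := by
        rw [← Finset.sum_add_distrib]
        exact Finset.sum_le_sum fun e _ => abs_add_le _ _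
      nlinarith
    · have hj : v j ∈ H' ⊔ Submodule.span ℝ {v g'} := hD g g' j hg hg'
      obtain ⟨m, hm⟩ := hw4' j hj
      refine ⟨m, ?_⟩
      have e1 : (ℓ - ev) j = ℓ j - ∑ e, w e * v j e := rfl
      rw [e1] at hm
      have : ∑ e, (w e + w' e) * v j e = ∑ e, w e * v j e + ∑ e, w' e * v j e := by
        rw [← Finset.sum_add_distrib]
        exact Finset.sum_congr rfl fun e _ => by ring
      rw [this, hm]
      ring
  push Not at h0
  obtain ⟨j₀, hj₀', hj₀⟩ := h0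
  obtain ⟨g, hg, hg2, hmin⟩ := exists_narrow G v H c hc hlow j₀ hj₀ hj₀'
  set H' := H ⊔ Submodule.span ℝ {v g} with hH'
  have hH'V : H' ≤ VN A B v H := by
    refine sup_le le_VN (Submodule.span_le.2 ?_)
    rintro _ rfl
    exact mem_VN hg2
  by_cases h1 : ∀ j, NH H A B (v j) < 5 / 2 → v j ∈ H'
  · by_cases hall : ∀ j, v j ∈ H'
    · exact htriv fun j => hH'V (hall j)
    push Not at hall
    have hlow2 : ∀ j, v j ∉ H' → 5 / 4 ≤ NH H' A B (v j) := by
      intro j hj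
      refine G.adj _ _ _ _ fun s => ?_
      have e2 : v j + s • v g = v (j + round s • g) + (s - (round s : ℤ)) • v g := by
        rw [map_add, map_zsmul, sub_smul]
        have : ((round s : ℤ) : ℝ) • v g = (round s) • v g := by
          rw [Int.cast_smul_eq_zsmul]
        rw [this]
        abel
      have h3 : v (j + round s • g) ∉ H' := by
        intro h
        apply hj
        rw [map_add, map_zsmul] at h
        have h4 : (round s) • v g ∈ H' := by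
          rw [← Int.cast_smul_eq_zsmul ℝ]
          exact Submodule.smul_mem _ _ (Submodule.mem_sup_right
            (Submodule.mem_span_singleton_self _))
        have h5 := Submodule.sub_mem _ h h4
        simpa using h5
      have h4 : 5 / 2 ≤ NH H A B (v (j + round s • g)) := by
        by_contra hcon
        push Not at hcon
        exact h3 (h1 _ hcon)
      have h5 := G.le_add H (v (j + round s • g)) ((s - (round s : ℤ)) • v g)
      rw [G.smul] at h5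
      rw [e2]
      have h6 := abs_sub_round' s
      have h7 := G.nn H (v g)
      nlinarith [abs_nonneg (s - (round s : ℤ))]
    obtain ⟨g', hg', hmin', w, hw1, hw2, hw3, hw4⟩ := hb_step G v H' (5 / 4) (by norm_num) hlow2 ℓ
      (fun j hj => hℓ j (hH'V hj)) hall
    refine ⟨w, fun h hh => hw1 h (Submodule.mem_sup_left hh), fun e => (hw2 e).trans ?_,
      hw3.trans ?_, fun j => hw4 j (hD g g' j hg hg')⟩
    · nlinarith
    · nlinarith
  · push Not at h1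
    obtain ⟨j₁, hj₁', hj₁⟩ := h1
    refine htriv fun j => ?_
    have h2 : v j ∈ H' ⊔ Submodule.span ℝ {v j₁} := hD g j₁ j hg hj₁
    refine (sup_le hH'V (Submodule.span_le.2 ?_)) h2
    rintro _ rfl
    exact mem_VN hj₁'

end

end StA

end Pool.Agent.Lib.MP_185394_co.Up
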